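import Mathlib

/-!
ANALYTIC INVERSE FUNCTION THEOREM (germ form).  E is finite dimensional, so fderiv ℂ Ψ a injective is bijective, a
continuous linear equivalence.  Analytic functions are strictly differentiable (AnalyticAt.hasStrictFDerivAt), so
HasStrictFDerivAt.toOpenPartialHomeomorph gives a local inverse; it is analytic: ContDiffAt.to_localInverse with n = ω and
contDiffAt_omega_iff_analyticAt, or OpenPartialHomeomorph.analyticAt_symm.
inv_inj: a map with an analytic (differentiable) left inverse germ has injective derivative (chain rule).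
-/

open scoped Topology
open Filter

noncomputable section

namespace Pool.Agent.Lib.MP_d4bba2_ag

theorem analytic_inverse {E : Type*} [NormedAddCommGroup E] [NormedSpace ℂ E]
    [FiniteDimensional ℂ E] {Ψ : E → E} {a : E} (h : AnalyticAt ℂ Ψ a)
    (hi : Function.Injective (fderiv ℂ Ψ a)) :
    ∃ Ψi : E → E, AnalyticAt ℂ Ψi (Ψ a) ∧ Ψi (Ψ a) = a ∧ (∀ᶠ z in 𝓝 a, Ψi (Ψ z) = z) ∧
      ∀ᶠ w in 𝓝 (Ψ a), Ψ (Ψi w) = w := by
  haveI : CompleteSpace E := FiniteDimensional.complete ℂ E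
  let e : E ≃L[ℂ] E :=
    (LinearEquiv.ofInjectiveEndo (fderiv ℂ Ψ a : E →ₗ[ℂ] E) hi).toContinuousLinearEquiv
  have he : (e : E →L[ℂ] E) = fderiv ℂ Ψ a := by
    ext x
    rfl
  have hs : HasStrictFDerivAt Ψ (e : E →L[ℂ] E) a := by
    rw [he]
    exact h.hasStrictFDerivAt
  refine ⟨(hs.toOpenPartialHomeomorph Ψ).symm, ?_, ?_, ?_, ?_⟩
  · exact (hs.toOpenPartialHomeomorph Ψ).analyticAt_symm' (i := e)
      hs.mem_toOpenPartialHomeomorph_source h he.symm
  · exact hs.localInverse_apply_image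
  · exact hs.eventually_left_inverse
  · exact hs.eventually_right_inverse

theorem injective_of_left_inverse {E E' : Type*} [NormedAddCommGroup E] [NormedSpace ℂ E]
    [NormedAddCommGroup E'] [NormedSpace ℂ E'] {Ψ : E → E'} {Ψi : E' → E} {a : E}
    (h : DifferentiableAt ℂ Ψ a) (h' : DifferentiableAt ℂ Ψi (Ψ a))
    (hi : ∀ᶠ z in 𝓝 a, Ψi (Ψ z) = z) : Function.Injective (fderiv ℂ Ψ a) := by
  have h1 : fderiv ℂ (Ψi ∘ Ψ) a = (fderiv ℂ Ψi (Ψ a)).comp (fderiv ℂ Ψ a) :=
    fderiv_comp a h' h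
  have h2 : fderiv ℂ (Ψi ∘ Ψ) a = ContinuousLinearMap.id ℂ E := by
    have h3 : (Ψi ∘ Ψ) =ᶠ[𝓝 a] id := hi
    rw [h3.fderiv_eq, fderiv_id]
  intro x y hxy
  have h4 := congrArg (fun f : E →L[ℂ] E => f x) (h1.symm.trans h2)
  have h5 := congrArg (fun f : E →L[ℂ] E => f y) (h1.symm.trans h2)
  simp only [ContinuousLinearMap.comp_apply, ContinuousLinearMap.id_apply] at h4 h5
  rw [← h4, ← h5, hxy]

end Pool.Agent.Lib.MP_d4bba2_ag
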