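import Pool.Agent.Lib.MP_d4bba2_ag.Core
import Pool.Agent.Lib.MP_d4bba2_ag.InvFun

/-!
ADAPTED COORDINATES (x, ξ, t) ON THE THREEFOLD at j q, extending the chart κ of the surface.

adapted_exists.  Let p = j q, Φ p = (β 0, 0) = (0,0), χ = chartAt p of X (with values in ℂ × ℂ × ℂ), c = κ q.
J = χ ∘ j ∘ κ.symm : ℂ × ℂ → ℂ × ℂ × ℂ, analytic at c (contMDiffOn_symm_of_mem_maximalAtlas, j_holo on the open set
G.f ⁻¹' ball 0 ε, contMDiffAt of the chart), with injective derivative at c (the derivatives of κ.symm and χ are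
invertible, j_immersion).  τ0 z = (Φ (χ.symm z)).2 is analytic at χ p with derivative ≠ 0 (submersion), and τ0 (J u) = 0 for
u near c (Φ_j).  Choose v1 with fderiv τ0 (χ p) v1 ≠ 0.
Ψ (x,ξ,τ) = J (x,ξ) + τ • v1 : derivative at (c,0) is (a,b,s) ↦ dJ (a,b) + s • v1; injective: apply d τ0 (d τ0 ∘ dJ = 0) to
get s = 0, then dJ (a,b) = 0.
N (x,ξ,τ) = (x, ξ, τ0 (Ψ (x,ξ,τ))): derivative at (c,0) is (a,b,s) ↦ (a, b, s * dτ0 v1): injective; N (x,ξ,0) = (x,ξ,0)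
for (x,ξ) near c.
analytic_inverse for Ψ and N: Λ = χ.symm ∘ Ψ ∘ Ni, Λ' = N ∘ Ψi ∘ χ.
t: (Φ (Λ z)).2 = τ0 (Ψ (Ni z)) = last component of N (Ni z) = z.2.2.
base: Ni (x,ξ,0) = (x,ξ,0) (Ni (N w) = w with w = (x,ξ,0)), so Λ (x,ξ,0) = χ.symm (J (x,ξ)) = j (κ.symm (x,ξ)).
left, right: compositions of the germ inverses.
-/

open scoped Manifold ContDiff Topology
open Filter

noncomputable section

universe u

namespace Pool.Agent.Lib.MP_d4bba2_ag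

/-- `Λ` is a germ of a coordinate system of the threefold at `j q` extending the chart `κ` -/
structure Adapted {G : FibreGerm} (F : SplittingFamily.{u} G) (q : G.S)
    (κ : OpenPartialHomeomorph G.S (ℂ × ℂ)) (Λ : ℂ × ℂ × ℂ → F.X) (Λ' : F.X → ℂ × ℂ × ℂ) :
    Prop where
  an : ContMDiffAt 𝓘(ℂ, ℂ × ℂ × ℂ) 𝓘(ℂ, ℂ × ℂ × ℂ) ω Λ ((κ q).1, (κ q).2, 0)
  an' : ContMDiffAt 𝓘(ℂ, ℂ × ℂ × ℂ) 𝓘(ℂ, ℂ × ℂ × ℂ) ω Λ' (F.j q)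
  pt : Λ ((κ q).1, (κ q).2, 0) = F.j q
  pt' : Λ' (F.j q) = ((κ q).1, (κ q).2, 0)
  left : ∀ᶠ z : ℂ × ℂ × ℂ in 𝓝 ((κ q).1, (κ q).2, 0), Λ' (Λ z) = z
  right : ∀ᶠ w in 𝓝 (F.j q), Λ (Λ' w) = w
  t : ∀ᶠ z : ℂ × ℂ × ℂ in 𝓝 ((κ q).1, (κ q).2, 0), (F.Φ (Λ z)).2 = z.2.2
  base : ∀ᶠ p : ℂ × ℂ in 𝓝 (κ q), Λ (p.1, p.2, 0) = F.j (κ.symm p)

private theorem ad_inj {E E' : Type} [NormedAddCommGroup E] [NormedSpace ℂ E]
    [NormedAddCommGroup E'] [NormedSpace ℂ E'] {M M' : Type*} [TopologicalSpace M]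
    [ChartedSpace E M] [TopologicalSpace M'] [ChartedSpace E' M'] {f : M → M'} {g : M' → M} {x : M}
    (hf : MDifferentiableAt 𝓘(ℂ, E) 𝓘(ℂ, E') f x)
    (hg : MDifferentiableAt 𝓘(ℂ, E') 𝓘(ℂ, E) g (f x)) (h : ∀ᶠ y in 𝓝 x, g (f y) = y) :
    Function.Injective (mfderiv 𝓘(ℂ, E) 𝓘(ℂ, E') f x) := by
  have h1 := HasMFDerivAt.comp x hg.hasMFDerivAt hf.hasMFDerivAt
  have h2 : HasMFDerivAt 𝓘(ℂ, E) 𝓘(ℂ, E) (id : M → M) x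
      (ContinuousLinearMap.id ℂ (TangentSpace 𝓘(ℂ, E) x)) := hasMFDerivAt_id x
  have h3 := h2.congr_of_eventuallyEq (show g ∘ f =ᶠ[𝓝 x] id from h)
  have h4 := hasMFDerivAt_unique h1 h3
  have h5 : ∀ v : TangentSpace 𝓘(ℂ, E) x, (mfderiv 𝓘(ℂ, E') 𝓘(ℂ, E) g (f x))
      ((mfderiv 𝓘(ℂ, E) 𝓘(ℂ, E') f x) v) = v := by
    intro v
    exact DFunLike.congr_fun h4 v
  intro u v huv
  have h6 := h5 u
  rw [huv] at h6
  exact h6.symm.trans (h5 v)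

theorem adapted_exists {G : FibreGerm} (F : SplittingFamily.{u} G) {q : G.S} (hq : G.f q = 0)
    {κ : OpenPartialHomeomorph G.S (ℂ × ℂ)}
    (hκ : κ ∈ IsManifold.maximalAtlas 𝓘(ℂ, ℂ × ℂ) ω G.S) (hqs : q ∈ κ.source) :
    ∃ Λ Λ', Adapted F q κ Λ Λ' := by
  set c : ℂ × ℂ := κ q with hc
  have hct : c ∈ κ.target := κ.map_source hqs
  have hcq : κ.symm c = q := κ.left_inv hqs
  set O : Set G.S := G.f ⁻¹' Metric.ball 0 F.ε with hO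
  have hOo : IsOpen O := Metric.isOpen_ball.preimage G.holo.continuous
  have hqO : q ∈ O := by
    show G.f q ∈ Metric.ball 0 F.ε
    rw [hq]
    exact Metric.mem_ball_self F.ε_pos
  set p : F.X := F.j q with hp
  set χ := chartAt (ℂ × ℂ × ℂ) p with hχ
  have hχm : χ ∈ IsManifold.maximalAtlas 𝓘(ℂ, ℂ × ℂ × ℂ) ω F.X :=
    IsManifold.chart_mem_maximalAtlas p
  have hps : p ∈ χ.source := mem_chart_source _ p
  have hpt : χ p ∈ χ.target := χ.map_source hps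
  have hpp : χ.symm (χ p) = p := χ.left_inv hps
  -- regularity of the pieces
  have r1 : ContMDiffAt 𝓘(ℂ, ℂ × ℂ) 𝓘(ℂ, ℂ × ℂ) ω κ.symm c :=
    contMDiffAt_symm_of_mem_maximalAtlas hκ hct
  have r1' : ContMDiffAt 𝓘(ℂ, ℂ × ℂ) 𝓘(ℂ, ℂ × ℂ) ω κ q :=
    contMDiffAt_of_mem_maximalAtlas hκ hqs
  have r2 : ContMDiffAt 𝓘(ℂ, ℂ × ℂ) 𝓘(ℂ, ℂ × ℂ × ℂ) ω F.j q :=
    F.j_holo.contMDiffAt (hOo.mem_nhds hqO)
  have r3 : ContMDiffAt 𝓘(ℂ, ℂ × ℂ × ℂ) 𝓘(ℂ, ℂ × ℂ × ℂ) ω χ p :=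
    contMDiffAt_of_mem_maximalAtlas hχm hps
  have r4 : ContMDiffAt 𝓘(ℂ, ℂ × ℂ × ℂ) 𝓘(ℂ, ℂ × ℂ × ℂ) ω χ.symm (χ p) :=
    contMDiffAt_symm_of_mem_maximalAtlas hχm hpt
  -- the map `J`
  let J : ℂ × ℂ → ℂ × ℂ × ℂ := fun u => χ (F.j (κ.symm u))
  have hJc : J c = χ p := by
    show χ (F.j (κ.symm c)) = χ p
    rw [hcq]
  have rj : ContMDiffAt 𝓘(ℂ, ℂ × ℂ) 𝓘(ℂ, ℂ × ℂ × ℂ) ω (F.j ∘ κ.symm) c :=
    ContMDiffAt.comp c (by rw [hcq]; exact r2) r1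
  have rJ : ContMDiffAt 𝓘(ℂ, ℂ × ℂ) 𝓘(ℂ, ℂ × ℂ × ℂ) ω J c :=
    ContMDiffAt.comp (g := χ) (f := F.j ∘ κ.symm) c
      (by rw [Function.comp_apply, hcq]; exact r3) rj
  have aJ : AnalyticAt ℂ J c :=
    (contMDiffAt_iff_contDiffAt.1 rJ).analyticAt
  have hω : (ω : WithTop ℕ∞) ≠ 0 := by simp
  have d1 : MDifferentiableAt 𝓘(ℂ, ℂ × ℂ) 𝓘(ℂ, ℂ × ℂ) κ.symm c := r1.mdifferentiableAt hω
  have d1' : MDifferentiableAt 𝓘(ℂ, ℂ × ℂ) 𝓘(ℂ, ℂ × ℂ) κ q := r1'.mdifferentiableAt hω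
  have d2 : MDifferentiableAt 𝓘(ℂ, ℂ × ℂ) 𝓘(ℂ, ℂ × ℂ × ℂ) F.j q := r2.mdifferentiableAt hω
  have d3 : MDifferentiableAt 𝓘(ℂ, ℂ × ℂ × ℂ) 𝓘(ℂ, ℂ × ℂ × ℂ) χ p := r3.mdifferentiableAt hω
  have d4 : MDifferentiableAt 𝓘(ℂ, ℂ × ℂ × ℂ) 𝓘(ℂ, ℂ × ℂ × ℂ) χ.symm (χ p) :=
    r4.mdifferentiableAt hω
  -- injectivity of the derivative of `J`
  have i1 : Function.Injective (mfderiv 𝓘(ℂ, ℂ × ℂ) 𝓘(ℂ, ℂ × ℂ) κ.symm c) := by
    refine ad_inj (g := κ) d1 (by rw [hcq]; exact d1') ?_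
    filter_upwards [κ.open_target.mem_nhds hct] with u hu
    exact κ.right_inv hu
  have i3 : Function.Injective (mfderiv 𝓘(ℂ, ℂ × ℂ × ℂ) 𝓘(ℂ, ℂ × ℂ × ℂ) χ p) := by
    refine ad_inj (g := χ.symm) d3 d4 ?_
    filter_upwards [χ.open_source.mem_nhds hps] with u hu
    exact χ.left_inv hu
  have i2 : Function.Injective (mfderiv 𝓘(ℂ, ℂ × ℂ) 𝓘(ℂ, ℂ × ℂ × ℂ) F.j q) := F.j_immersion q hqO
  have hJinj : Function.Injective (fderiv ℂ J c) := by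
    have e1 : HasMFDerivAt 𝓘(ℂ, ℂ × ℂ) 𝓘(ℂ, ℂ × ℂ × ℂ) (F.j ∘ κ.symm) c
        ((mfderiv 𝓘(ℂ, ℂ × ℂ) 𝓘(ℂ, ℂ × ℂ × ℂ) F.j q).comp
          (mfderiv 𝓘(ℂ, ℂ × ℂ) 𝓘(ℂ, ℂ × ℂ) κ.symm c)) := by
      refine HasMFDerivAt.comp c ?_ d1.hasMFDerivAt
      rw [hcq]
      exact d2.hasMFDerivAt
    have e2 : HasMFDerivAt 𝓘(ℂ, ℂ × ℂ) 𝓘(ℂ, ℂ × ℂ × ℂ) J c
        ((mfderiv 𝓘(ℂ, ℂ × ℂ × ℂ) 𝓘(ℂ, ℂ × ℂ × ℂ) χ p).comp
          ((mfderiv 𝓘(ℂ, ℂ × ℂ) 𝓘(ℂ, ℂ × ℂ × ℂ) F.j q).comp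
          (mfderiv 𝓘(ℂ, ℂ × ℂ) 𝓘(ℂ, ℂ × ℂ) κ.symm c))) := by
      refine HasMFDerivAt.comp (g := χ) (f := F.j ∘ κ.symm) c ?_ e1
      rw [Function.comp_apply, hcq]
      exact d3.hasMFDerivAt
    have e3 := e2.mfderiv
    rw [mfderiv_eq_fderiv] at e3
    rw [e3]
    intro u v huv
    exact i1 (i2 (i3 huv))
  -- the map `τ0`
  let τ0 : ℂ × ℂ × ℂ → ℂ := fun z => (F.Φ (χ.symm z)).2
  have rτ : ContMDiff 𝓘(ℂ, ℂ × ℂ × ℂ) 𝓘(ℂ, ℂ) ω (fun z => (F.Φ z).2) :=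
    (contDiff_snd.contMDiff).comp F.holo
  have rτ0 : ContMDiffAt 𝓘(ℂ, ℂ × ℂ × ℂ) 𝓘(ℂ, ℂ) ω τ0 (χ p) :=
    ContMDiffAt.comp (g := fun z => (F.Φ z).2) (f := χ.symm) (χ p) rτ.contMDiffAt r4
  have aτ0 : AnalyticAt ℂ τ0 (χ p) :=
    (contMDiffAt_iff_contDiffAt.1 rτ0).analyticAt
  have hτne : fderiv ℂ τ0 (χ p) ≠ 0 := by
    intro h0
    have e1 : HasMFDerivAt 𝓘(ℂ, ℂ × ℂ × ℂ) 𝓘(ℂ, ℂ) (τ0 ∘ χ) p
        ((fderiv ℂ τ0 (χ p)).comp (mfderiv 𝓘(ℂ, ℂ × ℂ × ℂ) 𝓘(ℂ, ℂ × ℂ × ℂ) χ p)) := by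
      refine HasMFDerivAt.comp p ?_ d3.hasMFDerivAt
      have := (rτ0.mdifferentiableAt hω).hasMFDerivAt
      rw [mfderiv_eq_fderiv] at this
      exact this
    have e2 : (fun z => (F.Φ z).2) =ᶠ[𝓝 p] τ0 ∘ χ := by
      filter_upwards [χ.open_source.mem_nhds hps] with u hu
      show (F.Φ u).2 = (F.Φ (χ.symm (χ u))).2
      rw [χ.left_inv hu]
    have e3 := (e1.congr_of_eventuallyEq e2).mfderiv
    rw [h0] at e3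
    refine F.submersion p (dZero_iff.2 ?_)
    rw [e3]
    exact ContinuousLinearMap.zero_comp _
  have hjs : ∀ᶠ u in 𝓝 c, κ.symm u ∈ O ∧ F.j (κ.symm u) ∈ χ.source := by
    have c1 : ContinuousAt κ.symm c := r1.continuousAt
    have c2 : ContinuousAt (F.j ∘ κ.symm) c := rj.continuousAt
    have k1 : ∀ᶠ u in 𝓝 c, κ.symm u ∈ O := c1.eventually (by rw [hcq]; exact hOo.mem_nhds hqO)
    have k2 : ∀ᶠ u in 𝓝 c, (F.j ∘ κ.symm) u ∈ χ.source :=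
      c2.eventually (by rw [Function.comp_apply, hcq]; exact χ.open_source.mem_nhds hps)
    exact k1.and k2
  have hτJ : ∀ᶠ u in 𝓝 c, τ0 (J u) = 0 := by
    filter_upwards [hjs] with u hu
    show (F.Φ (χ.symm (χ (F.j (κ.symm u))))).2 = 0
    rw [χ.left_inv hu.2, F.Φ_j _ hu.1]
  have hτJ' : ∀ v, fderiv ℂ τ0 (χ p) (fderiv ℂ J c v) = 0 := by
    intro v
    have e1 : HasFDerivAt (τ0 ∘ J) ((fderiv ℂ τ0 (χ p)).comp (fderiv ℂ J c)) c := by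
      refine HasFDerivAt.comp c ?_ aJ.differentiableAt.hasFDerivAt
      rw [hJc]
      exact aτ0.differentiableAt.hasFDerivAt
    have e2 : HasFDerivAt (τ0 ∘ J) (0 : ℂ × ℂ →L[ℂ] ℂ) c :=
      (hasFDerivAt_const (0 : ℂ) c).congr_of_eventuallyEq hτJ
    exact DFunLike.congr_fun (e1.unique e2) v
  obtain ⟨v1, hv1⟩ : ∃ v1, fderiv ℂ τ0 (χ p) v1 ≠ 0 := by
    by_contra hcon
    push Not at hcon
    exact hτne (ContinuousLinearMap.ext hcon)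
  -- the maps `Ψ` and `N`
  set a0 : ℂ × ℂ × ℂ := (c.1, c.2, 0) with ha0
  let fst2 : ℂ × ℂ × ℂ →L[ℂ] ℂ × ℂ := (ContinuousLinearMap.fst ℂ ℂ (ℂ × ℂ)).prod
    ((ContinuousLinearMap.fst ℂ ℂ ℂ).comp (ContinuousLinearMap.snd ℂ ℂ (ℂ × ℂ)))
  let lst : ℂ × ℂ × ℂ →L[ℂ] ℂ :=
    (ContinuousLinearMap.snd ℂ ℂ ℂ).comp (ContinuousLinearMap.snd ℂ ℂ (ℂ × ℂ))
  have hf2 : ∀ z, fst2 z = (z.1, z.2.1) := fun z => rfl
  have hl2 : ∀ z, lst z = z.2.2 := fun z => rfl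
  have hfa : fst2 a0 = c := rfl
  let Ψ : ℂ × ℂ × ℂ → ℂ × ℂ × ℂ := fun z => J (fst2 z) + lst z • v1
  have hΨd : HasFDerivAt Ψ ((fderiv ℂ J c).comp fst2 + lst.smulRight v1) a0 := by
    refine HasFDerivAt.add ?_ (lst.smulRight v1).hasFDerivAt
    refine HasFDerivAt.comp (g := J) (f := fst2) a0 ?_ fst2.hasFDerivAt
    rw [hfa]
    exact aJ.differentiableAt.hasFDerivAt
  have aΨ : AnalyticAt ℂ Ψ a0 := by
    refine AnalyticAt.add ?_ ((lst.smulRight v1).analyticAt a0)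
    refine AnalyticAt.comp (g := J) (f := fst2) ?_ (fst2.analyticAt a0)
    rw [hfa]
    exact aJ
  have hΨa : Ψ a0 = χ p := by
    show J (fst2 a0) + lst a0 • v1 = χ p
    rw [hfa, hJc, hl2]
    simp [ha0]
  have hΨi : Function.Injective (fderiv ℂ Ψ a0) := by
    rw [hΨd.fderiv]
    rw [injective_iff_map_eq_zero]
    intro z hz
    have hz' : fderiv ℂ J c (fst2 z) + lst z • v1 = 0 := hz
    have h1 := congrArg (fderiv ℂ τ0 (χ p)) hz'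
    rw [map_add, hτJ', map_smul, map_zero, zero_add, smul_eq_mul] at h1
    have h2 : lst z = 0 := (mul_eq_zero.1 h1).resolve_right hv1
    rw [h2, zero_smul, add_zero] at hz'
    have h3 : fst2 z = 0 := hJinj (hz'.trans (map_zero _).symm)
    rw [hf2, Prod.mk_eq_zero] at h3
    rw [hl2] at h2
    exact Prod.ext h3.1 (Prod.ext h3.2 h2)
  let N : ℂ × ℂ × ℂ → ℂ × ℂ × ℂ := fun z => (z.1, z.2.1, τ0 (Ψ z))
  have hτa : τ0 (χ p) = 0 := by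
    have := hτJ.self_of_nhds
    rwa [hJc] at this
  have hNa : N a0 = a0 := by
    show (a0.1, a0.2.1, τ0 (Ψ a0)) = a0
    rw [hΨa, hτa]
  have aN : AnalyticAt ℂ N a0 := by
    refine AnalyticAt.prod analyticAt_fst (AnalyticAt.prod ?_ ?_)
    · exact (analyticAt_fst).comp analyticAt_snd
    · refine AnalyticAt.comp (g := τ0) (f := Ψ) ?_ aΨ
      rw [hΨa]
      exact aτ0
  have hNd : HasFDerivAt N ((ContinuousLinearMap.fst ℂ ℂ (ℂ × ℂ)).prod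
      (((ContinuousLinearMap.fst ℂ ℂ ℂ).comp (ContinuousLinearMap.snd ℂ ℂ (ℂ × ℂ))).prod
        ((fderiv ℂ τ0 (χ p)).comp ((fderiv ℂ J c).comp fst2 + lst.smulRight v1)))) a0 := by
    refine HasFDerivAt.prodMk hasFDerivAt_fst (HasFDerivAt.prodMk
      ((ContinuousLinearMap.fst ℂ ℂ ℂ).comp (ContinuousLinearMap.snd ℂ ℂ (ℂ × ℂ))).hasFDerivAt ?_)
    refine HasFDerivAt.comp (g := τ0) (f := Ψ) a0 ?_ hΨd
    rw [hΨa]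
    exact aτ0.differentiableAt.hasFDerivAt
  have hNi : Function.Injective (fderiv ℂ N a0) := by
    rw [hNd.fderiv]
    rw [injective_iff_map_eq_zero]
    intro z hz
    have h1 : z.1 = 0 := congrArg (fun w : ℂ × ℂ × ℂ => w.1) hz
    have h2 : z.2.1 = 0 := congrArg (fun w : ℂ × ℂ × ℂ => w.2.1) hz
    have h3 : fderiv ℂ τ0 (χ p) (fderiv ℂ J c (fst2 z) + lst z • v1) = 0 :=
      congrArg (fun w : ℂ × ℂ × ℂ => w.2.2) hz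
    rw [map_add, hτJ', map_smul, zero_add, smul_eq_mul] at h3
    have h4 : lst z = 0 := (mul_eq_zero.1 h3).resolve_right hv1
    exact Prod.ext h1 (Prod.ext h2 h4)
  obtain ⟨Ψi, aΨi, hΨi0, hΨil, hΨir⟩ := analytic_inverse aΨ hΨi
  obtain ⟨Ni, aNi, hNi0, hNil, hNir⟩ := analytic_inverse aN hNi
  rw [hΨa] at aΨi hΨi0 hΨir
  rw [hNa] at aNi hNi0 hNir
  -- tendsto facts
  have tNi : Tendsto Ni (𝓝 a0) (𝓝 a0) := by
    have := aNi.continuousAt.tendsto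
    rwa [hNi0] at this
  have tΨ : Tendsto Ψ (𝓝 a0) (𝓝 (χ p)) := by
    have := aΨ.continuousAt.tendsto
    rwa [hΨa] at this
  have tΨi : Tendsto Ψi (𝓝 (χ p)) (𝓝 a0) := by
    have := aΨi.continuousAt.tendsto
    rwa [hΨi0] at this
  have tχ : Tendsto χ (𝓝 p) (𝓝 (χ p)) := r3.continuousAt
  have hχt : ∀ᶠ w in 𝓝 (χ p), χ (χ.symm w) = w := by
    filter_upwards [χ.open_target.mem_nhds hpt] with w hw
    exact χ.right_inv hw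
  have hχs : ∀ᶠ w in 𝓝 p, χ.symm (χ w) = w := by
    filter_upwards [χ.open_source.mem_nhds hps] with w hw
    exact χ.left_inv hw
  refine ⟨fun z => χ.symm (Ψ (Ni z)), fun w => N (Ψi (χ w)), ?_, ?_, ?_, ?_, ?_, ?_, ?_, ?_⟩
  · -- an
    have b1 : ContMDiffAt 𝓘(ℂ, ℂ × ℂ × ℂ) 𝓘(ℂ, ℂ × ℂ × ℂ) ω (Ψ ∘ Ni) a0 := by
      refine ContDiffAt.contMDiffAt (AnalyticAt.contDiffAt ?_)
      refine AnalyticAt.comp ?_ aNi
      rw [hNi0]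
      exact aΨ
    refine ContMDiffAt.comp (g := χ.symm) (f := Ψ ∘ Ni) a0 ?_ b1
    rw [Function.comp_apply, hNi0, hΨa]
    exact r4
  · -- an'
    have b1 : ContMDiffAt 𝓘(ℂ, ℂ × ℂ × ℂ) 𝓘(ℂ, ℂ × ℂ × ℂ) ω (N ∘ Ψi) (χ p) := by
      refine ContDiffAt.contMDiffAt (AnalyticAt.contDiffAt ?_)
      refine AnalyticAt.comp ?_ aΨi
      rw [hΨi0]
      exact aN
    exact ContMDiffAt.comp (g := N ∘ Ψi) (f := χ) p b1 r3
  · -- pt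
    show χ.symm (Ψ (Ni a0)) = p
    rw [hNi0, hΨa, hpp]
  · -- pt'
    show N (Ψi (χ p)) = a0
    rw [hΨi0, hNa]
  · -- left
    have k1 : ∀ᶠ z in 𝓝 a0, χ (χ.symm (Ψ (Ni z))) = Ψ (Ni z) :=
      (tΨ.comp tNi).eventually hχt
    have k2 : ∀ᶠ z in 𝓝 a0, Ψi (Ψ (Ni z)) = Ni z := tNi.eventually hΨil
    filter_upwards [k1, k2, hNir] with z a1 a2 a3
    show N (Ψi (χ (χ.symm (Ψ (Ni z))))) = z
    rw [a1, a2, a3]
  · -- right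
    have k1 : ∀ᶠ w in 𝓝 p, Ni (N (Ψi (χ w))) = Ψi (χ w) := (tΨi.comp tχ).eventually hNil
    have k2 : ∀ᶠ w in 𝓝 p, Ψ (Ψi (χ w)) = χ w := tχ.eventually hΨir
    filter_upwards [k1, k2, hχs] with w a1 a2 a3
    show χ.symm (Ψ (Ni (N (Ψi (χ w))))) = w
    rw [a1, a2, a3]
  · -- t
    filter_upwards [hNir] with z a1
    show (N (Ni z)).2.2 = z.2.2
    rw [a1]
  · -- base
    have t0 : Tendsto (fun u : ℂ × ℂ => ((u.1, u.2, 0) : ℂ × ℂ × ℂ)) (𝓝 c) (𝓝 a0) := by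
      have : Continuous (fun u : ℂ × ℂ => ((u.1, u.2, 0) : ℂ × ℂ × ℂ)) := by fun_prop
      exact this.tendsto c
    filter_upwards [hjs, hτJ, t0.eventually hNil] with u a1 a2 a3
    have b1 : Ψ (u.1, u.2, 0) = J u := by
      show J (u.1, u.2) + (0 : ℂ) • v1 = J u
      rw [zero_smul, add_zero]
    have b2 : N (u.1, u.2, 0) = (u.1, u.2, 0) := by
      show (u.1, u.2, τ0 (Ψ (u.1, u.2, 0))) = _
      rw [b1, a2]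
    rw [b2] at a3
    show χ.symm (Ψ (Ni (u.1, u.2, 0))) = F.j (κ.symm u)
    rw [a3, b1]
    exact χ.left_inv a1.2

end Pool.Agent.Lib.MP_d4bba2_ag
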