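import Pool.Agent.Lib.MP_d4bba2_ag.FormBasic

/-!
IF ALL COEFFICIENTS ARE CONSTANT NEAR A REGULAR POINT.

Let ρ be the root (root_exists) and A (x,t) = F (x,ρ (x,t),t), analytic at (x0,0).  For every n, Form F x0 κ n B gives (the
root of the Form agrees with ρ near (x0,0) by root_unique) A = ∑_{i<n} κ i t^i + t^n B near (x0,0).
k t = A (x0,t): analytic at 0, k t - ∑_{i<n} κ i t^i = t^n B (x0,t) = O(t^n): HasCoeffs.
D (x,t) = A (x,t) - k t is analytic at (x0,0) and for every n D = t^n (B (x,t) - B (x0,t)) = O(‖(x,t) - (x0,0)‖^n).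
A function analytic at a point which is O(‖·‖^n) for every n vanishes near the point: on a ball where D is analytic,
take z in the ball (radius r) and the one variable function s ↦ D (c + s (z - c)), analytic for |s| < r/‖z-c‖ (> 1),
all its Taylor coefficients at s = 0 vanish (it is O(s^n) for all n), so it is zero near s = 0 and, by the identity
theorem on the ball, at s = 1.
Last statement: near (x0,0,0), D2 F z = 0 gives ξ = ρ (x,t) so F z = A (x,t) = k t.

coeffs_unique: k - k' = O(t^n) for all n, so k - k' vanishes near 0 (one variable, analyticOrderAt = ⊤).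
-/

open scoped Topology
open Filter

noncomputable section

namespace Pool.Agent.Lib.MP_d4bba2_ag

/-- an analytic germ which vanishes to all orders is zero -/
theorem flat_zero {E : Type*} [NormedAddCommGroup E] [NormedSpace ℂ E] {D : E → ℂ} {c : E}
    (hD : AnalyticAt ℂ D c) (h : ∀ n : ℕ, D =O[𝓝 c] (fun z => ‖z - c‖ ^ n)) :
    ∀ᶠ z in 𝓝 c, D z = 0 := by
  obtain ⟨p, hp⟩ := hD
  have ht : Tendsto (fun y : E => c + y) (𝓝 0) (𝓝 c) := by
    have h1 : ContinuousAt (fun y : E => c + y) 0 := by fun_prop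
    have h2 := h1.tendsto
    rwa [add_zero] at h2
  have key : ∀ (n : ℕ) (y : E), (p n fun _ => y) = 0 := by
    intro n
    induction n using Nat.strong_induction_on with
    | _ n ih =>
      have h1 := hp.isBigO_sub_partialSum_pow (n + 1)
      have h2 : (fun y => D (c + y)) =O[𝓝 0] fun y => ‖y‖ ^ (n + 1) := by
        have h3 := (h (n + 1)).comp_tendsto ht
        refine h3.congr (fun _ => rfl) (fun y => ?_)
        simp
      have h3 : (fun y => p.partialSum (n + 1) y) =O[𝓝 0] fun y => ‖y‖ ^ (n + 1) := by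
        refine (h2.sub h1).congr (fun y => ?_) (fun _ => rfl)
        ring
      have h4 : ∀ y, p.partialSum (n + 1) y = p n fun _ => y := by
        intro y
        rw [FormalMultilinearSeries.partialSum, Finset.sum_range_succ, Finset.sum_eq_zero, zero_add]
        intro k hk
        exact ih k (Finset.mem_range.1 hk) y
      simp only [h4] at h3
      exact h3.continuousMultilinearMap_apply_eq_zero
  have h5 := hp.eventually_hasSum_sub
  filter_upwards [h5] with z hz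
  simp only [key] at hz
  exact (hz.unique hasSum_zero)

theorem coeffs_unique {k k' : ℂ → ℂ} {κ : ℕ → ℂ} (h : HasCoeffs k κ) (h' : HasCoeffs k' κ) :
    ∀ᶠ t in 𝓝 (0 : ℂ), k t = k' t := by
  have h1 : AnalyticAt ℂ (fun t => k t - k' t) 0 := h.an.sub h'.an
  have h2 := flat_zero h1 (fun n => by
    have h3 := (h.approx n).sub (h'.approx n)
    refine (h3.norm_right).congr (fun t => ?_) (fun t => ?_)
    · ring
    · rw [sub_zero, norm_pow])
  filter_upwards [h2] with t ht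
  exact sub_eq_zero.1 ht

theorem all_forms {F : ℂ × ℂ × ℂ → ℂ} {x0 : ℂ} {e : ℂ → ℂ} (h : IsLoc F x0 e)
    (he : e x0 ≠ 0) {κ : ℕ → ℂ} (hf : ∀ n, ∃ B, Form F x0 κ n B) :
    ∃ k : ℂ → ℂ, HasCoeffs k κ ∧
      (∀ ρ, RootAt F x0 ρ → ∀ᶠ p : ℂ × ℂ in 𝓝 (x0, 0), F (p.1, ρ p, p.2) = k p.2) ∧
      ∀ᶠ z : ℂ × ℂ × ℂ in 𝓝 (x0, 0, 0), D2 F z = 0 → F z = k z.2.2 := by
  obtain ⟨ρ, hρ, hu⟩ := root_exists h he
  set A : ℂ × ℂ → ℂ := fun p => F (p.1, ρ p, p.2) with hA
  have hρ0 : ρ (x0, 0) = 0 := hρ.zero.self_of_nhds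
  have hAan : AnalyticAt ℂ A (x0, 0) := by
    have h1 : AnalyticAt ℂ (fun p : ℂ × ℂ => ((p.1, ρ p, p.2) : ℂ × ℂ × ℂ)) (x0, 0) :=
      analyticAt_fst.prod (hρ.an.prod analyticAt_snd)
    have h2 : AnalyticAt ℂ F ((fun p : ℂ × ℂ => ((p.1, ρ p, p.2) : ℂ × ℂ × ℂ)) (x0, 0)) := by
      simp only [hρ0]
      exact h.an
    exact AnalyticAt.comp (g := F) (f := fun p : ℂ × ℂ => ((p.1, ρ p, p.2) : ℂ × ℂ × ℂ)) h2 h1
  have hform : ∀ n, ∃ B : ℂ × ℂ → ℂ, AnalyticAt ℂ B (x0, 0) ∧ ∀ᶠ p : ℂ × ℂ in 𝓝 (x0, 0),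
      A p = ∑ i ∈ Finset.range n, κ i * p.2 ^ i + p.2 ^ n * B p := by
    intro n
    obtain ⟨B, hB⟩ := hf n
    obtain ⟨ρ', hρ', hex⟩ := hB.ex
    refine ⟨B, hB.an, ?_⟩
    filter_upwards [hex, root_unique h he hρ hρ'] with p h1 h2
    simp only [hA]
    rw [h2]
    exact h1
  have hc : Tendsto (fun t : ℂ => ((x0, t) : ℂ × ℂ)) (𝓝 0) (𝓝 (x0, 0)) := by
    have h1 : Continuous (fun t : ℂ => ((x0, t) : ℂ × ℂ)) := by fun_prop
    exact h1.tendsto 0
  set k : ℂ → ℂ := fun t => A (x0, t) with hk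
  have hcoef : HasCoeffs k κ := by
    refine ⟨?_, fun n => ?_⟩
    · have h1 : AnalyticAt ℂ (fun t : ℂ => ((x0, t) : ℂ × ℂ)) 0 :=
        analyticAt_const.prod analyticAt_id
      exact AnalyticAt.comp (g := A) (f := fun t : ℂ => ((x0, t) : ℂ × ℂ)) hAan h1
    · obtain ⟨B, hB, hex⟩ := hform n
      have h1 : ∀ᶠ t : ℂ in 𝓝 0,
          t ^ n * B (x0, t) = k t - ∑ i ∈ Finset.range n, κ i * t ^ i := by
        filter_upwards [hc.eventually hex] with t ht
        simp only [hk]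
        rw [ht]
        ring
      have h2 : (fun t : ℂ => B (x0, t)) =O[𝓝 0] (fun _ => (1 : ℂ)) :=
        (hB.continuousAt.tendsto.comp hc).isBigO_one ℂ
      have h3 := (Asymptotics.isBigO_refl (fun t : ℂ => t ^ n) (𝓝 0)).mul h2
      exact h3.congr' h1 (Eventually.of_forall fun t => by simp)
  have hD : ∀ᶠ p : ℂ × ℂ in 𝓝 (x0, 0), A p = k p.2 := by
    have hDan : AnalyticAt ℂ (fun p : ℂ × ℂ => A p - k p.2) (x0, 0) := by
      refine hAan.sub ?_
      exact AnalyticAt.comp (g := k) (f := fun p : ℂ × ℂ => p.2) (x := ((x0, 0) : ℂ × ℂ)) hcoef.an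
        analyticAt_snd
    have hc2 : Tendsto (fun p : ℂ × ℂ => ((x0, p.2) : ℂ × ℂ)) (𝓝 (x0, 0)) (𝓝 (x0, 0)) := by
      have h1 : Continuous (fun p : ℂ × ℂ => ((x0, p.2) : ℂ × ℂ)) := by fun_prop
      exact h1.tendsto (x0, 0)
    have h6 := flat_zero hDan (fun n => by
      obtain ⟨B, hB, hex⟩ := hform n
      have h1 : ∀ᶠ p : ℂ × ℂ in 𝓝 (x0, 0),
          p.2 ^ n * (B p - B (x0, p.2)) = A p - k p.2 := by
        filter_upwards [hex, hc2.eventually hex] with p h2 h3
        simp only [hk]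
        rw [h2, h3]
        ring
      have h2 : (fun p : ℂ × ℂ => B p - B (x0, p.2)) =O[𝓝 (x0, 0)] (fun _ => (1 : ℂ)) :=
        (hB.continuousAt.tendsto.isBigO_one ℂ).sub
          ((hB.continuousAt.tendsto.comp hc2).isBigO_one ℂ)
      have h3 : (fun p : ℂ × ℂ => p.2 ^ n) =O[𝓝 (x0, 0)]
          (fun p : ℂ × ℂ => ‖p - (x0, 0)‖ ^ n) := by
        refine Asymptotics.IsBigO.of_bound 1 (Eventually.of_forall fun p => ?_)
        rw [one_mul, norm_pow, norm_pow, norm_norm]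
        refine pow_le_pow_left₀ (norm_nonneg _) ?_ n
        have h4 := norm_snd_le (p - ((x0, 0) : ℂ × ℂ))
        simpa using h4
      have h4 := h3.mul (h2.norm_right)
      exact h4.congr' h1 (Eventually.of_forall fun t => by simp))
    filter_upwards [h6] with p hp
    exact sub_eq_zero.1 hp
  refine ⟨k, hcoef, ?_, ?_⟩
  · intro ρ' hρ'
    filter_upwards [hD, root_unique h he hρ hρ'] with p h1 h2
    rw [← h2]
    exact h1
  · have hc3 : Tendsto (fun z : ℂ × ℂ × ℂ => ((z.1, z.2.2) : ℂ × ℂ)) (𝓝 (x0, 0, 0))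
        (𝓝 (x0, 0)) := by
      have h1 : Continuous (fun z : ℂ × ℂ × ℂ => ((z.1, z.2.2) : ℂ × ℂ)) := by fun_prop
      exact h1.tendsto (x0, 0, 0)
    filter_upwards [hu, hc3.eventually hD] with z h1 h2 h3
    have h4 := h1 h3
    have h5 : F z = A (z.1, z.2.2) := by
      simp only [hA]
      rw [← h4]
    rw [h5]
    exact h2

end Pool.Agent.Lib.MP_d4bba2_ag
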