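import Pool.Agent.Lib.MP_d4bba2_ag.FamLocSys

/-!
PROPERNESS ARGUMENT.  Let k be from family_k, W the set of all w with (mfderiv Φ w not surjective → (Φ w).1 = β (k (Φ w).2)).
Every w with Φ w = (0,0) is j x with G.f x = 0 (j_surj with b = 0, β 0 = 0); W is a neighbourhood of w (family_k if x is
critical, smooth_near if not).  Let V = interior W, r > 0 with closedBall (0,0) r ⊆ U; Kc = Φ ⁻¹' closedBall is compact,
Kc \ V is compact, Φ (Kc \ V) is compact (Φ continuous), closed and does not contain (0,0).  So there is δ0 with: every w with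
‖Φ w‖ < δ0 lies in V ⊆ W.
at_most_one: two singular fibres over (b,t), (b',t) with norms < δ0 give b = β (k t) = b'.
atomic_of_core: a proper family has, for δ = δ0 and t ≠ 0 close to 0, two different such b, b'.
-/

open scoped Manifold ContDiff Topology
open Filter

noncomputable section

universe u

namespace Pool.Agent.Lib.MP_d4bba2_ag

private theorem aoc_nhds {G : FibreGerm} (F : SplittingFamily.{u} G) {k : ℂ → ℂ}
    (hk : ∀ q, G.Crit q → ∀ᶠ w in 𝓝 (F.j q),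
      ¬ Function.Surjective (mfderiv 𝓘(ℂ, ℂ × ℂ × ℂ) 𝓘(ℂ, ℂ × ℂ) F.Φ w) →
        (F.Φ w).1 = F.β (k (F.Φ w).2)) (w : F.X) (hw : F.Φ w = ((0 : ℂ), (0 : ℂ))) :
    ∀ᶠ w' in 𝓝 w, ¬ Function.Surjective (mfderiv 𝓘(ℂ, ℂ × ℂ × ℂ) 𝓘(ℂ, ℂ × ℂ) F.Φ w') →
        (F.Φ w').1 = F.β (k (F.Φ w').2) := by
  obtain ⟨x, hx0, hx1⟩ := F.j_surj w 0 (Metric.mem_ball_self F.ε_pos) (by rw [hw, F.β_zero])
  by_cases hc : G.Crit x
  · rw [← hx1]
    exact hk x hc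
  · have h := smooth_near F hx0 hc
    rw [← hx1]
    filter_upwards [h] with w' hw' h2
    exact absurd hw' h2

private theorem aoc_near {X : Type u} [TopologicalSpace X] {Φ : X → ℂ × ℂ} (hΦ : Continuous Φ)
    {U : Set (ℂ × ℂ)} (hU : IsOpen U) (h0 : ((0 : ℂ), (0 : ℂ)) ∈ U)
    (hp : ∀ K ⊆ U, IsCompact K → IsCompact (Φ ⁻¹' K)) {W : Set X}
    (hW : ∀ w, Φ w = ((0 : ℂ), (0 : ℂ)) → W ∈ 𝓝 w) :
    ∃ δ : ℝ, 0 < δ ∧ ∀ w, ‖Φ w‖ < δ → w ∈ W := by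
  obtain ⟨r, hr, hrU⟩ := Metric.nhds_basis_closedBall.mem_iff.1 (hU.mem_nhds h0)
  have hK : IsCompact (Φ ⁻¹' Metric.closedBall ((0 : ℂ), (0 : ℂ)) r) :=
    hp _ hrU (isCompact_closedBall _ _)
  have hKV : IsCompact (Φ ⁻¹' Metric.closedBall ((0 : ℂ), (0 : ℂ)) r \ interior W) :=
    hK.diff isOpen_interior
  have hcl : IsClosed (Φ '' (Φ ⁻¹' Metric.closedBall ((0 : ℂ), (0 : ℂ)) r \ interior W)) :=
    (hKV.image hΦ).isClosed
  have hn : ((0 : ℂ), (0 : ℂ)) ∉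
      Φ '' (Φ ⁻¹' Metric.closedBall ((0 : ℂ), (0 : ℂ)) r \ interior W) := by
    rintro ⟨w, hw, hw0⟩
    exact hw.2 (mem_interior_iff_mem_nhds.2 (hW w hw0))
  obtain ⟨d, hd, hdU⟩ := Metric.isOpen_iff.1 hcl.isOpen_compl _ hn
  refine ⟨min r d, lt_min hr hd, fun w hw => ?_⟩
  have h1 : dist (Φ w) ((0 : ℂ), (0 : ℂ)) < min r d := by
    rw [show ((0 : ℂ), (0 : ℂ)) = (0 : ℂ × ℂ) from rfl, dist_zero_right]
    exact hw
  have h2 : Φ w ∉ Φ '' (Φ ⁻¹' Metric.closedBall ((0 : ℂ), (0 : ℂ)) r \ interior W) :=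
    hdU (Metric.mem_ball.2 (h1.trans_le (min_le_right _ _)))
  by_contra h3
  refine h2 ⟨w, ⟨?_, fun h4 => h3 (interior_subset h4)⟩, rfl⟩
  exact Metric.mem_closedBall.2 (h1.le.trans (min_le_left _ _))

/-- Near the central fibre every `f_t` has at most one singular fibre. -/
theorem at_most_one {G : FibreGerm} (K : CoreData G) (hK : K.Rigid) (F : SplittingFamily.{u} G) :
    ∃ δ : ℝ, 0 < δ ∧ ∀ t b b' : ℂ, ‖t‖ < δ → ‖b‖ < δ → ‖b'‖ < δ →
      F.Singular (b, t) → F.Singular (b', t) → b = b' := by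
  obtain ⟨k, hk⟩ := family_k K hK F
  obtain ⟨δ, hδ, h⟩ := aoc_near F.holo.continuous F.isOpen_U F.zero_mem F.proper
    (W := {w' | ¬ Function.Surjective (mfderiv 𝓘(ℂ, ℂ × ℂ × ℂ) 𝓘(ℂ, ℂ × ℂ) F.Φ w') →
        (F.Φ w').1 = F.β (k (F.Φ w').2)}) (aoc_nhds F hk)
  have key : ∀ t b : ℂ, ‖t‖ < δ → ‖b‖ < δ → F.Singular (b, t) → b = F.β (k t) := by
    rintro t b ht hb ⟨z, hz, hs⟩
    have h1 : ‖F.Φ z‖ < δ := by
      rw [hz, Prod.norm_mk]
      exact max_lt hb ht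
    have h2 := h z h1 hs
    rw [hz] at h2
    exact h2
  refine ⟨δ, hδ, fun t b b' ht hb hb' h1 h2 => ?_⟩
  rw [key t b ht hb h1, key t b' ht hb' h2]

theorem atomic_of_core {G : FibreGerm} (K : CoreData G) (hK : K.Rigid) :
    FibreGerm.Atomic.{u} G := by
  intro F hF
  obtain ⟨δ, hδ, h⟩ := at_most_one K hK F
  have h1 := hF δ hδ
  have h2 : ∀ᶠ t in 𝓝[≠] (0 : ℂ), ‖t‖ < δ := by
    refine nhdsWithin_le_nhds ?_
    have := Metric.ball_mem_nhds (0 : ℂ) hδ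
    filter_upwards [this] with t ht
    rwa [mem_ball_zero_iff] at ht
  obtain ⟨t, ⟨b, b', hne, hb, hb', hs, hs'⟩, ht⟩ := (h1.and h2).exists
  exact hne (h t b b' ht hb hb' hs hs')

end Pool.Agent.Lib.MP_d4bba2_ag
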