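import Pool.Agent.Lib.MP_d4bba2_ag.TaylorT

/-!
UNIFORM CAUCHY BOUNDS FOR THE COEFFICIENT FUNCTIONS.

For y on the sphere, ρ is analytic at (y,0), so there are r > 0, M with ρ analytic (hence t ↦ ρ (x,t) differentiable) and
|ρ (x,t)| ≤ M for |x - y| < r, |t| ≤ r (and the hypothesis at x holds for |x - y| < r).  For such x the function
t ↦ ρ (x,t) is holomorphic near the closed disc |t| ≤ r, its j-th Taylor coefficient at 0 is c j x (the hypothesis for
N = j+1, and expansion_unique), so by the Cauchy estimate |c j x| * r^j ≤ M.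
The sphere is compact: finitely many such discs in y cover it; M = the maximum, δ = the minimum (δ ≤ r for each).  So
|c j x| * δ^j ≤ M for all x on the sphere; by the maximum modulus principle (Complex.norm_le_of_forall_mem_frontier_norm_le,
c j is analytic on a neighbourhood of the closed ball) the same holds on the closed ball.
-/

open scoped Topology
open Filter

noncomputable section

namespace Pool.Agent.Lib.MP_d4bba2_ag

/-- the coefficients of an expansion of an analytic function are its Taylor coefficients -/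
theorem coefBound_eq {f : ℂ → ℂ} (hf : AnalyticAt ℂ f 0) {c : ℕ → ℂ} {N : ℕ}
    (h : (fun t : ℂ => f t - ∑ j ∈ Finset.range N, c j * t ^ j) =O[𝓝 0] (fun t : ℂ => t ^ N)) :
    ∀ j < N, c j = iteratedDeriv j f 0 / j.factorial := by
  have h1 := hf.hasFPowerSeriesAt.isBigO_sub_partialSum_pow N
  have h2 : (fun t : ℂ => f t - ∑ j ∈ Finset.range N, iteratedDeriv j f 0 / j.factorial * t ^ j)
      =O[𝓝 0] (fun t : ℂ => t ^ N) := by
    have h3 : (fun t : ℂ => ‖t‖ ^ N) =O[𝓝 0] (fun t : ℂ => t ^ N) := by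
      apply Asymptotics.IsBigO.of_norm_norm
      simp only [norm_pow, norm_norm]
      exact Asymptotics.isBigO_refl _ _
    refine (h1.trans h3).congr_left fun t => ?_
    rw [zero_add]
    congr 1
    unfold FormalMultilinearSeries.partialSum
    refine Finset.sum_congr rfl fun i _ => ?_
    rw [FormalMultilinearSeries.ofScalars_apply_eq, smul_eq_mul]
  have h4 : (fun t : ℂ => ∑ i ∈ Finset.range N, c i * t ^ i -
      ∑ i ∈ Finset.range N, iteratedDeriv i f 0 / i.factorial * t ^ i)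
      =O[𝓝[≠] 0] (fun t : ℂ => t ^ N) := by
    refine ((h2.sub h).congr_left fun t => ?_).mono nhdsWithin_le_nhds
    ring
  exact poly_unique _ _ N h4

/-- the local bound -/
theorem coefBound_loc {y : ℂ} {c : ℕ → ℂ → ℂ} {ρ : ℂ × ℂ → ℂ} (hρ : AnalyticAt ℂ ρ (y, 0))
    (h : ∀ᶠ x in 𝓝 y, ∀ N : ℕ,
        (fun t : ℂ => ρ (x, t) - ∑ j ∈ Finset.range N, c j x * t ^ j) =O[𝓝 0]
          (fun t : ℂ => t ^ N)) :
    ∃ r M : ℝ, 0 < r ∧ 0 < M ∧ ∀ x ∈ Metric.ball y r, ∀ j, ‖c j x‖ * r ^ j ≤ M := by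
  have h1 : ∀ᶠ p in 𝓝 (y, (0 : ℂ)), ‖ρ p‖ < ‖ρ (y, 0)‖ + 1 :=
    hρ.continuousAt.norm.eventually_lt_const (by linarith)
  obtain ⟨e1, he1, h2⟩ := Metric.eventually_nhds_iff.1 (hρ.eventually_analyticAt.and h1)
  obtain ⟨e2, he2, h3⟩ := Metric.eventually_nhds_iff.1 h
  set r : ℝ := min e1 e2 / 2 with hr
  have hr0 : 0 < r := by
    rw [hr]
    exact half_pos (lt_min he1 he2)
  have hr1 : r < e1 := by
    have := min_le_left e1 e2
    rw [hr]
    linarith
  have hr2 : r < e2 := by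
    have := min_le_right e1 e2
    rw [hr]
    linarith
  refine ⟨r, ‖ρ (y, 0)‖ + 1, hr0, by positivity, fun x hx j => ?_⟩
  have hx' : dist x y < r := hx
  have h4 := h3 (hx'.trans hr2)
  have hmem : ∀ t : ℂ, ‖t‖ ≤ r → dist ((x, t) : ℂ × ℂ) (y, 0) < e1 := by
    intro t ht
    rw [Prod.dist_eq]
    apply max_lt (hx'.trans hr1)
    rw [dist_zero_right]
    exact lt_of_le_of_lt ht hr1
  have han : ∀ t : ℂ, ‖t‖ ≤ r → AnalyticAt ℂ (fun t : ℂ => ρ (x, t)) t := by
    intro t ht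
    have h5 : AnalyticAt ℂ ρ (x, t) := (h2 (hmem t ht)).1
    exact h5.comp₂ analyticAt_const analyticAt_id
  have hd : DiffContOnCl ℂ (fun t : ℂ => ρ (x, t)) (Metric.ball 0 r) := by
    have h5 : DifferentiableOn ℂ (fun t : ℂ => ρ (x, t)) (Metric.closedBall 0 r) := by
      intro t ht
      rw [mem_closedBall_zero_iff] at ht
      exact (han t ht).differentiableAt.differentiableWithinAt
    exact h5.diffContOnCl_ball subset_rfl
  have h6 := Complex.norm_iteratedDeriv_le_of_forall_mem_sphere_norm_le j hr0 hd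
    (C := ‖ρ (y, 0)‖ + 1) (fun z hz => by
      rw [mem_sphere_zero_iff_norm] at hz
      exact (h2 (hmem z hz.le)).2.le)
  have h7 := coefBound_eq (han 0 (by simpa using hr0.le)) (h4 (j + 1)) j (Nat.lt_succ_self j)
  rw [h7, norm_div, Complex.norm_natCast]
  have hj : (0 : ℝ) < j.factorial := by exact_mod_cast j.factorial_pos
  have hrj : 0 < r ^ j := by positivity
  rw [le_div_iff₀ hrj] at h6
  rw [div_mul_eq_mul_div, div_le_iff₀ hj]
  linarith

theorem coef_bound {x0 : ℂ} {R : ℝ} (hR : 0 < R) {c : ℕ → ℂ → ℂ}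
    (hc : ∀ j, AnalyticOnNhd ℂ (c j) (Metric.closedBall x0 R))
    (hloc : ∀ y ∈ Metric.sphere x0 R, ∃ ρ : ℂ × ℂ → ℂ, AnalyticAt ℂ ρ (y, 0) ∧
      ∀ᶠ x in 𝓝 y, ∀ N : ℕ,
        (fun t : ℂ => ρ (x, t) - ∑ j ∈ Finset.range N, c j x * t ^ j) =O[𝓝 0]
          (fun t : ℂ => t ^ N)) :
    ∃ M δ : ℝ, 0 < M ∧ 0 < δ ∧ ∀ j, ∀ x ∈ Metric.closedBall x0 R, ‖c j x‖ * δ ^ j ≤ M := by
  have key : ∃ M δ : ℝ, 0 < M ∧ 0 < δ ∧ ∀ j, ∀ x ∈ Metric.sphere x0 R, ‖c j x‖ * δ ^ j ≤ M := by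
    refine (isCompact_sphere x0 R).induction_on
      (p := fun S => ∃ M δ : ℝ, 0 < M ∧ 0 < δ ∧ ∀ j, ∀ x ∈ S, ‖c j x‖ * δ ^ j ≤ M) ?_ ?_ ?_ ?_
    · exact ⟨1, 1, one_pos, one_pos, fun j x hx => absurd hx (Set.notMem_empty x)⟩
    · rintro s t hst ⟨M, δ, hM, hδ, h⟩
      exact ⟨M, δ, hM, hδ, fun j x hx => h j x (hst hx)⟩
    · rintro s t ⟨M, δ, hM, hδ, h⟩ ⟨M', δ', hM', hδ', h'⟩
      refine ⟨max M M', min δ δ', lt_max_of_lt_left hM, lt_min hδ hδ', fun j x hx => ?_⟩
      have hm : 0 < min δ δ' := lt_min hδ hδ'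
      rcases hx with hx | hx
      · refine le_trans ?_ ((h j x hx).trans (le_max_left _ _))
        exact mul_le_mul_of_nonneg_left (pow_le_pow_left₀ hm.le (min_le_left _ _) j)
          (norm_nonneg _)
      · refine le_trans ?_ ((h' j x hx).trans (le_max_right _ _))
        exact mul_le_mul_of_nonneg_left (pow_le_pow_left₀ hm.le (min_le_right _ _) j)
          (norm_nonneg _)
    · intro y hy
      obtain ⟨ρ, hρ, h⟩ := hloc y hy
      obtain ⟨r, M, hr, hM, hb⟩ := coefBound_loc hρ h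
      exact ⟨Metric.ball y r, mem_nhdsWithin_of_mem_nhds (Metric.ball_mem_nhds y hr), M, r, hM, hr,
        fun j x hx => hb x hx j⟩
  obtain ⟨M, δ, hM, hδ, h⟩ := key
  refine ⟨M, δ, hM, hδ, fun j x hx => ?_⟩
  have hδj : 0 < δ ^ j := by positivity
  rw [← le_div_iff₀ hδj]
  have hd : DiffContOnCl ℂ (c j) (Metric.ball x0 R) :=
    (hc j).differentiableOn.diffContOnCl_ball subset_rfl
  apply Complex.norm_le_of_forall_mem_frontier_norm_le Metric.isBounded_ball hd (fun z hz => ?_)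
  · rw [closure_ball x0 hR.ne']
    exact hx
  · rw [frontier_ball x0 hR.ne'] at hz
    rw [le_div_iff₀ hδj]
    exact h j z hz

end Pool.Agent.Lib.MP_d4bba2_ag
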