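import Pool.Agent.Lib.MP_d4bba2_ag.Shifts

/-!
THE TAYLOR COEFFICIENTS (in t) OF THE ROOT NEAR A SPECIAL POINT x0 EXTEND HOLOMORPHICALLY OVER x0, on a disc which does
not depend on the order.

Choose R > 0 such that for 0 < |y - x0| ≤ R: IsLoc F y e, e y ≠ 0 and the hypothesis hf holds at y, and e is analytic on
closedBall x0 R.  For such y let ρ_y be a root (root_exists).
For y in the punctured disc define c j y as the j-th Taylor coefficient of t ↦ ρ_y (y,t) at 0 (for instance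
iteratedDeriv j (fun t => ρ_y (y,t)) 0 / j!, or from taylor_last applied to ρ_y).
By uniqueness (root_unique at x, RootAt.near) for x near y the germs of ρ_x and ρ_y at (x,0) agree, so c j x is the
j-th coefficient of t ↦ ρ_y (x,t), which is analytic in x near y (taylor_last for ρ_y at y and expansion_unique).
At x0: shifts with n := 2 (j+1) + 1, m := j+1 and expand_reg at y near x0: ρ_y = σ + t^(j+1) g near (y,0), so c j y is the
j-th coefficient of t ↦ σ (y,t), = s j y with s j analytic at x0 (taylor_last for σ at x0).  So defining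
c j x0 = s j x0 makes c j analytic at x0 as well (c j = s j near x0).
c 0 = 0: ρ_y (y,0) = 0.
Last statement for y, x near y in the (closed, punctured) disc: t ↦ ρ_y (x,t) has the Taylor coefficients c j x for all j
(for the analytic function of one variable t, the remainder of order N is O(t^N)).  Here x near y may lie outside of the
closed disc when y is on the boundary: therefore choose R so that everything above holds on a slightly larger disc
(radius 2R), and define c j there.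
-/

open scoped Topology
open Filter

noncomputable section

namespace Pool.Agent.Lib.MP_d4bba2_ag

/-- `a` are the Taylor coefficients of `φ` at `0` -/
def CoefFunTC (φ : ℂ → ℂ) (a : ℕ → ℂ) : Prop :=
  ∀ N : ℕ, (fun t : ℂ => φ t - ∑ j ∈ Finset.range N, a j * t ^ j) =O[𝓝 0] (fun t : ℂ => t ^ N)

theorem CoefFun_big {φ : ℂ → ℂ} {b : ℕ → ℂ} {n : ℕ} {R : ℂ → ℂ} (hR : ContinuousAt R 0)
    (h : ∀ᶠ t : ℂ in 𝓝 0, φ t = ∑ i ∈ Finset.range n, b i * t ^ i + t ^ n * R t) :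
    (fun t : ℂ => φ t - ∑ i ∈ Finset.range n, b i * t ^ i) =O[𝓝 0] (fun t : ℂ => t ^ n) := by
  have h1 : (fun t : ℂ => t ^ n * R t) =O[𝓝 0] (fun t : ℂ => t ^ n * (1 : ℂ)) :=
    (Asymptotics.isBigO_refl (fun t : ℂ => t ^ n) (𝓝 0)).mul (hR.tendsto.isBigO_one ℂ)
  simp only [mul_one] at h1
  refine h1.congr' ?_ EventuallyEq.rfl
  filter_upwards [h] with t ht
  rw [ht]
  ring

theorem CoefFun_eq {φ : ℂ → ℂ} {a b : ℕ → ℂ} {n : ℕ} {R : ℂ → ℂ} (ha : CoefFunTC φ a)
    (hR : ContinuousAt R 0)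
    (h : ∀ᶠ t : ℂ in 𝓝 0, φ t = ∑ i ∈ Finset.range n, b i * t ^ i + t ^ n * R t) :
    ∀ i < n, a i = b i := by
  apply poly_unique a b n
  have h1 := ((CoefFun_big hR h).sub (ha n)).mono (nhdsWithin_le_nhds (s := {0}ᶜ))
  refine h1.congr_left fun t => ?_
  ring

theorem CoefFun_exists {φ : ℂ → ℂ} (hφ : AnalyticAt ℂ φ 0) : ∃ a, CoefFunTC φ a := by
  have h1 : AnalyticAt ℂ (fun p : ℂ × ℂ => φ p.2) ((0 : ℂ), (0 : ℂ)) :=
    AnalyticAt.comp' (g := φ) (f := Prod.snd) hφ analyticAt_snd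
  obtain ⟨c, -, hc⟩ := taylor_last (fun p : ℂ × ℂ => φ p.2) (0 : ℂ) h1
  refine ⟨fun i => c i 0, fun n => ?_⟩
  obtain ⟨R, hR, he⟩ := hc n
  have h2 := he.curry_nhds.self_of_nhds
  have h3 : ContinuousAt (fun t : ℂ => R (0, t)) 0 :=
    hR.continuousAt.comp (f := fun t : ℂ => ((0 : ℂ), t)) (x := 0) (by fun_prop)
  exact CoefFun_big h3 h2

theorem CoefFun_root {F : ℂ × ℂ × ℂ → ℂ} {y : ℂ} {e : ℂ → ℂ} (h : IsLoc F y e) (he : e y ≠ 0) :
    ∃ a : ℕ → ℂ, ∀ ρ, RootAt F y ρ → CoefFunTC (fun t => ρ (y, t)) a := by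
  obtain ⟨ρ, hρ, -⟩ := root_exists h he
  have h1 : AnalyticAt ℂ (fun t : ℂ => ρ (y, t)) 0 :=
    AnalyticAt.comp' (g := ρ) (f := fun t : ℂ => (y, t)) hρ.an
      (analyticAt_const.prod analyticAt_id)
  obtain ⟨a, ha⟩ := CoefFun_exists h1
  refine ⟨a, fun ρ' hρ' n => ?_⟩
  have h2 := (root_unique h he hρ hρ').curry_nhds.self_of_nhds
  refine (ha n).congr' ?_ EventuallyEq.rfl
  filter_upwards [h2] with t ht
  rw [ht]

/-- slices of a remainder are continuous at nearby points -/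
theorem CoefFun_slice {R : ℂ × ℂ → ℂ} {y : ℂ} (hR : AnalyticAt ℂ R (y, 0)) :
    ∀ᶠ x in 𝓝 y, ContinuousAt (fun t : ℂ => R (x, t)) 0 := by
  have hc : Continuous fun x : ℂ => ((x, 0) : ℂ × ℂ) := by fun_prop
  filter_upwards [hc.continuousAt.eventually hR.eventually_analyticAt] with x hx
  exact hx.continuousAt.comp (f := fun t : ℂ => (x, t)) (x := 0) (by fun_prop)

theorem coef_fun {F : ℂ × ℂ × ℂ → ℂ} {x0 : ℂ} {e : ℂ → ℂ} (h : IsLoc F x0 e)
    (he0 : e x0 = 0) (he1 : deriv e x0 ≠ 0) {κ : ℕ → ℂ}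
    (hf : ∀ᶠ y in 𝓝[≠] x0, ∀ n, ∃ B, Form F y κ n B) :
    ∃ R : ℝ, 0 < R ∧ ∃ c : ℕ → ℂ → ℂ,
      (∀ j, AnalyticOnNhd ℂ (c j) (Metric.closedBall x0 R)) ∧
      (∀ x ∈ Metric.closedBall x0 R, c 0 x = 0) ∧
      ∀ y ∈ Metric.closedBall x0 R, y ≠ x0 → IsLoc F y e ∧ e y ≠ 0 ∧
        (∀ n, ∃ B, Form F y κ n B) ∧
        ∀ ρ, RootAt F y ρ → ∀ᶠ x in 𝓝 y, ∀ N : ℕ,
          (fun t : ℂ => ρ (x, t) - ∑ j ∈ Finset.range N, c j x * t ^ j) =O[𝓝 0]
            (fun t : ℂ => t ^ N) := by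
  classical
  -- the punctured neighbourhood
  have hne : ∀ᶠ y in 𝓝[≠] x0, e y ≠ 0 := h.ean.differentiableAt.hasDerivAt.eventually_ne he1
  have hall : ∀ᶠ y in 𝓝 x0, y ≠ x0 → IsLoc F y e ∧ e y ≠ 0 ∧ ∀ n, ∃ B, Form F y κ n B := by
    have h1 := eventually_nhdsWithin_iff.1 hne
    have h2 := eventually_nhdsWithin_iff.1 hf
    filter_upwards [h1, h2, h.near] with y a b c hy
    exact ⟨c, a hy, b hy⟩
  obtain ⟨R0, hR0, hball⟩ := Metric.eventually_nhds_iff_ball.1 hall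
  -- the coefficients in the punctured ball
  have key : ∀ y ∈ Metric.ball x0 R0, y ≠ x0 →
      ∃ a : ℕ → ℂ, ∀ ρ, RootAt F y ρ → CoefFunTC (fun t => ρ (y, t)) a := by
    intro y hy hyx
    obtain ⟨a, b, -⟩ := hball y hy hyx
    exact CoefFun_root a b
  choose! cp hcp using key
  have hopen : ∀ y ∈ Metric.ball x0 R0, y ≠ x0 → ∀ᶠ x in 𝓝 y, x ∈ Metric.ball x0 R0 ∧ x ≠ x0 := by
    intro y hy hyx
    exact (Metric.isOpen_ball.eventually_mem hy).and (isOpen_ne.eventually_mem hyx)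
  -- analytic away from the centre
  have hreg : ∀ y ∈ Metric.ball x0 R0, y ≠ x0 → ∀ j, ∃ C : ℂ → ℂ, AnalyticAt ℂ C y ∧
      ∀ᶠ x in 𝓝 y, cp x j = C x := by
    intro y hy hyx j
    obtain ⟨a, b, -⟩ := hball y hy hyx
    obtain ⟨ρ, hρ, -⟩ := root_exists a b
    obtain ⟨C, hC, hexp⟩ := taylor_last ρ y hρ.an
    obtain ⟨R, hR, he⟩ := hexp (j + 1)
    refine ⟨C j, hC j, ?_⟩
    filter_upwards [hopen y hy hyx, hρ.near, he.curry_nhds, CoefFun_slice hR]
      with x hx hx2 hx3 hx4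
    exact CoefFun_eq (a := cp x) (b := fun i => C i x) (hcp x hx.1 hx.2 ρ hx2) hx4 hx3 j
      (Nat.lt_succ_self j)
  -- analytic at the centre
  have hcen : ∀ j, ∃ S : ℂ → ℂ, AnalyticAt ℂ S x0 ∧ ∀ᶠ y in 𝓝[≠] x0, cp y j = S y := by
    intro j
    have hfn : ∀ᶠ y in 𝓝[≠] x0, ∃ B, Form F y κ (2 * (j + 1) + 1) B := by
      filter_upwards [hf] with y hy
      exact hy _
    obtain ⟨σ, G, hσ, hσ0, hG, hs⟩ := shifts h he0 he1 hfn (j + 1) (by omega)
      (Or.inr (by omega))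
    obtain ⟨s, hs1, hexp⟩ := taylor_last σ x0 hσ
    obtain ⟨R, hR, he⟩ := hexp (j + 1)
    refine ⟨s j, hs1 j, ?_⟩
    have hc : Continuous fun x : ℂ => ((x, 0) : ℂ × ℂ) := by fun_prop
    have k1 : ∀ᶠ y in 𝓝 x0, AnalyticAt ℂ σ (y, 0) :=
      hc.continuousAt.eventually hσ.eventually_analyticAt
    have k2 : ∀ᶠ y in 𝓝 x0, AnalyticAt ℂ G (y, 0) :=
      hc.continuousAt.eventually hG.eventually_analyticAt
    have k3 : ∀ᶠ y in 𝓝 x0, ∀ᶠ p : ℂ × ℂ in 𝓝 (y, 0), D2 F (p.1, σ p, p.2) =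
        p.2 ^ (j + 1) * G p :=
      hc.continuousAt.eventually (eventually_eventually_nhds.2 hs)
    rw [eventually_nhdsWithin_iff]
    filter_upwards [Metric.isOpen_ball.eventually_mem (Metric.mem_ball_self hR0), k1, k2, k3,
      eventually_eventually_nhds.2 hσ0, he.curry_nhds, CoefFun_slice hR]
      with y hy l1 l2 l3 l4 l5 l6 hyx
    obtain ⟨a, b, -⟩ := hball y hy hyx
    obtain ⟨ρ, hρ, -⟩ := root_exists a b
    obtain ⟨⟨g, hg, hge⟩, -⟩ := expand_reg a b l1 l4 l2 l3 hρ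
    have m1 := hge.curry_nhds.self_of_nhds
    have m2 := (CoefFun_slice hg).self_of_nhds
    refine CoefFun_eq (a := cp y) (b := fun i => s i y) (n := j + 1)
      (R := fun t => R (y, t) + g (y, t)) (hcp y hy hyx ρ hρ) (l6.add m2) ?_ j
      (Nat.lt_succ_self j)
    filter_upwards [m1, l5] with t n1 n2
    rw [n1, n2]
    ring
  choose S hSan hSeq using hcen
  obtain ⟨c, hcdef⟩ : ∃ c : ℕ → ℂ → ℂ, ∀ j y, c j y = if y = x0 then S j x0 else cp y j :=
    ⟨fun j y => if y = x0 then S j x0 else cp y j, fun _ _ => rfl⟩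
  have hcS : ∀ j, ∀ᶠ y in 𝓝 x0, c j y = S j y := by
    intro j
    filter_upwards [eventually_nhdsWithin_iff.1 (hSeq j)] with y hy
    rw [hcdef]
    split_ifs with hyx
    · rw [hyx]
    · exact hy hyx
  have hcan : ∀ j, ∀ y ∈ Metric.ball x0 R0, AnalyticAt ℂ (c j) y := by
    intro j y hy
    rcases eq_or_ne y x0 with hyx | hyx
    · rw [hyx]
      refine (hSan j).congr ?_
      filter_upwards [hcS j] with x hx
      exact hx.symm
    · obtain ⟨C, hC, hCe⟩ := hreg y hy hyx j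
      refine hC.congr ?_
      filter_upwards [hCe, hopen y hy hyx] with x hx hx2
      rw [hcdef, if_neg hx2.2, hx]
  have hc0 : ∀ y ∈ Metric.ball x0 R0, y ≠ x0 → c 0 y = 0 := by
    intro y hy hyx
    obtain ⟨a, b, -⟩ := hball y hy hyx
    obtain ⟨ρ, hρ, -⟩ := root_exists a b
    have h1 := hcp y hy hyx ρ hρ 1
    obtain ⟨C, hC⟩ := h1.bound
    have h2 := hC.self_of_nhds
    have h3 : ρ (y, 0) = 0 := hρ.zero.self_of_nhds
    beta_reduce at h2
    rw [Finset.sum_range_one, pow_zero, mul_one, h3, zero_sub, norm_neg, pow_one, norm_zero,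
      mul_zero] at h2
    rw [hcdef, if_neg hyx]
    exact norm_le_zero_iff.1 h2
  have hsub : ∀ y ∈ Metric.closedBall x0 (R0 / 2), y ∈ Metric.ball x0 R0 := by
    intro y hy
    rw [Metric.mem_closedBall] at hy
    rw [Metric.mem_ball]
    linarith
  refine ⟨R0 / 2, by positivity, c, fun j y hy => hcan j y (hsub y hy), fun y hy => ?_,
    fun y hy hyx => ?_⟩
  · rcases eq_or_ne y x0 with h1 | h1
    · rw [h1]
      have h2 : Tendsto (c 0) (𝓝[≠] x0) (𝓝 (c 0 x0)) :=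
        ((hcan 0 x0 (Metric.mem_ball_self hR0)).continuousAt.tendsto).mono_left nhdsWithin_le_nhds
      have h3 : Tendsto (c 0) (𝓝[≠] x0) (𝓝 0) := by
        refine tendsto_const_nhds.congr' ?_
        rw [EventuallyEq, eventually_nhdsWithin_iff]
        filter_upwards [Metric.isOpen_ball.eventually_mem (Metric.mem_ball_self hR0)] with x hx hx2
        exact (hc0 x hx hx2).symm
      exact tendsto_nhds_unique h2 h3
    · exact hc0 y (hsub y hy) h1
  · obtain ⟨a, b, d⟩ := hball y (hsub y hy) hyx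
    refine ⟨a, b, d, fun ρ hρ => ?_⟩
    filter_upwards [hopen y (hsub y hy) hyx, hρ.near] with x hx hx2 N
    have h1 := hcp x hx.1 hx.2 ρ hx2 N
    refine h1.congr_left fun t => ?_
    have h2 : ∀ j, c j x = cp x j := fun j => by rw [hcdef, if_neg hx.2]
    simp only [h2]

end Pool.Agent.Lib.MP_d4bba2_ag
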