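import Mathlib

/-!
CONNECTEDNESS FROM A SINGLETON FIBRE.
conn_single: let V be clopen in X and not containing x0 (replace V by its complement); if V is non empty, π '' V is open and
closed and non empty in the connected Y, so it is everything and contains π x0: there is x ∈ V with π x = π x0, so x = x0 ∈ V.
Contradiction.  So every clopen set not containing x0 is empty.
sqrt_near: the map z ↦ z^2 is open (or: z = a + small, explicit).
-/

open scoped Topology
open Filter Set

noncomputable section

namespace Pool.Agent.Lib.MP_d4bba2_ag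

theorem conn_single {X Y : Type*} [TopologicalSpace X] [TopologicalSpace Y] [PreconnectedSpace Y]
    {π : X → Y} (ho : IsOpenMap π) (hcl : IsClosedMap π) (x0 : X)
    (h0 : ∀ x, π x = π x0 → x = x0) : PreconnectedSpace X := by
  have key : ∀ s : Set X, IsClopen s → x0 ∉ s → s = ∅ := by
    intro s hs hx
    by_contra hne
    have h1 : IsClopen (π '' s) := ⟨hcl s hs.1, ho s hs.2⟩
    have h2 : (π '' s).Nonempty := (Set.nonempty_iff_ne_empty.2 hne).image π
    have h3 : π '' s = Set.univ := h1.eq_univ h2
    have h4 : π x0 ∈ π '' s := by rw [h3]; exact Set.mem_univ _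
    obtain ⟨x, hxs, hxe⟩ := h4
    rw [h0 x hxe] at hxs
    exact hx hxs
  rw [preconnectedSpace_iff_clopen]
  intro s hs
  by_cases hx : x0 ∈ s
  · right
    have h1 := key sᶜ hs.compl (fun h => h hx)
    exact Set.compl_empty_iff.1 h1
  · left
    exact key s hs hx

/-- square roots depend continuously on the number: every neighbourhood of a square root `a` of
`b` contains a square root of every `b'` near `b` -/
theorem sqrt_near {a : ℂ} {U : Set ℂ} (hU : U ∈ 𝓝 a) : ∀ᶠ b in 𝓝 (a ^ 2), ∃ a' ∈ U, a' ^ 2 = b := by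
  obtain ⟨ε, hε, hball⟩ := Metric.mem_nhds_iff.1 hU
  have h1 : Metric.ball (a ^ 2) (ε ^ 2) ∈ 𝓝 (a ^ 2) := Metric.ball_mem_nhds _ (by positivity)
  filter_upwards [h1] with b hb
  obtain ⟨c, hc⟩ := IsAlgClosed.exists_pow_nat_eq b (n := 2) (by norm_num)
  rw [Metric.mem_ball, Complex.dist_eq] at hb
  have h2 : b - a ^ 2 = (c - a) * (c + a) := by rw [← hc]; ring
  rw [h2, norm_mul] at hb
  by_cases h3 : ‖c - a‖ < ε
  · exact ⟨c, hball (by rw [Metric.mem_ball, Complex.dist_eq]; exact h3), hc⟩
  · have h4 : ‖c + a‖ < ε := by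
      by_contra h5
      push Not at h3 h5
      nlinarith [norm_nonneg (c - a), norm_nonneg (c + a)]
    refine ⟨-c, hball ?_, by rw [neg_sq, hc]⟩
    rw [Metric.mem_ball, Complex.dist_eq]
    have h5 : -c - a = -(c + a) := by ring
    rw [h5, norm_neg]
    exact h4

end Pool.Agent.Lib.MP_d4bba2_ag
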