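import Pool.Agent.Lib.MP_d4bba2_ag.Defs

/-!
The general theorem: hypotheses on the critical points of a fibre germ.
-/

open scoped Manifold ContDiff Topology

noncomputable section

namespace Pool.Agent.Lib.MP_d4bba2_ag

/-- Charts at the critical points of the germ in which `f = e (x) ξ ^ 2`, where `e` has no zero or a
simple zero at the point: so the central fibre is locally `2 C` or `2 C + E` with `C` and `E` smooth
and transversal. -/
structure CoreData (G : FibreGerm) where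
  κ : G.S → OpenPartialHomeomorph G.S (ℂ × ℂ)
  e : G.S → ℂ → ℂ
  mem_atlas : ∀ q, G.Crit q → κ q ∈ IsManifold.maximalAtlas 𝓘(ℂ, ℂ × ℂ) ω G.S
  mem_source : ∀ q, G.Crit q → q ∈ (κ q).source
  snd_zero : ∀ q, G.Crit q → (κ q q).2 = 0
  e_an : ∀ q, G.Crit q → AnalyticAt ℂ (e q) (κ q q).1
  ne : ∀ q, G.Crit q → e q (κ q q).1 ≠ 0 ∨ deriv (e q) (κ q q).1 ≠ 0
  eq : ∀ q, G.Crit q → ∀ᶠ p in 𝓝 (κ q q), G.f ((κ q).symm p) = e q p.1 * p.2 ^ 2

/-- A function on the critical curve which is holomorphic where `e ≠ 0` and has at most simple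
poles at the zeros of `e` is constant: `h⁰(C, O(D)) = 1`. -/
def CoreData.Rigid {G : FibreGerm} (K : CoreData G) : Prop :=
  ∀ a : G.S → ℂ,
    (∀ q, G.Crit q → K.e q (K.κ q q).1 ≠ 0 →
      ∃ g, AnalyticAt ℂ g (K.κ q q).1 ∧
        ∀ᶠ y in 𝓝 (K.κ q q).1, a ((K.κ q).symm (y, 0)) = g y) →
    (∀ q, G.Crit q → K.e q (K.κ q q).1 = 0 →
      ∃ g, AnalyticAt ℂ g (K.κ q q).1 ∧
        ∀ᶠ y in 𝓝[≠] (K.κ q q).1, K.e q y * a ((K.κ q).symm (y, 0)) = g y) →
    ∃ c, ∀ q, G.Crit q → K.e q (K.κ q q).1 ≠ 0 → a q = c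

/-- a critical point lies on the central fibre -/
theorem FibreGerm.Crit.zero {G : FibreGerm} {q : G.S} (h : G.Crit q) : G.f q = 0 := by
  by_contra h0
  exact G.smooth q h0 h

end Pool.Agent.Lib.MP_d4bba2_ag
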