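import Pool.Agent.Lib.MP_d4bba2_ag.Core

/-!
THE CRITICAL POINTS NEAR A CRITICAL POINT q.

crit_iff_chart.  For a chart κ of the maximal atlas and x in its source: G.Crit x ↔ fderiv ℂ (G.f ∘ κ.symm) (κ x) = 0
(mfderiv of f at x composed with the invertible mfderiv of κ.symm at κ x; contMDiffOn_symm_of_mem_maximalAtlas,
contMDiffOn_of_mem_maximalAtlas, mfderiv_eq_fderiv).
crit_near.  For y near x_q = (κ q q).1: f (κ⁻¹ p) = e p.1 * p.2^2 for p near (y,0) and (y,0) in the target, so the derivative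
at (y,0) is 0 and κ⁻¹ (y,0) is critical.
regular_near.  Let y be near x_q with e q y ≠ 0 and q' = (κ q).symm (y,0), x' = (κ q' q').1.  Suppose e q' x' = 0.
τ = κ q' ∘ (κ q).symm is differentiable at (y,0) with value (x',0); put (a(ξ), b(ξ)) = τ (y,ξ).  Then |b(ξ)| ≤ C |ξ| for
ξ near 0 (b(0) = 0, differentiable), and e q y * ξ^2 = f = e q' (a(ξ)) * b(ξ)^2 for ξ near 0 (both K.eq, at (κ q).symm (y,ξ)).
So |e q y| ≤ C^2 |e q' (a(ξ))| → C^2 |e q' x'| = 0 as ξ → 0, ξ ≠ 0.  Contradiction.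
-/

open scoped Manifold ContDiff Topology
open Filter

noncomputable section

namespace Pool.Agent.Lib.MP_d4bba2_ag

private theorem critLocal_md {G : FibreGerm} {κ : OpenPartialHomeomorph G.S (ℂ × ℂ)}
    (hκ : κ ∈ IsManifold.maximalAtlas 𝓘(ℂ, ℂ × ℂ) ω G.S) :
    κ.MDifferentiable 𝓘(ℂ, ℂ × ℂ) 𝓘(ℂ, ℂ × ℂ) :=
  ⟨(contMDiffOn_of_mem_maximalAtlas hκ).mdifferentiableOn (by decide),
    (contMDiffOn_symm_of_mem_maximalAtlas hκ).mdifferentiableOn (by decide)⟩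

theorem crit_iff_chart {G : FibreGerm} {κ : OpenPartialHomeomorph G.S (ℂ × ℂ)}
    (hκ : κ ∈ IsManifold.maximalAtlas 𝓘(ℂ, ℂ × ℂ) ω G.S) {x : G.S} (hx : x ∈ κ.source) :
    G.Crit x ↔ fderiv ℂ (fun p => G.f (κ.symm p)) (κ x) = 0 := by
  have hmd := critLocal_md hκ
  have hxt : κ x ∈ κ.target := κ.map_source hx
  have hs : MDifferentiableAt 𝓘(ℂ, ℂ × ℂ) 𝓘(ℂ, ℂ × ℂ) κ.symm (κ x) :=
    hmd.mdifferentiableAt_symm hxt
  have hf : MDifferentiableAt 𝓘(ℂ, ℂ × ℂ) 𝓘(ℂ, ℂ) G.f (κ.symm (κ x)) :=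
    (G.holo _).mdifferentiableAt (by decide)
  have h1 : mfderiv 𝓘(ℂ, ℂ × ℂ) 𝓘(ℂ, ℂ) (G.f ∘ κ.symm) (κ x) =
      (mfderiv 𝓘(ℂ, ℂ × ℂ) 𝓘(ℂ, ℂ) G.f (κ.symm (κ x))).comp
        (mfderiv 𝓘(ℂ, ℂ × ℂ) 𝓘(ℂ, ℂ × ℂ) κ.symm (κ x)) := mfderiv_comp (κ x) hf hs
  have h2 : fderiv ℂ (fun p => G.f (κ.symm p)) (κ x) =
      mfderiv 𝓘(ℂ, ℂ × ℂ) 𝓘(ℂ, ℂ) (G.f ∘ κ.symm) (κ x) := by
    rw [mfderiv_eq_fderiv]
    rfl
  have h3 : κ.symm (κ x) = x := κ.left_inv hx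
  have h4 : G.Crit (κ.symm (κ x)) ↔ fderiv ℂ (fun p => G.f (κ.symm p)) (κ x) = 0 := by
    rw [h2]
    unfold FibreGerm.Crit
    rw [dZero_iff]
    constructor
    · intro h5
      rw [h1, h5]
      exact ContinuousLinearMap.zero_comp _
    · intro h5
      rw [h1] at h5
      ext v
      obtain ⟨w, rfl⟩ := hmd.symm.mfderiv_surjective hxt v
      exact congrArg (fun L => L w) h5
  rw [h3] at h4
  exact h4

private theorem critLocal_der {e : ℂ → ℂ} {y : ℂ} (he : DifferentiableAt ℂ e y) :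
    HasFDerivAt (fun p : ℂ × ℂ => e p.1 * p.2 ^ 2) (0 : ℂ × ℂ →L[ℂ] ℂ) (y, 0) := by
  have h1 : HasFDerivAt (fun p : ℂ × ℂ => e p.1)
      ((fderiv ℂ e y).comp (ContinuousLinearMap.fst ℂ ℂ ℂ)) (y, 0) :=
    HasFDerivAt.comp (g := e) (f := fun p : ℂ × ℂ => p.1) (y, 0) he.hasFDerivAt
      hasFDerivAt_fst
  have h2 : HasFDerivAt (fun p : ℂ × ℂ => p.2 ^ 2) _ (y, 0) :=
    (hasFDerivAt_snd (𝕜 := ℂ) (E := ℂ) (F := ℂ) (p := (y, 0))).pow 2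
  have h3 := h1.mul h2
  refine h3.congr_fderiv ?_
  ext <;> simp

private theorem critLocal_pt {G : FibreGerm} (K : CoreData G) {q : G.S} (hq : G.Crit q) :
    K.κ q q = ((K.κ q q).1, (0 : ℂ)) := by
  rw [← K.snd_zero q hq]

private theorem critLocal_cont {G : FibreGerm} (K : CoreData G) {q : G.S} (hq : G.Crit q) :
    Tendsto (fun y : ℂ => ((y, (0 : ℂ)) : ℂ × ℂ)) (𝓝 (K.κ q q).1) (𝓝 (K.κ q q)) := by
  have h1 : Continuous fun y : ℂ => ((y, (0 : ℂ)) : ℂ × ℂ) := by fun_prop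
  have h2 := h1.tendsto (K.κ q q).1
  rwa [← critLocal_pt K hq] at h2

private theorem critLocal_eq {G : FibreGerm} (K : CoreData G) {q : G.S} (hq : G.Crit q) :
    ∀ᶠ y in 𝓝 (K.κ q q).1, ∀ᶠ p in 𝓝 ((y, (0 : ℂ)) : ℂ × ℂ),
      G.f ((K.κ q).symm p) = K.e q p.1 * p.2 ^ 2 :=
  (critLocal_cont K hq).eventually
    (p := fun z : ℂ × ℂ => ∀ᶠ p in 𝓝 z, G.f ((K.κ q).symm p) = K.e q p.1 * p.2 ^ 2)
    (eventually_eventually_nhds.2 (K.eq q hq))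

theorem crit_near {G : FibreGerm} (K : CoreData G) {q : G.S} (hq : G.Crit q) :
    ∀ᶠ y in 𝓝 (K.κ q q).1, (y, (0 : ℂ)) ∈ (K.κ q).target ∧
      G.Crit ((K.κ q).symm (y, 0)) := by
  have hmem : K.κ q q ∈ (K.κ q).target := (K.κ q).map_source (K.mem_source q hq)
  have h1 : ∀ᶠ y in 𝓝 (K.κ q q).1, (y, (0 : ℂ)) ∈ (K.κ q).target :=
    (critLocal_cont K hq).eventually ((K.κ q).open_target.mem_nhds hmem)
  have h2 := critLocal_eq K hq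
  have h3 : ∀ᶠ y in 𝓝 (K.κ q q).1, AnalyticAt ℂ (K.e q) y :=
    (K.e_an q hq).eventually_analyticAt
  filter_upwards [h1, h2, h3] with y a1 a2 a3
  refine ⟨a1, ?_⟩
  rw [crit_iff_chart (K.mem_atlas q hq) ((K.κ q).map_target a1), (K.κ q).right_inv a1]
  exact ((critLocal_der a3.differentiableAt).congr_of_eventuallyEq a2).fderiv

theorem regular_near {G : FibreGerm} (K : CoreData G) {q : G.S} (hq : G.Crit q) :
    ∀ᶠ y in 𝓝 (K.κ q q).1, K.e q y ≠ 0 →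
      K.e ((K.κ q).symm (y, 0)) (K.κ ((K.κ q).symm (y, 0)) ((K.κ q).symm (y, 0))).1 ≠ 0 := by
  have h2 := critLocal_eq K hq
  filter_upwards [crit_near K hq, h2] with y a1 a2 hey he0
  obtain ⟨q', hq'⟩ : ∃ q', q' = (K.κ q).symm (y, 0) := ⟨_, rfl⟩
  obtain ⟨ht, hc⟩ := a1
  rw [← hq'] at hc he0
  have hsrc : q' ∈ (K.κ q').source := K.mem_source q' hc
  -- the transition map is differentiable
  have t1 : ContMDiffAt 𝓘(ℂ, ℂ × ℂ) 𝓘(ℂ, ℂ × ℂ) ω (K.κ q).symm (y, 0) :=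
    (contMDiffOn_symm_of_mem_maximalAtlas (K.mem_atlas q hq)).contMDiffAt
      ((K.κ q).open_target.mem_nhds ht)
  have t2 : ContMDiffAt 𝓘(ℂ, ℂ × ℂ) 𝓘(ℂ, ℂ × ℂ) ω (K.κ q') ((K.κ q).symm (y, 0)) := by
    rw [← hq']
    exact (contMDiffOn_of_mem_maximalAtlas (K.mem_atlas q' hc)).contMDiffAt
      ((K.κ q').open_source.mem_nhds hsrc)
  have t3 := t2.comp (y, (0 : ℂ)) t1
  have t4 : DifferentiableAt ℂ ((K.κ q') ∘ (K.κ q).symm) (y, (0 : ℂ)) :=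
    (contMDiffAt_iff_contDiffAt.1 t3).differentiableAt (by decide)
  -- along the line
  have hl : HasFDerivAt (fun ξ : ℂ => ((y, ξ) : ℂ × ℂ)) (ContinuousLinearMap.inr ℂ ℂ ℂ) 0 :=
    hasFDerivAt_prodMk_right y 0
  have t5 : DifferentiableAt ℂ (fun ξ : ℂ => K.κ q' ((K.κ q).symm (y, ξ))) 0 :=
    DifferentiableAt.comp (g := (K.κ q') ∘ (K.κ q).symm) (f := fun ξ : ℂ => ((y, ξ) : ℂ × ℂ)) 0
      t4 hl.differentiableAt
  have t6 : (fun ξ : ℂ => K.κ q' ((K.κ q).symm (y, ξ)) - K.κ q' ((K.κ q).symm (y, 0))) =O[𝓝 0]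
      fun ξ : ℂ => ξ - 0 := t5.isBigO_sub
  obtain ⟨C, hC⟩ := t6.bound
  have hlc : Tendsto (fun ξ : ℂ => ((y, ξ) : ℂ × ℂ)) (𝓝 0) (𝓝 (y, 0)) :=
    (show ContinuousAt (fun ξ : ℂ => ((y, ξ) : ℂ × ℂ)) 0 from by fun_prop)
  have e1 : ∀ᶠ ξ : ℂ in 𝓝 0, G.f ((K.κ q).symm (y, ξ)) = K.e q y * ξ ^ 2 :=
    hlc.eventually a2
  have c1 : Tendsto (fun ξ : ℂ => (K.κ q).symm (y, ξ)) (𝓝 0) (𝓝 q') := by
    rw [hq']
    exact (t1.continuousAt.tendsto).comp hlc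
  have e2 : ∀ᶠ ξ : ℂ in 𝓝 0, (K.κ q).symm (y, ξ) ∈ (K.κ q').source :=
    c1.eventually ((K.κ q').open_source.mem_nhds hsrc)
  have c2 : Tendsto (fun ξ : ℂ => K.κ q' ((K.κ q).symm (y, ξ))) (𝓝 0) (𝓝 (K.κ q' q')) :=
    ((K.κ q').continuousAt hsrc).tendsto.comp c1
  have e3 : ∀ᶠ ξ : ℂ in 𝓝 0, G.f ((K.κ q').symm (K.κ q' ((K.κ q).symm (y, ξ)))) =
      K.e q' (K.κ q' ((K.κ q).symm (y, ξ))).1 * (K.κ q' ((K.κ q).symm (y, ξ))).2 ^ 2 :=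
    c2.eventually (K.eq q' hc)
  have c3 : Tendsto (fun ξ : ℂ => (K.κ q' ((K.κ q).symm (y, ξ))).1) (𝓝 0) (𝓝 (K.κ q' q').1) :=
    (continuous_fst.tendsto _).comp c2
  have c4 : Tendsto (fun ξ : ℂ => C ^ 2 * ‖K.e q' (K.κ q' ((K.κ q).symm (y, ξ))).1‖) (𝓝 0)
      (𝓝 (C ^ 2 * ‖K.e q' (K.κ q' q').1‖)) :=
    (((K.e_an q' hc).continuousAt.tendsto.comp c3).norm).const_mul _
  rw [he0, norm_zero, mul_zero] at c4
  have hle : ‖K.e q y‖ ≤ 0 := by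
    refine ge_of_tendsto (c4.mono_left (nhdsWithin_le_nhds (s := {0}ᶜ))) ?_
    rw [eventually_nhdsWithin_iff]
    filter_upwards [hC, e1, e2, e3] with ξ b1 b2 b3 b4 b5
    have hξ : ξ ≠ 0 := b5
    rw [(K.κ q').left_inv b3, b2] at b4
    rw [← hq', sub_zero] at b1
    have b6 : ‖(K.κ q' ((K.κ q).symm (y, ξ))).2‖ ≤ C * ‖ξ‖ := by
      refine le_trans ?_ b1
      have b7 := norm_snd_le (K.κ q' ((K.κ q).symm (y, ξ)) - K.κ q' q')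
      rw [Prod.snd_sub, K.snd_zero q' hc, sub_zero] at b7
      exact b7
    have b8 : ‖K.e q y‖ * ‖ξ‖ ^ 2 ≤
        (C ^ 2 * ‖K.e q' (K.κ q' ((K.κ q).symm (y, ξ))).1‖) * ‖ξ‖ ^ 2 := by
      rw [← norm_pow, ← norm_mul, b4, norm_mul, norm_pow]
      have b9 : ‖(K.κ q' ((K.κ q).symm (y, ξ))).2‖ ^ 2 ≤ (C * ‖ξ‖) ^ 2 :=
        pow_le_pow_left₀ (norm_nonneg _) b6 2
      calc _ ≤ ‖K.e q' (K.κ q' ((K.κ q).symm (y, ξ))).1‖ * (C * ‖ξ‖) ^ 2 :=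
            mul_le_mul_of_nonneg_left b9 (norm_nonneg _)
        _ = _ := by rw [norm_pow]; ring
    exact le_of_mul_le_mul_right b8 (pow_pos (norm_pos_iff.2 hξ) 2)
  exact hey (norm_le_zero_iff.1 hle)

end Pool.Agent.Lib.MP_d4bba2_ag
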