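import Mathlib

/-!
The input for the construction of the surface: a compact connected Riemann surface `C`, finitely many
points `p k` with coordinates `z k`, and a function `s` on `C`, holomorphic and without zeros outside the
points `p k`, of odd order `2 m k + 1` at `p k`.
-/

open scoped Topology Manifold ContDiff
open Filter

noncomputable section

namespace Pool.Agent.Lib.MP_d4bba2_ag

structure CurveData where
  C : Type
  [top : TopologicalSpace C]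
  [t2 : T2Space C]
  [compact : CompactSpace C]
  [connected : ConnectedSpace C]
  [charted : ChartedSpace ℂ C]
  [mfd : IsManifold 𝓘(ℂ, ℂ) ω C]
  K : Type
  [finK : Finite K]
  [neK : Nonempty K]
  p : K → C
  z : K → OpenPartialHomeomorph C ℂ
  z_mem : ∀ k, z k ∈ IsManifold.maximalAtlas 𝓘(ℂ, ℂ) ω C
  p_mem : ∀ k, p k ∈ (z k).source
  z_p : ∀ k, z k (p k) = 0
  z_target : ∀ k, (z k).target = Metric.ball 0 (1 / 2)
  disj : ∀ k l, k ≠ l → Disjoint (z k).source (z l).source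
  s : C → ℂ
  s_an : ∀ c, (∀ k, c ≠ p k) → ContMDiffAt 𝓘(ℂ, ℂ) 𝓘(ℂ, ℂ) ω s c
  s_ne : ∀ c, (∀ k, c ≠ p k) → s c ≠ 0
  s_p : ∀ k, s (p k) = 0
  m : K → ℤ
  g : K → ℂ → ℂ
  g_an : ∀ k, AnalyticOnNhd ℂ (g k) (Metric.ball 0 (1 / 2))
  g_ne : ∀ k, ∀ x ∈ Metric.ball (0 : ℂ) (1 / 2), g k x ≠ 0
  s_eq : ∀ k, ∀ c ∈ (z k).source, c ≠ p k → s c = z k c ^ (2 * m k + 1) * g k (z k c)

attribute [instance] CurveData.top CurveData.t2 CurveData.compact CurveData.connected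
  CurveData.charted CurveData.mfd CurveData.finK CurveData.neK

/-- Holomorphic functions on `C` minus the points `p k` with at most simple poles at the `p k` are
constant: `h⁰(C, O(∑ p k)) = 1`. -/
def CurveData.Rigid (D : CurveData) : Prop :=
  ∀ a : D.C → ℂ, (∀ c, (∀ k, c ≠ D.p k) → ContMDiffAt 𝓘(ℂ, ℂ) 𝓘(ℂ, ℂ) ω a c) →
    (∀ k, ∃ a0 : ℂ → ℂ, AnalyticAt ℂ a0 0 ∧ ∀ᶠ x in 𝓝[≠] (0 : ℂ),
      x * a ((D.z k).symm x) = a0 x) →
    ∃ c0, ∀ c, (∀ k, c ≠ D.p k) → a c = c0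

/-- the density of the 1-form `τ` (its value at `c` is `τ c` times the differential of the chart
`chartAt c`) in the chart `ψ` -/
def dens1 {C : Type} [TopologicalSpace C] [ChartedSpace ℂ C] (τ : C → ℂ)
    (ψ : OpenPartialHomeomorph C ℂ) (x : ℂ) : ℂ :=
  τ (ψ.symm x) * deriv (fun x' => chartAt ℂ (ψ.symm x) (ψ.symm x')) x

/-- a holomorphic 1-form on `C` minus the points `p k`, of order exactly `m k` at `p k`, with finitely
many zeros -/
structure CurveData.Form1 (D : CurveData) where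
  τ : D.C → ℂ
  an : ∀ c, (∀ k, c ≠ D.p k) → AnalyticAt ℂ (dens1 τ (chartAt ℂ c)) (chartAt ℂ c c)
  h : D.K → ℂ → ℂ
  h_an : ∀ k, AnalyticOnNhd ℂ (h k) (Metric.ball 0 (1 / 2))
  h_ne : ∀ k, h k 0 ≠ 0
  eq : ∀ k, ∀ x ∈ Metric.ball (0 : ℂ) (1 / 2), x ≠ 0 → dens1 τ (D.z k) x = x ^ (D.m k) * h k x
  fin : {c | (∀ k, c ≠ D.p k) ∧ τ c = 0}.Finite

end Pool.Agent.Lib.MP_d4bba2_ag
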