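import Mathlib

/-!
THE CURVE C : w² = 1 + u⁵ with one point `inf` at infinity, and its charts as partial equivalences.

csq z = z ^ (1/2), croot5 z = z ^ (1/5) (principal branches, cpow).
chU w0 (w0 ≠ 0): coordinate u near the points with Re (w/w0) > 0; inverse x ↦ (x, w0 * csq ((1+x^5)/w0^2)).
   left_inv: (w/w0)^2 = (1+u^5)/w0^2 and Re (w/w0) > 0, so csq of it is w/w0 (Complex.pow_cpow_nat_inv with n = 2, argument
   in (-π/2, π/2)).  target: (w/w0)^2 is in the slit plane when Re (w/w0) > 0.  map_target: Re (csq z) > 0 for z in the slit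
   plane.  equation: (csq z)^2 = z always (Complex.cpow_nat_inv_pow).
chW u0 (u0^5 = -1): coordinate w near the point (u0,0): |w| < 1 and |arg (u/u0)| < π/5; inverse w ↦ (u0 * croot5 (1-w^2), w).
   Check: u^5 = u0^5 * (1-w^2) = w^2 - 1.  left_inv: (u/u0)^5 = 1 - w^2 and |arg (u/u0)| < π/5 (pow_cpow_nat_inv, n = 5).
   map_target: |w| < 1 gives 1 - w^2 ≠ 0 in the slit plane, arg (croot5 z) = arg z / 5.
chY: coordinate y at inf: y = (u^2/w) * csq (1 + u^(-5)) for |u| > 4, y = 0 at inf; inverse y ↦ inf if y = 0, else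
   (y^(-2), y^(-5) * csq (1 + y^10)); target = ball 0 (1/2).
   For |u| > 4: |u^5| > 1 so w ≠ 0; y^2 = u^4/w^2 * (1+u^(-5)) = 1/u, so y ≠ 0, |y| < 1/2, y^10 = u^(-5), and
   y^(-5) csq (1+y^10) = u^3 * y * csq (1+u^(-5)) = u^5/w * (1 + u^(-5)) = w.  Conversely for 0 < |y| < 1/2, u = y^(-2), w = y^(-5) q,
   q = csq (1+y^10) ≠ 0 : |u| > 4 and (u^2/w) csq (1+u^(-5)) = y^(-4) y^5 q^(-1) q = y.
-/

open scoped Topology
open Filter Complex

noncomputable section

namespace Pool.Agent.Lib.MP_d4bba2_ag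

/-- the curve `w² = 1 + u⁵` with its point at infinity -/
inductive Cv : Type
  | aff (u w : ℂ) (h : w ^ 2 = 1 + u ^ 5) : Cv
  | inf : Cv

theorem Cv.aff_ext {u w u' w' : ℂ} {h : w ^ 2 = 1 + u ^ 5} {h' : w' ^ 2 = 1 + u' ^ 5}
    (hu : u = u') (hw : w = w') : Cv.aff u w h = Cv.aff u' w' h' := by
  subst hu
  subst hw
  rfl

/-- the principal square root -/
def csq (z : ℂ) : ℂ := z ^ (((2 : ℕ) : ℂ)⁻¹)

/-- the principal fifth root -/
def croot5 (z : ℂ) : ℂ := z ^ (((5 : ℕ) : ℂ)⁻¹)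

theorem csq_sq (z : ℂ) : csq z ^ 2 = z := Complex.cpow_nat_inv_pow z (by norm_num)

theorem croot5_pow (z : ℂ) : croot5 z ^ 5 = z := Complex.cpow_nat_inv_pow z (by norm_num)

theorem csq_of_re_pos {a : ℂ} (ha : 0 < a.re) : csq (a ^ 2) = a := by
  have h := abs_arg_lt_pi_div_two_iff.2 (Or.inl ha)
  rw [abs_lt] at h
  refine Complex.pow_cpow_nat_inv (by norm_num) ?_ ?_
  · push_cast; linarith [h.1]
  · push_cast; linarith [h.2]

/-- the argument of the principal root of order `n` -/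
theorem arg_root {z : ℂ} (hz : z ≠ 0) {n : ℕ} (hn : 0 < n) :
    (z ^ ((n : ℂ)⁻¹)).arg = z.arg / n := by
  have hn' : (0 : ℝ) < n := Nat.cast_pos.2 hn
  have hn1 : (1 : ℝ) ≤ n := by exact_mod_cast hn
  have him : (log z * (n : ℂ)⁻¹).im = z.arg / n := by
    have e : log z * (n : ℂ)⁻¹ = log z * ((((n : ℝ)⁻¹ : ℝ)) : ℂ) := by push_cast; rfl
    rw [e, im_mul_ofReal, log_im]
    rfl
  have h1 : -Real.pi < z.arg / n := by
    rw [lt_div_iff₀ hn']
    have := neg_pi_lt_arg z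
    nlinarith [Real.pi_pos]
  have h2 : z.arg / n ≤ Real.pi := by
    rw [div_le_iff₀ hn']
    have := arg_le_pi z
    nlinarith [Real.pi_pos]
  rw [cpow_def_of_ne_zero hz, ← log_im, log_exp (by rw [him]; exact h1) (by rw [him]; exact h2), him]

theorem csq_re_pos {z : ℂ} (hz : z ∈ slitPlane) : 0 < (csq z).re := by
  have hz0 := slitPlane_ne_zero hz
  have hπ := slitPlane_arg_ne_pi hz
  have h1 : (csq z).arg = z.arg / 2 := by
    have := arg_root hz0 (n := 2) (by norm_num)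
    unfold csq
    rw [this]
    norm_num
  have h2 : |(csq z).arg| < Real.pi / 2 := by
    rw [h1, abs_lt]
    have a1 := neg_pi_lt_arg z
    have a2 := lt_of_le_of_ne (arg_le_pi z) hπ
    constructor <;> linarith
  rcases abs_arg_lt_pi_div_two_iff.1 h2 with h | h
  · exact h
  · exfalso
    apply hz0
    have := csq_sq z
    rw [h] at this
    rw [← this]
    norm_num

theorem sq_mem_slit {a : ℂ} (ha : 0 < a.re) : a ^ 2 ∈ slitPlane := by
  rw [mem_slitPlane_iff]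
  by_cases h : a.im = 0
  · left
    rw [sq, mul_re, h]
    nlinarith
  · right
    rw [sq, mul_im]
    intro h0
    have h1 : 2 * a.re * a.im = 0 := by linarith
    rcases mul_eq_zero.1 h1 with h2 | h2
    · linarith
    · exact h h2

theorem csq_an {z : ℂ} (hz : z ∈ slitPlane) : AnalyticAt ℂ csq z :=
  AnalyticAt.cpow (f := fun z => z) (g := fun _ => ((2 : ℕ) : ℂ)⁻¹) analyticAt_id
    analyticAt_const hz

theorem croot5_an {z : ℂ} (hz : z ∈ slitPlane) : AnalyticAt ℂ croot5 z :=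
  AnalyticAt.cpow (f := fun z => z) (g := fun _ => ((5 : ℕ) : ℂ)⁻¹) analyticAt_id
    analyticAt_const hz

theorem one_add_mem_slit {z : ℂ} (hz : ‖z‖ < 1) : 1 + z ∈ slitPlane :=
  mem_slitPlane_of_norm_lt_one hz

theorem one_sub_sq_mem_slit {w : ℂ} (hw : ‖w‖ < 1) : 1 - w ^ 2 ∈ slitPlane := by
  have h2 : ‖-(w ^ 2)‖ < 1 := by
    rw [norm_neg, norm_pow]
    nlinarith [norm_nonneg w]
  have := one_add_mem_slit h2
  rwa [← sub_eq_add_neg] at this

def chUsource (w0 : ℂ) : Cv → Prop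
  | .aff _ w _ => 0 < (w / w0).re
  | .inf => False

def chUfun : Cv → ℂ
  | .aff u _ _ => u
  | .inf => 0

def chU (w0 : ℂ) (h0 : w0 ≠ 0) : PartialEquiv Cv ℂ where
  toFun := chUfun
  invFun x := .aff x (w0 * csq ((1 + x ^ 5) / w0 ^ 2)) (by
    rw [mul_pow, csq_sq]; field_simp)
  source := {c | chUsource w0 c}
  target := {x | (1 + x ^ 5) / w0 ^ 2 ∈ slitPlane}
  map_source' := by
    rintro (⟨u, w, h⟩ | _) hc
    · have hc' : 0 < (w / w0).re := hc
      change (1 + u ^ 5) / w0 ^ 2 ∈ slitPlane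
      rw [← h, ← div_pow]
      exact sq_mem_slit hc'
    · exact hc.elim
  map_target' := by
    intro x hx
    have hx' : (1 + x ^ 5) / w0 ^ 2 ∈ slitPlane := hx
    change 0 < (w0 * csq ((1 + x ^ 5) / w0 ^ 2) / w0).re
    rw [mul_div_cancel_left₀ _ h0]
    exact csq_re_pos hx'
  left_inv' := by
    rintro (⟨u, w, h⟩ | _) hc
    · have hc' : 0 < (w / w0).re := hc
      have e : w0 * csq ((1 + u ^ 5) / w0 ^ 2) = w := by
        rw [← h, ← div_pow, csq_of_re_pos hc', mul_div_cancel₀ _ h0]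
      exact Cv.aff_ext rfl e
    · exact hc.elim
  right_inv' := by
    intro x _
    rfl

def chWsource (u0 : ℂ) : Cv → Prop
  | .aff u w _ => ‖w‖ < 1 ∧ |(u / u0).arg| < Real.pi / 5
  | .inf => False

def chWfun : Cv → ℂ
  | .aff _ w _ => w
  | .inf => 0

def chW (u0 : ℂ) (h0 : u0 ^ 5 = -1) : PartialEquiv Cv ℂ where
  toFun := chWfun
  invFun w := .aff (u0 * croot5 (1 - w ^ 2)) w (by
    rw [mul_pow, croot5_pow, h0]; ring)
  source := {c | chWsource u0 c}
  target := Metric.ball 0 1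
  map_source' := by
    rintro (⟨u, w, h⟩ | _) hc
    · have hc' : ‖w‖ < 1 ∧ |(u / u0).arg| < Real.pi / 5 := hc
      change w ∈ Metric.ball (0 : ℂ) 1
      rw [mem_ball_zero_iff]
      exact hc'.1
    · exact hc.elim
  map_target' := by
    intro w hw
    have hw' : ‖w‖ < 1 := by rwa [mem_ball_zero_iff] at hw
    have hs := one_sub_sq_mem_slit hw'
    have hu0 : u0 ≠ 0 := by
      rintro rfl
      norm_num at h0
    change ‖w‖ < 1 ∧ |(u0 * croot5 (1 - w ^ 2) / u0).arg| < Real.pi / 5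
    rw [mul_div_cancel_left₀ _ hu0]
    refine ⟨hw', ?_⟩
    have h1 : (croot5 (1 - w ^ 2)).arg = (1 - w ^ 2).arg / 5 := by
      have := arg_root (slitPlane_ne_zero hs) (n := 5) (by norm_num)
      unfold croot5
      rw [this]
      norm_num
    rw [h1, abs_lt]
    have a1 := neg_pi_lt_arg (1 - w ^ 2)
    have a2 := lt_of_le_of_ne (arg_le_pi (1 - w ^ 2)) (slitPlane_arg_ne_pi hs)
    constructor <;> linarith
  left_inv' := by
    rintro (⟨u, w, h⟩ | _) hc
    · have hc' : ‖w‖ < 1 ∧ |(u / u0).arg| < Real.pi / 5 := hc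
      have hu0 : u0 ≠ 0 := by
        rintro rfl
        norm_num at h0
      have e : u0 * croot5 (1 - w ^ 2) = u := by
        have e1 : 1 - w ^ 2 = (u / u0) ^ 5 := by
          rw [div_pow, h0, h]
          ring
        have h2 := hc'.2
        rw [abs_lt] at h2
        have e2 : croot5 ((u / u0) ^ 5) = u / u0 := by
          refine Complex.pow_cpow_nat_inv (by norm_num) ?_ ?_
          · push_cast; linarith [h2.1]
          · push_cast; linarith [h2.2]
        rw [e1, e2, mul_div_cancel₀ _ hu0]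
      exact Cv.aff_ext e rfl
    · exact hc.elim
  right_inv' := by
    intro x _
    rfl

def chYsource : Cv → Prop
  | .aff u _ _ => 4 < ‖u‖
  | .inf => True

def chYfun : Cv → ℂ
  | .aff u w _ => u ^ 2 / w * csq (1 + (u ^ 5)⁻¹)
  | .inf => 0

open Classical in
def chYinv (y : ℂ) : Cv :=
  if hy : y = 0 then .inf else .aff ((y ^ 2)⁻¹) ((y ^ 5)⁻¹ * csq (1 + y ^ 10)) (by
    rw [mul_pow, csq_sq]; field_simp; ring)

/-- the facts about the coordinate at infinity -/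
theorem chY_facts {u w : ℂ} (h : w ^ 2 = 1 + u ^ 5) (hu : 4 < ‖u‖) :
    u ≠ 0 ∧ w ≠ 0 ∧ csq (1 + (u ^ 5)⁻¹) ≠ 0 ∧ (u ^ 2 / w * csq (1 + (u ^ 5)⁻¹)) ^ 2 = u⁻¹ := by
  have hu0 : u ≠ 0 := by
    rintro rfl
    norm_num at hu
  have h5 : (1 : ℝ) < ‖u ^ 5‖ := by
    rw [norm_pow]
    exact one_lt_pow₀ (by linarith) (by norm_num)
  have h5' : 1 + u ^ 5 ≠ 0 := by
    intro h0
    have : u ^ 5 = -1 := by linear_combination h0
    rw [this] at h5
    norm_num at h5
  have hw0 : w ≠ 0 := by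
    rintro rfl
    apply h5'
    rw [← h]
    norm_num
  have hu5 : u ^ 5 ≠ 0 := pow_ne_zero 5 hu0
  have e1 : 1 + (u ^ 5)⁻¹ = (1 + u ^ 5) / u ^ 5 := by
    field_simp
    ring
  have hs : csq (1 + (u ^ 5)⁻¹) ≠ 0 := by
    intro h0
    have h1 := csq_sq (1 + (u ^ 5)⁻¹)
    rw [h0, e1] at h1
    have h2 : (1 + u ^ 5) / u ^ 5 = 0 := by rw [← h1]; norm_num
    rcases div_eq_zero_iff.1 h2 with h3 | h3
    · exact h5' h3
    · exact hu5 h3
  refine ⟨hu0, hw0, hs, ?_⟩
  rw [mul_pow, csq_sq, div_pow, h, e1]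
  field_simp

theorem chYfun_aff (u w : ℂ) (h : w ^ 2 = 1 + u ^ 5) :
    chYfun (.aff u w h) = u ^ 2 / w * csq (1 + (u ^ 5)⁻¹) := rfl

theorem chYinv_zero : chYinv 0 = .inf := dif_pos rfl

theorem chYinv_of_ne {y : ℂ} (hy : y ≠ 0) :
    ∃ h, chYinv y = .aff ((y ^ 2)⁻¹) ((y ^ 5)⁻¹ * csq (1 + y ^ 10)) h :=
  ⟨_, dif_neg hy⟩

theorem norm_lt_half_sq {y : ℂ} (hy : ‖y ^ 2‖ < 1 / 4) : ‖y‖ < 1 / 2 := by
  rw [norm_pow] at hy
  nlinarith [norm_nonneg y]

def chY : PartialEquiv Cv ℂ where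
  toFun := chYfun
  invFun := chYinv
  source := {c | chYsource c}
  target := Metric.ball 0 (1 / 2)
  map_source' := by
    rintro (⟨u, w, h⟩ | _) hc
    · have hc' : 4 < ‖u‖ := hc
      obtain ⟨hu0, hw0, hs, hy2⟩ := chY_facts h hc'
      change u ^ 2 / w * csq (1 + (u ^ 5)⁻¹) ∈ Metric.ball (0 : ℂ) (1 / 2)
      rw [mem_ball_zero_iff]
      apply norm_lt_half_sq
      rw [hy2, norm_inv, inv_eq_one_div]
      exact one_div_lt_one_div_of_lt (by norm_num) hc'
    · change (0 : ℂ) ∈ Metric.ball (0 : ℂ) (1 / 2)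
      rw [mem_ball_zero_iff, norm_zero]
      norm_num
  map_target' := by
    intro y hy
    have hy' : ‖y‖ < 1 / 2 := by rwa [mem_ball_zero_iff] at hy
    by_cases h0 : y = 0
    · change chYsource (chYinv y)
      rw [h0, chYinv_zero]
      trivial
    · obtain ⟨h, e⟩ := chYinv_of_ne h0
      change chYsource (chYinv y)
      rw [e]
      change 4 < ‖(y ^ 2)⁻¹‖
      rw [norm_inv, norm_pow]
      have hpos : 0 < ‖y‖ := norm_pos_iff.2 h0
      have h4 : ‖y‖ ^ 2 < 1 / 4 := by nlinarith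
      have h5 : (4 : ℝ) = (1 / 4)⁻¹ := by norm_num
      rw [h5]
      exact inv_strictAnti₀ (by positivity) h4
  left_inv' := by
    rintro (⟨u, w, h⟩ | _) hc
    · have hc' : 4 < ‖u‖ := hc
      obtain ⟨hu0, hw0, hs, hy2⟩ := chY_facts h hc'
      change chYinv (u ^ 2 / w * csq (1 + (u ^ 5)⁻¹)) = _
      have hu2 : u ^ 2 ≠ 0 := pow_ne_zero 2 hu0
      have hy0 : u ^ 2 / w * csq (1 + (u ^ 5)⁻¹) ≠ 0 :=
        mul_ne_zero (div_ne_zero hu2 hw0) hs
      obtain ⟨h', e⟩ := chYinv_of_ne hy0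
      rw [e]
      set q := csq (1 + (u ^ 5)⁻¹) with hq
      have e10 : (u ^ 2 / w * q) ^ 10 = (u ^ 5)⁻¹ := by
        have : (u ^ 2 / w * q) ^ 10 = ((u ^ 2 / w * q) ^ 2) ^ 5 := by ring
        rw [this, hy2, inv_pow]
      have e5 : (u ^ 2 / w * q) ^ 5 = (u ^ 2)⁻¹ * (u ^ 2 / w * q) := by
        have : (u ^ 2 / w * q) ^ 5 = ((u ^ 2 / w * q) ^ 2) ^ 2 * (u ^ 2 / w * q) := by ring
        rw [this, hy2, inv_pow]
      refine Cv.aff_ext ?_ ?_
      · rw [hy2, inv_inv]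
      · rw [e10, ← hq, e5]
        field_simp
    · exact chYinv_zero
  right_inv' := by
    intro y hy
    have hy' : ‖y‖ < 1 / 2 := by rwa [mem_ball_zero_iff] at hy
    by_cases h0 : y = 0
    · change chYfun (chYinv y) = y
      rw [h0, chYinv_zero]
      rfl
    · obtain ⟨h, e⟩ := chYinv_of_ne h0
      change chYfun (chYinv y) = y
      rw [e, chYfun_aff]
      have e5 : (((y ^ 2)⁻¹) ^ 5)⁻¹ = y ^ 10 := by
        rw [inv_pow, inv_inv]
        ring
      rw [e5]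
      have hq : csq (1 + y ^ 10) ≠ 0 := by
        intro hz
        have h1 := csq_sq (1 + y ^ 10)
        rw [hz] at h1
        have h2 : y ^ 10 = -1 := by linear_combination -h1
        have h3 : ‖y ^ 10‖ < 1 := by
          rw [norm_pow]
          exact pow_lt_one₀ (norm_nonneg _) (by linarith) (by norm_num)
        rw [h2] at h3
        norm_num at h3
      field_simp

/-- the index set of the charts of the curve -/
inductive CvIdx : Type
  | U (w0 : ℂ) (h : w0 ≠ 0) : CvIdx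
  | W (u0 : ℂ) (h : u0 ^ 5 = -1) : CvIdx
  | Y : CvIdx

def cvChart : CvIdx → PartialEquiv Cv ℂ
  | .U w0 h => chU w0 h
  | .W u0 h => chW u0 h
  | .Y => chY

theorem Cv.pow_eq {u w : ℂ} (h : w ^ 2 = 1 + u ^ 5) (hw : w = 0) : u ^ 5 = -1 := by
  subst hw; linear_combination -h

open Classical in
/-- the reference chart at a point -/
def cvRef : Cv → CvIdx
  | .aff u w h => if hw : w = 0 then .W u (Cv.pow_eq h hw) else .U w hw
  | .inf => .Y

end Pool.Agent.Lib.MP_d4bba2_ag
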