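import Mathlib

/-!
A manifold from a set with compatible partial charts: it is enough to compare every chart with one
reference chart at every point.
-/

open scoped Manifold ContDiff Topology
open Filter Set

noncomputable section

namespace Pool.Agent.Lib.MP_d4bba2_ag

variable {E : Type} [NormedAddCommGroup E] [NormedSpace ℂ E] {S : Type}

/-- near `x` the chart `e` is mapped analytically into the chart `e'` -/
structure Comp (e e' : PartialEquiv S E) (x : S) : Prop where
  mem : ∀ᶠ y in 𝓝 (e x), e.symm y ∈ e'.source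
  an : AnalyticAt ℂ (fun y => e' (e.symm y)) (e x)

/-- charts on a set `S`, with a reference chart `φ (r x)` at every point `x` -/
structure GlueData (E : Type) [NormedAddCommGroup E] [NormedSpace ℂ E] (S : Type) where
  ι : Type
  φ : ι → PartialEquiv S E
  r : S → ι
  mem : ∀ x, x ∈ (φ (r x)).source
  tgt : ∀ i, IsOpen (φ i).target
  comp : ∀ i x, x ∈ (φ i).source → Comp (φ i) (φ (r x)) x
  comp' : ∀ i x, x ∈ (φ i).source → Comp (φ (r x)) (φ i) x

theorem Comp.trans {e e' e'' : PartialEquiv S E} {x : S} (hx : x ∈ e.source)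
    (h : Comp e e' x) (h' : Comp e' e'' x) : Comp e e'' x := by
  have hv : e' (e.symm (e x)) = e' x := by rw [e.left_inv hx]
  have hc : Tendsto (fun y => e' (e.symm y)) (𝓝 (e x)) (𝓝 (e' x)) := by
    have := h.an.continuousAt
    rw [ContinuousAt, hv] at this
    exact this
  have h1 := hc.eventually h'.mem
  constructor
  · filter_upwards [h1, h.mem] with y hy hy'
    rw [e'.left_inv hy'] at hy
    exact hy
  · have h2 : AnalyticAt ℂ (fun y => e'' (e'.symm (e' (e.symm y)))) (e x) := by
      have := h'.an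
      rw [← hv] at this
      exact AnalyticAt.fun_comp (f := fun y => e' (e.symm y)) this h.an
    refine h2.congr ?_
    filter_upwards [h.mem] with y hy
    rw [e'.left_inv hy]

theorem GlueData.comp_all (D : GlueData E S) (i j : D.ι) (x : S) (hi : x ∈ (D.φ i).source)
    (hj : x ∈ (D.φ j).source) : Comp (D.φ i) (D.φ j) x :=
  (D.comp i x hi).trans hi (D.comp' j x hj)

theorem GlueData.open_src (D : GlueData E S) (i j : D.ι) :
    IsOpen ((D.φ i).symm.trans (D.φ j)).source := by
  rw [isOpen_iff_mem_nhds]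
  intro y hy
  rw [PartialEquiv.trans_source] at hy ⊢
  obtain ⟨hy1, hy2⟩ := hy
  have hy1' : y ∈ (D.φ i).target := hy1
  have hx : (D.φ i).symm y ∈ (D.φ i).source := (D.φ i).map_target hy1'
  have hc := D.comp_all i j _ hx hy2
  have he : (D.φ i) ((D.φ i).symm y) = y := (D.φ i).right_inv hy1'
  have h1 := hc.mem
  rw [he] at h1
  filter_upwards [h1, (D.tgt i).mem_nhds hy1'] with z hz hz'
  exact ⟨hz', hz⟩

theorem GlueData.an_trans (D : GlueData E S) (i j : D.ι) {y : E}
    (hy : y ∈ ((D.φ i).symm.trans (D.φ j)).source) :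
    AnalyticAt ℂ (fun y => D.φ j ((D.φ i).symm y)) y := by
  rw [PartialEquiv.trans_source] at hy
  obtain ⟨hy1, hy2⟩ := hy
  have hy1' : y ∈ (D.φ i).target := hy1
  have hx : (D.φ i).symm y ∈ (D.φ i).source := (D.φ i).map_target hy1'
  have hc := D.comp_all i j _ hx hy2
  have he : (D.φ i) ((D.φ i).symm y) = y := (D.φ i).right_inv hy1'
  have h1 := hc.an
  rw [he] at h1
  exact h1

def GlueData.core (D : GlueData E S) : ChartedSpaceCore E S where
  atlas := range D.φ
  chartAt x := D.φ (D.r x)
  mem_chart_source := D.mem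
  chart_mem_atlas x := ⟨_, rfl⟩
  open_source := by
    rintro _ _ ⟨i, rfl⟩ ⟨j, rfl⟩
    exact D.open_src i j
  continuousOn_toFun := by
    rintro _ _ ⟨i, rfl⟩ ⟨j, rfl⟩
    intro y hy
    exact (D.an_trans i j hy).continuousAt.continuousWithinAt

/-- the set `S` with the topology and the charts of `D` -/
def GlueData.Space (_ : GlueData E S) : Type := S

instance GlueData.top (D : GlueData E S) : TopologicalSpace D.Space := D.core.toTopologicalSpace

instance GlueData.charted (D : GlueData E S) : ChartedSpace E D.Space := D.core.toChartedSpace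

/-- the charts -/
def GlueData.chart (D : GlueData E S) (i : D.ι) : OpenPartialHomeomorph D.Space E :=
  D.core.openPartialHomeomorph (D.φ i) ⟨i, rfl⟩

@[simp] theorem GlueData.chart_coe (D : GlueData E S) (i : D.ι) :
    (D.chart i : D.Space → E) = D.φ i := rfl

@[simp] theorem GlueData.chart_symm_coe (D : GlueData E S) (i : D.ι) :
    ((D.chart i).symm : E → D.Space) = (D.φ i).symm := rfl

@[simp] theorem GlueData.chart_source (D : GlueData E S) (i : D.ι) :
    (D.chart i).source = (D.φ i).source := rfl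

@[simp] theorem GlueData.chart_target (D : GlueData E S) (i : D.ι) :
    (D.chart i).target = (D.φ i).target := rfl

theorem GlueData.chartAt_eq (D : GlueData E S) (x : D.Space) :
    chartAt E x = D.chart (D.r x) := rfl

theorem GlueData.mem_atlas_iff (D : GlueData E S) (e : OpenPartialHomeomorph D.Space E) :
    e ∈ atlas E D.Space ↔ ∃ i, e = D.chart i := by
  change e ∈ (⋃ (e' : PartialEquiv S E) (he : e' ∈ D.core.atlas),
    ({D.core.openPartialHomeomorph e' he} : Set (OpenPartialHomeomorph D.Space E))) ↔ _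
  simp only [mem_iUnion, mem_singleton_iff]
  constructor
  · rintro ⟨e', ⟨i, rfl⟩, he⟩
    exact ⟨i, he⟩
  · rintro ⟨i, rfl⟩
    exact ⟨_, ⟨i, rfl⟩, rfl⟩

instance GlueData.mfd [CompleteSpace E] (D : GlueData E S) :
    IsManifold 𝓘(ℂ, E) ω D.Space := by
  apply isManifold_of_contDiffOn
  intro e e' he he'
  obtain ⟨i, rfl⟩ := (D.mem_atlas_iff e).1 he
  obtain ⟨j, rfl⟩ := (D.mem_atlas_iff e').1 he'
  intro y hy
  have hy' : y ∈ ((D.φ i).symm.trans (D.φ j)).source := hy.1
  exact (D.an_trans i j hy').contDiffAt.contDiffWithinAt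

theorem GlueData.chart_mem [CompleteSpace E] (D : GlueData E S) (i : D.ι) :
    D.chart i ∈ IsManifold.maximalAtlas 𝓘(ℂ, E) ω D.Space :=
  IsManifold.subset_maximalAtlas ((D.mem_atlas_iff _).2 ⟨i, rfl⟩)

end Pool.Agent.Lib.MP_d4bba2_ag
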