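import Pool.Agent.Lib.MP_d4bba2_ag.Cv
import Pool.Agent.Lib.MP_d4bba2_ag.Glue

/-!
COMPARISON OF THE CHART U w0 WITH THE REFERENCE CHART.  A point x in the source of U w0 is aff u w with Re (w/w0) > 0, so
w ≠ 0 and cvRef x = U w.  Both charts have the coordinate u.  The inverse of U w0 is x' ↦ (x', w0 * csq ((1+x'^5)/w0^2)), its
second component is continuous (analytic) at u with value w, so Re (·/w) > 0 (value 1) near u: mem.  an: the composition is
the identity.  Same for the other direction (Re (·/w0) > 0 at u by assumption, an open condition).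
-/

open scoped Topology
open Filter Complex

noncomputable section

namespace Pool.Agent.Lib.MP_d4bba2_ag

theorem comp_UU (w1 w2 : ℂ) (h1 : w1 ≠ 0) (h2 : w2 ≠ 0) (u w : ℂ) (h : w ^ 2 = 1 + u ^ 5)
    (hw1 : 0 < (w / w1).re) (hw2 : 0 < (w / w2).re) :
    Comp (chU w1 h1) (chU w2 h2) (.aff u w h) := by
  have hz : (1 + u ^ 5) / w1 ^ 2 = (w / w1) ^ 2 := by rw [← h, div_pow]
  have hs : (1 + u ^ 5) / w1 ^ 2 ∈ slitPlane := by rw [hz]; exact sq_mem_slit hw1
  constructor
  · change ∀ᶠ y in 𝓝 u, 0 < (w1 * csq ((1 + y ^ 5) / w1 ^ 2) / w2).re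
    have hc : ContinuousAt (fun y : ℂ => (w1 * csq ((1 + y ^ 5) / w1 ^ 2) / w2).re) u := by
      have h3 : ContinuousAt (fun y : ℂ => csq ((1 + y ^ 5) / w1 ^ 2)) u :=
        ContinuousAt.comp (f := fun y : ℂ => (1 + y ^ 5) / w1 ^ 2) (csq_an hs).continuousAt
          (by fun_prop)
      exact Complex.continuous_re.continuousAt.comp
        ((continuousAt_const.mul h3).div_const w2)
    have hv : (w1 * csq ((1 + u ^ 5) / w1 ^ 2) / w2).re = (w / w2).re := by
      rw [hz, csq_of_re_pos hw1]; congr 2; field_simp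
    have := hc.eventually (isOpen_Ioi.mem_nhds (show (w1 * csq ((1 + u ^ 5) / w1 ^ 2) / w2).re
      ∈ Set.Ioi (0 : ℝ) by rw [hv]; exact hw2))
    exact this
  · change AnalyticAt ℂ (fun y : ℂ => y) u
    exact analyticAt_id

theorem comp_U (w0 : ℂ) (h0 : w0 ≠ 0) (x : Cv) (hx : x ∈ (chU w0 h0).source) :
    Comp (chU w0 h0) (cvChart (cvRef x)) x ∧ Comp (cvChart (cvRef x)) (chU w0 h0) x := by
  match x, hx with
  | .inf, hx => exact hx.elim
  | .aff u w h, hx =>
    have hw0 : 0 < (w / w0).re := hx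
    have hw : w ≠ 0 := by
      rintro rfl
      simp at hw0
    have hr : cvRef (.aff u w h) = .U w hw := by
      simp [cvRef, hw]
    rw [hr]
    have h1 : 0 < (w / w).re := by rw [div_self hw]; simp
    exact ⟨comp_UU w0 w h0 hw u w h hw0 h1, comp_UU w w0 hw h0 u w h h1 hw0⟩

end Pool.Agent.Lib.MP_d4bba2_ag
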