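import Pool.Agent.Lib.MP_d4bba2_ag.Cv
import Pool.Agent.Lib.MP_d4bba2_ag.Glue

/-!
COMPARISON OF THE CHART W u0 WITH THE REFERENCE CHART.  x = aff u w, |w| < 1, |arg (u/u0)| < π/5.
Case w ≠ 0, reference U w.
 W → U: near w, the inverse is w' ↦ (u0 * croot5 (1-w'^2), w'), Re (w'/w) > 0 near w; the composition is
   w' ↦ u0 * croot5 (1-w'^2), analytic (1 - w^2 in the slit plane).
 U → W: near u, the inverse is x' ↦ (x', w csq ((1+x'^5)/w^2)); its second component is continuous with value w, so its norm is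
   < 1 near u; |arg (x'/u0)| < π/5 near u (arg is continuous at u/u0, which is in the slit plane since its argument is not π and
   it is not 0: u^5 = w^2 - 1 ≠ 0).  The composition is x' ↦ w csq ((1+x'^5)/w^2), analytic.
Case w = 0, reference W u (u^5 = -1).
 both charts have the coordinate w; the inverse of W u0 at w' near 0 is (u0 * croot5 (1-w'^2), w'), continuous with value
   (u, 0) at 0 (left_inv), so |arg (·/u)| < π/5 near; composition = identity.  Same in the other direction.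
-/

open scoped Topology
open Filter Complex

noncomputable section

namespace Pool.Agent.Lib.MP_d4bba2_ag

private theorem cw_slit {z : ℂ} (h0 : z ≠ 0) (h : |z.arg| < Real.pi / 5) : z ∈ slitPlane := by
  rw [Complex.mem_slitPlane_iff_arg]
  refine ⟨?_, h0⟩
  intro h1
  rw [h1, abs_of_pos Real.pi_pos] at h
  linarith [Real.pi_pos]

private theorem cw_root_ne {u0 : ℂ} (h0 : u0 ^ 5 = -1) : u0 ≠ 0 := by
  rintro rfl
  norm_num at h0

private theorem cw_u_ne {u w : ℂ} (h : w ^ 2 = 1 + u ^ 5) (hw : ‖w‖ < 1) : u ≠ 0 := by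
  rintro rfl
  have h1 : w ^ 2 = 1 := by rw [h]; norm_num
  have h2 : ‖w‖ ^ 2 = 1 := by rw [← norm_pow, h1, norm_one]
  nlinarith [norm_nonneg w]

private theorem cw_left {u0 u w : ℂ} (h0 : u0 ^ 5 = -1) (h : w ^ 2 = 1 + u ^ 5)
    (h2 : |(u / u0).arg| < Real.pi / 5) : u0 * croot5 (1 - w ^ 2) = u := by
  have hu0 := cw_root_ne h0
  have e1 : 1 - w ^ 2 = (u / u0) ^ 5 := by
    rw [div_pow, h0, h]
    ring
  rw [abs_lt] at h2
  have e2 : croot5 ((u / u0) ^ 5) = u / u0 := by
    refine Complex.pow_cpow_nat_inv (by norm_num) ?_ ?_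
    · push_cast; linarith [h2.1]
    · push_cast; linarith [h2.2]
  rw [e1, e2, mul_div_cancel₀ _ hu0]

private theorem cw_an (u0 : ℂ) {w : ℂ} (hw : ‖w‖ < 1) :
    AnalyticAt ℂ (fun w' : ℂ => u0 * croot5 (1 - w' ^ 2)) w := by
  have a0 : AnalyticAt ℂ (fun x' : ℂ => x') w := analyticAt_id
  have a1 : AnalyticAt ℂ (fun x' : ℂ => 1 - x' ^ 2) w :=
    analyticAt_const.fun_sub (a0.fun_pow 2)
  exact analyticAt_const.fun_mul
    (AnalyticAt.fun_comp (f := fun x' : ℂ => 1 - x' ^ 2) (croot5_an (one_sub_sq_mem_slit hw)) a1)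

theorem comp_WW (u1 u2 : ℂ) (h1 : u1 ^ 5 = -1) (h2 : u2 ^ 5 = -1) (u w : ℂ)
    (h : w ^ 2 = 1 + u ^ 5) (hw : ‖w‖ < 1) (hw1 : |(u / u1).arg| < Real.pi / 5)
    (hw2 : |(u / u2).arg| < Real.pi / 5) :
    Comp (chW u1 h1) (chW u2 h2) (.aff u w h) := by
  have hu := cw_u_ne h hw
  constructor
  · change ∀ᶠ y in 𝓝 w, ‖y‖ < 1 ∧ |(u1 * croot5 (1 - y ^ 2) / u2).arg| < Real.pi / 5
    have hv : u1 * croot5 (1 - w ^ 2) = u := cw_left h1 h hw1
    have hs : u1 * croot5 (1 - w ^ 2) / u2 ∈ slitPlane := by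
      rw [hv]
      exact cw_slit (div_ne_zero hu (cw_root_ne h2)) hw2
    have hc : ContinuousAt (fun y : ℂ => |(u1 * croot5 (1 - y ^ 2) / u2).arg|) w := by
      refine ContinuousAt.abs ?_
      exact ContinuousAt.comp (f := fun y : ℂ => u1 * croot5 (1 - y ^ 2) / u2)
        (continuousAt_arg hs) ((cw_an u1 hw).continuousAt.div_const u2)
    have e1 : ∀ᶠ y : ℂ in 𝓝 w, ‖y‖ < 1 := continuous_norm.continuousAt.eventually
      (gt_mem_nhds hw)
    have e2 : ∀ᶠ y : ℂ in 𝓝 w, |(u1 * croot5 (1 - y ^ 2) / u2).arg| < Real.pi / 5 :=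
      hc.eventually (gt_mem_nhds (by beta_reduce; rw [hv]; exact hw2))
    exact e1.and e2
  · change AnalyticAt ℂ (fun y : ℂ => y) w
    exact analyticAt_id

theorem comp_W (u0 : ℂ) (h0 : u0 ^ 5 = -1) (x : Cv) (hx : x ∈ (chW u0 h0).source) :
    Comp (chW u0 h0) (cvChart (cvRef x)) x ∧ Comp (cvChart (cvRef x)) (chW u0 h0) x := by
  match x, hx with
  | .inf, hx => exact hx.elim
  | .aff u w h, hx =>
    have hx' : ‖w‖ < 1 ∧ |(u / u0).arg| < Real.pi / 5 := hx
    obtain ⟨hw1, ha⟩ := hx'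
    have hu := cw_u_ne h hw1
    by_cases hw : w = 0
    · have hr : cvRef (.aff u w h) = .W u (Cv.pow_eq h hw) := dif_pos hw
      rw [hr]
      have hs : |(u / u).arg| < Real.pi / 5 := by
        rw [div_self hu, Complex.arg_one, abs_zero]
        positivity
      exact ⟨comp_WW u0 u h0 (Cv.pow_eq h hw) u w h hw1 ha hs,
        comp_WW u u0 (Cv.pow_eq h hw) h0 u w h hw1 hs ha⟩
    · have hr : cvRef (.aff u w h) = .U w hw := dif_neg hw
      rw [hr]
      constructor
      · constructor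
        · change ∀ᶠ y in 𝓝 w, 0 < (y / w).re
          have hc : ContinuousAt (fun y : ℂ => (y / w).re) w :=
            Complex.continuous_re.continuousAt.comp (continuousAt_id.div_const w)
          exact hc.eventually (lt_mem_nhds (by beta_reduce; rw [div_self hw]; simp))
        · exact cw_an u0 hw1
      · have hs1 : (1 + u ^ 5) / w ^ 2 = 1 := by
          rw [← h]
          exact div_self (pow_ne_zero 2 hw)
        have hs2 : (1 + u ^ 5) / w ^ 2 ∈ slitPlane := by
          rw [hs1]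
          exact one_mem_slitPlane
        have a0 : AnalyticAt ℂ (fun x' : ℂ => x') u := analyticAt_id
        have a1 : AnalyticAt ℂ (fun x' : ℂ => (1 + x' ^ 5) / w ^ 2) u :=
          (analyticAt_const.fun_add (a0.fun_pow 5)).fun_div analyticAt_const (pow_ne_zero 2 hw)
        have a2 : AnalyticAt ℂ (fun x' : ℂ => w * csq ((1 + x' ^ 5) / w ^ 2)) u :=
          analyticAt_const.fun_mul
            (AnalyticAt.fun_comp (f := fun x' : ℂ => (1 + x' ^ 5) / w ^ 2) (csq_an hs2) a1)
        have hv : w * csq ((1 + u ^ 5) / w ^ 2) = w := by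
          have h3 : csq ((1 + u ^ 5) / w ^ 2) = 1 := by
            rw [hs1]
            have := csq_of_re_pos (a := 1) (by simp)
            rwa [one_pow] at this
          rw [h3, mul_one]
        constructor
        · change ∀ᶠ y in 𝓝 u, ‖w * csq ((1 + y ^ 5) / w ^ 2)‖ < 1 ∧
            |(y / u0).arg| < Real.pi / 5
          have e1 : ∀ᶠ y in 𝓝 u, ‖w * csq ((1 + y ^ 5) / w ^ 2)‖ < 1 :=
            a2.continuousAt.norm.eventually (gt_mem_nhds (by beta_reduce; rw [hv]; exact hw1))
          have hc : ContinuousAt (fun y : ℂ => |(y / u0).arg|) u := by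
            refine ContinuousAt.abs ?_
            exact ContinuousAt.comp (f := fun y : ℂ => y / u0)
              (continuousAt_arg (cw_slit (div_ne_zero hu (cw_root_ne h0)) ha))
              (continuousAt_id.div_const u0)
          have e2 : ∀ᶠ y in 𝓝 u, |(y / u0).arg| < Real.pi / 5 :=
            hc.eventually (gt_mem_nhds ha)
          exact e1.and e2
        · exact a2

end Pool.Agent.Lib.MP_d4bba2_ag
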