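import Pool.Agent.Lib.MP_d4bba2_ag.Cv
import Pool.Agent.Lib.MP_d4bba2_ag.Glue

/-!
COMPARISON OF THE CHART Y WITH THE REFERENCE CHART.  x = inf: the reference chart is Y itself (Comp e e x for a chart with open
target: near e x the inverse lies in the source, composition = identity).  x = aff u w with |u| > 4: w ≠ 0 (|1+u^5| > 0), the
reference is U w.
 Y → U: near y0 = chYfun x ≠ 0 the inverse is y ↦ (y^(-2), y^(-5) csq (1+y^10)), continuous with value (u,w) at y0, so
   Re (·/w) > 0 near; the composition is y ↦ y^(-2), analytic at y0 ≠ 0.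
 U → Y: near u, |x'| > 4 near u; the composition is x' ↦ x'^2 / (w csq ((1+x'^5)/w^2)) * csq (1 + x'^(-5)), analytic
   (denominator ≠ 0 near u, 1 + u^(-5) in the slit plane).
-/

open scoped Topology
open Filter Complex

noncomputable section

namespace Pool.Agent.Lib.MP_d4bba2_ag

private theorem cy_w_ne {u w : ℂ} (h : w ^ 2 = 1 + u ^ 5) (hu : 4 < ‖u‖) : w ≠ 0 := by
  intro hw
  have h1 : u ^ 5 = -1 := Cv.pow_eq h hw
  have h2 : ‖u‖ ^ 5 = 1 := by rw [← norm_pow, h1, norm_neg, norm_one]
  have h3 : ‖u‖ = 1 := (pow_eq_one_iff_of_nonneg (norm_nonneg u) (by norm_num)).1 h2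
  linarith

private theorem cy_inf (hx : Cv.inf ∈ chY.source) : Comp chY chY Cv.inf := by
  have ht : Metric.ball (0 : ℂ) (1 / 2) ∈ 𝓝 (chY Cv.inf) :=
    Metric.isOpen_ball.mem_nhds (chY.map_source hx)
  constructor
  · filter_upwards [ht] with y hy
    exact chY.map_target hy
  · have h1 : AnalyticAt ℂ (fun y : ℂ => y) (chY Cv.inf) := analyticAt_id
    refine h1.congr ?_
    filter_upwards [ht] with y hy
    exact (chY.right_inv hy).symm

private theorem cy_inv_of_ne {y : ℂ} (hy : y ≠ 0) :
    chYinv y = .aff ((y ^ 2)⁻¹) ((y ^ 5)⁻¹ * csq (1 + y ^ 10)) (by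
      rw [mul_pow, csq_sq]; field_simp; ring) := by
  unfold chYinv
  rw [dif_neg hy]

theorem comp_Y (x : Cv) (hx : x ∈ chY.source) :
    Comp chY (cvChart (cvRef x)) x ∧ Comp (cvChart (cvRef x)) chY x := by
  cases x with
  | inf =>
    have hr : cvChart (cvRef Cv.inf) = chY := rfl
    rw [hr]
    exact ⟨cy_inf hx, cy_inf hx⟩
  | aff u w h =>
    have hu : 4 < ‖u‖ := hx
    have hw : w ≠ 0 := cy_w_ne h hu
    have hr : cvChart (cvRef (Cv.aff u w h)) = chU w hw := by
      have h1 : cvRef (Cv.aff u w h) = CvIdx.U w hw := dif_neg hw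
      rw [h1]
      rfl
    rw [hr]
    constructor
    · -- from `Y` to `U`
      obtain ⟨y0, hy0⟩ : ∃ y0, y0 = chY (Cv.aff u w h) := ⟨_, rfl⟩
      have hinv : chYinv y0 = Cv.aff u w h := by
        rw [hy0]
        exact chY.left_inv hx
      have hne : y0 ≠ 0 := by
        intro h0
        rw [h0] at hinv
        unfold chYinv at hinv
        rw [dif_pos rfl] at hinv
        cases hinv
      have hlt : ‖y0‖ < 1 / 2 := by
        have h1 := chY.map_source hx
        rw [← hy0] at h1
        exact mem_ball_zero_iff.1 h1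
      rw [cy_inv_of_ne hne] at hinv
      have hval : (y0 ^ 5)⁻¹ * csq (1 + y0 ^ 10) = w := by
        injection hinv
      have hslit : 1 + y0 ^ 10 ∈ slitPlane := by
        apply one_add_mem_slit
        rw [norm_pow]
        exact pow_lt_one₀ (norm_nonneg _) (by linarith) (by norm_num)
      have hev : ∀ᶠ y in 𝓝 y0, y ≠ 0 := isOpen_ne.mem_nhds hne
      constructor
      · rw [← hy0]
        have hcont : ContinuousAt (fun y : ℂ => ((y ^ 5)⁻¹ * csq (1 + y ^ 10) / w).re) y0 := by
          have h1 : ContinuousAt (fun y : ℂ => (y ^ 5)⁻¹) y0 :=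
            (continuousAt_id.pow 5).inv₀ (pow_ne_zero 5 hne)
          have h2 : ContinuousAt (fun y : ℂ => csq (1 + y ^ 10)) y0 :=
            ContinuousAt.comp' (f := fun y : ℂ => 1 + y ^ 10) (g := csq) (csq_an hslit).continuousAt
              (continuousAt_const.add (continuousAt_id.pow 10))
          exact continuous_re.continuousAt.comp' ((h1.mul h2).div_const w)
        have hpos : 0 < ((y0 ^ 5)⁻¹ * csq (1 + y0 ^ 10) / w).re := by
          rw [hval, div_self hw]
          exact one_pos
        filter_upwards [hcont.eventually (lt_mem_nhds hpos), hev] with y hy hy1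
        change chUsource w (chYinv y)
        rw [cy_inv_of_ne hy1]
        exact hy
      · rw [← hy0]
        have h1 : AnalyticAt ℂ (fun y : ℂ => (y ^ 2)⁻¹) y0 :=
          (analyticAt_id.fun_pow 2).fun_inv (pow_ne_zero 2 hne)
        refine h1.congr ?_
        filter_upwards [hev] with y hy1
        change (y ^ 2)⁻¹ = chUfun (chYinv y)
        rw [cy_inv_of_ne hy1]
        rfl
    · -- from `U` to `Y`
      have h5 : u ≠ 0 := by
        intro h0
        rw [h0, norm_zero] at hu
        linarith
      constructor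
      · have h1 : ∀ᶠ x' in 𝓝 u, 4 < ‖x'‖ := continuous_norm.continuousAt.eventually
          (lt_mem_nhds hu)
        exact h1
      · have hs1 : (1 + u ^ 5) / w ^ 2 = 1 := by
          rw [← h]
          exact div_self (pow_ne_zero 2 hw)
        have hs2 : (1 + u ^ 5) / w ^ 2 ∈ slitPlane := by
          rw [hs1]
          exact one_mem_slitPlane
        have hs3 : 1 + (u ^ 5)⁻¹ ∈ slitPlane := by
          apply one_add_mem_slit
          rw [norm_inv, norm_pow]
          exact inv_lt_one_of_one_lt₀ (one_lt_pow₀ (by linarith) (by norm_num))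
        have hc1 : csq ((1 + u ^ 5) / w ^ 2) ≠ 0 := by
          intro h0
          have h1 := csq_re_pos hs2
          rw [h0] at h1
          exact lt_irrefl _ h1
        have a0 : AnalyticAt ℂ (fun x' : ℂ => x') u := analyticAt_id
        have a1 : AnalyticAt ℂ (fun x' : ℂ => (1 + x' ^ 5) / w ^ 2) u :=
          (analyticAt_const.fun_add (a0.fun_pow 5)).fun_div analyticAt_const (pow_ne_zero 2 hw)
        have a2 : AnalyticAt ℂ (fun x' : ℂ => csq ((1 + x' ^ 5) / w ^ 2)) u :=
          AnalyticAt.fun_comp (f := fun x' : ℂ => (1 + x' ^ 5) / w ^ 2) (csq_an hs2) a1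
        have a3 : AnalyticAt ℂ (fun x' : ℂ => 1 + (x' ^ 5)⁻¹) u :=
          analyticAt_const.fun_add ((a0.fun_pow 5).fun_inv (pow_ne_zero 5 h5))
        have a4 : AnalyticAt ℂ (fun x' : ℂ => csq (1 + (x' ^ 5)⁻¹)) u :=
          AnalyticAt.fun_comp (f := fun x' : ℂ => 1 + (x' ^ 5)⁻¹) (csq_an hs3) a3
        exact ((a0.fun_pow 2).fun_div (analyticAt_const.fun_mul a2) (mul_ne_zero hw hc1)).fun_mul a4

end Pool.Agent.Lib.MP_d4bba2_ag
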