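import Pool.Agent.Lib.MP_d4bba2_ag.CvTop
import Pool.Agent.Lib.MP_d4bba2_ag.CurveData

/-!
THE CURVE DATA of w² = 1 + u⁵: K = Bool, p false = (0,1), p true = inf, m false = 2, m true = -3, s = w - 1.

z false: the chart U 1 (cvGlue.chart (.U 1 one_ne_zero)) restricted to the preimage of ball 0 (1/2) in its target
 (OpenPartialHomeomorph.restrOpen or (chart.symm.restr ..).symm; it is in the maximal atlas: restriction of a member to an open
 set; target ∩ ball = ball since 1 + x^5 is in the slit plane for |x| < 1).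
z true: the chart Y.
cvz_spec collects what is needed: for |x| < 1/2, (z false).symm x = aff x (csq (1+x^5)), (z true).symm = chYinv; source of
 z false = {aff u w | |u| < 1/2, Re w > 0}.
s_eq false: s = w - 1 = u^5/(w+1) with w = csq (1+u^5), Re w > 0: g x = 1/(csq (1+x^5) + 1), 2*2+1 = 5.
s_eq true: s = w - 1 = y^(-5) (csq (1+y^10) - y^5): g y = csq (1+y^10) - y^5, 2*(-3)+1 = -5; nonzero for |y| < 1/2: csq z has Re > 0
 and |csq (1+y^10)|^2 ≥ 1 - 2^(-10) > 2^(-10) > |y^5|^2.
s_ne: w = 1 gives u^5 = 0, u = 0, the point p false.  s_an at aff points ≠ p: in the reference chart s is w - 1, analytic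
 (GlueData.contMDiffAt_iff).
disj: |u| < 1/2 and |u| > 4.
-/

open scoped Topology Manifold ContDiff
open Filter Complex

noncomputable section

namespace Pool.Agent.Lib.MP_d4bba2_ag

def cvp : Bool → CvS
  | false => affS 0 1 (by norm_num)
  | true => infS

def cvsFun : Cv → ℂ
  | .aff _ w _ => w - 1
  | .inf => 0

def cvs (c : CvS) : ℂ := cvsFun (c : Cv)

def cvm : Bool → ℤ
  | false => 2
  | true => -3

def cvg : Bool → ℂ → ℂ
  | false => fun x => (csq (1 + x ^ 5) + 1)⁻¹
  | true => fun y => csq (1 + y ^ 10) - y ^ 5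

theorem cvz_exists : ∃ z : Bool → OpenPartialHomeomorph CvS ℂ,
    (∀ k, z k ∈ IsManifold.maximalAtlas 𝓘(ℂ, ℂ) ω CvS) ∧
    (∀ k, cvp k ∈ (z k).source) ∧ (∀ k, z k (cvp k) = 0) ∧
    (∀ k, (z k).target = Metric.ball 0 (1 / 2)) ∧
    (∀ u w h, affS u w h ∈ (z false).source ↔ ‖u‖ < 1 / 2 ∧ 0 < w.re) ∧
    infS ∉ (z false).source ∧
    (∀ u w h, z false (affS u w h) = u) ∧
    (∀ x : ℂ, ‖x‖ < 1 / 2 → ∃ h, (z false).symm x = affS x (csq (1 + x ^ 5)) h) ∧
    (∀ c : CvS, c ∈ (z true).source ↔ chYsource (c : Cv)) ∧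
    (∀ c : CvS, z true c = chYfun (c : Cv)) ∧
    (∀ y : ℂ, (z true).symm y = (chYinv y : Cv)) := by
  have hSo : IsOpen ((cvkU 1 one_ne_zero).source ∩
      (cvkU 1 one_ne_zero) ⁻¹' Metric.ball (0 : ℂ) (1 / 2)) :=
    (cvkU 1 one_ne_zero).isOpen_inter_preimage Metric.isOpen_ball
  have hsrc := (cvkU 1 one_ne_zero).restr_source' _ hSo
  have hsrc' : ∀ u w h, affS u w h ∈ ((cvkU 1 one_ne_zero).restr
      ((cvkU 1 one_ne_zero).source ∩ (cvkU 1 one_ne_zero) ⁻¹' Metric.ball (0 : ℂ) (1 / 2))).source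
      ↔ ‖u‖ < 1 / 2 ∧ 0 < w.re := by
    intro u w h
    rw [hsrc]
    have h1 : affS u w h ∈ (cvkU 1 one_ne_zero).source ↔ 0 < w.re := by
      rw [cvkU_source, div_one]
    have h2 : affS u w h ∈ (cvkU 1 one_ne_zero) ⁻¹' Metric.ball (0 : ℂ) (1 / 2) ↔
        ‖u‖ < 1 / 2 := by
      rw [Set.mem_preimage, cvkU_apply, mem_ball_zero_iff]
    rw [Set.mem_inter_iff, Set.mem_inter_iff, h1, h2]
    tauto
  have hballt : ∀ x : ℂ, ‖x‖ < 1 / 2 → x ∈ (cvkU 1 one_ne_zero).target := by
    intro x hx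
    show (1 + x ^ 5) / (1 : ℂ) ^ 2 ∈ slitPlane
    rw [one_pow, div_one]
    apply one_add_mem_slit
    rw [norm_pow]
    exact pow_lt_one₀ (norm_nonneg _) (by linarith) (by norm_num)
  refine ⟨fun b => match b with
    | false => (cvkU 1 one_ne_zero).restr
        ((cvkU 1 one_ne_zero).source ∩ (cvkU 1 one_ne_zero) ⁻¹' Metric.ball (0 : ℂ) (1 / 2))
    | true => cvkY, ?_, ?_, ?_, ?_, hsrc', ?_, ?_, ?_, ?_, ?_, ?_⟩
  · intro k
    cases k with
    | false => exact restr_mem_maximalAtlas (contDiffGroupoid ω 𝓘(ℂ, ℂ)) (cvGlue.chart_mem _) hSo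
    | true => exact cvGlue.chart_mem _
  · intro k
    cases k with
    | false =>
      refine (hsrc' 0 1 (by norm_num)).2 ?_
      norm_num
    | true => exact trivial
  · intro k
    cases k with
    | false => rfl
    | true => rfl
  · intro k
    cases k with
    | false =>
      have h1 : ((cvkU 1 one_ne_zero).restr ((cvkU 1 one_ne_zero).source ∩
          (cvkU 1 one_ne_zero) ⁻¹' Metric.ball (0 : ℂ) (1 / 2))).target =
          (cvkU 1 one_ne_zero).target ∩ (cvkU 1 one_ne_zero).symm ⁻¹'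
            ((cvkU 1 one_ne_zero).source ∩
          (cvkU 1 one_ne_zero) ⁻¹' Metric.ball (0 : ℂ) (1 / 2)) := by
        have h2 := (cvkU 1 one_ne_zero).restr_toPartialEquiv' _ hSo
        rw [h2]
        rfl
      show ((cvkU 1 one_ne_zero).restr ((cvkU 1 one_ne_zero).source ∩
          (cvkU 1 one_ne_zero) ⁻¹' Metric.ball (0 : ℂ) (1 / 2))).target = Metric.ball 0 (1 / 2)
      rw [h1]
      ext x
      constructor
      · rintro ⟨hx1, _, hx2⟩
        rw [Set.mem_preimage, (cvkU 1 one_ne_zero).right_inv hx1] at hx2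
        exact hx2
      · intro hx
        have hx1 := hballt x (mem_ball_zero_iff.1 hx)
        refine ⟨hx1, (cvkU 1 one_ne_zero).map_target hx1, ?_⟩
        rw [Set.mem_preimage, (cvkU 1 one_ne_zero).right_inv hx1]
        exact hx
    | true => rfl
  · intro h
    have h1 : infS ∈ (cvkU 1 one_ne_zero).source := by
      have h2 : infS ∈ ((cvkU 1 one_ne_zero).restr
        ((cvkU 1 one_ne_zero).source ∩
          (cvkU 1 one_ne_zero) ⁻¹' Metric.ball (0 : ℂ) (1 / 2))).source := h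
      rw [hsrc] at h2
      exact h2.1
    exact h1.elim
  · intro u w h
    rfl
  · intro x _
    refine ⟨by rw [csq_sq], ?_⟩
    show (Cv.aff x (1 * csq ((1 + x ^ 5) / (1 : ℂ) ^ 2)) _ : Cv) = Cv.aff x (csq (1 + x ^ 5)) _
    exact Cv.aff_ext rfl (by rw [one_pow, div_one, one_mul])
  · intro c
    exact Iff.rfl
  · intro c
    rfl
  · intro y
    rfl

def cvz : Bool → OpenPartialHomeomorph CvS ℂ := cvz_exists.choose

theorem cvz_source_false (u w : ℂ) (h : w ^ 2 = 1 + u ^ 5) :
    affS u w h ∈ (cvz false).source ↔ ‖u‖ < 1 / 2 ∧ 0 < w.re :=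
  cvz_exists.choose_spec.2.2.2.2.1 u w h

theorem cvz_inf_false : infS ∉ (cvz false).source := cvz_exists.choose_spec.2.2.2.2.2.1

theorem cvz_apply_false (u w : ℂ) (h : w ^ 2 = 1 + u ^ 5) : cvz false (affS u w h) = u :=
  cvz_exists.choose_spec.2.2.2.2.2.2.1 u w h

theorem cvz_symm_false {x : ℂ} (hx : ‖x‖ < 1 / 2) :
    ∃ h, (cvz false).symm x = affS x (csq (1 + x ^ 5)) h :=
  cvz_exists.choose_spec.2.2.2.2.2.2.2.1 x hx

theorem cvz_source_true (c : CvS) : c ∈ (cvz true).source ↔ chYsource (c : Cv) :=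
  cvz_exists.choose_spec.2.2.2.2.2.2.2.2.1 c

theorem cvz_apply_true (c : CvS) : cvz true c = chYfun (c : Cv) :=
  cvz_exists.choose_spec.2.2.2.2.2.2.2.2.2.1 c

theorem cvz_symm_true (y : ℂ) : (cvz true).symm y = (chYinv y : Cv) :=
  cvz_exists.choose_spec.2.2.2.2.2.2.2.2.2.2 y

private theorem cvd_disj : Disjoint (cvz false).source (cvz true).source := by
  rw [Set.disjoint_left]
  intro c h1 h2
  rcases cvS_cases c with ⟨u, w, h, rfl⟩ | rfl
  · have h3 := ((cvz_source_false u w h).1 h1).1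
    have h4 : 4 < ‖u‖ := (cvz_source_true _).1 h2
    linarith
  · exact cvz_inf_false h1

private theorem cvd_an (c : CvS) (hc : ∀ k, c ≠ cvp k) :
    ContMDiffAt 𝓘(ℂ, ℂ) 𝓘(ℂ, ℂ) ω cvs c := by
  rcases cvS_cases c with ⟨u, w, h, rfl⟩ | rfl
  · by_cases hw : w = 0
    · have hu5 : u ^ 5 = -1 := Cv.pow_eq h hw
      have hu : u ≠ 0 := by
        rintro rfl
        norm_num at hu5
      have hκs : affS u w h ∈ (cvGlue.chart (CvIdx.W u hu5)).source := by
        show ‖w‖ < 1 ∧ |(u / u).arg| < Real.pi / 5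
        rw [hw, norm_zero, div_self hu, Complex.arg_one, abs_zero]
        exact ⟨one_pos, by positivity⟩
      rw [cvGlue.contMDiffAt_iff hκs]
      show AnalyticAt ℂ (fun y : ℂ => y - 1) w
      exact analyticAt_id.sub analyticAt_const
    · have hκs : affS u w h ∈ (cvGlue.chart (CvIdx.U w hw)).source := by
        show 0 < (w / w).re
        rw [div_self hw, Complex.one_re]
        exact one_pos
      rw [cvGlue.contMDiffAt_iff hκs]
      show AnalyticAt ℂ (fun x : ℂ => w * csq ((1 + x ^ 5) / w ^ 2) - 1) u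
      have hs : (1 + u ^ 5) / w ^ 2 ∈ slitPlane := by
        rw [← h, div_self (pow_ne_zero 2 hw)]
        exact one_mem_slitPlane
      have a0 : AnalyticAt ℂ (fun x' : ℂ => x') u := analyticAt_id
      have a1 : AnalyticAt ℂ (fun x' : ℂ => (1 + x' ^ 5) / w ^ 2) u :=
        (analyticAt_const.fun_add (a0.fun_pow 5)).fun_div analyticAt_const (pow_ne_zero 2 hw)
      have a2 : AnalyticAt ℂ (fun x' : ℂ => csq ((1 + x' ^ 5) / w ^ 2)) u :=
        AnalyticAt.fun_comp (f := fun x' : ℂ => (1 + x' ^ 5) / w ^ 2) (csq_an hs) a1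
      exact (analyticAt_const.fun_mul a2).fun_sub analyticAt_const
  · exact absurd rfl (hc true)

private theorem cvd_ne (c : CvS) (hc : ∀ k, c ≠ cvp k) : cvs c ≠ 0 := by
  rcases cvS_cases c with ⟨u, w, h, rfl⟩ | rfl
  · intro h0
    have h1 : w - 1 = 0 := h0
    have hw : w = 1 := by linear_combination h1
    have hu : u = 0 := by
      have h2 : u ^ 5 = 0 := by
        rw [hw] at h
        linear_combination -h
      exact (pow_eq_zero_iff (by norm_num)).1 h2
    exact hc false (Cv.aff_ext hu hw)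
  · exact absurd rfl (hc true)

private theorem cvd_slit5 {x : ℂ} (hx : ‖x‖ < 1 / 2) : 1 + x ^ 5 ∈ slitPlane := by
  apply one_add_mem_slit
  rw [norm_pow]
  exact pow_lt_one₀ (norm_nonneg _) (by linarith) (by norm_num)

private theorem cvd_slit10 {x : ℂ} (hx : ‖x‖ < 1 / 2) : 1 + x ^ 10 ∈ slitPlane := by
  apply one_add_mem_slit
  rw [norm_pow]
  exact pow_lt_one₀ (norm_nonneg _) (by linarith) (by norm_num)

private theorem cvd_add_ne {z : ℂ} (hz : z ∈ slitPlane) : csq z + 1 ≠ 0 := by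
  intro h0
  have h1 := csq_re_pos hz
  have h2 : (csq z + 1).re = 0 := by
    rw [h0, Complex.zero_re]
  rw [Complex.add_re, Complex.one_re] at h2
  linarith

private theorem cvd_g_an (k : Bool) : AnalyticOnNhd ℂ (cvg k) (Metric.ball 0 (1 / 2)) := by
  intro x hx
  have hx' := mem_ball_zero_iff.1 hx
  have a0 : AnalyticAt ℂ (fun x' : ℂ => x') x := analyticAt_id
  cases k with
  | false =>
    show AnalyticAt ℂ (fun x => (csq (1 + x ^ 5) + 1)⁻¹) x
    have a1 : AnalyticAt ℂ (fun x' : ℂ => csq (1 + x' ^ 5)) x :=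
      AnalyticAt.fun_comp (f := fun x' : ℂ => 1 + x' ^ 5) (csq_an (cvd_slit5 hx'))
        (analyticAt_const.fun_add (a0.fun_pow 5))
    exact (a1.fun_add analyticAt_const).fun_inv (cvd_add_ne (cvd_slit5 hx'))
  | true =>
    show AnalyticAt ℂ (fun y => csq (1 + y ^ 10) - y ^ 5) x
    have a1 : AnalyticAt ℂ (fun x' : ℂ => csq (1 + x' ^ 10)) x :=
      AnalyticAt.fun_comp (f := fun x' : ℂ => 1 + x' ^ 10) (csq_an (cvd_slit10 hx'))
        (analyticAt_const.fun_add (a0.fun_pow 10))
    exact a1.fun_sub (a0.fun_pow 5)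

private theorem cvd_g_ne (k : Bool) (x : ℂ) (hx : x ∈ Metric.ball (0 : ℂ) (1 / 2)) :
    cvg k x ≠ 0 := by
  have hx' := mem_ball_zero_iff.1 hx
  cases k with
  | false => exact inv_ne_zero (cvd_add_ne (cvd_slit5 hx'))
  | true =>
    intro h0
    have h1 : csq (1 + x ^ 10) - x ^ 5 = 0 := h0
    have h2 : csq (1 + x ^ 10) = x ^ 5 := by linear_combination h1
    have h3 := csq_sq (1 + x ^ 10)
    rw [h2] at h3
    have h4 : (1 : ℂ) = 0 := by linear_combination -h3
    exact one_ne_zero h4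

private theorem cvd_s_eq (k : Bool) (c : CvS) (hc : c ∈ (cvz k).source) (hp : c ≠ cvp k) :
    cvs c = cvz k c ^ (2 * cvm k + 1) * cvg k (cvz k c) := by
  cases k with
  | false =>
    rcases cvS_cases c with ⟨u, w, h, rfl⟩ | rfl
    · obtain ⟨h1, h2⟩ := (cvz_source_false u w h).1 hc
      rw [cvz_apply_false]
      have h3 : csq (1 + u ^ 5) = w := by
        rw [← h]
        exact csq_of_re_pos h2
      have h4 : w + 1 ≠ 0 := by
        have := cvd_add_ne (cvd_slit5 h1)
        rw [h3] at this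
        exact this
      show w - 1 = u ^ ((2 : ℤ) * 2 + 1) * (csq (1 + u ^ 5) + 1)⁻¹
      have h5 : u ^ ((2 : ℤ) * 2 + 1) = u ^ 5 := by
        norm_num
      rw [h3, h5, ← div_eq_mul_inv, eq_div_iff h4]
      linear_combination h
    · exact absurd hc cvz_inf_false
  | true =>
    rcases cvS_cases c with ⟨u, w, h, rfl⟩ | rfl
    · rw [cvz_apply_true]
      have h1 : chYinv (chYfun (Cv.aff u w h)) = Cv.aff u w h :=
        chY.left_inv (show Cv.aff u w h ∈ chY.source from (cvz_source_true _).1 hc)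
      show w - 1 = chYfun (Cv.aff u w h) ^ ((2 : ℤ) * (-3) + 1) *
        (csq (1 + chYfun (Cv.aff u w h) ^ 10) - chYfun (Cv.aff u w h) ^ 5)
      generalize chYfun (Cv.aff u w h) = y at h1
      unfold chYinv at h1
      by_cases h0 : y = 0
      · rw [dif_pos h0] at h1
        exact absurd h1 (by simp)
      · rw [dif_neg h0] at h1
        injection h1 with h2 h3
        have h5 : y ^ ((2 : ℤ) * (-3) + 1) = (y ^ 5)⁻¹ := by
          have h6 : ((2 : ℤ) * (-3) + 1) = -((5 : ℕ) : ℤ) := by norm_num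
          rw [h6, zpow_neg, zpow_natCast]
        rw [h5, mul_sub, h3, inv_mul_cancel₀ (pow_ne_zero 5 h0)]
    · exact absurd rfl hp

def cvData : CurveData where
  C := CvS
  K := Bool
  p := cvp
  z := cvz
  z_mem := cvz_exists.choose_spec.1
  p_mem := cvz_exists.choose_spec.2.1
  z_p := cvz_exists.choose_spec.2.2.1
  z_target := cvz_exists.choose_spec.2.2.2.1
  disj := by
    intro k l hkl
    cases k with
    | false =>
      cases l with
      | false => exact absurd rfl hkl
      | true => exact cvd_disj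
    | true =>
      cases l with
      | false => exact cvd_disj.symm
      | true => exact absurd rfl hkl
  s := cvs
  s_an := cvd_an
  s_ne := cvd_ne
  s_p := by
    intro k
    cases k with
    | false => exact sub_self (1 : ℂ)
    | true => rfl
  m := cvm
  g := cvg
  g_an := cvd_g_an
  g_ne := cvd_g_ne
  s_eq := cvd_s_eq

end Pool.Agent.Lib.MP_d4bba2_ag
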