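import Pool.Agent.Lib.MP_d4bba2_ag.CvData

/-!
THE 1-FORM θ = (w - 1 + u²)/w du on the curve.  chartAt (aff u w) = chart U w (w ≠ 0), chart W u (w = 0), chartAt inf = chart Y
(GlueData.chartAt_eq, rfl-lemmas).
τ (aff u w) = (w - 1 + u^2)/w if w ≠ 0,  2 (w - 1 + u^2)/(5 u^4) if w = 0, τ inf = 0.
an, at aff u0 w0 with w0 ≠ 0, chart U w0: for x near u0 the point (chart).symm x = aff x w(x) with w(x) ≠ 0, its chartAt is U (w(x)) whose
 toFun is u, so the function inside deriv is x' ↦ x' (near x, even everywhere), deriv = 1 and dens1 = (w(x)-1+x^2)/w(x), analytic.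
an, at aff u0 0, chart W u0: for y near 0, y ≠ 0: the point is aff u(y) y, its chartAt U y, the function inside is
 y' ↦ u(y') = u0 croot5 (1-y'^2), with 5 u(y)^4 u'(y) = 2 y (derivative of u(y')^5 = y'^2 - 1), so u'(y) = 2y/(5 u^4) and
 dens1 = (y-1+u^2)/y * 2y/(5u^4) = 2 (y-1+u(y)^2)/(5 u(y)^4).  For y = 0 the chart is W u0 itself, deriv of identity = 1 near 0,
 dens1 = τ: the same formula.  Analytic since u(y) ≠ 0.
eq false: as in the first case with z false, |x| < 1/2, w = csq (1+x^5): dens1 = (w - 1 + x^2)/w = x^2 * h x,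
 h x = (x^3/(w+1) + 1)/w (w - 1 = x^5/(w+1)), h 0 = 1.
eq true: y ≠ 0: the point is aff (y^-2) (y^-5 q), q = csq (1+y^10), chartAt = U w, the function inside is y' ↦ y'^(-2) (near y), deriv =
 -2 y^(-3); dens1 = (1 + (u^2-1)/w) * (-2 y^(-3)) = y^(-3) * h y, h y = -2 (1 + (y - y^5)/q) ((u^2-1)/w = (y^(-4) - 1) y^5/q), h 0 = -2.
 q ≠ 0.
fin: τ (aff u w) = 0 with w ≠ 0 gives w = 1 - u^2, (1-u^2)^2 = 1 + u^5, u^2 (u^3 - u^2 + 2) = 0: u = 0 gives w = 1, the point p false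
 (excluded), otherwise u is a root of u^3 - u^2 + 2 (finitely many) and w = 1 - u^2 is determined.  w = 0: u^5 = -1, finitely many.
-/

open scoped Topology Manifold ContDiff
open Filter Complex

noncomputable section

namespace Pool.Agent.Lib.MP_d4bba2_ag

open Classical in
def cvtauFun : Cv → ℂ
  | .aff u w _ => if w = 0 then 2 * (w - 1 + u ^ 2) / (5 * u ^ 4) else (w - 1 + u ^ 2) / w
  | .inf => 0

private theorem cf_tau_ne {u w : ℂ} (h : w ^ 2 = 1 + u ^ 5) (hw : w ≠ 0) :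
    cvtauFun (.aff u w h) = (w - 1 + u ^ 2) / w := if_neg hw

private theorem cf_tau_zero {u w : ℂ} (h : w ^ 2 = 1 + u ^ 5) (hw : w = 0) :
    cvtauFun (.aff u w h) = 2 * (w - 1 + u ^ 2) / (5 * u ^ 4) := if_pos hw

private theorem cf_chart_ne {u w : ℂ} (h : w ^ 2 = 1 + u ^ 5) (hw : w ≠ 0) (c : CvS) :
    chartAt ℂ (affS u w h) c = chUfun (c : Cv) := by
  have h1 : cvRef (.aff u w h) = .U w hw := dif_neg hw
  have h2 : chartAt ℂ (affS u w h) = cvGlue.chart (cvRef (Cv.aff u w h)) := rfl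
  rw [h2, h1]
  rfl

private theorem cf_chart_zero {u w : ℂ} (h : w ^ 2 = 1 + u ^ 5) (hw : w = 0) (c : CvS) :
    chartAt ℂ (affS u w h) c = chWfun (c : Cv) := by
  have h1 : cvRef (.aff u w h) = .W u (Cv.pow_eq h hw) := dif_pos hw
  have h2 : chartAt ℂ (affS u w h) = cvGlue.chart (cvRef (Cv.aff u w h)) := rfl
  rw [h2, h1]
  rfl

private theorem cf_symm_ne {u w : ℂ} (h : w ^ 2 = 1 + u ^ 5) (hw : w ≠ 0) (x : ℂ) :
    ∃ h', (chartAt ℂ (affS u w h)).symm x = affS x (w * csq ((1 + x ^ 5) / w ^ 2)) h' := by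
  have h1 : cvRef (.aff u w h) = .U w hw := dif_neg hw
  have h2 : chartAt ℂ (affS u w h) = cvGlue.chart (cvRef (Cv.aff u w h)) := rfl
  rw [h2, h1]
  exact ⟨_, rfl⟩

private theorem cf_symm_zero {u w : ℂ} (h : w ^ 2 = 1 + u ^ 5) (hw : w = 0) (y : ℂ) :
    ∃ h', (chartAt ℂ (affS u w h)).symm y = affS (u * croot5 (1 - y ^ 2)) y h' := by
  have h1 : cvRef (.aff u w h) = .W u (Cv.pow_eq h hw) := dif_pos hw
  have h2 : chartAt ℂ (affS u w h) = cvGlue.chart (cvRef (Cv.aff u w h)) := rfl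
  rw [h2, h1]
  exact ⟨_, rfl⟩

private theorem cf_an_ne {u w : ℂ} (h : w ^ 2 = 1 + u ^ 5) (hw : w ≠ 0) :
    AnalyticAt ℂ (dens1 (fun c : CvS => cvtauFun (c : Cv)) (chartAt ℂ (affS u w h)))
      (chartAt ℂ (affS u w h) (affS u w h)) := by
  have hval : chartAt ℂ (affS u w h) (affS u w h) = u := cf_chart_ne h hw _
  rw [hval]
  have hs1 : (1 + u ^ 5) / w ^ 2 = 1 := by
    rw [← h]
    exact div_self (pow_ne_zero 2 hw)
  have hs2 : (1 + u ^ 5) / w ^ 2 ∈ slitPlane := by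
    rw [hs1]
    exact one_mem_slitPlane
  have a0 : AnalyticAt ℂ (fun x : ℂ => x) u := analyticAt_id
  have a1 : AnalyticAt ℂ (fun x : ℂ => (1 + x ^ 5) / w ^ 2) u :=
    (analyticAt_const.fun_add (a0.fun_pow 5)).fun_div analyticAt_const (pow_ne_zero 2 hw)
  have a2 : AnalyticAt ℂ (fun x : ℂ => csq ((1 + x ^ 5) / w ^ 2)) u :=
    AnalyticAt.fun_comp (f := fun x : ℂ => (1 + x ^ 5) / w ^ 2) (csq_an hs2) a1
  have a3 : AnalyticAt ℂ (fun x : ℂ => w * csq ((1 + x ^ 5) / w ^ 2)) u :=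
    analyticAt_const.fun_mul a2
  have hne : w * csq ((1 + u ^ 5) / w ^ 2) ≠ 0 := by
    apply mul_ne_zero hw
    intro h0
    have h1 := csq_re_pos hs2
    rw [h0] at h1
    exact lt_irrefl _ h1
  have hev : ∀ᶠ x in 𝓝 u, w * csq ((1 + x ^ 5) / w ^ 2) ≠ 0 :=
    a3.continuousAt.eventually_ne hne
  have a4 : AnalyticAt ℂ (fun x : ℂ => (w * csq ((1 + x ^ 5) / w ^ 2) - 1 + x ^ 2) /
      (w * csq ((1 + x ^ 5) / w ^ 2))) u :=
    ((a3.fun_sub analyticAt_const).fun_add (a0.fun_pow 2)).fun_div a3 hne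
  refine a4.congr ?_
  filter_upwards [hev] with x hx
  unfold dens1
  obtain ⟨h1, e1⟩ := cf_symm_ne h hw x
  have hfun : (fun x' => chartAt ℂ ((chartAt ℂ (affS u w h)).symm x)
      ((chartAt ℂ (affS u w h)).symm x')) = fun x' => x' := by
    funext x'
    obtain ⟨h2, e2⟩ := cf_symm_ne h hw x'
    rw [e1, e2, cf_chart_ne h1 hx]
    rfl
  rw [hfun, deriv_id'', mul_one, e1]
  exact (cf_tau_ne h1 hx).symm

private theorem cf_croot {u y : ℂ} (hu : u ^ 5 = -1) :
    (u * croot5 (1 - y ^ 2)) ^ 5 = y ^ 2 - 1 := by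
  rw [mul_pow, croot5_pow, hu]
  ring

private theorem cf_slit {y : ℂ} (hy : ‖y‖ < 1) : 1 - y ^ 2 ∈ slitPlane := by
  have h1 : 1 - y ^ 2 = 1 + (-(y ^ 2)) := by ring
  rw [h1]
  apply one_add_mem_slit
  rw [norm_neg, norm_pow]
  exact pow_lt_one₀ (norm_nonneg _) hy (by norm_num)

private theorem cf_U_an {u y : ℂ} (hy : ‖y‖ < 1) :
    AnalyticAt ℂ (fun y : ℂ => u * croot5 (1 - y ^ 2)) y := by
  have a0 : AnalyticAt ℂ (fun x : ℂ => x) y := analyticAt_id
  have a1 : AnalyticAt ℂ (fun x : ℂ => 1 - x ^ 2) y := analyticAt_const.fun_sub (a0.fun_pow 2)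
  exact analyticAt_const.fun_mul
    (AnalyticAt.fun_comp (f := fun x : ℂ => 1 - x ^ 2) (croot5_an (cf_slit hy)) a1)

private theorem cf_U_ne {u y : ℂ} (hu : u ^ 5 = -1) (hy : ‖y‖ < 1) :
    u * croot5 (1 - y ^ 2) ≠ 0 := by
  intro h0
  have h1 := cf_croot (y := y) hu
  rw [h0] at h1
  have h2 : y ^ 2 = 1 := by
    have h3 : (0 : ℂ) ^ 5 = 0 := by norm_num
    rw [h3] at h1
    linear_combination -h1
  have h3 : ‖y‖ ^ 2 = 1 := by rw [← norm_pow, h2, norm_one]
  nlinarith [norm_nonneg y]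

private theorem cf_U_deriv {u y : ℂ} (hu : u ^ 5 = -1) (hy : ‖y‖ < 1) :
    deriv (fun y : ℂ => u * croot5 (1 - y ^ 2)) y =
      2 * y / (5 * (u * croot5 (1 - y ^ 2)) ^ 4) := by
  have hd := (cf_U_an (u := u) hy).differentiableAt.hasDerivAt
  have h1 := hd.fun_pow 5
  have h2 : HasDerivAt (fun y : ℂ => (u * croot5 (1 - y ^ 2)) ^ 5) (2 * y) y := by
    have h3 : (fun y : ℂ => (u * croot5 (1 - y ^ 2)) ^ 5) = fun y => y ^ 2 - 1 := by
      funext z
      exact cf_croot hu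
    rw [h3]
    have h4 := (hasDerivAt_pow 2 y).sub_const (1 : ℂ)
    simpa using h4
  have h5 := h1.unique h2
  have hne := cf_U_ne hu hy
  rw [eq_div_iff (mul_ne_zero (by norm_num) (pow_ne_zero 4 hne)), ← h5]
  push_cast
  ring

private theorem cf_an_zero {u w : ℂ} (h : w ^ 2 = 1 + u ^ 5) (hw : w = 0) :
    AnalyticAt ℂ (dens1 (fun c : CvS => cvtauFun (c : Cv)) (chartAt ℂ (affS u w h)))
      (chartAt ℂ (affS u w h) (affS u w h)) := by
  have hval : chartAt ℂ (affS u w h) (affS u w h) = 0 := by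
    rw [cf_chart_zero h hw]
    exact hw
  rw [hval]
  have hu := Cv.pow_eq h hw
  have h01 : ‖(0 : ℂ)‖ < 1 := by rw [norm_zero]; exact one_pos
  have a0 : AnalyticAt ℂ (fun x : ℂ => x) 0 := analyticAt_id
  have a1 := cf_U_an (u := u) h01
  have hev : ∀ᶠ y in 𝓝 (0 : ℂ), ‖y‖ < 1 := by
    have := Metric.ball_mem_nhds (0 : ℂ) one_pos
    filter_upwards [this] with y hy
    exact mem_ball_zero_iff.1 hy
  have a2 : AnalyticAt ℂ (fun y : ℂ => 2 * (y - 1 + (u * croot5 (1 - y ^ 2)) ^ 2) /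
      (5 * (u * croot5 (1 - y ^ 2)) ^ 4)) 0 := by
    apply AnalyticAt.fun_div
    · exact analyticAt_const.fun_mul ((a0.fun_sub analyticAt_const).fun_add (a1.fun_pow 2))
    · exact analyticAt_const.fun_mul (a1.fun_pow 4)
    · exact mul_ne_zero (by norm_num) (pow_ne_zero 4 (cf_U_ne hu h01))
  refine a2.congr ?_
  filter_upwards [hev] with y hy
  unfold dens1
  obtain ⟨h1, e1⟩ := cf_symm_zero h hw y
  by_cases hy0 : y = 0
  · have hfun : (fun x' => chartAt ℂ ((chartAt ℂ (affS u w h)).symm y)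
        ((chartAt ℂ (affS u w h)).symm x')) = fun x' => x' := by
      funext x'
      obtain ⟨h2, e2⟩ := cf_symm_zero h hw x'
      rw [e1, e2, cf_chart_zero h1 hy0]
      rfl
    rw [hfun, deriv_id'', mul_one, e1]
    exact (cf_tau_zero h1 hy0).symm
  · have hfun : (fun x' => chartAt ℂ ((chartAt ℂ (affS u w h)).symm y)
        ((chartAt ℂ (affS u w h)).symm x')) = fun x' => u * croot5 (1 - x' ^ 2) := by
      funext x'
      obtain ⟨h2, e2⟩ := cf_symm_zero h hw x'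
      rw [e1, e2, cf_chart_ne h1 hy0]
      rfl
    rw [hfun, cf_U_deriv hu hy, e1]
    have h3 : cvtauFun (affS (u * croot5 (1 - y ^ 2)) y h1 : Cv) =
        (y - 1 + (u * croot5 (1 - y ^ 2)) ^ 2) / y := cf_tau_ne h1 hy0
    beta_reduce
    rw [h3]
    have hne := cf_U_ne hu hy
    field_simp

private theorem cf_false_symm {x : ℂ} (hx : ‖x‖ < 1 / 2) :
    ∃ h, (cvz false).symm x = affS x (csq (1 + x ^ 5)) h :=
  cvz_exists.choose_spec.2.2.2.2.2.2.2.1 x hx

private theorem cf_true_symm (y : ℂ) : (cvz true).symm y = (chYinv y : Cv) :=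
  cvz_exists.choose_spec.2.2.2.2.2.2.2.2.2.2 y

private theorem cf_pow5_slit {x : ℂ} (hx : ‖x‖ < 1 / 2) : 1 + x ^ 5 ∈ slitPlane := by
  apply one_add_mem_slit
  rw [norm_pow]
  exact pow_lt_one₀ (norm_nonneg _) (by linarith) (by norm_num)

private theorem cf_pow10_slit {x : ℂ} (hx : ‖x‖ < 1 / 2) : 1 + x ^ 10 ∈ slitPlane := by
  apply one_add_mem_slit
  rw [norm_pow]
  exact pow_lt_one₀ (norm_nonneg _) (by linarith) (by norm_num)

private theorem cf_re_ne {z : ℂ} (h : 0 < z.re) : z ≠ 0 := by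
  rintro rfl
  exact lt_irrefl _ h

private theorem cf_re_ne1 {z : ℂ} (h : 0 < z.re) : z + 1 ≠ 0 := by
  intro h0
  have h1 := congrArg Complex.re h0
  simp at h1
  linarith

private theorem cf_csq5_an {x : ℂ} (hx : ‖x‖ < 1 / 2) :
    AnalyticAt ℂ (fun x : ℂ => csq (1 + x ^ 5)) x := by
  have a0 : AnalyticAt ℂ (fun x : ℂ => x) x := analyticAt_id
  exact AnalyticAt.fun_comp (f := fun x : ℂ => 1 + x ^ 5) (csq_an (cf_pow5_slit hx))
    (analyticAt_const.fun_add (a0.fun_pow 5))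

private theorem cf_csq10_an {x : ℂ} (hx : ‖x‖ < 1 / 2) :
    AnalyticAt ℂ (fun x : ℂ => csq (1 + x ^ 10)) x := by
  have a0 : AnalyticAt ℂ (fun x : ℂ => x) x := analyticAt_id
  exact AnalyticAt.fun_comp (f := fun x : ℂ => 1 + x ^ 10) (csq_an (cf_pow10_slit hx))
    (analyticAt_const.fun_add (a0.fun_pow 10))

private theorem cf_csq_one : csq 1 = 1 := by
  have h := csq_of_re_pos (a := 1) (by simp)
  simpa using h

private theorem cf_eq_false {x : ℂ} (hx : ‖x‖ < 1 / 2) :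
    dens1 (fun c : CvS => cvtauFun (c : Cv)) (cvz false) x =
      x ^ (2 : ℤ) * ((x ^ 3 / (csq (1 + x ^ 5) + 1) + 1) / csq (1 + x ^ 5)) := by
  obtain ⟨h1, e1⟩ := cf_false_symm hx
  have hre := csq_re_pos (cf_pow5_slit hx)
  have hw := cf_re_ne hre
  have hw1 := cf_re_ne1 hre
  unfold dens1
  have hfun : (fun x' => chartAt ℂ ((cvz false).symm x) ((cvz false).symm x')) =ᶠ[𝓝 x]
      fun x' => x' := by
    have hb : ∀ᶠ x' in 𝓝 x, ‖x'‖ < 1 / 2 := continuous_norm.continuousAt.eventually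
      (gt_mem_nhds hx)
    filter_upwards [hb] with x' hx'
    obtain ⟨h2, e2⟩ := cf_false_symm hx'
    rw [e1, e2, cf_chart_ne h1 hw]
    rfl
  rw [hfun.deriv_eq, deriv_id'', mul_one, e1]
  have h3 : cvtauFun (affS x (csq (1 + x ^ 5)) h1 : Cv) =
      (csq (1 + x ^ 5) - 1 + x ^ 2) / csq (1 + x ^ 5) := cf_tau_ne h1 hw
  beta_reduce
  rw [h3]
  have h4 : (csq (1 + x ^ 5) - 1) * (csq (1 + x ^ 5) + 1) = x ^ 5 := by
    have h5 := csq_sq (1 + x ^ 5)
    linear_combination h5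
  have h5 : csq (1 + x ^ 5) - 1 = x ^ 5 / (csq (1 + x ^ 5) + 1) := by
    rw [eq_div_iff hw1, h4]
  rw [h5]
  have h6 : x ^ (2 : ℤ) = x ^ 2 := by
    rw [show (2 : ℤ) = ((2 : ℕ) : ℤ) by norm_num, zpow_natCast]
  rw [h6]
  field_simp

private theorem cf_inv_of_ne {y : ℂ} (hy : y ≠ 0) :
    ∃ h, chYinv y = .aff ((y ^ 2)⁻¹) ((y ^ 5)⁻¹ * csq (1 + y ^ 10)) h := by
  unfold chYinv
  rw [dif_neg hy]
  exact ⟨_, rfl⟩

private theorem cf_eq_true {y : ℂ} (hy : ‖y‖ < 1 / 2) (hy0 : y ≠ 0) :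
    dens1 (fun c : CvS => cvtauFun (c : Cv)) (cvz true) y =
      y ^ (-3 : ℤ) * (-2 * (1 + (y - y ^ 5) / csq (1 + y ^ 10))) := by
  have hre := csq_re_pos (cf_pow10_slit hy)
  have hq := cf_re_ne hre
  have hw : (y ^ 5)⁻¹ * csq (1 + y ^ 10) ≠ 0 := mul_ne_zero (inv_ne_zero (pow_ne_zero 5 hy0)) hq
  have hinv : ∀ y' : ℂ, y' ≠ 0 → ∃ h, (cvz true).symm y' =
      affS ((y' ^ 2)⁻¹) ((y' ^ 5)⁻¹ * csq (1 + y' ^ 10)) h := by
    intro y' hy'
    obtain ⟨h, e⟩ := cf_inv_of_ne hy'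
    refine ⟨h, ?_⟩
    rw [cf_true_symm y']
    exact e
  obtain ⟨h1, e1⟩ := hinv y hy0
  unfold dens1
  have hfun : (fun x' => chartAt ℂ ((cvz true).symm y) ((cvz true).symm x')) =ᶠ[𝓝 y]
      fun x' => (x' ^ 2)⁻¹ := by
    have hb : ∀ᶠ x' in 𝓝 y, x' ≠ 0 := isOpen_ne.mem_nhds hy0
    filter_upwards [hb] with x' hx'
    obtain ⟨h2, e2⟩ := hinv x' hx'
    rw [e1, e2, cf_chart_ne h1 hw]
    rfl
  have hder : deriv (fun x' : ℂ => (x' ^ 2)⁻¹) y = -2 * (y ^ 3)⁻¹ := by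
    have h2 := ((hasDerivAt_pow 2 y).fun_inv (pow_ne_zero 2 hy0)).deriv
    rw [h2]
    field_simp
    push_cast
    ring
  rw [hfun.deriv_eq, hder, e1]
  have h3 : cvtauFun (affS ((y ^ 2)⁻¹) ((y ^ 5)⁻¹ * csq (1 + y ^ 10)) h1 : Cv) =
      ((y ^ 5)⁻¹ * csq (1 + y ^ 10) - 1 + ((y ^ 2)⁻¹) ^ 2) / ((y ^ 5)⁻¹ * csq (1 + y ^ 10)) :=
    cf_tau_ne h1 hw
  beta_reduce
  rw [h3]
  have h6 : y ^ (-3 : ℤ) = (y ^ 3)⁻¹ := by
    rw [zpow_neg]
    congr 1
  rw [h6]
  field_simp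
  ring

private def cfPair : Cv → ℂ × ℂ
  | .aff u w _ => (u, w)
  | .inf => (0, 0)

private theorem cf_fin : {c : CvS | (∀ k, c ≠ cvp k) ∧ cvtauFun (c : Cv) = 0}.Finite := by
  have hA : {x : ℂ | (Polynomial.X ^ 5 + Polynomial.C 1 : Polynomial ℂ).IsRoot x}.Finite := by
    apply Polynomial.finite_setOfPred_isRoot
    intro h
    have h1 := congrArg (Polynomial.eval 0) h
    simp at h1
  have hB : {x : ℂ | (Polynomial.X ^ 3 - Polynomial.X ^ 2 + Polynomial.C 2 :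
      Polynomial ℂ).IsRoot x}.Finite := by
    apply Polynomial.finite_setOfPred_isRoot
    intro h
    have h1 := congrArg (Polynomial.eval 0) h
    simp at h1
  apply Set.Finite.of_finite_image (f := fun c : CvS => cfPair (c : Cv))
  · refine ((hA.image fun u => (u, (0 : ℂ))).union (hB.image fun u => (u, 1 - u ^ 2))).subset ?_
    rintro _ ⟨c, ⟨hc, hτ⟩, rfl⟩
    rcases cvS_cases c with ⟨u, w, h, rfl⟩ | rfl
    · have hpair : cfPair (affS u w h : Cv) = (u, w) := rfl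
      simp only [hpair]
      by_cases hw : w = 0
      · left
        refine ⟨u, ?_, by rw [hw]⟩
        have h5 := Cv.pow_eq h hw
        change Polynomial.eval u (Polynomial.X ^ 5 + Polynomial.C 1) = 0
        simp [h5]
      · right
        have h1 : (w - 1 + u ^ 2) / w = 0 := by
          rw [← cf_tau_ne h hw]
          exact hτ
        have h2 : w - 1 + u ^ 2 = 0 := by
          rcases div_eq_zero_iff.1 h1 with h3 | h3
          · exact h3
          · exact absurd h3 hw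
        have h3 : w = 1 - u ^ 2 := by linear_combination h2
        have hu : u ≠ 0 := by
          rintro rfl
          apply hc false
          have h4 : w = 1 := by rw [h3]; ring
          subst h4
          rfl
        refine ⟨u, ?_, by rw [h3]⟩
        change Polynomial.eval u (Polynomial.X ^ 3 - Polynomial.X ^ 2 + Polynomial.C 2) = 0
        simp only [Polynomial.eval_add, Polynomial.eval_sub, Polynomial.eval_pow,
          Polynomial.eval_X, Polynomial.eval_C]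
        have h4 : u ^ 2 * (u ^ 3 - u ^ 2 + 2) = 0 := by
          rw [h3] at h
          linear_combination -h
        rcases mul_eq_zero.1 h4 with h5 | h5
        · exact absurd (pow_eq_zero_iff (two_ne_zero) |>.1 h5) hu
        · exact h5
    · exact absurd rfl (hc true)
  · rintro c ⟨hc, _⟩ d ⟨hd, _⟩ hcd
    rcases cvS_cases c with ⟨u, w, h, rfl⟩ | rfl
    · rcases cvS_cases d with ⟨u', w', h', rfl⟩ | rfl
      · have h1 : (u, w) = (u', w') := hcd
        injection h1 with h2 h3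
        subst h2
        subst h3
        rfl
      · exact absurd rfl (hd true)
    · exact absurd rfl (hc true)

def cvForm : cvData.Form1 where
  τ := fun c : CvS => cvtauFun (c : Cv)
  an := by
    intro c hc
    rcases cvS_cases c with ⟨u, w, h, rfl⟩ | rfl
    · by_cases hw : w = 0
      · exact cf_an_zero h hw
      · exact cf_an_ne h hw
    · exact absurd rfl (hc true)
  h k := match k with
    | false => fun x => (x ^ 3 / (csq (1 + x ^ 5) + 1) + 1) / csq (1 + x ^ 5)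
    | true => fun y => -2 * (1 + (y - y ^ 5) / csq (1 + y ^ 10))
  h_an := by
    intro k x hx
    have hx' : ‖x‖ < 1 / 2 := mem_ball_zero_iff.1 hx
    have a0 : AnalyticAt ℂ (fun x : ℂ => x) x := analyticAt_id
    cases k with
    | false =>
      have hre := csq_re_pos (cf_pow5_slit hx')
      have a1 := cf_csq5_an hx'
      exact (((a0.fun_pow 3).fun_div (a1.fun_add analyticAt_const) (cf_re_ne1 hre)).fun_add
        analyticAt_const).fun_div a1 (cf_re_ne hre)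
    | true =>
      have hre := csq_re_pos (cf_pow10_slit hx')
      have a1 := cf_csq10_an hx'
      exact analyticAt_const.fun_mul (analyticAt_const.fun_add
        ((a0.fun_sub (a0.fun_pow 5)).fun_div a1 (cf_re_ne hre)))
  h_ne := by
    intro k
    cases k with
    | false =>
      have h1 : (1 : ℂ) + 0 ^ 5 = 1 := by norm_num
      change ((0 : ℂ) ^ 3 / (csq (1 + 0 ^ 5) + 1) + 1) / csq (1 + 0 ^ 5) ≠ 0
      rw [h1, cf_csq_one]
      norm_num
    | true =>
      have h1 : (1 : ℂ) + 0 ^ 10 = 1 := by norm_num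
      change -2 * (1 + ((0 : ℂ) - 0 ^ 5) / csq (1 + 0 ^ 10)) ≠ 0
      rw [h1, cf_csq_one]
      norm_num
  eq := by
    intro k x hx hx0
    have hx' : ‖x‖ < 1 / 2 := mem_ball_zero_iff.1 hx
    cases k with
    | false => exact cf_eq_false hx'
    | true => exact cf_eq_true hx' hx0
  fin := cf_fin

end Pool.Agent.Lib.MP_d4bba2_ag
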