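import Mathlib

/-!
FUNCTIONS ON A COMPLEX MANIFOLD IN A CHART κ OF THE MAXIMAL ATLAS.
(→) f ∘ κ.symm is ContMDiffAt at κ x (contMDiffOn_symm_of_mem_maximalAtlas, composition), and for normed spaces
contMDiffAt_iff_contDiffAt, ContDiffAt.analyticAt.  (←) f = (f ∘ κ.symm) ∘ κ near x (contMDiffOn_of_mem_maximalAtlas,
AnalyticAt.contDiffAt, E' complete), ContMDiffAt.congr_of_eventuallyEq.
mfderiv: mfderiv f x = fderiv (f ∘ κ.symm) (κ x) ∘ mfderiv κ x and mfderiv κ x is invertible (κ.symm ∘ κ = id near x and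
κ ∘ κ.symm = id near κ x, chain rule).
-/

open scoped Manifold ContDiff Topology
open Filter

noncomputable section

namespace Pool.Agent.Lib.MP_d4bba2_ag

variable {E : Type} [NormedAddCommGroup E] [NormedSpace ℂ E] [CompleteSpace E]
  {E' : Type} [NormedAddCommGroup E'] [NormedSpace ℂ E'] [CompleteSpace E']
  {M : Type} [TopologicalSpace M] [ChartedSpace E M] [IsManifold 𝓘(ℂ, E) ω M]

theorem contMDiffAt_iff_chart {κ : OpenPartialHomeomorph M E}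
    (hκ : κ ∈ IsManifold.maximalAtlas 𝓘(ℂ, E) ω M) {x : M} (hx : x ∈ κ.source) {f : M → E'} :
    ContMDiffAt 𝓘(ℂ, E) 𝓘(ℂ, E') ω f x ↔ AnalyticAt ℂ (fun p => f (κ.symm p)) (κ x) := by
  constructor
  · intro hf
    have h1 : ContMDiffAt 𝓘(ℂ, E) 𝓘(ℂ, E) ω κ.symm (κ x) :=
      contMDiffAt_symm_of_mem_maximalAtlas hκ (κ.map_source hx)
    have h2 : ContMDiffAt 𝓘(ℂ, E) 𝓘(ℂ, E') ω (f ∘ κ.symm) (κ x) :=
      ContMDiffAt.comp (κ x) (by rw [κ.left_inv hx]; exact hf) h1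
    exact (contMDiffAt_iff_contDiffAt.1 h2).analyticAt
  · intro hf
    have h1 : ContMDiffAt 𝓘(ℂ, E) 𝓘(ℂ, E') ω (fun p => f (κ.symm p)) (κ x) :=
      contMDiffAt_iff_contDiffAt.2 hf.contDiffAt
    have h2 : ContMDiffAt 𝓘(ℂ, E) 𝓘(ℂ, E) ω κ x := contMDiffAt_of_mem_maximalAtlas hκ hx
    have h3 := ContMDiffAt.comp x h1 h2
    refine h3.congr_of_eventuallyEq ?_
    filter_upwards [κ.open_source.mem_nhds hx] with y hy
    simp [κ.left_inv hy]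

/-- the derivative on the manifold is the derivative in the chart after an invertible map -/
theorem mfderiv_key {κ : OpenPartialHomeomorph M E}
    (hκ : κ ∈ IsManifold.maximalAtlas 𝓘(ℂ, E) ω M) {x : M} (hx : x ∈ κ.source) {f : M → E'}
    (hf : ContMDiffAt 𝓘(ℂ, E) 𝓘(ℂ, E') ω f x) :
    ∃ A B : E →L[ℂ] E, (∀ v, B (A v) = v) ∧ (∀ v, A (B v) = v) ∧
      ∀ v : E, (mfderiv 𝓘(ℂ, E) 𝓘(ℂ, E') f x) v =
        fderiv ℂ (fun p => f (κ.symm p)) (κ x) (A v) := by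
  have h1 : MDifferentiableAt 𝓘(ℂ, E) 𝓘(ℂ, E) κ x :=
    (contMDiffAt_of_mem_maximalAtlas hκ hx).mdifferentiableAt (by simp)
  have h2 : MDifferentiableAt 𝓘(ℂ, E) 𝓘(ℂ, E) κ.symm (κ x) :=
    (contMDiffAt_symm_of_mem_maximalAtlas hκ (κ.map_source hx)).mdifferentiableAt (by simp)
  have hA := h1.hasMFDerivAt
  have hB := h2.hasMFDerivAt
  have hBA := HasMFDerivAt.comp x hB hA
  have hid : HasMFDerivAt 𝓘(ℂ, E) 𝓘(ℂ, E) (id : M → M) x
      ((mfderiv 𝓘(ℂ, E) 𝓘(ℂ, E) κ.symm (κ x)).comp (mfderiv 𝓘(ℂ, E) 𝓘(ℂ, E) κ x)) := by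
    refine hBA.congr_of_eventuallyEq ?_
    filter_upwards [κ.open_source.mem_nhds hx] with y hy
    simp [κ.left_inv hy]
  have e1 := hasMFDerivAt_unique hid (hasMFDerivAt_id x)
  have hA' : HasMFDerivAt 𝓘(ℂ, E) 𝓘(ℂ, E) κ (κ.symm (κ x)) (mfderiv 𝓘(ℂ, E) 𝓘(ℂ, E) κ x) := by
    rw [κ.left_inv hx]; exact hA
  have hAB := HasMFDerivAt.comp (κ x) hA' hB
  have hid2 : HasMFDerivAt 𝓘(ℂ, E) 𝓘(ℂ, E) (id : E → E) (κ x)
      ((mfderiv 𝓘(ℂ, E) 𝓘(ℂ, E) κ x).comp (mfderiv 𝓘(ℂ, E) 𝓘(ℂ, E) κ.symm (κ x))) := by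
    refine hAB.congr_of_eventuallyEq ?_
    filter_upwards [κ.open_target.mem_nhds (κ.map_source hx)] with y hy
    simp [κ.right_inv hy]
  have e2 := hasMFDerivAt_unique hid2 (hasMFDerivAt_id (κ x))
  have hg : HasMFDerivAt 𝓘(ℂ, E) 𝓘(ℂ, E') (fun p => f (κ.symm p)) (κ x)
      (fderiv ℂ (fun p => f (κ.symm p)) (κ x)) :=
    (((contMDiffAt_iff_chart hκ hx).1 hf).differentiableAt.hasFDerivAt).hasMFDerivAt
  have hgA := HasMFDerivAt.comp x hg hA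
  have hf' : HasMFDerivAt 𝓘(ℂ, E) 𝓘(ℂ, E') f x
      ((fderiv ℂ (fun p => f (κ.symm p)) (κ x)).comp (mfderiv 𝓘(ℂ, E) 𝓘(ℂ, E) κ x)) := by
    refine hgA.congr_of_eventuallyEq ?_
    filter_upwards [κ.open_source.mem_nhds hx] with y hy
    simp [κ.left_inv hy]
  have e3 := hasMFDerivAt_unique (hf.mdifferentiableAt (by simp)).hasMFDerivAt hf'
  refine ⟨mfderiv 𝓘(ℂ, E) 𝓘(ℂ, E) κ x, mfderiv 𝓘(ℂ, E) 𝓘(ℂ, E) κ.symm (κ x), ?_, ?_, ?_⟩
  · intro v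
    exact DFunLike.congr_fun e1 v
  · intro v
    exact DFunLike.congr_fun e2 v
  · intro v
    exact DFunLike.congr_fun e3 v

theorem mfderiv_zero_iff {κ : OpenPartialHomeomorph M E}
    (hκ : κ ∈ IsManifold.maximalAtlas 𝓘(ℂ, E) ω M) {x : M} (hx : x ∈ κ.source) {f : M → E'}
    (hf : ContMDiffAt 𝓘(ℂ, E) 𝓘(ℂ, E') ω f x) :
    mfderiv 𝓘(ℂ, E) 𝓘(ℂ, E') f x = 0 ↔ fderiv ℂ (fun p => f (κ.symm p)) (κ x) = 0 := by
  obtain ⟨A, B, hBA, hAB, hv⟩ := mfderiv_key hκ hx hf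
  constructor
  · intro h
    ext v
    have h1 := hv (B v)
    rw [hAB] at h1
    rw [← h1, h]
    rfl
  · intro h
    ext v
    refine (hv v).trans ?_
    rw [h]
    rfl

theorem mfderiv_inj_iff {κ : OpenPartialHomeomorph M E}
    (hκ : κ ∈ IsManifold.maximalAtlas 𝓘(ℂ, E) ω M) {x : M} (hx : x ∈ κ.source) {f : M → E'}
    (hf : ContMDiffAt 𝓘(ℂ, E) 𝓘(ℂ, E') ω f x) :
    Function.Injective (mfderiv 𝓘(ℂ, E) 𝓘(ℂ, E') f x) ↔
      Function.Injective (fderiv ℂ (fun p => f (κ.symm p)) (κ x)) := by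
  obtain ⟨A, B, hBA, hAB, hv⟩ := mfderiv_key hκ hx hf
  constructor
  · intro h v w hvw
    have h1 : (mfderiv 𝓘(ℂ, E) 𝓘(ℂ, E') f x) (B v) = (mfderiv 𝓘(ℂ, E) 𝓘(ℂ, E') f x) (B w) := by
      refine (hv (B v)).trans (Eq.trans ?_ (hv (B w)).symm)
      rw [hAB, hAB, hvw]
    have h2 : B v = B w := h h1
    rw [← hAB v, ← hAB w, h2]
  · intro h v w hvw
    have h1 : fderiv ℂ (fun p => f (κ.symm p)) (κ x) (A v) =
        fderiv ℂ (fun p => f (κ.symm p)) (κ x) (A w) :=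
      (hv v).symm.trans (Eq.trans hvw (hv w))
    have h2 : A v = A w := h h1
    have h3 : B (A v) = B (A w) := by rw [h2]
    rw [hBA, hBA] at h3
    exact h3

/-- transition maps of the maximal atlas are analytic -/
theorem transition_an {κ κ' : OpenPartialHomeomorph M E}
    (hκ : κ ∈ IsManifold.maximalAtlas 𝓘(ℂ, E) ω M)
    (hκ' : κ' ∈ IsManifold.maximalAtlas 𝓘(ℂ, E) ω M) {x : M} (hx : x ∈ κ.source)
    (hx' : x ∈ κ'.source) : AnalyticAt ℂ (fun p => κ' (κ.symm p)) (κ x) :=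
  (contMDiffAt_iff_chart hκ hx).1 (contMDiffAt_of_mem_maximalAtlas hκ' hx')

end Pool.Agent.Lib.MP_d4bba2_ag
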