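import Pool.Agent.Lib.MP_d4bba2_ag.Glue
import Pool.Agent.Lib.MP_d4bba2_ag.MfdApi

/-!
FUNCTIONS ON A GLUED SPACE.  D.chart i is an open partial homeomorphism of the maximal atlas (Glue.lean: chart_mem), with
coercions equal to D.φ i, (D.φ i).symm by rfl.  eventually_iff: 𝓝 x = map (κ.symm) (𝓝 (κ x)) for κ = D.chart i
(OpenPartialHomeomorph.map_nhds_eq, symm).
-/

open scoped Manifold ContDiff Topology
open Filter

noncomputable section

namespace Pool.Agent.Lib.MP_d4bba2_ag

variable {E : Type} [NormedAddCommGroup E] [NormedSpace ℂ E] [CompleteSpace E] {S : Type}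

theorem GlueData.eventually_iff (D : GlueData E S) {i : D.ι} {x : D.Space}
    (hx : x ∈ (D.chart i).source) {P : D.Space → Prop} :
    (∀ᶠ y in 𝓝 x, P y) ↔ ∀ᶠ p in 𝓝 (D.chart i x), P ((D.chart i).symm p) := by
  have h1 := (D.chart i).symm.map_nhds_eq ((D.chart i).map_source hx)
  rw [(D.chart i).left_inv hx] at h1
  rw [← h1, eventually_map]

theorem GlueData.continuousAt_iff (D : GlueData E S) {i : D.ι} {x : D.Space}
    (hx : x ∈ (D.chart i).source) {Y : Type} [TopologicalSpace Y] {f : D.Space → Y} :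
    ContinuousAt f x ↔ ContinuousAt (fun p => f ((D.chart i).symm p)) (D.chart i x) := by
  have h1 := (D.chart i).symm.map_nhds_eq ((D.chart i).map_source hx)
  rw [(D.chart i).left_inv hx] at h1
  rw [ContinuousAt, ContinuousAt, ← h1, (D.chart i).left_inv hx]
  exact tendsto_map'_iff

theorem GlueData.contMDiffAt_iff {E' : Type} [NormedAddCommGroup E'] [NormedSpace ℂ E']
    [CompleteSpace E'] (D : GlueData E S) {i : D.ι} {x : D.Space}
    (hx : x ∈ (D.chart i).source) {f : D.Space → E'} :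
    ContMDiffAt 𝓘(ℂ, E) 𝓘(ℂ, E') ω f x ↔
      AnalyticAt ℂ (fun p => f ((D.chart i).symm p)) (D.chart i x) :=
  contMDiffAt_iff_chart (D.chart_mem i) hx

/-- two points of one chart have disjoint neighbourhoods -/
theorem GlueData.separated (D : GlueData E S) {i : D.ι} {x y : D.Space}
    (hx : x ∈ (D.chart i).source) (hy : y ∈ (D.chart i).source) (hxy : x ≠ y) :
    ∃ U V : Set D.Space, IsOpen U ∧ IsOpen V ∧ x ∈ U ∧ y ∈ V ∧ Disjoint U V := by
  have hne : D.chart i x ≠ D.chart i y := fun h => hxy ((D.chart i).injOn hx hy h)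
  obtain ⟨U, V, hU, hV, hxU, hyV, hUV⟩ := t2_separation hne
  refine ⟨(D.chart i).source ∩ D.chart i ⁻¹' U, (D.chart i).source ∩ D.chart i ⁻¹' V,
    (D.chart i).isOpen_inter_preimage hU, (D.chart i).isOpen_inter_preimage hV,
    ⟨hx, hxU⟩, ⟨hy, hyV⟩, ?_⟩
  rw [Set.disjoint_left]
  rintro z ⟨_, hz1⟩ ⟨_, hz2⟩
  exact Set.disjoint_left.1 hUV hz1 hz2

end Pool.Agent.Lib.MP_d4bba2_ag
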