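import Pool.Agent.Lib.MP_d4bba2_ag.CvCompU
import Pool.Agent.Lib.MP_d4bba2_ag.CvCompW
import Pool.Agent.Lib.MP_d4bba2_ag.CvCompY
import Pool.Agent.Lib.MP_d4bba2_ag.GlueApi

/-!
The curve as a complex manifold `CvS`.
mem: by cases.  tgt: the targets are open.
-/

open scoped Topology Manifold ContDiff
open Filter Complex

noncomputable section

namespace Pool.Agent.Lib.MP_d4bba2_ag

theorem cv_ref_mem (x : Cv) : x ∈ (cvChart (cvRef x)).source := by
  cases x with
  | aff u w h =>
    by_cases hw : w = 0
    · have h1 : cvRef (.aff u w h) = .W u (Cv.pow_eq h hw) := dif_pos hw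
      rw [h1]
      show ‖w‖ < 1 ∧ |(u / u).arg| < Real.pi / 5
      have hu : u ≠ 0 := by
        rintro rfl
        have := Cv.pow_eq h hw
        norm_num at this
      rw [hw, norm_zero, div_self hu, Complex.arg_one, abs_zero]
      exact ⟨one_pos, by positivity⟩
    · have h1 : cvRef (.aff u w h) = .U w hw := dif_neg hw
      rw [h1]
      show 0 < (w / w).re
      rw [div_self hw, Complex.one_re]
      exact one_pos
  | inf => exact trivial

theorem cv_tgt (i : CvIdx) : IsOpen (cvChart i).target := by
  cases i with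
  | U w0 h =>
    show IsOpen {x : ℂ | (1 + x ^ 5) / w0 ^ 2 ∈ slitPlane}
    have hc : Continuous (fun x : ℂ => (1 + x ^ 5) / w0 ^ 2) := by fun_prop
    exact Complex.isOpen_slitPlane.preimage hc
  | W u0 h => exact Metric.isOpen_ball
  | Y => exact Metric.isOpen_ball

def cvGlue : GlueData ℂ Cv where
  ι := CvIdx
  φ := cvChart
  r := cvRef
  mem := cv_ref_mem
  tgt := cv_tgt
  comp i x hx := by
    cases i with
    | U w0 h => exact (comp_U w0 h x hx).1
    | W u0 h => exact (comp_W u0 h x hx).1
    | Y => exact (comp_Y x hx).1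
  comp' i x hx := by
    cases i with
    | U w0 h => exact (comp_U w0 h x hx).2
    | W u0 h => exact (comp_W u0 h x hx).2
    | Y => exact (comp_Y x hx).2

/-- the compact Riemann surface of genus 2 -/
abbrev CvS : Type := cvGlue.Space

/-- an affine point of the Riemann surface -/
def affS (u w : ℂ) (h : w ^ 2 = 1 + u ^ 5) : CvS := (Cv.aff u w h : Cv)

/-- the point at infinity -/
def infS : CvS := (Cv.inf : Cv)

theorem cvS_cases (c : CvS) : (∃ u w h, c = affS u w h) ∨ c = infS := by
  cases (c : Cv) with
  | aff u w h => exact Or.inl ⟨u, w, h, rfl⟩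
  | inf => exact Or.inr rfl

end Pool.Agent.Lib.MP_d4bba2_ag
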