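import Pool.Agent.Lib.MP_d4bba2_ag.CvData

/-!
RIGIDITY: h⁰(C, O(p_1 + p_2)) = 1.

Let a be as in Rigid.  A(u,w) := a (aff u w), for (u,w) ≠ (0,1) holomorphic in the local coordinates.
(0) Facts: for u0 ≠ 0, w0 ≠ 0, the function u ↦ A (u, w(u)) with w(u) = w0 csq ((1+u^5)/w0^2) is analytic at u0 (chart U w0).
   At (0,-1) too (chart U (-1)).  Near (u0,0), u0^5 = -1: w ↦ A (u(w), w) analytic at 0, u(w) = u0 croot5 (1-w^2) (chart W u0).
(1) P(u) = A(u,w) + A(u,-w), for u ≠ 0, w any root of w^2 = 1+u^5 (well defined, symmetric).  Analytic at u ≠ 0 with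
   u^5 ≠ -1 by (0).  At u0 with u0^5 = -1, P is continuous (bounded) near u0: A is continuous at the point (u0,0) of the curve and
   both (u,w), (u,-w) tend to it as u → u0.  So u0 is a removable singularity and, by continuity, P is analytic at u0
   (differentiable on a punctured neighbourhood and continuous at u0).
(2) M(u) = (A(u,w) - A(u,-w))/w for u ≠ 0, u^5 ≠ -1 : analytic there.  At u0: B(w) = A (u(w), w) is analytic near w = 0, and
   (B(w) - B(-w))/w is bounded near 0, so M is bounded near u0: removable.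
(3) At u = 0: the points (0,1) = p_1 (where u * a is analytic in u = z false) and (0,-1): so u * P(u) and u * M(u) are bounded near
   0, removable.
(4) At infinity: y * a (chYinv y) is analytic at y = 0, so |A(u,w)| ≤ const * |y|^(-1) = const * |u|^(1/2) for |u| large (both
   points (u,w), (u,-w) are chYinv (±y)); |w| ≥ |u|^(5/2)/2.  So u * P(u) is entire with |u P(u)| ≤ const |u|^(3/2) for |u|
   large, hence u P(u) = α + β u (Cauchy estimates / Liouville: for instance (uP(u) - uP(0)..)/u is entire and tends to a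
   function bounded by |u|^(1/2), whose derivative vanishes); u * M(u) is entire and tends to 0: |u M(u)| ≤ const |u| * |u|^(1/2) /
   |u|^(5/2) = const / |u|: u M(u) = 0.
(5) So A(u,w) = A(u,-w) for u ≠ 0, w ≠ 0.  Near u = 0: A(u,-w) (w near 1) is analytic at u = 0 (the point (0,-1)), so P(u) = 2 A(u,-w) is
   bounded near 0, so α = 0 and P = β for u ≠ 0.
(6) Hence A(u,w) = β/2 for all u ≠ 0, w ≠ 0, and by continuity at all points except p_1, p_2 (the points (u0,0) and (0,-1) are limits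
   of such points).  c0 = β/2.

It may be convenient to use as entire functions the removable singularity extensions: Mathlib has
Complex.differentiableOn_update_limUnder_of_bddAbove and AnalyticAt for isolated bounded singularities; the finite set
{0} ∪ {u^5 = -1} is closed and discrete.  One general lemma (entire_of_bounded) is stated below.
-/

open scoped Topology Manifold ContDiff
open Filter Complex

noncomputable section

namespace Pool.Agent.Lib.MP_d4bba2_ag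

/-- a function which is differentiable outside a finite set and bounded near the points of the finite
set agrees outside the finite set with an entire function -/
theorem entire_of_bounded {f : ℂ → ℂ} {T : Set ℂ} (hT : T.Finite)
    (hd : ∀ u, u ∉ T → DifferentiableAt ℂ f u)
    (hb : ∀ u ∈ T, ∃ M : ℝ, ∀ᶠ v in 𝓝[≠] u, ‖f v‖ ≤ M) :
    ∃ F : ℂ → ℂ, Differentiable ℂ F ∧ ∀ u, u ∉ T → F u = f u := by
  classical
  refine ⟨fun u => if u ∈ T then limUnder (𝓝[≠] u) f else f u, ?_, fun u hu => if_neg hu⟩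
  intro u
  by_cases hu : u ∈ T
  · obtain ⟨M, hM⟩ := hb u hu
    have h1 : ∀ᶠ v in 𝓝 u, v ∉ T \ {u} := by
      have h2 : IsClosed (T \ {u}) := (hT.subset Set.sdiff_subset).isClosed
      exact h2.isOpen_compl.mem_nhds (fun h => h.2 rfl)
    rw [eventually_nhdsWithin_iff] at hM
    have h3 : {v : ℂ | v ∉ T \ {u} ∧ (v ∈ ({u}ᶜ : Set ℂ) → ‖f v‖ ≤ M)} ∈ 𝓝 u := h1.and hM
    have h4 := Complex.differentiableOn_update_limUnder_of_bddAbove (f := f) h3 (by
        intro v hv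
        have hvT : v ∉ T := fun h => hv.1.1 ⟨h, hv.2⟩
        exact (hd v hvT).differentiableWithinAt) (by
        refine ⟨M, ?_⟩
        rintro _ ⟨v, hv, rfl⟩
        exact hv.1.2 hv.2)
    have h5 := h4.differentiableAt h3
    refine h5.congr_of_eventuallyEq ?_
    filter_upwards [h3] with v hv
    by_cases hvu : v = u
    · subst hvu
      rw [Function.update_self, if_pos hu]
    · rw [Function.update_of_ne hvu, if_neg (fun h => hv.1 ⟨h, hvu⟩)]
  · have h1 : ∀ᶠ v in 𝓝 u, v ∉ T := hT.isClosed.isOpen_compl.mem_nhds hu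
    refine (hd u hu).congr_of_eventuallyEq ?_
    filter_upwards [h1] with v hv
    exact if_neg hv

private theorem CR_bdd {f : ℂ → ℂ} {u L : ℂ} (h : Tendsto f (𝓝[≠] u) (𝓝 L)) :
    ∃ M : ℝ, ∀ᶠ v in 𝓝[≠] u, ‖f v‖ ≤ M := by
  refine ⟨‖L‖ + 1, ?_⟩
  have h1 := h.norm.eventually_lt_const (lt_add_one ‖L‖)
  filter_upwards [h1] with v hv using hv.le

private theorem CR_zero {F : ℂ → ℂ} (hF : Differentiable ℂ F)
    (h : Tendsto F (cocompact ℂ) (𝓝 0)) (u : ℂ) : F u = 0 :=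
  hF.apply_eq_of_tendsto_cocompact u h

private theorem CR_inv : Tendsto (fun u : ℂ => u⁻¹) (cocompact ℂ) (𝓝 0) := by
  rw [← Metric.cobounded_eq_cocompact]
  exact tendsto_inv₀_cobounded

private theorem CR_ne : ∀ᶠ u : ℂ in cocompact ℂ, u ≠ 0 := by
  have h1 := (tendsto_norm_cocompact_atTop (E := ℂ)).eventually (eventually_gt_atTop 0)
  filter_upwards [h1] with u hu
  exact norm_pos_iff.1 hu

private theorem CR_dslope {F : ℂ → ℂ} (hF : Differentiable ℂ F) : Differentiable ℂ (dslope F 0) := by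
  rw [← differentiableOn_univ] at hF ⊢
  exact (Complex.differentiableOn_dslope univ_mem).2 hF

private theorem CR_affine {F : ℂ → ℂ} (hF : Differentiable ℂ F)
    (h : Tendsto (fun u => F u / u ^ 2) (cocompact ℂ) (𝓝 0)) :
    ∃ β, ∀ u, F u = F 0 + β * u := by
  have hG := CR_dslope hF
  have hH := CR_dslope hG
  have e1 : ∀ u, u * dslope F 0 u = F u - F 0 := by
    intro u
    have := sub_smul_dslope F 0 u
    rwa [sub_zero, smul_eq_mul] at this
  have e2 : ∀ u, u * dslope (dslope F 0) 0 u = dslope F 0 u - dslope F 0 0 := by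
    intro u
    have := sub_smul_dslope (dslope F 0) 0 u
    rwa [sub_zero, smul_eq_mul] at this
  have hlim : Tendsto (dslope (dslope F 0) 0) (cocompact ℂ) (𝓝 0) := by
    have h1 : Tendsto (fun u => F u / u ^ 2 - F 0 * (u⁻¹ * u⁻¹) - dslope F 0 0 * u⁻¹)
        (cocompact ℂ) (𝓝 (0 - F 0 * (0 * 0) - dslope F 0 0 * 0)) :=
      (h.sub ((CR_inv.mul CR_inv).const_mul _)).sub (CR_inv.const_mul _)
    rw [mul_zero, mul_zero, mul_zero, sub_zero, sub_zero] at h1
    refine h1.congr' ?_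
    filter_upwards [CR_ne] with u hu
    have h2 := e1 u
    have h3 := e2 u
    have h4 : dslope (dslope F 0) 0 u = (dslope F 0 u - dslope F 0 0) / u := by
      rw [← h3]; field_simp
    have h5 : dslope F 0 u = (F u - F 0) / u := by
      rw [← h2]; field_simp
    rw [h4, h5]
    field_simp
  refine ⟨dslope F 0 0, fun u => ?_⟩
  have h2 := e1 u
  have h3 := e2 u
  rw [CR_zero hH hlim u, mul_zero] at h3
  linear_combination -h2 - u * h3

/-- the hypotheses in the coordinates -/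
private structure RA (A : ℂ → ℂ → ℂ) : Prop where
  U : ∀ u0 w0 : ℂ, w0 ≠ 0 → w0 ^ 2 = 1 + u0 ^ 5 → (u0 ≠ 0 ∨ w0 ≠ 1) →
    AnalyticAt ℂ (fun x => A x (w0 * csq ((1 + x ^ 5) / w0 ^ 2))) u0
  W : ∀ u0 : ℂ, u0 ^ 5 = -1 → AnalyticAt ℂ (fun x => A (u0 * croot5 (1 - x ^ 2)) x) 0
  p1 : ∃ a0 : ℂ → ℂ, AnalyticAt ℂ a0 0 ∧
    ∀ᶠ x in 𝓝[≠] (0 : ℂ), x * A x (csq (1 + x ^ 5)) = a0 x
  p2 : ∃ a0 : ℂ → ℂ, AnalyticAt ℂ a0 0 ∧
    ∀ᶠ y in 𝓝[≠] (0 : ℂ), y * A ((y ^ 2)⁻¹) ((y ^ 5)⁻¹ * csq (1 + y ^ 10)) = a0 y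

private def cP (A : ℂ → ℂ → ℂ) (u : ℂ) : ℂ :=
  u * (A u (csq (1 + u ^ 5)) + A u (-csq (1 + u ^ 5)))

private def cN (A : ℂ → ℂ → ℂ) (u : ℂ) : ℂ :=
  u * (A u (csq (1 + u ^ 5)) - A u (-csq (1 + u ^ 5))) / csq (1 + u ^ 5)

private theorem cP_eq (A : ℂ → ℂ → ℂ) {u w : ℂ} (h : w ^ 2 = 1 + u ^ 5) :
    cP A u = u * (A u w + A u (-w)) := by
  have h1 : csq (1 + u ^ 5) ^ 2 = w ^ 2 := by rw [csq_sq, h]
  rcases sq_eq_sq_iff_eq_or_eq_neg.1 h1 with h2 | h2
  · rw [cP, h2]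
  · rw [cP, h2, neg_neg]; ring

private theorem cN_eq (A : ℂ → ℂ → ℂ) {u w : ℂ} (h : w ^ 2 = 1 + u ^ 5) :
    cN A u = u * (A u w - A u (-w)) / w := by
  have h1 : csq (1 + u ^ 5) ^ 2 = w ^ 2 := by rw [csq_sq, h]
  rcases sq_eq_sq_iff_eq_or_eq_neg.1 h1 with h2 | h2
  · rw [cN, h2]
  · rw [cN, h2, neg_neg, div_neg, ← neg_div]; ring

private theorem csq_one : csq 1 = 1 := by
  rw [csq, Complex.one_cpow]

private theorem csq_cont0 : Tendsto csq (𝓝 0) (𝓝 0) := by
  rw [tendsto_zero_iff_norm_tendsto_zero]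
  have h1 : (fun z => ‖csq z‖) = fun z => Real.sqrt ‖z‖ := by
    funext z
    rw [eq_comm, Real.sqrt_eq_iff_mul_self_eq (norm_nonneg _) (norm_nonneg _), ← pow_two,
      ← norm_pow, csq_sq]
  rw [h1]
  have h2 : Tendsto (fun z : ℂ => Real.sqrt ‖z‖) (𝓝 0) (𝓝 (Real.sqrt ‖(0 : ℂ)‖)) :=
    (Real.continuous_sqrt.comp continuous_norm).tendsto 0
  simpa using h2

/-- the analytic branch of the root -/
private theorem root_an {u0 w0 : ℂ} (h0 : w0 ≠ 0) (h : w0 ^ 2 = 1 + u0 ^ 5) :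
    AnalyticAt ℂ (fun x => w0 * csq ((1 + x ^ 5) / w0 ^ 2)) u0 := by
  have h1 : (1 + u0 ^ 5) / w0 ^ 2 = 1 := by rw [← h]; exact div_self (pow_ne_zero 2 h0)
  have h2 : AnalyticAt ℂ csq ((1 + u0 ^ 5) / w0 ^ 2) := by
    rw [h1]
    exact csq_an Complex.one_mem_slitPlane
  have h3 : AnalyticAt ℂ (fun x : ℂ => (1 + x ^ 5) / w0 ^ 2) u0 := by fun_prop (disch := simpa)
  exact analyticAt_const.mul (AnalyticAt.fun_comp (f := fun x : ℂ => (1 + x ^ 5) / w0 ^ 2) h2 h3)

private theorem root_sq {w0 : ℂ} (h0 : w0 ≠ 0) (x : ℂ) :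
    (w0 * csq ((1 + x ^ 5) / w0 ^ 2)) ^ 2 = 1 + x ^ 5 := by
  rw [mul_pow, csq_sq]
  field_simp

private theorem root_neg (w0 x : ℂ) :
    -w0 * csq ((1 + x ^ 5) / (-w0) ^ 2) = -(w0 * csq ((1 + x ^ 5) / w0 ^ 2)) := by
  rw [neg_sq, neg_mul]

private theorem P_diff {A : ℂ → ℂ → ℂ} (hA : RA A) {u0 : ℂ} (hu : u0 ≠ 0) (hu5 : u0 ^ 5 ≠ -1) :
    DifferentiableAt ℂ (cP A) u0 ∧ DifferentiableAt ℂ (cN A) u0 := by
  set w0 := csq (1 + u0 ^ 5) with hw0
  have hsq : w0 ^ 2 = 1 + u0 ^ 5 := csq_sq _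
  have hw : w0 ≠ 0 := by
    intro h
    apply hu5
    rw [h] at hsq
    linear_combination -hsq
  have h1 := hA.U u0 w0 hw hsq (Or.inl hu)
  have h2 := hA.U u0 (-w0) (neg_ne_zero.2 hw) (by rw [neg_sq, hsq]) (Or.inl hu)
  simp only [root_neg] at h2
  have h3 := root_an hw hsq
  have h4 : w0 * csq ((1 + u0 ^ 5) / w0 ^ 2) ≠ 0 := by
    intro h
    have := root_sq hw u0
    rw [h, ← hsq] at this
    apply hw
    exact pow_eq_zero_iff (two_ne_zero) |>.1 (by rw [← this]; ring)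
  have hid : DifferentiableAt ℂ (fun x : ℂ => x) u0 := differentiableAt_id
  constructor
  · have h5 : cP A = fun x => x * (A x (w0 * csq ((1 + x ^ 5) / w0 ^ 2)) +
        A x (-(w0 * csq ((1 + x ^ 5) / w0 ^ 2)))) := by
      funext x
      exact cP_eq A (root_sq hw x)
    rw [h5]
    exact hid.mul (h1.differentiableAt.add h2.differentiableAt)
  · have h5 : cN A = fun x => x * (A x (w0 * csq ((1 + x ^ 5) / w0 ^ 2)) -
        A x (-(w0 * csq ((1 + x ^ 5) / w0 ^ 2)))) / (w0 * csq ((1 + x ^ 5) / w0 ^ 2)) := by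
      funext x
      exact cN_eq A (root_sq hw x)
    rw [h5]
    exact (hid.mul (h1.differentiableAt.sub h2.differentiableAt)).div h3.differentiableAt h4

private theorem croot5_back {u0 : ℂ} (h0 : u0 ^ 5 = -1) :
    ∀ᶠ u in 𝓝 u0, ∀ w : ℂ, w ^ 2 = 1 + u ^ 5 → u0 * croot5 (1 - w ^ 2) = u := by
  have hu0 : u0 ≠ 0 := by
    rintro rfl
    norm_num at h0
  have h1 : Tendsto (fun u => (u / u0).arg) (𝓝 u0) (𝓝 0) := by
    have h2 : ContinuousAt Complex.arg (u0 / u0) := by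
      rw [div_self hu0]
      exact Complex.continuousAt_arg Complex.one_mem_slitPlane
    have h3 : ContinuousAt (fun u : ℂ => u / u0) u0 := by fun_prop (disch := simpa)
    have h4 : ContinuousAt (fun u => (u / u0).arg) u0 :=
      ContinuousAt.comp' (f := fun u : ℂ => u / u0) h2 h3
    have h5 := h4.tendsto
    rwa [div_self hu0, Complex.arg_one] at h5
  have hpi : 0 < Real.pi / 5 := by positivity
  filter_upwards [h1.eventually_lt_const hpi, h1.eventually_const_lt (neg_lt_zero.2 hpi)]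
    with u hu1 hu2 w hw
  have h6 : 1 - w ^ 2 = (u / u0) ^ 5 := by
    rw [div_pow, h0, hw]
    ring
  rw [h6, croot5, Complex.pow_cpow_nat_inv (by norm_num) (by exact_mod_cast hu2)
    (by exact_mod_cast hu1.le)]
  field_simp

private theorem pow5_fin : {u : ℂ | u ^ 5 = -1}.Finite := by
  have h7 : {u : ℂ | u ^ 5 = -1} ⊆
      ((Polynomial.X ^ 5 + Polynomial.C (1 : ℂ)).roots.toFinset : Set ℂ) := by
    intro u hu
    rw [Set.mem_ofPred_eq] at hu
    rw [Finset.mem_coe, Multiset.mem_toFinset, Polynomial.mem_roots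
      (Polynomial.X_pow_add_C_ne_zero (by norm_num) 1)]
    simp [hu]
  exact (Finset.finite_toSet _).subset h7

private theorem P_branch {A : ℂ → ℂ → ℂ} (hA : RA A) {u0 : ℂ} (h0 : u0 ^ 5 = -1) :
    (∃ M : ℝ, ∀ᶠ v in 𝓝[≠] u0, ‖cP A v‖ ≤ M) ∧ (∃ M : ℝ, ∀ᶠ v in 𝓝[≠] u0, ‖cN A v‖ ≤ M) := by
  set B : ℂ → ℂ := fun x => A (u0 * croot5 (1 - x ^ 2)) x with hB
  have hBan : AnalyticAt ℂ B 0 := hA.W u0 h0
  have hw : Tendsto (fun u => csq (1 + u ^ 5)) (𝓝 u0) (𝓝 0) := by
    have h1 : Tendsto (fun u : ℂ => 1 + u ^ 5) (𝓝 u0) (𝓝 0) := by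
      have h2 : Continuous (fun u : ℂ => 1 + u ^ 5) := by fun_prop
      have h3 := h2.tendsto u0
      rwa [h0, add_neg_cancel] at h3
    exact csq_cont0.comp h1
  have hw' : Tendsto (fun u => -csq (1 + u ^ 5)) (𝓝 u0) (𝓝 0) := by
    simpa using hw.neg
  have hid : Tendsto (fun u : ℂ => u) (𝓝 u0) (𝓝 u0) := tendsto_id
  have hback := croot5_back h0
  have hAB : ∀ᶠ u in 𝓝 u0, A u (csq (1 + u ^ 5)) = B (csq (1 + u ^ 5)) ∧
      A u (-csq (1 + u ^ 5)) = B (-csq (1 + u ^ 5)) := by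
    filter_upwards [hback] with u hu
    constructor
    · rw [hB]
      simp only
      rw [hu _ (csq_sq _)]
    · rw [hB]
      simp only
      rw [hu _ (by rw [neg_sq, csq_sq])]
  constructor
  · refine CR_bdd (L := u0 * (B 0 + B 0)) (Tendsto.mono_left ?_ nhdsWithin_le_nhds)
    have h1 := hid.mul ((hBan.continuousAt.tendsto.comp hw).add
      (hBan.continuousAt.tendsto.comp hw'))
    refine h1.congr' ?_
    filter_upwards [hAB] with u hu
    rw [cP, hu.1, hu.2]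
    rfl
  · have hds : ContinuousAt (dslope B 0) 0 := continuousAt_dslope_same.2 hBan.differentiableAt
    refine CR_bdd (L := u0 * (dslope B 0 0 + dslope B 0 0)) ?_
    have h1 := hid.mul ((hds.tendsto.comp hw).add (hds.tendsto.comp hw'))
    have h5 : ∀ᶠ u in 𝓝[≠] u0, csq (1 + u ^ 5) ≠ 0 := by
      have h6 := pow5_fin
      have h8 : IsClosed ({u : ℂ | u ^ 5 = -1} \ {u0}) := (h6.subset Set.sdiff_subset).isClosed
      have h9 : ∀ᶠ u in 𝓝 u0, u ∉ {u : ℂ | u ^ 5 = -1} \ {u0} :=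
        h8.isOpen_compl.mem_nhds (fun h => h.2 rfl)
      rw [eventually_nhdsWithin_iff]
      filter_upwards [h9] with u hu hne h10
      apply hu
      refine ⟨?_, hne⟩
      have := csq_sq (1 + u ^ 5)
      rw [h10] at this
      rw [Set.mem_ofPred_eq]
      linear_combination -this
    refine (h1.mono_left nhdsWithin_le_nhds).congr' ?_
    filter_upwards [hAB.filter_mono nhdsWithin_le_nhds, h5] with u hu hne
    rw [cN, hu.1, hu.2]
    simp only [Function.comp]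
    rw [dslope_of_ne _ hne, dslope_of_ne _ (neg_ne_zero.2 hne), slope_def_field, slope_def_field]
    rw [sub_zero, sub_zero]
    field_simp
    ring

private theorem P_zero {A : ℂ → ℂ → ℂ} (hA : RA A) :
    (∃ M : ℝ, ∀ᶠ v in 𝓝[≠] 0, ‖cP A v‖ ≤ M) ∧ (∃ M : ℝ, ∀ᶠ v in 𝓝[≠] 0, ‖cN A v‖ ≤ M) ∧
      Tendsto (fun x => A x (-csq (1 + x ^ 5))) (𝓝 0) (𝓝 (A 0 (-1))) := by
  obtain ⟨a0, ha0, ha⟩ := hA.p1
  have h1 := hA.U 0 (-1) (by norm_num) (by norm_num) (Or.inr (by norm_num))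
  have h2 : (fun x => A x (-1 * csq ((1 + x ^ 5) / (-1) ^ 2))) =
      fun x => A x (-csq (1 + x ^ 5)) := by
    funext x
    rw [neg_one_sq, div_one, neg_one_mul]
  rw [h2] at h1
  have h3 : Tendsto (fun x => A x (-csq (1 + x ^ 5))) (𝓝 0) (𝓝 (A 0 (-1))) := by
    have h4 := h1.continuousAt.tendsto
    have h5 : -csq (1 + (0 : ℂ) ^ 5) = -1 := by
      rw [zero_pow (by norm_num), add_zero, csq_one]
    rwa [h5] at h4
  have h3' := h3.mono_left (nhdsWithin_le_nhds (s := ({0}ᶜ : Set ℂ)))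
  have hid : Tendsto (fun u : ℂ => u) (𝓝[≠] 0) (𝓝 0) := nhdsWithin_le_nhds
  have ha' : Tendsto a0 (𝓝[≠] 0) (𝓝 (a0 0)) :=
    ha0.continuousAt.tendsto.mono_left nhdsWithin_le_nhds
  have hcs : Tendsto (fun x : ℂ => csq (1 + x ^ 5)) (𝓝[≠] 0) (𝓝 1) := by
    have h6 : ContinuousAt csq (1 + (0 : ℂ) ^ 5) := by
      rw [zero_pow (by norm_num), add_zero]
      exact (csq_an Complex.one_mem_slitPlane).continuousAt
    have h7 : ContinuousAt (fun x : ℂ => 1 + x ^ 5) 0 := by fun_prop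
    have h8 : ContinuousAt (fun x : ℂ => csq (1 + x ^ 5)) 0 :=
      ContinuousAt.comp' (f := fun x : ℂ => 1 + x ^ 5) h6 h7
    have h9 := h8.tendsto
    rw [zero_pow (by norm_num), add_zero, csq_one] at h9
    exact h9.mono_left nhdsWithin_le_nhds
  refine ⟨?_, ?_, h3⟩
  · refine CR_bdd (L := a0 0 + 0 * A 0 (-1)) ?_
    refine (ha'.add (hid.mul h3')).congr' ?_
    filter_upwards [ha] with x hx
    rw [cP, ← hx]
    ring
  · refine CR_bdd (L := (a0 0 - 0 * A 0 (-1)) / 1) ?_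
    refine ((ha'.sub (hid.mul h3')).div hcs one_ne_zero).congr' ?_
    filter_upwards [ha] with x hx
    simp only [Pi.div_apply]
    rw [cN, ← hx]
    ring

private theorem Y_pt {u w : ℂ} (h : w ^ 2 = 1 + u ^ 5) (hu : 4 < ‖u‖) :
    ∃ y : ℂ, y ≠ 0 ∧ (y ^ 2)⁻¹ = u ∧ (y ^ 5)⁻¹ * csq (1 + y ^ 10) = w := by
  have h1 : (Cv.aff u w h) ∈ chY.source := hu
  have h2 : chYinv (chYfun (Cv.aff u w h)) = Cv.aff u w h := chY.left_inv h1
  by_cases hy : chYfun (Cv.aff u w h) = 0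
  · rw [chYinv, dif_pos hy] at h2
    cases h2
  · rw [chYinv, dif_neg hy] at h2
    injection h2 with h3 h4
    exact ⟨_, hy, h3, h4⟩

private theorem P_inf {A : ℂ → ℂ → ℂ} (hA : RA A) :
    Tendsto (fun u => cP A u / u ^ 2) (cocompact ℂ) (𝓝 0) ∧
      Tendsto (cN A) (cocompact ℂ) (𝓝 0) := by
  obtain ⟨a0, ha0, ha⟩ := hA.p2
  obtain ⟨K, hK⟩ := CR_bdd (ha0.continuousAt.tendsto.mono_left
    (nhdsWithin_le_nhds (s := ({0}ᶜ : Set ℂ))))
  have hyy := ha.and hK
  rw [eventually_nhdsWithin_iff, Metric.eventually_nhds_iff] at hyy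
  obtain ⟨δ, hδ, hy'⟩ := hyy
  have hy : ∀ y : ℂ, y ≠ 0 → ‖y‖ < δ →
      y * A ((y ^ 2)⁻¹) ((y ^ 5)⁻¹ * csq (1 + y ^ 10)) = a0 y ∧ ‖a0 y‖ ≤ K := by
    intro y hy0 hyδ
    exact hy' (by rwa [dist_zero_right]) hy0
  have key : ∀ u : ℂ, max 4 ((δ ^ 2)⁻¹) < ‖u‖ →
      ‖cP A u / u ^ 2‖ ≤ 2 * K * Real.sqrt (‖u‖⁻¹) ∧ ‖cN A u‖ ≤ 4 * K * ‖u‖⁻¹ := by
    intro u hu
    have hu4 : 4 < ‖u‖ := (le_max_left _ _).trans_lt hu
    have huδ : (δ ^ 2)⁻¹ < ‖u‖ := (le_max_right _ _).trans_lt hu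
    set w := csq (1 + u ^ 5) with hw
    obtain ⟨y, hy0, hyu, hyw⟩ := Y_pt (w := w) (csq_sq _) hu4
    have hn2 : ‖y‖ ^ 2 = ‖u‖⁻¹ := by rw [← hyu, norm_inv, inv_inv, norm_pow]
    have hnδ : ‖y‖ < δ := by
      refine lt_of_pow_lt_pow_left₀ 2 hδ.le ?_
      rw [hn2]
      exact inv_lt_of_inv_lt₀ (by positivity) huδ
    have hn : ‖y‖ = Real.sqrt (‖u‖⁻¹) := by rw [← hn2, Real.sqrt_sq (norm_nonneg _)]
    obtain ⟨e1, b1⟩ := hy y hy0 hnδ
    obtain ⟨e2, b2⟩ := hy (-y) (neg_ne_zero.2 hy0) (by rwa [norm_neg])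
    rw [hyu, hyw] at e1
    have h5 : ((-y) ^ 2)⁻¹ = u := by rw [neg_sq, hyu]
    have h6 : ((-y) ^ 5)⁻¹ * csq (1 + (-y) ^ 10) = -w := by
      have h61 : (-y) ^ 5 = -(y ^ 5) := by ring
      have h62 : (-y) ^ 10 = y ^ 10 := by ring
      rw [h61, h62, inv_neg, neg_mul, hyw]
    rw [h5, h6] at e2
    have hyu2 : y ^ 2 * u = 1 := by
      rw [← hyu]
      exact mul_inv_cancel₀ (pow_ne_zero 2 hy0)
    have hu0 : u ≠ 0 := by
      rintro rfl
      rw [norm_zero] at hu4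
      linarith
    set q := csq (1 + y ^ 10) with hq
    have hqn : (1 : ℝ) / 2 ≤ ‖q‖ := by
      have h7 : ‖q‖ ^ 2 = ‖1 + y ^ 10‖ := by rw [← norm_pow, csq_sq]
      have h8 : ‖y ^ 10‖ ≤ 1 / 4 := by
        rw [norm_pow]
        have h81 : ‖y‖ ^ 10 = (‖y‖ ^ 2) ^ 5 := by ring
        rw [h81, hn2]
        have h9 : ‖u‖⁻¹ ≤ 1 / 4 := by
          rw [inv_eq_one_div]
          exact one_div_le_one_div_of_le (by norm_num) hu4.le
        calc (‖u‖⁻¹) ^ 5 ≤ (1 / 4) ^ 5 := pow_le_pow_left₀ (by positivity) h9 5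
          _ ≤ 1 / 4 := by norm_num
      have h10 : 1 - ‖y ^ 10‖ ≤ ‖1 + y ^ 10‖ := by
        have h11 := norm_sub_le (1 + y ^ 10) (y ^ 10)
        rw [add_sub_cancel_right, norm_one] at h11
        linarith
      by_contra hcon
      push Not at hcon
      nlinarith [norm_nonneg q]
    have hq0 : q ≠ 0 := by
      intro h
      rw [h, norm_zero] at hqn
      norm_num at hqn
    have hqw : q = y ^ 5 * w := by
      rw [← hyw]
      field_simp
    have hw0 : w ≠ 0 := by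
      intro h
      rw [h, mul_zero] at hqw
      exact hq0 hqw
    have hP : cP A u / u ^ 2 = y * (a0 y - a0 (-y)) := by
      rw [cP, ← hw, ← e1, ← e2, div_eq_iff (pow_ne_zero 2 hu0)]
      linear_combination (-(u * (A u w + A u (-w)))) * hyu2
    have hN : cN A u = y ^ 2 * (a0 y + a0 (-y)) / q := by
      rw [cN, ← hw, ← e1, ← e2, div_eq_div_iff hw0 hq0]
      linear_combination (y ^ 3 * (A u w - A u (-w)) * w) * hyu2 +
        (u * (A u w - A u (-w))) * hqw
    have hK0 : 0 ≤ K := (norm_nonneg _).trans b1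
    constructor
    · rw [hP, norm_mul, ← hn]
      have h12 : ‖a0 y - a0 (-y)‖ ≤ K + K := (norm_sub_le _ _).trans (add_le_add b1 b2)
      calc ‖y‖ * ‖a0 y - a0 (-y)‖ ≤ ‖y‖ * (K + K) := mul_le_mul_of_nonneg_left h12 (norm_nonneg _)
        _ = 2 * K * ‖y‖ := by ring
    · rw [hN, norm_div, norm_mul, norm_pow, hn2]
      have h12 : ‖a0 y + a0 (-y)‖ ≤ K + K := (norm_add_le _ _).trans (add_le_add b1 b2)
      rw [div_le_iff₀ (by linarith)]
      have h13 : 0 ≤ ‖u‖⁻¹ := by positivity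
      have h14 : ‖u‖⁻¹ * ‖a0 y + a0 (-y)‖ ≤ ‖u‖⁻¹ * (K + K) := mul_le_mul_of_nonneg_left h12 h13
      have h15 : 4 * K * ‖u‖⁻¹ * (1 / 2) ≤ 4 * K * ‖u‖⁻¹ * ‖q‖ :=
        mul_le_mul_of_nonneg_left hqn (by positivity)
      linarith
  have hev : ∀ᶠ u : ℂ in cocompact ℂ, max 4 ((δ ^ 2)⁻¹) < ‖u‖ :=
    (tendsto_norm_cocompact_atTop (E := ℂ)).eventually (eventually_gt_atTop _)
  have hinv : Tendsto (fun u : ℂ => ‖u‖⁻¹) (cocompact ℂ) (𝓝 0) :=
    tendsto_inv_atTop_zero.comp tendsto_norm_cocompact_atTop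
  have hsq : Tendsto (fun u : ℂ => Real.sqrt (‖u‖⁻¹)) (cocompact ℂ) (𝓝 0) := by
    have h1 := (Real.continuous_sqrt.tendsto 0).comp hinv
    rwa [Real.sqrt_zero] at h1
  constructor
  · refine squeeze_zero_norm' (hev.mono fun u hu => (key u hu).1) ?_
    simpa using hsq.const_mul (2 * K)
  · refine squeeze_zero_norm' (hev.mono fun u hu => (key u hu).2) ?_
    simpa using hinv.const_mul (4 * K)

private theorem rigid_core {A : ℂ → ℂ → ℂ} (hA : RA A) :
    ∃ c0, ∀ u w, w ^ 2 = 1 + u ^ 5 → (u ≠ 0 ∨ w ≠ 1) → A u w = c0 := by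
  set T : Set ℂ := insert 0 {u : ℂ | u ^ 5 = -1} with hT
  have hTf : T.Finite := pow5_fin.insert 0
  have hmem : ∀ u, u ∉ T → u ≠ 0 ∧ u ^ 5 ≠ -1 := by
    intro u hu
    exact ⟨fun h => hu (Or.inl h), fun h => hu (Or.inr h)⟩
  obtain ⟨F, hF, hFP⟩ := entire_of_bounded (f := cP A) hTf
    (fun u hu => (P_diff hA (hmem u hu).1 (hmem u hu).2).1) (by
      intro u hu
      rcases hu with rfl | hu
      · exact (P_zero hA).1
      · exact (P_branch hA hu).1)
  obtain ⟨G, hG, hGN⟩ := entire_of_bounded (f := cN A) hTf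
    (fun u hu => (P_diff hA (hmem u hu).1 (hmem u hu).2).2) (by
      intro u hu
      rcases hu with rfl | hu
      · exact (P_zero hA).2.1
      · exact (P_branch hA hu).2)
  have hTc : ∀ᶠ u in cocompact ℂ, u ∉ T := hTf.isCompact.compl_mem_cocompact
  have hFlim : Tendsto (fun u => F u / u ^ 2) (cocompact ℂ) (𝓝 0) := by
    refine (P_inf hA).1.congr' ?_
    filter_upwards [hTc] with u hu
    rw [hFP u hu]
  have hGlim : Tendsto G (cocompact ℂ) (𝓝 0) := by
    refine (P_inf hA).2.congr' ?_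
    filter_upwards [hTc] with u hu
    rw [hGN u hu]
  have hG0 : ∀ u, G u = 0 := CR_zero hG hGlim
  obtain ⟨β, hβ⟩ := CR_affine hF hFlim
  have hsym : ∀ u, u ∉ T → ∀ w, w ^ 2 = 1 + u ^ 5 → A u (-w) = A u w := by
    intro u hu w hw
    have h1 : cN A u = 0 := by rw [← hGN u hu, hG0]
    have hw0 : w ≠ 0 := by
      rintro rfl
      apply (hmem u hu).2
      linear_combination -hw
    rw [cN_eq A hw, div_eq_zero_iff, mul_eq_zero] at h1
    rcases h1 with (h1 | h1) | h1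
    · exact absurd h1 (hmem u hu).1
    · exact (sub_eq_zero.1 h1).symm
    · exact absurd h1 hw0
  have hval : ∀ u, u ∉ T → ∀ w, w ^ 2 = 1 + u ^ 5 → 2 * u * A u w = F 0 + β * u := by
    intro u hu w hw
    have h1 := hFP u hu
    rw [cP_eq A hw, hsym u hu w hw, hβ u] at h1
    linear_combination -h1
  have hTn : ∀ u0 : ℂ, ∀ᶠ u in 𝓝[≠] u0, u ∉ T := by
    intro u0
    have h8 : IsClosed (T \ {u0}) := (hTf.subset Set.sdiff_subset).isClosed
    have h9 : ∀ᶠ u in 𝓝 u0, u ∉ T \ {u0} := h8.isOpen_compl.mem_nhds (fun h => h.2 rfl)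
    rw [eventually_nhdsWithin_iff]
    filter_upwards [h9] with u hu hne h10
    exact hu ⟨h10, hne⟩
  have hlim0 := (P_zero hA).2.2.mono_left (nhdsWithin_le_nhds (s := ({0}ᶜ : Set ℂ)))
  have hid : Tendsto (fun u : ℂ => u) (𝓝[≠] 0) (𝓝 0) := nhdsWithin_le_nhds
  have hF0 : F 0 = 0 := by
    have h1 : Tendsto (fun x : ℂ => 2 * x * A x (-csq (1 + x ^ 5))) (𝓝[≠] 0)
        (𝓝 (2 * 0 * A 0 (-1))) := (hid.const_mul 2).mul hlim0
    have h2 : Tendsto (fun x : ℂ => F 0 + β * x) (𝓝[≠] 0) (𝓝 (F 0 + β * 0)) :=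
      (hid.const_mul β).const_add (F 0)
    have h3 : Tendsto (fun x : ℂ => F 0 + β * x) (𝓝[≠] 0) (𝓝 (2 * 0 * A 0 (-1))) := by
      refine h1.congr' ?_
      filter_upwards [hTn 0] with x hx
      exact hval x hx _ (by rw [neg_sq, csq_sq])
    have h4 := tendsto_nhds_unique h2 h3
    simpa using h4
  have hval' : ∀ u, u ∉ T → ∀ w, w ^ 2 = 1 + u ^ 5 → A u w = β / 2 := by
    intro u hu w hw
    have h1 := hval u hu w hw
    rw [hF0] at h1
    have h2 := (hmem u hu).1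
    have h3 : u * (2 * A u w) = u * β := by linear_combination h1
    have h4 := mul_left_cancel₀ h2 h3
    linear_combination h4 / 2
  refine ⟨β / 2, fun u w hw hne => ?_⟩
  by_cases hu : u ∈ T
  · rcases hu with hu | hu
    · subst hu
      have hw1 : w = -1 := by
        have h1 : w ^ 2 = 1 ^ 2 := by rw [hw]; norm_num
        rcases sq_eq_sq_iff_eq_or_eq_neg.1 h1 with h2 | h2
        · rcases hne with h3 | h3
          · exact absurd rfl h3
          · exact absurd h2 h3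
        · exact h2
      subst hw1
      refine tendsto_nhds_unique hlim0 (tendsto_const_nhds.congr' ?_)
      filter_upwards [hTn 0] with x hx
      exact (hval' x hx _ (by rw [neg_sq, csq_sq])).symm
    · have hu5 : u ^ 5 = -1 := hu
      have hw0 : w = 0 := by
        rw [hu5, add_neg_cancel] at hw
        exact pow_eq_zero_iff (two_ne_zero) |>.1 hw
      subst hw0
      have h1 := (hA.W u hu5).continuousAt.tendsto.mono_left
        (nhdsWithin_le_nhds (s := ({0}ᶜ : Set ℂ)))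
      have h2 : u * croot5 (1 - (0 : ℂ) ^ 2) = u := by
        rw [zero_pow two_ne_zero, sub_zero, croot5, Complex.one_cpow, mul_one]
      rw [h2] at h1
      refine tendsto_nhds_unique h1 (tendsto_const_nhds.congr' ?_)
      have h3 : ∀ᶠ x : ℂ in 𝓝[≠] 0, ‖x‖ < 1 := by
        refine nhdsWithin_le_nhds ?_
        filter_upwards [Metric.ball_mem_nhds (0 : ℂ) one_pos] with x hx
        rwa [Metric.mem_ball, dist_zero_right] at hx
      filter_upwards [h3, self_mem_nhdsWithin] with x hx hx0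
      have h4 : (u * croot5 (1 - x ^ 2)) ^ 5 = x ^ 2 - 1 := by
        rw [mul_pow, croot5_pow, hu5]
        ring
      refine (hval' _ ?_ x (by rw [h4]; ring)).symm
      rintro (h5 | h5)
      · rw [h5, zero_pow (by norm_num)] at h4
        have h6 : x ^ 2 = 1 := by linear_combination -h4
        have h7 : ‖x‖ ^ 2 = 1 := by rw [← norm_pow, h6, norm_one]
        nlinarith [norm_nonneg x]
      · have h6 : x ^ 2 - 1 = -1 := by rw [← h4]; exact h5
        have h7 : x ^ 2 = 0 := by linear_combination h6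
        exact hx0 (pow_eq_zero_iff (two_ne_zero) |>.1 h7)
  · exact hval' u hu w hw

theorem cv_rigid : cvData.Rigid := by
  intro a ha hp
  classical
  set A : ℂ → ℂ → ℂ := fun u w => if h : w ^ 2 = 1 + u ^ 5 then a (affS u w h) else 0 with hAdef
  have hAe : ∀ u w (h : w ^ 2 = 1 + u ^ 5), A u w = a (affS u w h) := fun u w h => dif_pos h
  have hne : ∀ u w h, (u ≠ 0 ∨ w ≠ 1) → ∀ k, affS u w h ≠ cvp k := by
    intro u w h h1 k
    cases k with
    | false =>
      intro h2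
      have h3 : Cv.aff u w h = Cv.aff 0 1 (by norm_num) := h2
      injection h3 with h4 h5
      rcases h1 with h1 | h1
      · exact h1 h4
      · exact h1 h5
    | true =>
      intro h2
      have h3 : Cv.aff u w h = Cv.inf := h2
      cases h3
  have hRA : RA A := by
    obtain ⟨-, -, -, -, -, -, -, hz1, -, -, hz2⟩ := cvz_exists.choose_spec
    refine ⟨?_, ?_, ?_, ?_⟩
    · intro u0 w0 hw0 hsq hn
      have hx : affS u0 w0 hsq ∈ (cvGlue.chart (.U w0 hw0)).source := by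
        show 0 < (w0 / w0).re
        rw [div_self hw0, Complex.one_re]
        exact one_pos
      have h1 := (cvGlue.contMDiffAt_iff hx).1 (ha (affS u0 w0 hsq) (hne u0 w0 hsq hn))
      refine h1.congr (Eventually.of_forall fun p => ?_)
      exact (hAe _ _ (root_sq hw0 p)).symm
    · intro u0 h0
      have hu0 : u0 ≠ 0 := by
        rintro rfl
        norm_num at h0
      have hsq : (0 : ℂ) ^ 2 = 1 + u0 ^ 5 := by rw [h0]; norm_num
      have hx : affS u0 0 hsq ∈ (cvGlue.chart (.W u0 h0)).source := by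
        show ‖(0 : ℂ)‖ < 1 ∧ |(u0 / u0).arg| < Real.pi / 5
        rw [norm_zero, div_self hu0, Complex.arg_one, abs_zero]
        exact ⟨one_pos, by positivity⟩
      have h1 := (cvGlue.contMDiffAt_iff hx).1 (ha (affS u0 0 hsq)
        (hne u0 0 hsq (Or.inl hu0)))
      refine h1.congr (Eventually.of_forall fun p => ?_)
      exact (hAe _ _ (by rw [mul_pow, croot5_pow, h0]; ring)).symm
    · obtain ⟨a0, ha0, h⟩ := hp false
      refine ⟨a0, ha0, ?_⟩
      have h3 : ∀ᶠ x : ℂ in 𝓝[≠] 0, ‖x‖ < 1 / 2 := by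
        refine nhdsWithin_le_nhds ?_
        filter_upwards [Metric.ball_mem_nhds (0 : ℂ) (show (0 : ℝ) < 1 / 2 by norm_num)] with x hx
        rwa [Metric.mem_ball, dist_zero_right] at hx
      filter_upwards [h, h3] with x hx hx2
      obtain ⟨h4, h5⟩ := hz1 x hx2
      have h6 : (cvData.z false).symm x = affS x (csq (1 + x ^ 5)) h4 := h5
      rw [h6] at hx
      rw [hAe x _ h4]
      exact hx
    · obtain ⟨a0, ha0, h⟩ := hp true
      refine ⟨a0, ha0, ?_⟩
      filter_upwards [h, self_mem_nhdsWithin] with y hy hy0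
      have hy0' : y ≠ 0 := hy0
      have h5 : (cvData.z true).symm y = chYinv y := hz2 y
      have h6 : ((y ^ 5)⁻¹ * csq (1 + y ^ 10)) ^ 2 = 1 + ((y ^ 2)⁻¹) ^ 5 := by
        rw [mul_pow, csq_sq]
        field_simp
        ring
      have h7 : chYinv y = Cv.aff ((y ^ 2)⁻¹) ((y ^ 5)⁻¹ * csq (1 + y ^ 10)) h6 := by
        rw [chYinv, dif_neg hy0']
      rw [h5, h7] at hy
      rw [hAe _ _ h6]
      exact hy
  obtain ⟨c0, hc0⟩ := rigid_core hRA
  refine ⟨c0, fun c hc => ?_⟩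
  rcases cvS_cases c with ⟨u, w, h, rfl⟩ | rfl
  · rw [← hc0 u w h ?_, hAe]
    by_contra hcon
    push Not at hcon
    obtain ⟨rfl, rfl⟩ := hcon
    exact hc false rfl
  · exact absurd rfl (hc true)

end Pool.Agent.Lib.MP_d4bba2_ag
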