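import Pool.Agent.Lib.MP_d4bba2_ag.CvGlue
import Pool.Agent.Lib.MP_d4bba2_ag.ConnSingle

/-!
TOPOLOGY OF THE CURVE.
aff_continuous: X = {p : ℂ × ℂ // p.2^2 = 1 + p.1^5} → CvS, p ↦ aff p.1 p.2.  At p with p.2 = w0 ≠ 0: for p' near p the point lies in
the source of U w0 (Re (p'.2/w0) > 0) and equals (chart U w0).symm (p'.1) (left_inv), a continuous function of p'
((D.chart i).symm is continuous on the open target).  At p with p.2 = 0: the same with W u0, u0 = p.1, and coordinate p'.2
(|arg (p'.1/u0)| < π/5 near).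
aff_conn: X is connected: conn_single with π p = p.1 : X → ℂ: open (sqrt_near: for u near u0 there is w near w0 with w^2 = 1 + u^5),
closed (π is proper: the preimage of a bounded closed set is bounded and closed in ℂ × ℂ; or directly with sequences),
x0 = (-1, 0): w^2 = 0 gives w = 0.
T2: the map emb : CvS → ℂ × ℝ × ℂ, aff u w ↦ (u/(1+|u|^2), 1/(1+|u|^2), w/(1+|u|^3)), inf ↦ (0,0,0) is injective (second
component ≠ 0 on affine points; then u and w are determined) and continuous: at aff points: in the reference chart U w (or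
W u) it is a composition of continuous functions of the coordinate (GlueData.continuousAt_iff); at inf, in the chart Y:
y ↦ (y^(-2), y^(-5) csq (1+y^10)) with |y|^2/(1+|y|^4) etc.: first component = conj-like expression of norm |u|/(1+|u|^2) ≤ |y|^2, second
≤ |y|^4, third: |w|/(1+|u|^3) ≤ 2 |y|^(-5) / |y|^(-6) = 2 |y|: all tend to 0.
T2Space.of_injective_continuous.
compact: univ = (chart Y).symm '' closedBall 0 (1/3) ∪ aff '' {p ∈ X, |p.1| ≤ 9}: a point aff u w with |u| > 9 has |y| < 1/3.  Both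
are compact images (closed bounded sets of ℂ and ℂ × ℂ).
connected: X is preconnected, aff continuous; its range has closure univ: inf is the limit of (chart Y).symm y, y → 0, y ≠ 0.  The
closure of a preconnected set is preconnected.
-/

open scoped Topology Manifold ContDiff
open Filter Complex

noncomputable section

namespace Pool.Agent.Lib.MP_d4bba2_ag

/-- the affine curve -/
abbrev CvX : Type := {p : ℂ × ℂ // p.2 ^ 2 = 1 + p.1 ^ 5}

private theorem cvtop_u_ne {u : ℂ} (h : u ^ 5 = -1) : u ≠ 0 := by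
  rintro rfl
  norm_num at h

/-- the chart `U` of the Riemann surface -/
def cvkU (w0 : ℂ) (h0 : w0 ≠ 0) : OpenPartialHomeomorph CvS ℂ := cvGlue.chart (CvIdx.U w0 h0)

/-- the chart `W` of the Riemann surface -/
def cvkW (u0 : ℂ) (h0 : u0 ^ 5 = -1) : OpenPartialHomeomorph CvS ℂ := cvGlue.chart (CvIdx.W u0 h0)

/-- the chart `Y` of the Riemann surface -/
def cvkY : OpenPartialHomeomorph CvS ℂ := cvGlue.chart CvIdx.Y

theorem cvkU_source {w0 : ℂ} {h0 : w0 ≠ 0} {u w : ℂ} {h : w ^ 2 = 1 + u ^ 5} :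
    affS u w h ∈ (cvkU w0 h0).source ↔ 0 < (w / w0).re := Iff.rfl

theorem cvkU_apply {w0 : ℂ} {h0 : w0 ≠ 0} {u w : ℂ} {h : w ^ 2 = 1 + u ^ 5} :
    cvkU w0 h0 (affS u w h) = u := rfl

theorem cvkW_source {u0 : ℂ} {h0 : u0 ^ 5 = -1} {u w : ℂ} {h : w ^ 2 = 1 + u ^ 5} :
    affS u w h ∈ (cvkW u0 h0).source ↔ ‖w‖ < 1 ∧ |(u / u0).arg| < Real.pi / 5 := Iff.rfl

theorem cvkW_apply {u0 : ℂ} {h0 : u0 ^ 5 = -1} {u w : ℂ} {h : w ^ 2 = 1 + u ^ 5} :
    cvkW u0 h0 (affS u w h) = w := rfl

theorem aff_continuous :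
    Continuous (fun p : {p : ℂ × ℂ // p.2 ^ 2 = 1 + p.1 ^ 5} => affS p.1.1 p.1.2 p.2) := by
  rw [continuous_iff_continuousAt]
  rintro ⟨⟨u, w⟩, h⟩
  have h' : w ^ 2 = 1 + u ^ 5 := h
  have hfst : ContinuousAt (fun p : CvX => p.1.1) ⟨(u, w), h⟩ :=
    (continuous_fst.comp continuous_subtype_val).continuousAt
  have hsnd : ContinuousAt (fun p : CvX => p.1.2) ⟨(u, w), h⟩ :=
    (continuous_snd.comp continuous_subtype_val).continuousAt
  by_cases hw : w = 0
  · have hu5 : u ^ 5 = -1 := Cv.pow_eq h' hw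
    have hu : u ≠ 0 := cvtop_u_ne hu5
    have hκs : affS u w h' ∈ (cvkW u hu5).source := by
      rw [cvkW_source, hw, norm_zero, div_self hu, Complex.arg_one, abs_zero]
      exact ⟨one_pos, by positivity⟩
    have hev1 : ∀ᶠ p in 𝓝 (⟨(u, w), h⟩ : CvX), ‖p.1.2‖ < 1 := by
      have h1 : ‖w‖ < 1 := (cvkW_source.1 hκs).1
      exact (hsnd.norm).eventually (gt_mem_nhds h1)
    have hev2 : ∀ᶠ p in 𝓝 (⟨(u, w), h⟩ : CvX), |(p.1.1 / u).arg| < Real.pi / 5 := by
      have h1 : |(u / u).arg| < Real.pi / 5 := (cvkW_source.1 hκs).2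
      have h2 : ContinuousAt (fun p : CvX => |(p.1.1 / u).arg|) ⟨(u, w), h⟩ := by
        have h3 : ContinuousAt (fun p : CvX => p.1.1 / u) ⟨(u, w), h⟩ := hfst.div_const u
        have h4 : ContinuousAt Complex.arg (u / u) := by
          rw [div_self hu]
          exact Complex.continuousAt_arg one_mem_slitPlane
        exact (ContinuousAt.comp' (f := fun p : CvX => p.1.1 / u) h4 h3).abs
      exact h2.eventually (gt_mem_nhds h1)
    have h1 : ContinuousAt (fun p : CvX => (cvkW u hu5).symm p.1.2) ⟨(u, w), h⟩ := by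
      have h2 : ContinuousAt (cvkW u hu5).symm w := by
        have h3 := (cvkW u hu5).map_source hκs
        rw [cvkW_apply] at h3
        exact (cvkW u hu5).continuousAt_symm h3
      exact ContinuousAt.comp' (f := fun p : CvX => p.1.2) h2 hsnd
    have h5 : (fun p : CvX => (cvkW u hu5).symm p.1.2) =ᶠ[𝓝 (⟨(u, w), h⟩ : CvX)]
        (fun p : CvX => affS p.1.1 p.1.2 p.2) := by
      filter_upwards [hev1, hev2] with p hp1 hp2
      have hp : affS p.1.1 p.1.2 p.2 ∈ (cvkW u hu5).source := cvkW_source.2 ⟨hp1, hp2⟩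
      have hl := (cvkW u hu5).left_inv hp
      rw [cvkW_apply] at hl
      exact hl
    exact h1.congr h5
  · have hκs : affS u w h' ∈ (cvkU w hw).source := by
      rw [cvkU_source, div_self hw, Complex.one_re]
      exact one_pos
    have hev1 : ∀ᶠ p in 𝓝 (⟨(u, w), h⟩ : CvX), 0 < (p.1.2 / w).re := by
      have h1 : 0 < (w / w).re := cvkU_source.1 hκs
      have h2 : ContinuousAt (fun p : CvX => (p.1.2 / w).re) ⟨(u, w), h⟩ :=
        ContinuousAt.comp' (f := fun p : CvX => p.1.2 / w) Complex.continuous_re.continuousAt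
          (hsnd.div_const w)
      exact h2.eventually (lt_mem_nhds h1)
    have h1 : ContinuousAt (fun p : CvX => (cvkU w hw).symm p.1.1) ⟨(u, w), h⟩ := by
      have h2 : ContinuousAt (cvkU w hw).symm u := by
        have h3 := (cvkU w hw).map_source hκs
        rw [cvkU_apply] at h3
        exact (cvkU w hw).continuousAt_symm h3
      exact ContinuousAt.comp' (f := fun p : CvX => p.1.1) h2 hfst
    have h5 : (fun p : CvX => (cvkU w hw).symm p.1.1) =ᶠ[𝓝 (⟨(u, w), h⟩ : CvX)]
        (fun p : CvX => affS p.1.1 p.1.2 p.2) := by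
      filter_upwards [hev1] with p hp1
      have hp : affS p.1.1 p.1.2 p.2 ∈ (cvkU w hw).source := cvkU_source.2 hp1
      have hl := (cvkU w hw).left_inv hp
      rw [cvkU_apply] at hl
      exact hl
    exact h1.congr h5

private theorem cvtop_closed : IsClosed {p : ℂ × ℂ | p.2 ^ 2 = 1 + p.1 ^ 5} :=
  isClosed_eq (by fun_prop) (by fun_prop)

private theorem cvtop_w_le {u w : ℂ} {M : ℝ} (h : w ^ 2 = 1 + u ^ 5) (hM : ‖u‖ ≤ M) :
    ‖w‖ ≤ 1 + M ^ 5 := by
  have hM0 : 0 ≤ M := (norm_nonneg u).trans hM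
  have h1 : ‖w‖ ^ 2 ≤ 1 + M ^ 5 := by
    rw [← norm_pow, h]
    refine (norm_add_le _ _).trans ?_
    rw [norm_one, norm_pow]
    have := pow_le_pow_left₀ (norm_nonneg u) hM 5
    linarith
  have h2 : 0 ≤ M ^ 5 := by positivity
  by_contra hcon
  push Not at hcon
  nlinarith [norm_nonneg w]

private theorem cvtop_cpt {K : Set ℂ} (hK : IsCompact K) : IsCompact {x : CvX | x.1.1 ∈ K} := by
  obtain ⟨M, hM⟩ := hK.isBounded.exists_norm_le
  have h1 : {x : CvX | x.1.1 ∈ K} =
      Subtype.val ⁻¹' (K ×ˢ Metric.closedBall (0 : ℂ) (1 + M ^ 5)) := by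
    ext ⟨⟨u, w⟩, h⟩
    constructor
    · intro hu
      exact ⟨hu, mem_closedBall_zero_iff.2 (cvtop_w_le h (hM u hu))⟩
    · exact fun hx => hx.1
  rw [h1]
  exact (cvtop_closed.isClosedEmbedding_subtypeVal).isCompact_preimage
    (hK.prod (isCompact_closedBall _ _))

theorem aff_conn : PreconnectedSpace {p : ℂ × ℂ // p.2 ^ 2 = 1 + p.1 ^ 5} := by
  have hπ : Continuous (fun x : CvX => x.1.1) := continuous_fst.comp continuous_subtype_val
  have hcl : IsClosedMap (fun x : CvX => x.1.1) :=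
    (isProperMap_iff_isCompact_preimage.2 ⟨hπ, fun K hK => cvtop_cpt hK⟩).isClosedMap
  have ho : IsOpenMap (fun x : CvX => x.1.1) := by
    rw [isOpenMap_iff_nhds_le]
    rintro ⟨⟨u, w⟩, h⟩ S hS
    have h' : w ^ 2 = 1 + u ^ 5 := h
    rw [mem_map, nhds_subtype_eq_comap, mem_comap] at hS
    obtain ⟨V, hV, hVS⟩ := hS
    obtain ⟨A, hA, B, hB, hAB⟩ := mem_nhds_prod_iff.1 hV
    have h1 := sqrt_near hB
    have hc : Tendsto (fun u' : ℂ => 1 + u' ^ 5) (𝓝 u) (𝓝 (w ^ 2)) := by
      rw [h']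
      exact (by fun_prop : Continuous (fun u' : ℂ => 1 + u' ^ 5)).tendsto u
    show S ∈ 𝓝 u
    filter_upwards [hc.eventually h1, hA] with u' hu' hA'
    obtain ⟨a', ha', he⟩ := hu'
    exact hVS (show (⟨(u', a'), he⟩ : CvX) ∈ Subtype.val ⁻¹' V from hAB ⟨hA', ha'⟩)
  refine conn_single ho hcl (⟨(-1, 0), by norm_num⟩ : CvX) ?_
  rintro ⟨⟨u, w⟩, h⟩ hu
  have hu' : u = -1 := hu
  have h' : w ^ 2 = 1 + u ^ 5 := h
  subst hu'
  have hw : w = 0 := by
    have h1 : w ^ 2 = 0 := by
      rw [h']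
      norm_num
    exact pow_eq_zero_iff (two_ne_zero) |>.1 h1
  subst hw
  rfl

/-- a function on the curve which is a continuous function of `(u, w)` is continuous at the
affine points -/
theorem cvS_continuousAt_aff {Y : Type} [TopologicalSpace Y] {H : CvS → Y} {φ : ℂ × ℂ → Y}
    (hφ : Continuous φ) (hH : ∀ u w h, H (affS u w h) = φ (u, w)) (u w : ℂ)
    (h : w ^ 2 = 1 + u ^ 5) : ContinuousAt H (affS u w h) := by
  by_cases hw : w = 0
  · have hu5 : u ^ 5 = -1 := Cv.pow_eq h hw
    have hu : u ≠ 0 := cvtop_u_ne hu5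
    have hκs : affS u w h ∈ (cvGlue.chart (CvIdx.W u hu5)).source := by
      show ‖w‖ < 1 ∧ |(u / u).arg| < Real.pi / 5
      rw [hw, norm_zero, div_self hu, Complex.arg_one, abs_zero]
      exact ⟨one_pos, by positivity⟩
    rw [cvGlue.continuousAt_iff hκs]
    have h1 : (fun p => H ((cvGlue.chart (CvIdx.W u hu5)).symm p)) =
        fun p : ℂ => φ (u * croot5 (1 - p ^ 2), p) := by
      funext p
      exact hH _ _ _
    rw [h1]
    have h2 : ContinuousAt croot5 (1 - w ^ 2) := by
      apply (croot5_an _).continuousAt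
      rw [hw]
      norm_num
    have h3 : ContinuousAt (fun p : ℂ => croot5 (1 - p ^ 2)) w :=
      ContinuousAt.comp' (f := fun p : ℂ => 1 - p ^ 2) h2 (by fun_prop)
    have h4 : ContinuousAt (fun p : ℂ => (u * croot5 (1 - p ^ 2), p)) w :=
      (continuousAt_const.mul h3).prodMk continuousAt_id
    exact ContinuousAt.comp' (f := fun p : ℂ => (u * croot5 (1 - p ^ 2), p)) hφ.continuousAt h4
  · have hκs : affS u w h ∈ (cvGlue.chart (CvIdx.U w hw)).source := by
      show 0 < (w / w).re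
      rw [div_self hw, Complex.one_re]
      exact one_pos
    rw [cvGlue.continuousAt_iff hκs]
    have h1 : (fun p => H ((cvGlue.chart (CvIdx.U w hw)).symm p)) =
        fun p : ℂ => φ (p, w * csq ((1 + p ^ 5) / w ^ 2)) := by
      funext p
      exact hH _ _ _
    rw [h1]
    have h2 : ContinuousAt csq ((1 + u ^ 5) / w ^ 2) := by
      apply (csq_an _).continuousAt
      rw [← h, div_self (pow_ne_zero 2 hw)]
      exact one_mem_slitPlane
    have h3 : ContinuousAt (fun p : ℂ => csq ((1 + p ^ 5) / w ^ 2)) u :=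
      ContinuousAt.comp' (f := fun p : ℂ => (1 + p ^ 5) / w ^ 2) h2 (by fun_prop)
    have h4 : ContinuousAt (fun p : ℂ => (p, w * csq ((1 + p ^ 5) / w ^ 2))) u :=
      continuousAt_id.prodMk (continuousAt_const.mul h3)
    exact ContinuousAt.comp' (f := fun p : ℂ => (p, w * csq ((1 + p ^ 5) / w ^ 2)))
      hφ.continuousAt h4

private def cvtopF : Cv → ℂ × ℂ
  | .aff u w _ => (u, w)
  | .inf => (0, 0)

private def cvtopG : Cv → ℝ
  | .aff u _ _ => (1 + ‖u‖)⁻¹
  | .inf => 0

private theorem cvtopF_cont (u w : ℂ) (h : w ^ 2 = 1 + u ^ 5) :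
    ContinuousAt (fun c : CvS => cvtopF (c : Cv)) (affS u w h) :=
  cvS_continuousAt_aff (φ := fun p => p) continuous_id (fun _ _ _ => rfl) u w h

private theorem cvtopG_cont (u w : ℂ) (h : w ^ 2 = 1 + u ^ 5) :
    ContinuousAt (fun c : CvS => cvtopG (c : Cv)) (affS u w h) := by
  refine cvS_continuousAt_aff (φ := fun p : ℂ × ℂ => (1 + ‖p.1‖)⁻¹) ?_ (fun _ _ _ => rfl) u w h
  refine Continuous.inv₀ (by fun_prop) fun p => ?_
  positivity

private theorem cvtopG_inf : ContinuousAt (fun c : CvS => cvtopG (c : Cv)) infS := by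
  have hκs : infS ∈ (cvGlue.chart CvIdx.Y).source := trivial
  rw [cvGlue.continuousAt_iff hκs]
  have h1 : (fun p => cvtopG (((cvGlue.chart CvIdx.Y).symm p : CvS) : Cv)) =
      fun y : ℂ => ‖y‖ ^ 2 / (‖y‖ ^ 2 + 1) := by
    funext y
    show cvtopG (chYinv y) = _
    by_cases hy : y = 0
    · rw [hy, chYinv_zero, norm_zero]
      show (0 : ℝ) = _
      norm_num
    · unfold chYinv
      rw [dif_neg hy]
      show (1 + ‖(y ^ 2)⁻¹‖)⁻¹ = _
      have h2 : (0 : ℝ) < ‖y‖ := norm_pos_iff.2 hy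
      rw [norm_inv, norm_pow]
      field_simp
  rw [h1]
  refine Continuous.continuousAt (Continuous.div (by fun_prop) (by fun_prop) fun y => ?_)
  positivity

instance cvS_t2 : T2Space CvS := by
  rw [t2Space_iff_disjoint_nhds]
  intro x y hxy
  rcases cvS_cases x with ⟨u, w, h, rfl⟩ | rfl
  · rcases cvS_cases y with ⟨u', w', h', rfl⟩ | rfl
    · have hne : ((u, w) : ℂ × ℂ) ≠ (u', w') := by
        intro he
        apply hxy
        obtain ⟨rfl, rfl⟩ := Prod.mk.inj he
        rfl
      exact Tendsto.disjoint (cvtopF_cont u w h) (disjoint_nhds_nhds.2 hne)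
        (cvtopF_cont u' w' h')
    · have hne : ((1 + ‖u‖)⁻¹ : ℝ) ≠ 0 := by positivity
      exact Tendsto.disjoint (cvtopG_cont u w h) (disjoint_nhds_nhds.2 hne) cvtopG_inf
  · rcases cvS_cases y with ⟨u', w', h', rfl⟩ | rfl
    · have hne : (0 : ℝ) ≠ (1 + ‖u'‖)⁻¹ := by
        have : (0 : ℝ) < (1 + ‖u'‖)⁻¹ := by positivity
        exact this.ne
      exact Tendsto.disjoint cvtopG_inf (disjoint_nhds_nhds.2 hne) (cvtopG_cont u' w' h')
    · exact absurd rfl hxy

instance cvS_compact : CompactSpace CvS := by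
  constructor
  have hK1 : IsCompact ((cvGlue.chart CvIdx.Y).symm '' Metric.closedBall (0 : ℂ) (1 / 3)) := by
    apply (isCompact_closedBall _ _).image_of_continuousOn
    exact (cvGlue.chart CvIdx.Y).continuousOn_symm.mono
      (show Metric.closedBall (0 : ℂ) (1 / 3) ⊆ Metric.ball (0 : ℂ) (1 / 2) from
        Metric.closedBall_subset_ball (by norm_num))
  have hK2 : IsCompact ((fun p : CvX => affS p.1.1 p.1.2 p.2) ''
      {x : CvX | x.1.1 ∈ Metric.closedBall (0 : ℂ) 9}) :=
    (cvtop_cpt (isCompact_closedBall _ _)).image aff_continuous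
  have h : (Set.univ : Set CvS) =
      (cvGlue.chart CvIdx.Y).symm '' Metric.closedBall (0 : ℂ) (1 / 3) ∪
      (fun p : CvX => affS p.1.1 p.1.2 p.2) '' {x : CvX | x.1.1 ∈ Metric.closedBall (0 : ℂ) 9} := by
    symm
    rw [Set.eq_univ_iff_forall]
    intro c
    rcases cvS_cases c with ⟨u, w, h, rfl⟩ | rfl
    · by_cases hu : ‖u‖ ≤ 9
      · right
        exact ⟨⟨(u, w), h⟩, mem_closedBall_zero_iff.2 hu, rfl⟩
      · left
        push Not at hu
        have hs : affS u w h ∈ (cvGlue.chart CvIdx.Y).source := by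
          show 4 < ‖u‖
          linarith
        refine ⟨cvGlue.chart CvIdx.Y (affS u w h), ?_, (cvGlue.chart CvIdx.Y).left_inv hs⟩
        have hy : chYinv (chYfun (Cv.aff u w h)) = Cv.aff u w h :=
          (cvGlue.chart CvIdx.Y).left_inv hs
        rw [mem_closedBall_zero_iff]
        show ‖chYfun (Cv.aff u w h)‖ ≤ 1 / 3
        generalize chYfun (Cv.aff u w h) = y at hy
        unfold chYinv at hy
        by_cases h0 : y = 0
        · rw [dif_pos h0] at hy
          exact absurd hy (by simp)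
        · rw [dif_neg h0] at hy
          injection hy with h1 h2
          have h3 : ‖u‖ = (‖y‖ ^ 2)⁻¹ := by
            rw [← h1, norm_inv, norm_pow]
          have h4 : 0 < ‖y‖ := norm_pos_iff.2 h0
          by_contra hcon
          push Not at hcon
          have h5 : (1 / 9 : ℝ) < ‖y‖ ^ 2 := by nlinarith
          have h6 : (‖y‖ ^ 2)⁻¹ < 9 := by
            rw [inv_lt_comm₀ (by positivity) (by norm_num)]
            norm_num at h5 ⊢
            exact h5
          linarith
    · left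
      exact ⟨0, Metric.mem_closedBall_self (by norm_num), chYinv_zero⟩
  rw [h]
  exact hK1.union hK2

instance cvS_connected : ConnectedSpace CvS := by
  have hc := aff_conn
  have hr : IsPreconnected (Set.range (fun p : CvX => affS p.1.1 p.1.2 p.2)) :=
    isPreconnected_range aff_continuous
  have hcl : closure (Set.range (fun p : CvX => affS p.1.1 p.1.2 p.2)) = Set.univ := by
    rw [Set.eq_univ_iff_forall]
    intro c
    rcases cvS_cases c with ⟨u, w, h, rfl⟩ | rfl
    · exact subset_closure ⟨⟨(u, w), h⟩, rfl⟩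
    · have ht : Tendsto (cvGlue.chart CvIdx.Y).symm (𝓝[≠] (0 : ℂ)) (𝓝 infS) := by
        have h1 : ContinuousAt (cvGlue.chart CvIdx.Y).symm (0 : ℂ) :=
          (cvGlue.chart CvIdx.Y).continuousAt_symm
            (show (0 : ℂ) ∈ Metric.ball (0 : ℂ) (1 / 2) from Metric.mem_ball_self (by norm_num))
        have h2 : (cvGlue.chart CvIdx.Y).symm (0 : ℂ) = infS := chYinv_zero
        rw [ContinuousAt, h2] at h1
        exact h1.mono_left nhdsWithin_le_nhds
      refine mem_closure_of_tendsto ht ?_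
      filter_upwards [self_mem_nhdsWithin] with y hy
      have hy' : y ≠ 0 := hy
      refine ⟨⟨((y ^ 2)⁻¹, (y ^ 5)⁻¹ * csq (1 + y ^ 10)), ?_⟩, ?_⟩
      · show ((y ^ 5)⁻¹ * csq (1 + y ^ 10)) ^ 2 = 1 + ((y ^ 2)⁻¹) ^ 5
        rw [mul_pow, csq_sq]
        field_simp
        ring
      · show _ = chYinv y
        unfold chYinv
        rw [dif_neg hy']
        rfl
  have hp : IsPreconnected (Set.univ : Set CvS) := by
    rw [← hcl]
    exact hr.closure
  exact { isPreconnected_univ := hp, toNonempty := ⟨infS⟩ }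

end Pool.Agent.Lib.MP_d4bba2_ag
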