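import Mathlib

/-!
# Fibre germs and splitting families

Complex surfaces are Hausdorff spaces with an analytic atlas modelled on `ℂ × ℂ`, complex
threefolds are modelled on `ℂ × ℂ × ℂ`; holomorphic means analytic in the charts.
-/

open scoped Manifold ContDiff Topology

noncomputable section

universe u v w

namespace Pool.Agent.Lib.MP_d4bba2_ag

section differentials

variable (E : Type) [NormedAddCommGroup E] [NormedSpace ℂ E]
  (F : Type) [NormedAddCommGroup F] [NormedSpace ℂ F]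
  {M : Type v} [TopologicalSpace M] [ChartedSpace E M]
  {N : Type w} [TopologicalSpace N] [ChartedSpace F N]

/-- The differential at `x` of the map `f` from the manifold `M` (modelled on `E`) to the manifold `N`
(modelled on `F`) is zero. -/
def DZero (f : M → N) (x : M) : Prop := ∀ v, mfderiv 𝓘(ℂ, E) 𝓘(ℂ, F) f x v = 0

/-- The differential at `x` of the map `f` from the manifold `M` (modelled on `E`) to the manifold `N`
(modelled on `F`) is injective. -/
def DInj (f : M → N) (x : M) : Prop := Function.Injective (mfderiv 𝓘(ℂ, E) 𝓘(ℂ, F) f x)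

/-- The differential at `x` of the map `f` from the manifold `M` (modelled on `E`) to the manifold `N`
(modelled on `F`) is surjective. -/
def DSurj (f : M → N) (x : M) : Prop := Function.Surjective (mfderiv 𝓘(ℂ, E) 𝓘(ℂ, F) f x)

variable {E F} in
theorem dZero_iff {f : M → N} {x : M} :
    DZero E F f x ↔ mfderiv 𝓘(ℂ, E) 𝓘(ℂ, F) f x = 0 :=
  ⟨fun h => ContinuousLinearMap.ext h, fun h v => by rw [h]; rfl⟩

end differentials

/-- A fibre germ over the point `0` of the smooth curve `B`, given by a representative: a proper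
holomorphic map `f : S → B` from a smooth complex surface onto an open set `B` of `ℂ`, with
connected fibres, all fibres over `b ≠ 0` smooth. -/
structure FibreGerm where
  S : Type
  [top : TopologicalSpace S]
  [t2 : T2Space S]
  [charted : ChartedSpace (ℂ × ℂ) S]
  [mfd : IsManifold 𝓘(ℂ, ℂ × ℂ) ω S]
  f : S → ℂ
  B : Set ℂ
  isOpen_B : IsOpen B
  zero_mem : (0 : ℂ) ∈ B
  holo : ContMDiff 𝓘(ℂ, ℂ × ℂ) 𝓘(ℂ, ℂ) ω f
  maps : ∀ x, f x ∈ B
  proper : ∀ K ⊆ B, IsCompact K → IsCompact (f ⁻¹' K)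
  connected : ∀ b ∈ B, IsConnected (f ⁻¹' {b})
  smooth : ∀ x, f x ≠ 0 → ¬ DZero (ℂ × ℂ) ℂ f x

attribute [instance] FibreGerm.top FibreGerm.t2 FibreGerm.charted FibreGerm.mfd

/-- `x` is a critical point of the germ. -/
def FibreGerm.Crit (G : FibreGerm) (x : G.S) : Prop := DZero (ℂ × ℂ) ℂ G.f x

/-- `j` is an isomorphism of the part of `S` over the disc of radius `ε` with the part of
`X_0 = {t = 0}`, `Φ = (b, t)`, over the image of this disc under the local biholomorphism `β` of the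
bases, `β 0 = 0`. -/
structure GermIso (G : FibreGerm) {X : Type u} [TopologicalSpace X]
    [ChartedSpace (ℂ × ℂ × ℂ) X] (Φ : X → ℂ × ℂ) (ε : ℝ) (β : ℂ → ℂ) (j : G.S → X) : Prop where
  ε_pos : 0 < ε
  ball_subset : Metric.ball (0 : ℂ) ε ⊆ G.B
  β_holo : AnalyticOnNhd ℂ β (Metric.ball 0 ε)
  β_zero : β 0 = 0
  β_deriv : deriv β 0 ≠ 0
  β_inj : Set.InjOn β (Metric.ball 0 ε)
  j_holo : ContMDiffOn 𝓘(ℂ, ℂ × ℂ) 𝓘(ℂ, ℂ × ℂ × ℂ) ω j (G.f ⁻¹' Metric.ball 0 ε)
  j_immersion : ∀ x ∈ G.f ⁻¹' Metric.ball 0 ε, DInj (ℂ × ℂ) (ℂ × ℂ × ℂ) j x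
  j_inj : Set.InjOn j (G.f ⁻¹' Metric.ball 0 ε)
  Φ_j : ∀ x ∈ G.f ⁻¹' Metric.ball 0 ε, Φ (j x) = (β (G.f x), 0)
  j_surj : ∀ z, ∀ b ∈ Metric.ball (0 : ℂ) ε, Φ z = (β b, 0) → ∃ x, G.f x = b ∧ j x = z

/-- A splitting family of the fibre germ `G`: a smooth threefold `X`, a proper holomorphic map
`Φ = (b, t) : X → U`, `U` an open neighbourhood of `(0, 0)` in `ℂ × ℂ` (the smooth surface germ `𝓑`
in coordinates in which `h : 𝓑 → T` is the second projection), such that `t` is a submersion (`𝓢 → T`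
is flat and all members `𝓢_t` are smooth surfaces, so this is automatic), and an isomorphism of `f`
with `f_0` as germs. The nearby members `f_t` are not required to be relatively minimal, so there
are more families here than in the usual definition. -/
structure SplittingFamily (G : FibreGerm) where
  X : Type u
  [top : TopologicalSpace X]
  [t2 : T2Space X]
  [charted : ChartedSpace (ℂ × ℂ × ℂ) X]
  [mfd : IsManifold 𝓘(ℂ, ℂ × ℂ × ℂ) ω X]
  Φ : X → ℂ × ℂ
  U : Set (ℂ × ℂ)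
  isOpen_U : IsOpen U
  zero_mem : ((0 : ℂ), (0 : ℂ)) ∈ U
  holo : ContMDiff 𝓘(ℂ, ℂ × ℂ × ℂ) 𝓘(ℂ, ℂ × ℂ) ω Φ
  maps : ∀ z, Φ z ∈ U
  proper : ∀ K ⊆ U, IsCompact K → IsCompact (Φ ⁻¹' K)
  submersion : ∀ z, ¬ DZero (ℂ × ℂ × ℂ) ℂ (fun z => (Φ z).2) z
  ε : ℝ
  β : ℂ → ℂ
  j : G.S → X
  iso : GermIso G Φ ε β j

attribute [instance] SplittingFamily.top SplittingFamily.t2 SplittingFamily.charted
  SplittingFamily.mfd

namespace SplittingFamily

variable {G : FibreGerm} (F : SplittingFamily.{u} G)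

theorem ε_pos : 0 < F.ε := F.iso.ε_pos

theorem ball_subset : Metric.ball (0 : ℂ) F.ε ⊆ G.B := F.iso.ball_subset

theorem β_holo : AnalyticOnNhd ℂ F.β (Metric.ball 0 F.ε) := F.iso.β_holo

theorem β_zero : F.β 0 = 0 := F.iso.β_zero

theorem β_deriv : deriv F.β 0 ≠ 0 := F.iso.β_deriv

theorem β_inj : Set.InjOn F.β (Metric.ball 0 F.ε) := F.iso.β_inj

theorem j_holo : ContMDiffOn 𝓘(ℂ, ℂ × ℂ) 𝓘(ℂ, ℂ × ℂ × ℂ) ω F.j (G.f ⁻¹' Metric.ball 0 F.ε) :=
  F.iso.j_holo

theorem j_immersion : ∀ x ∈ G.f ⁻¹' Metric.ball 0 F.ε,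
    Function.Injective (mfderiv 𝓘(ℂ, ℂ × ℂ) 𝓘(ℂ, ℂ × ℂ × ℂ) F.j x) := F.iso.j_immersion

theorem j_inj : Set.InjOn F.j (G.f ⁻¹' Metric.ball 0 F.ε) := F.iso.j_inj

theorem Φ_j : ∀ x ∈ G.f ⁻¹' Metric.ball 0 F.ε, F.Φ (F.j x) = (F.β (G.f x), 0) := F.iso.Φ_j

theorem j_surj : ∀ z, ∀ b ∈ Metric.ball (0 : ℂ) F.ε, F.Φ z = (F.β b, 0) →
    ∃ x, G.f x = b ∧ F.j x = z := F.iso.j_surj

end SplittingFamily

/-- The fibre over `p = (b, t)` is a singular fibre of `f_t`. -/
def SplittingFamily.Singular {G : FibreGerm} (F : SplittingFamily G) (p : ℂ × ℂ) : Prop :=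
  ∃ z, F.Φ z = p ∧ ¬ DSurj (ℂ × ℂ × ℂ) (ℂ × ℂ) F.Φ z

/-- The splitting family is proper: in every neighbourhood of the central fibre, for all `t ≠ 0`
close enough to `0`, the fibration `f_t` has at least two singular fibres. (The fibre over `0` is the
only singular fibre of `f_0` near the central fibre, so by properness of `Φ` the singular values of
`f_t` in a small disc tend to `0` with `t`; hence this is the same as asking for two singular fibres
in one small neighbourhood.) -/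
def SplittingFamily.Proper {G : FibreGerm} (F : SplittingFamily G) : Prop :=
  ∀ δ : ℝ, 0 < δ → ∀ᶠ t in 𝓝[≠] (0 : ℂ),
    ∃ b b' : ℂ, b ≠ b' ∧ ‖b‖ < δ ∧ ‖b'‖ < δ ∧ F.Singular (b, t) ∧ F.Singular (b', t)

/-- For every `t` close to `0`, also `t = 0`, the fibration `f_t` has exactly one singular fibre near
the central fibre. -/
def SplittingFamily.ExactlyOneSingularFibre {G : FibreGerm} (F : SplittingFamily G) : Prop :=
  ∃ δ₀ : ℝ, 0 < δ₀ ∧ ∀ δ : ℝ, 0 < δ → δ ≤ δ₀ →
    ∀ᶠ t in 𝓝 (0 : ℂ), ∃! b : ℂ, ‖b‖ < δ ∧ F.Singular (b, t)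

/-- The fibre germ is atomic: it has no proper splitting family. -/
def FibreGerm.Atomic (G : FibreGerm) : Prop :=
  ∀ F : SplittingFamily.{u} G, ¬ F.Proper

/-- `E` is the exceptional set of a blow-down to a smooth point: `E` is compact, connected, not a
point, and there is a holomorphic map `π` from a neighbourhood `V` of `E` onto a neighbourhood of
`0` in `ℂ × ℂ`, with `π⁻¹(0) = E`, injective and locally biholomorphic outside `E`. (Every
`(-1)`-curve is such a set, and every such set contains a `(-1)`-curve.) -/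
def Exceptional {S : Type} [TopologicalSpace S] [ChartedSpace (ℂ × ℂ) S] (E : Set S) : Prop :=
  IsCompact E ∧ IsConnected E ∧ E.Nontrivial ∧ ∃ (V : Set S) (π : S → ℂ × ℂ),
    IsOpen V ∧ E ⊆ V ∧ ContMDiffOn 𝓘(ℂ, ℂ × ℂ) 𝓘(ℂ, ℂ × ℂ) ω π V ∧
    (∀ x ∈ V, π x = 0 ↔ x ∈ E) ∧ Set.InjOn π (V \ E) ∧
    (∀ x ∈ V \ E, DInj (ℂ × ℂ) (ℂ × ℂ) π x) ∧
    π '' V ∈ 𝓝 (0 : ℂ × ℂ)

/-- Relatively minimal: no fibre contains a `(-1)`-curve. -/
def FibreGerm.RelativelyMinimal (G : FibreGerm) : Prop :=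
  ∀ b, ∀ E ⊆ G.f ⁻¹' {b}, ¬ Exceptional E

/-- The central fibre has at most one critical point (this holds for a stable curve with exactly
one node: the fibre is reduced and its only singular point is the node). -/
def FibreGerm.AtMostOneSingularPoint (G : FibreGerm) : Prop :=
  ∀ x y, G.Crit x → G.Crit y → x = y

/-- The central fibre is `m C` with `C` a smooth curve: locally at every point of the fibre
`f = g ^ m` with a submersion `g`. -/
def FibreGerm.MultipleOfSmooth (G : FibreGerm) : Prop :=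
  ∃ m : ℕ, 1 ≤ m ∧ ∀ x, G.f x = 0 → ∃ g : G.S → ℂ,
    ContMDiffAt 𝓘(ℂ, ℂ × ℂ) 𝓘(ℂ, ℂ) ω g x ∧
    ¬ DZero (ℂ × ℂ) ℂ g x ∧ ∀ᶠ y in 𝓝 x, G.f y = g y ^ m

end Pool.Agent.Lib.MP_d4bba2_ag
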