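import Mathlib

/-!
DIVISION BY THE LAST COORDINATE.  (E any normed space over ℂ, used with E = ℂ and E = ℂ × ℂ.)

Proof A (power series).  Let p be the power series of h at (x0,0), v = (0,1), and π (x,s) = (x,0).
Put q n (z_0, ..., z_(n-1)) = ∑_{j ≤ n} p (n+1) (z_0, ..., z_(j-1), v, π z_j, ..., π z_(n-1)).  This is a
continuous multilinear map with norm ≤ (n+1) * ‖p (n+1)‖ * C (the norm of v is 1, ‖π‖ ≤ 1), so the radius of q is at
least that of p.  For z = (x,s) we have z - π z = s • v and the telescoping sum gives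
p (n+1) (z,...,z) - p (n+1) (π z,...,π z) = s * q n (z,...,z).  Hence h (c+z) - h (c + π z) = s * (sum of q), and
h (c + π z) = 0 near.
-/

open scoped Topology NNReal ENNReal
open Filter

noncomputable section

namespace Pool.Agent.Lib.MP_d4bba2_ag

/-- the projection `(x, s) ↦ (x, 0)` -/
private def dlPi (E : Type*) [NormedAddCommGroup E] [NormedSpace ℂ E] : E × ℂ →L[ℂ] E × ℂ :=
  (ContinuousLinearMap.inl ℂ E ℂ).comp (ContinuousLinearMap.fst ℂ E ℂ)

private lemma dlPi_apply {E : Type*} [NormedAddCommGroup E] [NormedSpace ℂ E] (z : E × ℂ) :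
    dlPi E z = (z.1, 0) := rfl

private lemma dlPi_norm {E : Type*} [NormedAddCommGroup E] [NormedSpace ℂ E] :
    ‖dlPi E‖ ≤ 1 := by
  refine ContinuousLinearMap.opNorm_le_bound _ zero_le_one fun z => ?_
  rw [dlPi_apply, one_mul, Prod.norm_mk, norm_zero, max_eq_left (norm_nonneg _)]
  exact norm_fst_le z

private lemma dlPi_le {E : Type*} [NormedAddCommGroup E] [NormedSpace ℂ E] (z : E × ℂ) :
    ‖dlPi E z‖ ≤ ‖z‖ := by
  rw [dlPi_apply, Prod.norm_mk, norm_zero, max_eq_left (norm_nonneg _)]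
  exact norm_fst_le z

/-- the terms of the divided series -/
private def dlT {E : Type*} [NormedAddCommGroup E] [NormedSpace ℂ E]
    (p : FormalMultilinearSeries ℂ (E × ℂ) ℂ) (n : ℕ) (j : Fin (n + 1)) :
    ContinuousMultilinearMap ℂ (fun _ : Fin n => E × ℂ) ℂ :=
  ((p (n + 1)).curryMid j ((0, 1) : E × ℂ)).compContinuousLinearMap
    (fun i : Fin n => if (i : ℕ) < (j : ℕ) then ContinuousLinearMap.id ℂ (E × ℂ) else dlPi E)

private def dlQ {E : Type*} [NormedAddCommGroup E] [NormedSpace ℂ E]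
    (p : FormalMultilinearSeries ℂ (E × ℂ) ℂ) : FormalMultilinearSeries ℂ (E × ℂ) ℂ :=
  fun n => ∑ j : Fin (n + 1), dlT p n j

private lemma dlT_norm {E : Type*} [NormedAddCommGroup E] [NormedSpace ℂ E]
    (p : FormalMultilinearSeries ℂ (E × ℂ) ℂ) (n : ℕ) (j : Fin (n + 1)) :
    ‖dlT p n j‖ ≤ ‖p (n + 1)‖ := by
  unfold dlT
  refine (ContinuousMultilinearMap.norm_compContinuousLinearMap_le _ _).trans ?_
  have h1 : ‖(p (n + 1)).curryMid j ((0, 1) : E × ℂ)‖ ≤ ‖p (n + 1)‖ := by
    have h2 := ((p (n + 1)).curryMid j).le_opNorm ((0, 1) : E × ℂ)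
    rw [ContinuousMultilinearMap.norm_curryMid] at h2
    have h3 : ‖((0, 1) : E × ℂ)‖ = 1 := by
      rw [Prod.norm_mk, norm_zero, norm_one]
      exact max_eq_right zero_le_one
    rw [h3, mul_one] at h2
    exact h2
  have h4 : ∏ i : Fin n, ‖(if (i : ℕ) < (j : ℕ) then ContinuousLinearMap.id ℂ (E × ℂ) else dlPi E)‖
      ≤ 1 := by
    refine Finset.prod_le_one (fun i _ => norm_nonneg _) (fun i _ => ?_)
    split_ifs
    · exact ContinuousLinearMap.norm_id_le
    · exact dlPi_norm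
  calc _ ≤ ‖p (n + 1)‖ * 1 := mul_le_mul h1 h4 (Finset.prod_nonneg fun i _ => norm_nonneg _)
        (norm_nonneg _)
    _ = ‖p (n + 1)‖ := mul_one _

private lemma dlQ_norm {E : Type*} [NormedAddCommGroup E] [NormedSpace ℂ E]
    (p : FormalMultilinearSeries ℂ (E × ℂ) ℂ) (n : ℕ) :
    ‖dlQ p n‖ ≤ (n + 1) * ‖p (n + 1)‖ := by
  unfold dlQ
  refine (norm_sum_le _ _).trans ?_
  refine (Finset.sum_le_sum fun j _ => dlT_norm p n j).trans ?_
  simp

private lemma dlT_step {E : Type*} [NormedAddCommGroup E] [NormedSpace ℂ E]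
    (p : FormalMultilinearSeries ℂ (E × ℂ) ℂ) (n : ℕ) (j : Fin (n + 1)) (z : E × ℂ) :
    p (n + 1) (fun i => if (i : ℕ) < (j : ℕ) + 1 then z else dlPi E z) -
      p (n + 1) (fun i => if (i : ℕ) < (j : ℕ) then z else dlPi E z) =
    z.2 * dlT p n j (fun _ => z) := by
  set base : Fin (n + 1) → E × ℂ := fun i => if (i : ℕ) < (j : ℕ) then z else dlPi E z with hbase
  have e1 : (fun i : Fin (n + 1) => if (i : ℕ) < (j : ℕ) + 1 then z else dlPi E z) =
      Function.update base j z := by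
    funext i
    rcases eq_or_ne i j with rfl | hij
    · rw [Function.update_self, if_pos (Nat.lt_succ_self _)]
    · rw [Function.update_of_ne hij, hbase]
      have hij' : (i : ℕ) ≠ (j : ℕ) := fun h => hij (Fin.ext h)
      by_cases h : (i : ℕ) < (j : ℕ)
      · simp only [h, if_true]
        rw [if_pos (by omega)]
      · simp only [h, if_false]
        rw [if_neg (by omega)]
  have e2 : base = Function.update base j (dlPi E z) := by
    funext i
    rcases eq_or_ne i j with rfl | hij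
    · rw [Function.update_self, hbase]
      simp
    · rw [Function.update_of_ne hij]
  have e3 : z - dlPi E z = z.2 • ((0, 1) : E × ℂ) := by
    rw [dlPi_apply]
    ext <;> simp
  rw [e1]
  have e4 : p (n + 1) base = p (n + 1) (Function.update base j (dlPi E z)) := by rw [← e2]
  rw [e4, ← ContinuousMultilinearMap.map_update_sub, e3, ContinuousMultilinearMap.map_update_smul,
    smul_eq_mul]
  congr 1
  unfold dlT
  rw [ContinuousMultilinearMap.compContinuousLinearMap_apply,
    ContinuousMultilinearMap.curryMid_apply]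
  congr 1
  funext i
  refine Fin.succAboveCases j ?_ (fun i => ?_) i
  · rw [Function.update_self, Fin.insertNth_apply_same]
  · rw [Function.update_of_ne (Fin.succAbove_ne j i), Fin.insertNth_apply_succAbove, hbase]
    by_cases h : (i : ℕ) < (j : ℕ)
    · have h' : ((j.succAbove i : Fin (n + 1)) : ℕ) < (j : ℕ) := by
        rw [Fin.succAbove_of_castSucc_lt j i (by rw [Fin.lt_def]; exact h)]
        exact h
      simp only [h, h', if_true]
      rfl
    · have h' : ¬ ((j.succAbove i : Fin (n + 1)) : ℕ) < (j : ℕ) := by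
        rw [Fin.succAbove_of_le_castSucc j i (by rw [Fin.le_def]; simpa using h)]
        simp only [Fin.val_succ]
        omega
      simp only [h, h', if_false]

private lemma dlQ_apply {E : Type*} [NormedAddCommGroup E] [NormedSpace ℂ E]
    (p : FormalMultilinearSeries ℂ (E × ℂ) ℂ) (n : ℕ) (z : E × ℂ) :
    p (n + 1) (fun _ => z) - p (n + 1) (fun _ => dlPi E z) = z.2 * dlQ p n (fun _ => z) := by
  unfold dlQ
  rw [sum_apply, Finset.mul_sum]
  rw [Finset.sum_congr rfl (fun j _ => (dlT_step p n j z).symm)]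
  rw [Fin.sum_univ_eq_sum_range (fun j : ℕ =>
    p (n + 1) (fun i => if (i : ℕ) < j + 1 then z else dlPi E z) -
      p (n + 1) (fun i => if (i : ℕ) < j then z else dlPi E z)) (n + 1)]
  rw [Finset.sum_range_sub (fun j : ℕ => p (n + 1) (fun i => if (i : ℕ) < j then z else dlPi E z))]
  congr 1
  congr 1
  funext i
  rw [if_pos i.2]

theorem div_last {E : Type*} [NormedAddCommGroup E] [NormedSpace ℂ E] (h : E × ℂ → ℂ) (x0 : E)
    (ha : AnalyticAt ℂ h (x0, 0)) (hz : ∀ᶠ x in 𝓝 x0, h (x, 0) = 0) :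
    ∃ g : E × ℂ → ℂ, AnalyticAt ℂ g (x0, 0) ∧ ∀ᶠ p in 𝓝 (x0, (0 : ℂ)), h p = p.2 * g p := by
  obtain ⟨p, r, hp⟩ := ha
  obtain ⟨r1, h1, h2⟩ := ENNReal.lt_iff_exists_nnreal_btwn.1 hp.r_pos
  have h1' : 0 < r1 := by exact_mod_cast h1
  obtain ⟨C, hC, hb⟩ := p.norm_mul_pow_le_of_lt_radius (h2.trans_le hp.r_le)
  have hrad : ((r1 / 2 : ℝ≥0) : ℝ≥0∞) ≤ (dlQ p).radius := by
    refine FormalMultilinearSeries.le_radius_of_bound _ (C / r1) fun n => ?_
    have hr : (0 : ℝ) < r1 := by exact_mod_cast h1'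
    have h3 := dlQ_norm p n
    have h4 := hb (n + 1)
    have h5 : ((n : ℝ) + 1) ≤ 2 ^ n := by
      have h6 : n + 1 ≤ 2 ^ n := Nat.lt_two_pow_self
      exact_mod_cast h6
    have h7 : (0 : ℝ) < 2 ^ n := by positivity
    rw [NNReal.coe_div, NNReal.coe_ofNat, div_pow, le_div_iff₀ hr]
    calc ‖dlQ p n‖ * ((r1 : ℝ) ^ n / 2 ^ n) * r1
        ≤ ((n : ℝ) + 1) * ‖p (n + 1)‖ * ((r1 : ℝ) ^ n / 2 ^ n) * r1 := by gcongr
      _ ≤ (2 ^ n) * ‖p (n + 1)‖ * ((r1 : ℝ) ^ n / 2 ^ n) * r1 := by gcongr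
      _ = ‖p (n + 1)‖ * (r1 : ℝ) ^ (n + 1) := by
          field_simp
          ring
      _ ≤ C := h4
  have hpos : 0 < (dlQ p).radius := by
    refine lt_of_lt_of_le ?_ hrad
    have : 0 < r1 / 2 := by positivity
    exact_mod_cast this
  have hq := (dlQ p).hasFPowerSeriesOnBall hpos
  refine ⟨fun w => (dlQ p).sum (w - (x0, 0)), ?_, ?_⟩
  · have ha1 : AnalyticAt ℂ (dlQ p).sum ((x0, (0 : ℂ)) - (x0, 0)) := by
      rw [sub_self]
      exact hq.analyticAt
    exact ha1.comp (f := fun w : E × ℂ => w - (x0, 0)) (analyticAt_id.sub analyticAt_const)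
  · have hz' : ∀ᶠ w in 𝓝 (x0, (0 : ℂ)), h (w.1, 0) = 0 := by
      have hc : ContinuousAt (fun w : E × ℂ => w.1) (x0, 0) := continuousAt_fst
      exact hc.eventually hz
    have hb1 : ∀ᶠ w in 𝓝 (x0, (0 : ℂ)), w ∈ Metric.eball (x0, (0 : ℂ)) (r1 / 2 : ℝ≥0) := by
      refine Metric.eball_mem_nhds _ ?_
      have : 0 < r1 / 2 := by positivity
      exact_mod_cast this
    filter_upwards [hz', hb1] with w hw1 hw2
    set z : E × ℂ := w - (x0, 0) with hzd
    have hzn : ‖z‖ₑ < (r1 / 2 : ℝ≥0) := by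
      have := Metric.mem_eball.1 hw2
      rwa [edist_eq_enorm_sub] at this
    have hzn2 : ‖dlPi E z‖ₑ ≤ ‖z‖ₑ := by
      have := dlPi_le z
      simp only [enorm_le_iff_norm_le]
      exact this
    have hle : ((r1 / 2 : ℝ≥0) : ℝ≥0∞) ≤ r := by
      refine le_trans ?_ h2.le
      have : r1 / 2 ≤ r1 := by
        exact NNReal.half_le_self r1
      exact_mod_cast this
    have hz1 : z ∈ Metric.eball (0 : E × ℂ) r := by
      rw [Metric.mem_eball, edist_zero_right]
      exact hzn.trans_le hle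
    have hz2 : dlPi E z ∈ Metric.eball (0 : E × ℂ) r := by
      rw [Metric.mem_eball, edist_zero_right]
      exact (hzn2.trans_lt hzn).trans_le hle
    have hz3 : z ∈ Metric.eball (0 : E × ℂ) (dlQ p).radius := by
      rw [Metric.mem_eball, edist_zero_right]
      exact hzn.trans_le hrad
    have s1 := hp.hasSum hz1
    have s2 := hp.hasSum hz2
    have s3 := (hq.hasSum hz3).mul_left z.2
    have s4 := s1.sub s2
    rw [← hasSum_nat_add_iff' 1] at s4
    have e5 : (fun n => p (n + 1) (fun _ => z) - p (n + 1) (fun _ => dlPi E z)) =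
        fun n => z.2 * dlQ p n (fun _ => z) := funext fun n => dlQ_apply p n z
    simp only [Finset.range_one, Finset.sum_singleton] at s4
    rw [e5] at s4
    have e6 := s4.unique s3
    have e7 : p 0 (fun _ => z) - p 0 (fun _ => dlPi E z) = 0 := by
      rw [sub_eq_zero]
      congr 1
      funext i
      exact Fin.elim0 i
    have e8 : (x0, (0 : ℂ)) + z = w := by rw [hzd]; abel
    have e9 : (x0, (0 : ℂ)) + dlPi E z = (w.1, 0) := by
      rw [dlPi_apply, hzd]
      ext <;> simp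
    have e10 : z.2 = w.2 := by rw [hzd]; simp
    rw [e7, e8, e9, hw1, sub_zero, sub_zero, zero_add, e10] at e6
    exact e6

end Pool.Agent.Lib.MP_d4bba2_ag
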