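import Mathlib

/-!
DIVISION BY A FUNCTION WITH A SIMPLE ZERO (one variable).  e z = (z - x0) * e1 z with e1 x0 = deriv e x0 ≠ 0 (dslope),
G z = (z - x0) * G1 z; g = G1 / e1.
simple_zero_ne: e z = (z - x0) * e1 z with e1 z ≠ 0 near x0.
-/

open scoped Topology
open Filter

noncomputable section

namespace Pool.Agent.Lib.MP_d4bba2_ag

theorem divSimple_dslope {e : ℂ → ℂ} {x0 : ℂ} (he : AnalyticAt ℂ e x0) :
    AnalyticAt ℂ (dslope e x0) x0 := by
  obtain ⟨p, hp⟩ := he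
  exact ⟨_, hp.has_fpower_series_dslope_fslope⟩

theorem div_simple {e G : ℂ → ℂ} {x0 : ℂ} (he : AnalyticAt ℂ e x0) (hG : AnalyticAt ℂ G x0)
    (he0 : e x0 = 0) (he1 : deriv e x0 ≠ 0) (hG0 : G x0 = 0) :
    ∃ g, AnalyticAt ℂ g x0 ∧ ∀ᶠ x in 𝓝 x0, G x = e x * g x := by
  have h1 := divSimple_dslope he
  have h2 := divSimple_dslope hG
  have hne : dslope e x0 x0 ≠ 0 := by rwa [dslope_same]
  refine ⟨fun x => dslope G x0 x / dslope e x0 x, h2.div h1 hne, ?_⟩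
  filter_upwards [h1.continuousAt.eventually_ne hne] with x hx
  have a := sub_smul_dslope e x0 x
  have b := sub_smul_dslope G x0 x
  rw [he0, sub_zero, smul_eq_mul] at a
  rw [hG0, sub_zero, smul_eq_mul] at b
  rw [← a, ← b]
  field_simp

theorem simple_zero_ne {e : ℂ → ℂ} {x0 : ℂ} (he : AnalyticAt ℂ e x0)
    (he0 : e x0 ≠ 0 ∨ deriv e x0 ≠ 0) : ∀ᶠ x in 𝓝[≠] x0, e x ≠ 0 := by
  rcases he.eventually_eq_zero_or_eventually_ne_zero with h | h
  · exfalso
    rcases he0 with h0 | h0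
    · exact h0 h.self_of_nhds
    · apply h0
      have : e =ᶠ[𝓝 x0] fun _ => 0 := h
      rw [this.deriv_eq]
      simp
  · exact h

end Pool.Agent.Lib.MP_d4bba2_ag
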