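import Pool.Agent.Lib.MP_d4bba2_ag.DivLast

/-!
TAYLOR EXPANSION IN THE LAST COORDINATE.

taylor_last: induction on n with div_last.  n = 0: R = h.  Step: given R for n, let c n x = R (x,0) (analytic at x0,
compose with x ↦ (x,0)); R (x,t) - R (x,0) is analytic at (x0,0) (compose with fst) and vanishes for t = 0, so it is
t * R' by div_last.
Define the coefficient functions uniformly: to get ONE sequence c for all n, build the sequence of remainders
R_0 = h, R_(n+1) by Nat.rec with choice (div_last applied to R_n (x,t) - R_n (x,0), subtype of analytic germs), and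
c n x = R_n (x,0).

poly_unique: the polynomial ∑ i < n, (a i - b i) t^i is O(t^n) at 0 (t^n * R is O(t^n) since R is bounded near 0);
if some coefficient is not 0 take the smallest one, i0 < n: divide by t^i0 and let t → 0.

poly_unique': same with = t^n * B + ..., for the n-th coefficient.
-/

open scoped Topology
open Filter

noncomputable section

namespace Pool.Agent.Lib.MP_d4bba2_ag

private lemma tt_slice {E : Type*} [NormedAddCommGroup E] [NormedSpace ℂ E] (R : E × ℂ → ℂ) (x0 : E)
    (ha : AnalyticAt ℂ R (x0, 0)) : AnalyticAt ℂ (fun x : E => R (x, 0)) x0 :=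
  AnalyticAt.fun_comp (f := fun x : E => ((x, 0) : E × ℂ)) ha (analyticAt_id.prod analyticAt_const)

private lemma tt_slice' {E : Type*} [NormedAddCommGroup E] [NormedSpace ℂ E] (R : E × ℂ → ℂ) (x0 : E)
    (ha : AnalyticAt ℂ R (x0, 0)) : AnalyticAt ℂ (fun w : E × ℂ => R (w.1, 0)) (x0, 0) :=
  AnalyticAt.fun_comp (f := fun w : E × ℂ => ((w.1, 0) : E × ℂ)) ha (analyticAt_fst.prod analyticAt_const)

private lemma tt_step {E : Type*} [NormedAddCommGroup E] [NormedSpace ℂ E] (R : E × ℂ → ℂ) (x0 : E)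
    (ha : AnalyticAt ℂ R (x0, 0)) :
    ∃ g : E × ℂ → ℂ, AnalyticAt ℂ g (x0, 0) ∧
      ∀ᶠ w in 𝓝 (x0, (0 : ℂ)), R w = R (w.1, 0) + w.2 * g w := by
  obtain ⟨g, hg, he⟩ := div_last (fun w => R w - R (w.1, 0)) x0 (ha.sub (tt_slice' R x0 ha))
    (Filter.Eventually.of_forall fun x => sub_self _)
  refine ⟨g, hg, he.mono fun w hw => ?_⟩
  rw [← hw]
  ring

/-- the sequence of remainders -/
private def ttS {E : Type*} [NormedAddCommGroup E] [NormedSpace ℂ E] (h : E × ℂ → ℂ) (x0 : E)
    (ha : AnalyticAt ℂ h (x0, 0)) : ℕ → {R : E × ℂ → ℂ // AnalyticAt ℂ R (x0, 0)}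
  | 0 => ⟨h, ha⟩
  | n + 1 => ⟨Classical.choose (tt_step (ttS h x0 ha n).1 x0 (ttS h x0 ha n).2),
      (Classical.choose_spec (tt_step (ttS h x0 ha n).1 x0 (ttS h x0 ha n).2)).1⟩

private lemma ttS_spec {E : Type*} [NormedAddCommGroup E] [NormedSpace ℂ E] (h : E × ℂ → ℂ) (x0 : E)
    (ha : AnalyticAt ℂ h (x0, 0)) (n : ℕ) : ∀ᶠ w in 𝓝 (x0, (0 : ℂ)),
      (ttS h x0 ha n).1 w = (ttS h x0 ha n).1 (w.1, 0) + w.2 * (ttS h x0 ha (n + 1)).1 w :=
  (Classical.choose_spec (tt_step (ttS h x0 ha n).1 x0 (ttS h x0 ha n).2)).2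

theorem taylor_last {E : Type*} [NormedAddCommGroup E] [NormedSpace ℂ E] (h : E × ℂ → ℂ) (x0 : E)
    (ha : AnalyticAt ℂ h (x0, 0)) :
    ∃ c : ℕ → E → ℂ, (∀ i, AnalyticAt ℂ (c i) x0) ∧ ∀ n : ℕ, ∃ R : E × ℂ → ℂ,
      AnalyticAt ℂ R (x0, 0) ∧ ∀ᶠ p in 𝓝 (x0, (0 : ℂ)),
        h p = ∑ i ∈ Finset.range n, c i p.1 * p.2 ^ i + p.2 ^ n * R p := by
  refine ⟨fun n x => (ttS h x0 ha n).1 (x, 0), fun n => tt_slice _ x0 (ttS h x0 ha n).2, fun n =>
    ⟨(ttS h x0 ha n).1, (ttS h x0 ha n).2, ?_⟩⟩
  induction n with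
  | zero =>
    refine Filter.Eventually.of_forall fun p => ?_
    simp [ttS]
  | succ n ih =>
    filter_upwards [ih, ttS_spec h x0 ha n] with p h1 h2
    rw [Finset.sum_range_succ, h1, h2]
    have h3 : (ttS h x0 ha n).1 ((p.1, (0 : ℂ)).1, 0) = (ttS h x0 ha n).1 (p.1, 0) := rfl
    ring

theorem poly_unique (a b : ℕ → ℂ) (n : ℕ)
    (h : (fun t : ℂ => ∑ i ∈ Finset.range n, a i * t ^ i - ∑ i ∈ Finset.range n, b i * t ^ i)
      =O[𝓝[≠] 0] (fun t : ℂ => t ^ n)) : ∀ i < n, a i = b i := by
  have key : ∀ m ≤ n, ∀ i < m, a i - b i = 0 := by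
    intro m
    induction m with
    | zero => intro _ i hi; omega
    | succ m ih =>
      intro hm i hi
      have ih' := ih (by omega)
      rcases Nat.lt_succ_iff_lt_or_eq.1 hi with hi' | rfl
      · exact ih' i hi'
      · set f : ℂ → ℂ := fun t => ∑ j ∈ Finset.range n, (a j - b j) * t ^ (j - i) with hf
        have hfc : Continuous f := by
          rw [hf]
          fun_prop
        have hf0 : f 0 = a i - b i := by
          rw [hf]
          simp only
          rw [Finset.sum_eq_single i]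
          · simp
          · intro j _ hj
            rcases lt_or_gt_of_ne hj with h1 | h1
            · rw [ih' j h1, zero_mul]
            · have : j - i ≠ 0 := by omega
              rw [zero_pow this, mul_zero]
          · intro h1
            exact absurd (Finset.mem_range.2 (by omega)) h1
        have hlim1 : Tendsto f (𝓝[≠] 0) (𝓝 (a i - b i)) := by
          rw [← hf0]
          exact hfc.continuousAt.tendsto.mono_left nhdsWithin_le_nhds
        have hfac : ∀ t : ℂ, ∑ j ∈ Finset.range n, a j * t ^ j - ∑ j ∈ Finset.range n, b j * t ^ j =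
            t ^ i * f t := by
          intro t
          rw [← Finset.sum_sub_distrib, hf]
          simp only
          rw [Finset.mul_sum]
          refine Finset.sum_congr rfl fun j _ => ?_
          rcases lt_or_ge j i with h1 | h1
          · have h2 := ih' j h1
            have : a j * t ^ j - b j * t ^ j = (a j - b j) * t ^ j := by ring
            rw [this, h2]
            ring
          · have h3 : t ^ j = t ^ i * t ^ (j - i) := by
              rw [← pow_add]
              congr 1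
              omega
            rw [h3]
            ring
        obtain ⟨C, hC⟩ := h.bound
        have hlim2 : Tendsto f (𝓝[≠] 0) (𝓝 0) := by
          have hg : Tendsto (fun t : ℂ => C * ‖t‖ ^ (n - i)) (𝓝[≠] 0) (𝓝 0) := by
            have h1 : Continuous (fun t : ℂ => C * ‖t‖ ^ (n - i)) := by fun_prop
            have h2 := h1.tendsto (0 : ℂ)
            have h3 : C * ‖(0 : ℂ)‖ ^ (n - i) = 0 := by
              rw [norm_zero, zero_pow (by omega), mul_zero]
            rw [h3] at h2
            exact h2.mono_left nhdsWithin_le_nhds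
          refine squeeze_zero_norm' ?_ hg
          filter_upwards [hC, self_mem_nhdsWithin] with t ht ht0
          rw [hfac, norm_mul, norm_pow, norm_pow] at ht
          have htp : 0 < ‖t‖ ^ i := pow_pos (norm_pos_iff.2 ht0) i
          have h3 : ‖t‖ ^ n = ‖t‖ ^ i * ‖t‖ ^ (n - i) := by
            rw [← pow_add]
            congr 1
            omega
          rw [h3] at ht
          have h4 : ‖t‖ ^ i * ‖f t‖ ≤ ‖t‖ ^ i * (C * ‖t‖ ^ (n - i)) := by
            refine ht.trans (le_of_eq ?_)
            ring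
          exact le_of_mul_le_mul_left h4 htp
        exact tendsto_nhds_unique hlim1 hlim2
  intro i hi
  exact sub_eq_zero.1 (key n le_rfl i hi)

/-- the version used most: two expansions of the same function of `t` -/
theorem expansion_unique (a b : ℕ → ℂ) (n : ℕ) (R R' : ℂ → ℂ) (hR : ContinuousAt R 0)
    (hR' : ContinuousAt R' 0)
    (h : ∀ᶠ t : ℂ in 𝓝[≠] 0, ∑ i ∈ Finset.range n, a i * t ^ i + t ^ n * R t =
      ∑ i ∈ Finset.range n, b i * t ^ i + t ^ n * R' t) :
    (∀ i < n, a i = b i) ∧ R 0 = R' 0 := by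
  have h1 : ∀ i < n, a i = b i := by
    refine poly_unique a b n ?_
    have e : (fun t : ℂ => ∑ i ∈ Finset.range n, a i * t ^ i - ∑ i ∈ Finset.range n, b i * t ^ i)
        =ᶠ[𝓝[≠] 0] fun t : ℂ => t ^ n * (R' t - R t) := by
      filter_upwards [h] with t ht
      linear_combination ht
    refine e.trans_isBigO ?_
    have hb : (fun t : ℂ => R' t - R t) =O[𝓝[≠] 0] (fun _ : ℂ => (1 : ℂ)) :=
      ((hR'.sub hR).tendsto.isBigO_one ℂ).mono nhdsWithin_le_nhds
    have := (Asymptotics.isBigO_refl (fun t : ℂ => t ^ n) (𝓝[≠] 0)).mul hb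
    simpa using this
  refine ⟨h1, ?_⟩
  have h2 : ∀ᶠ t : ℂ in 𝓝[≠] 0, R t = R' t := by
    filter_upwards [h, self_mem_nhdsWithin] with t ht ht0
    have h3 : ∑ i ∈ Finset.range n, a i * t ^ i = ∑ i ∈ Finset.range n, b i * t ^ i :=
      Finset.sum_congr rfl fun i hi => by rw [h1 i (Finset.mem_range.1 hi)]
    rw [h3] at ht
    have h4 := add_left_cancel ht
    exact mul_left_cancel₀ (pow_ne_zero n ht0) h4
  have h5 : Tendsto R (𝓝[≠] 0) (𝓝 (R 0)) := hR.tendsto.mono_left nhdsWithin_le_nhds
  have h6 : Tendsto R' (𝓝[≠] 0) (𝓝 (R' 0)) := hR'.tendsto.mono_left nhdsWithin_le_nhds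
  exact tendsto_nhds_unique (h5.congr' h2) h6

end Pool.Agent.Lib.MP_d4bba2_ag
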