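import Pool.Agent.Lib.MP_d4bba2_ag.Shift
import Pool.Agent.Lib.MP_d4bba2_ag.TaylorT

/-!
EXPANSION AT A REGULAR POINT y AFTER A SHIFT σ with D2 F (x, σ (x,t), t) = t^m * G (x,t).

Let H, K be from shift_expand at y.  η = ρ - σ is analytic at (y,0), η (x,0) = 0.  D2 F (x,ρ,t) = 0 gives
0 = t^m * G + η * K (x,η,t).  K (x,η (x,t),t) is analytic at (y,0), and K (y,0,0) = 2 * e y ≠ 0, so near (y,0)
η = t^m * g with g = - G / K (x,η (x,t),t) analytic at (y,0), g (x,0) = - G (x,0) / (2 * e x) for x near y.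
F (x,ρ,t) = F (x,σ,t) + t^m * G * η + η^2 * H (x,η,t) = F (x,σ,t) + t^(2m) * Q, Q = G * g + g^2 * H (x,η,t),
Q (x,0) = - G (x,0)^2 / (4 * e x).   Q (x,t) - Q (x,0) = t * R by div_last.
-/

open scoped Topology
open Filter

noncomputable section

namespace Pool.Agent.Lib.MP_d4bba2_ag

theorem expand_reg {F : ℂ × ℂ × ℂ → ℂ} {y : ℂ} {e : ℂ → ℂ} (h : IsLoc F y e) (he : e y ≠ 0)
    {σ : ℂ × ℂ → ℂ} (hσ : AnalyticAt ℂ σ (y, 0)) (hσ0 : ∀ᶠ x in 𝓝 y, σ (x, 0) = 0)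
    {m : ℕ} {G : ℂ × ℂ → ℂ} (hG : AnalyticAt ℂ G (y, 0))
    (hs : ∀ᶠ p : ℂ × ℂ in 𝓝 (y, 0), D2 F (p.1, σ p, p.2) = p.2 ^ m * G p)
    {ρ : ℂ × ℂ → ℂ} (hρ : RootAt F y ρ) :
    (∃ g, AnalyticAt ℂ g (y, 0) ∧ ∀ᶠ p : ℂ × ℂ in 𝓝 (y, 0), ρ p = σ p + p.2 ^ m * g p) ∧
    ∃ R, AnalyticAt ℂ R (y, 0) ∧ ∀ᶠ p : ℂ × ℂ in 𝓝 (y, 0),
      F (p.1, ρ p, p.2) = F (p.1, σ p, p.2) - p.2 ^ (2 * m) * (G (p.1, 0) ^ 2 / (4 * e p.1)) +
        p.2 ^ (2 * m + 1) * R p := by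
  obtain ⟨H, K, hH, hK, hF, hD2, h0⟩ := shift_expand h hσ hσ0
  have hσy : σ (y, 0) = 0 := hσ0.self_of_nhds
  have hρy : ρ (y, 0) = 0 := hρ.zero.self_of_nhds
  set η : ℂ × ℂ → ℂ := fun p => ρ p - σ p with hη
  have hηan : AnalyticAt ℂ η (y, 0) := hρ.an.sub hσ
  have hη0 : η (y, 0) = 0 := by simp only [hη]; rw [hρy, hσy, sub_zero]
  have hcurve : AnalyticAt ℂ (fun p : ℂ × ℂ => ((p.1, η p, p.2) : ℂ × ℂ × ℂ)) (y, 0) :=
    analyticAt_fst.prod (hηan.prod analyticAt_snd)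
  have hcurve0 : (fun p : ℂ × ℂ => ((p.1, η p, p.2) : ℂ × ℂ × ℂ)) (y, 0) = (y, 0, 0) := by
    simp only [hη0]
  have hT : Tendsto (fun p : ℂ × ℂ => ((p.1, η p, p.2) : ℂ × ℂ × ℂ)) (𝓝 (y, 0))
      (𝓝 (y, 0, 0)) := by
    have h1 := hcurve.continuousAt.tendsto
    simp only [hη0] at h1
    exact h1
  have hKη : AnalyticAt ℂ (fun p : ℂ × ℂ => K (p.1, η p, p.2)) (y, 0) := by
    have h2 : AnalyticAt ℂ K ((fun p : ℂ × ℂ => ((p.1, η p, p.2) : ℂ × ℂ × ℂ)) (y, 0)) := by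
      rw [hcurve0]
      exact hK
    exact AnalyticAt.comp (g := K) (f := fun p : ℂ × ℂ => ((p.1, η p, p.2) : ℂ × ℂ × ℂ)) h2 hcurve
  have hHη : AnalyticAt ℂ (fun p : ℂ × ℂ => H (p.1, η p, p.2)) (y, 0) := by
    have h2 : AnalyticAt ℂ H ((fun p : ℂ × ℂ => ((p.1, η p, p.2) : ℂ × ℂ × ℂ)) (y, 0)) := by
      rw [hcurve0]
      exact hH
    exact AnalyticAt.comp (g := H) (f := fun p : ℂ × ℂ => ((p.1, η p, p.2) : ℂ × ℂ × ℂ)) h2 hcurve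
  have hK0 : K (y, 0, 0) = 2 * e y := (h0.self_of_nhds).2
  have hKne : (fun p : ℂ × ℂ => K (p.1, η p, p.2)) (y, 0) ≠ 0 := by
    simp only [hη0]
    rw [hK0]
    exact mul_ne_zero two_ne_zero he
  have hKev : ∀ᶠ p : ℂ × ℂ in 𝓝 (y, 0), K (p.1, η p, p.2) ≠ 0 :=
    hKη.continuousAt.eventually_ne hKne
  set g : ℂ × ℂ → ℂ := fun p => -G p / K (p.1, η p, p.2) with hg
  have hgan : AnalyticAt ℂ g (y, 0) := hG.neg.div hKη hKne
  -- the root equation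
  have hroot : ∀ᶠ p : ℂ × ℂ in 𝓝 (y, 0), η p = p.2 ^ m * g p := by
    filter_upwards [hρ.root, hT.eventually hD2, hs, hKev] with p h1 h2 h3 h4
    have h5 : σ (p.1, p.2) + η p = ρ p := by
      simp only [hη]
      show σ p + (ρ p - σ p) = ρ p
      ring
    have h6 : σ (p.1, p.2) = σ p := rfl
    simp only [h5] at h2
    rw [h1, h6, h3] at h2
    simp only [hg]
    field_simp
    linear_combination -h2
  refine ⟨⟨g, hgan, ?_⟩, ?_⟩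
  · filter_upwards [hroot] with p h1
    rw [← h1]
    simp only [hη]
    ring
  set Qf : ℂ × ℂ → ℂ := fun p => G p * g p + g p ^ 2 * H (p.1, η p, p.2) with hQ
  have hQan : AnalyticAt ℂ Qf (y, 0) := (hG.mul hgan).add ((hgan.pow 2).mul hHη)
  have hline : AnalyticAt ℂ (fun p : ℂ × ℂ => ((p.1, 0) : ℂ × ℂ)) (y, 0) :=
    analyticAt_fst.prod analyticAt_const
  have hQline : AnalyticAt ℂ (fun p : ℂ × ℂ => Qf (p.1, 0)) (y, 0) :=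
    AnalyticAt.comp (g := Qf) (f := fun p : ℂ × ℂ => ((p.1, 0) : ℂ × ℂ)) (x := ((y, 0) : ℂ × ℂ))
      hQan hline
  obtain ⟨R, hR, hRe⟩ := div_last (fun p : ℂ × ℂ => Qf p - Qf (p.1, 0)) y (hQan.sub hQline)
    (Eventually.of_forall fun x => sub_self _)
  have hx0 : Tendsto (fun p : ℂ × ℂ => p.1) (𝓝 (y, 0)) (𝓝 y) := by
    have h1 : Continuous (fun p : ℂ × ℂ => p.1) := continuous_fst
    exact h1.tendsto (y, 0)
  have hx1 : Tendsto (fun x : ℂ => ((x, 0) : ℂ × ℂ)) (𝓝 y) (𝓝 (y, 0)) := by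
    have h1 : Continuous (fun x : ℂ => ((x, 0) : ℂ × ℂ)) := by fun_prop
    exact h1.tendsto y
  have hene : ∀ᶠ x in 𝓝 y, e x ≠ 0 := h.ean.continuousAt.eventually_ne he
  have hQ0 : ∀ᶠ x in 𝓝 y, Qf (x, 0) = -(G (x, 0) ^ 2 / (4 * e x)) := by
    filter_upwards [hx1.eventually h0, hρ.zero, hσ0, hene] with x h1 h2 h3 h4
    have h5 : η (x, 0) = 0 := by simp only [hη]; rw [h2, h3, sub_zero]
    simp only [hQ, hg]
    rw [h5, h1.1, h1.2]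
    field_simp
    ring
  refine ⟨R, hR, ?_⟩
  filter_upwards [hroot, hT.eventually hF, hs, hRe, hx0.eventually hQ0] with p h1 h2 h3 h4 h5
  have h6 : σ (p.1, p.2) + η p = ρ p := by
    simp only [hη]
    show σ p + (ρ p - σ p) = ρ p
    ring
  have h7 : σ (p.1, p.2) = σ p := rfl
  simp only [h6] at h2
  rw [h7, h3] at h2
  rw [h2, h1]
  have h8 : Qf p = G p * g p + g p ^ 2 * H (p.1, η p, p.2) := rfl
  rw [h1] at h8
  have h9 : Qf p = -(G (p.1, 0) ^ 2 / (4 * e p.1)) + p.2 * R p := by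
    rw [← h5, ← h4]
    ring
  linear_combination (p.2 ^ (2 * m)) * h9 - (p.2 ^ (2 * m)) * h8

end Pool.Agent.Lib.MP_d4bba2_ag
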