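import Pool.Agent.Lib.MP_d4bba2_ag.SumRoot

/-!
LEMMA B: near a special point every critical point has the critical value k t.

crit_of_sum.  Constants: e is analytic at x0 with deriv e x0 ≠ 0: choose R1 ≤ R, c > 0 with F analytic on a neighbourhood of
the compact polydisc P = {|x-x0| ≤ R1, |ξ| ≤ 2 R1, |t| ≤ R1}, F (x,ξ,0) = e x ξ^2 on {|x-x0| ≤ R1, |ξ| ≤ 2 R1}, e
differentiable on |x-x0| ≤ R1 and |deriv e x| ≥ c there.  So D1 F (x,ξ,0) = deriv e x * ξ^2 on (the interior of) this set.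
For |t| small (M |t| < R1/2) and |x-x0| < R1/2, let S (x) = deriv (fun x => σ x t) x; the Cauchy estimate on the disc
of radius R1/2 around x gives |S| ≤ M |t| / (R1/2).
For |η| ≤ R1 put K (η) = D1 F (x, σ x t + η, t) + D2 F (x, σ x t + η, t) * S x; analytic in η.
K (0) = d/dx (F (x, σ x t, t)) = d/dx (k t) = 0.   K' (0) = (∂_ξ D1 F) + (∂_ξ D2 F) * S = (∂_x D2 F) + (∂_ξ D2 F) S
= d/dx (D2 F (x, σ x t, t)) = 0 (symmetry of the second derivative of the analytic function F).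
So K η = η^2 * L η with L analytic on |η| < R1 (dslope twice).
For |η| = R1/2: |K η - deriv e x * η^2| ≤ ε(t) with ε(t) → 0 as t → 0, uniformly in |x-x0| < R1/2: D1 F is uniformly
continuous on P, D2 F is bounded on P by M2, so the difference is ≤ |D1 F (x,σ+η,t) - D1 F (x,η,0)| + M2 |S|.
So |L η - deriv e x| ≤ ε(t) / (R1/2)^2 on the circle |η| = R1/2 and hence, by the maximum modulus principle, for
|η| ≤ R1/2; for t small this is < c, hence L η ≠ 0 for |η| ≤ R1/2.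
Let z = (x,ξ,t) be near (x0,0,0) with D1 F z = 0, D2 F z = 0, η = ξ - σ x t (|η| ≤ R1/2).  Then K η = 0, so
η^2 * L η = 0, η = 0, ξ = σ x t and F z = k t.

lemmaB: sum_root + crit_of_sum.
-/

open scoped Topology
open Filter

noncomputable section

namespace Pool.Agent.Lib.MP_d4bba2_ag

private theorem LemmaB_two {g : ℂ → ℂ} {r ε : ℝ} (hd : DifferentiableOn ℂ g (Metric.ball 0 r))
    (h0 : g 0 = 0) (h1 : HasDerivAt g 0 0) (hb : ∀ η ∈ Metric.ball (0 : ℂ) r, ‖g η‖ ≤ ε) {η : ℂ}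
    (hη : ‖η‖ < r) : ‖g η‖ ≤ ε * (‖η‖ / r) ^ 2 := by
  have hl : (g · - g 0) =o[𝓝 0] (fun w : ℂ => ‖w - 0‖ ^ 1) := by
    have h2 := hasDerivAt_iff_isLittleO.1 h1
    simp only [smul_zero, sub_zero] at h2
    simp only [pow_one, sub_zero]
    exact h2.norm_right
  have h := Complex.dist_le_mul_div_pow_of_mapsTo_ball_of_isLittleO (f := g) (c := 0) (R₁ := r)
    (R₂ := ε) (n := 1) hd (fun w hw => by
      rw [h0, mem_closedBall_zero_iff]
      exact hb w hw) hl (mem_ball_zero_iff.2 hη)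
  rw [h0, dist_zero_right, dist_zero_right] at h
  exact h

private theorem LemmaB_mem {x x0 ξ t : ℂ} {b : ℝ} (h1 : ‖x - x0‖ ≤ b) (h2 : ‖ξ‖ ≤ b)
    (h3 : ‖t‖ ≤ b) : ((x, ξ, t) : ℂ × ℂ × ℂ) ∈ Metric.closedBall (x0, 0, 0) b := by
  rw [Metric.mem_closedBall, Prod.dist_eq, Prod.dist_eq, dist_eq_norm, dist_zero_right,
    dist_zero_right]
  exact max_le h1 (max_le h2 h3)

private theorem LemmaB_mem2 {x x0 ξ : ℂ} {b : ℝ} (h1 : ‖x - x0‖ ≤ b) (h2 : ‖ξ‖ ≤ b) :
    ((x, ξ) : ℂ × ℂ) ∈ Metric.closedBall (x0, 0) b := by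
  rw [Metric.mem_closedBall, Prod.dist_eq, dist_eq_norm, dist_zero_right]
  exact max_le h1 h2

theorem crit_of_sum {F : ℂ × ℂ × ℂ → ℂ} {x0 : ℂ} {e : ℂ → ℂ} (h : IsLoc F x0 e)
    (he1 : deriv e x0 ≠ 0) {k : ℂ → ℂ} {R δ M : ℝ} (hR : 0 < R) (hδ : 0 < δ) (hM : 0 < M)
    {σ : ℂ → ℂ → ℂ}
    (hσ : ∀ t : ℂ, ‖t‖ < δ → DifferentiableOn ℂ (fun x => σ x t) (Metric.ball x0 R))
    (hσ' : ∀ x ∈ Metric.ball x0 R, ∀ t : ℂ, ‖t‖ < δ →
        ‖σ x t‖ ≤ M * ‖t‖ ∧ D2 F (x, σ x t, t) = 0 ∧ F (x, σ x t, t) = k t) :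
    ∀ᶠ z : ℂ × ℂ × ℂ in 𝓝 (x0, 0, 0), D1 F z = 0 → D2 F z = 0 → F z = k z.2.2 := by
  -- constants
  have hc0 : 0 < ‖deriv e x0‖ := norm_pos_iff.2 he1
  obtain ⟨ε₁, hε₁, H1⟩ := Metric.eventually_nhds_iff_ball.1 h.an.eventually_analyticAt
  obtain ⟨ε₂, hε₂, H2⟩ := Metric.eventually_nhds_iff_ball.1 h.eq
  obtain ⟨ε₃, hε₃, H3⟩ := Metric.eventually_nhds_iff_ball.1 h.ean.eventually_analyticAt
  have hcont : ContinuousAt (fun x => ‖deriv e x‖) x0 := h.ean.deriv.continuousAt.norm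
  have hev : ∀ᶠ x in 𝓝 x0, ‖deriv e x0‖ / 2 < ‖deriv e x‖ :=
    hcont.eventually_const_lt (by linarith)
  obtain ⟨ε₄, hε₄, H4⟩ := Metric.eventually_nhds_iff_ball.1 hev
  obtain ⟨a, ha0, haR, ha1, ha2, ha3, ha4⟩ : ∃ a : ℝ, 0 < a ∧ a < R ∧ a < ε₁ ∧ a < ε₂ ∧ a < ε₃ ∧
      a < ε₄ := by
    have hm : 0 < min R (min ε₁ (min ε₂ (min ε₃ ε₄))) := by
      simp only [lt_min_iff]; exact ⟨hR, hε₁, hε₂, hε₃, hε₄⟩
    obtain ⟨a, h1, h2⟩ := exists_between hm
    simp only [lt_min_iff] at h2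
    exact ⟨a, h1, h2.1, h2.2.1, h2.2.2.1, h2.2.2.2.1, h2.2.2.2.2⟩
  set c : ℝ := ‖deriv e x0‖ / 2 with hc
  have hc1 : 0 < c := by positivity
  set r : ℝ := a / 2 with hr
  have hr0 : 0 < r := by positivity
  -- analyticity
  have hFd : ∀ z ∈ Metric.closedBall ((x0, 0, 0) : ℂ × ℂ × ℂ) a, DifferentiableAt ℂ F z :=
    fun z hz => (H1 z (Metric.closedBall_subset_ball ha1 hz)).differentiableAt
  have hF0 : ∀ x ξ : ℂ, ‖x - x0‖ ≤ a → ‖ξ‖ ≤ a → F (x, ξ, 0) = e x * ξ ^ 2 :=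
    fun x ξ h1 h2 => H2 (x, ξ) (Metric.closedBall_subset_ball ha2 (LemmaB_mem2 h1 h2))
  have hed : ∀ x ∈ Metric.ball x0 a, DifferentiableAt ℂ e x :=
    fun x hx => (H3 x (Metric.ball_subset_ball ha3.le hx)).differentiableAt
  have hec : ∀ x ∈ Metric.ball x0 a, c < ‖deriv e x‖ :=
    fun x hx => H4 x (Metric.ball_subset_ball ha4.le hx)
  -- uniform continuity
  have huc : UniformContinuousOn F (Metric.closedBall ((x0, 0, 0) : ℂ × ℂ × ℂ) a) :=
    (isCompact_closedBall _ _).uniformContinuousOn_of_continuous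
      fun z hz => (hFd z hz).continuousAt.continuousWithinAt
  obtain ⟨d, hd, Hd⟩ := Metric.uniformContinuousOn_iff.1 huc (c * a * r ^ 2 / 16) (by positivity)
  -- smallness of `t`
  have hev2 : ∀ᶠ z : ℂ × ℂ × ℂ in 𝓝 (x0, 0, 0), ‖z.1 - x0‖ < a / 2 ∧ ‖z.2.1‖ < a / 4 ∧
      ‖z.2.2‖ < δ ∧ ‖z.2.2‖ < a ∧ ‖z.2.2‖ < d ∧ M * ‖z.2.2‖ < d ∧ M * ‖z.2.2‖ < a / 4 := by
    have c1 : Continuous fun z : ℂ × ℂ × ℂ => ‖z.1 - x0‖ := by fun_prop
    have c2 : Continuous fun z : ℂ × ℂ × ℂ => ‖z.2.1‖ := by fun_prop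
    have c3 : Continuous fun z : ℂ × ℂ × ℂ => ‖z.2.2‖ := by fun_prop
    have c4 : Continuous fun z : ℂ × ℂ × ℂ => M * ‖z.2.2‖ := by fun_prop
    filter_upwards [c1.continuousAt.eventually_lt_const (u := a / 2) (by simp [ha0]),
      c2.continuousAt.eventually_lt_const (u := a / 4) (by simp [ha0]),
      c3.continuousAt.eventually_lt_const (u := δ) (by simp [hδ]),
      c3.continuousAt.eventually_lt_const (u := a) (by simp [ha0]),
      c3.continuousAt.eventually_lt_const (u := d) (by simp [hd]),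
      c4.continuousAt.eventually_lt_const (u := d) (by simp [hd]),
      c4.continuousAt.eventually_lt_const (u := a / 4) (by simp [ha0])] with z b1 b2 b3 b4 b5 b6 b7
    exact ⟨b1, b2, b3, b4, b5, b6, b7⟩
  filter_upwards [hev2] with z hz hD1 hD2
  obtain ⟨x1, ξ1, t⟩ := z
  simp only at hz
  obtain ⟨b1, b2, b3, b4, b5, b6, b7⟩ := hz
  have hball : ∀ x ∈ Metric.ball x0 a, x ∈ Metric.ball x0 R :=
    fun x hx => Metric.ball_subset_ball haR.le hx
  have hx1 : x1 ∈ Metric.ball x0 a := by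
    rw [mem_ball_iff_norm]; linarith
  -- comparison with `t = 0`
  have hcmp : ∀ x ∈ Metric.ball x0 a, ∀ η : ℂ, ‖η‖ < r →
      ‖F (x, σ x t + η, t) - e x * η ^ 2‖ ≤ c * a * r ^ 2 / 16 := by
    intro x hx η hη
    have hxn : ‖x - x0‖ ≤ a := (mem_ball_iff_norm.1 hx).le
    have hs := (hσ' x (hball x hx) t b3).1
    have hs2 : ‖σ x t + η‖ ≤ a := by
      have := norm_add_le (σ x t) η
      rw [hr] at hη
      linarith
    have hη2 : ‖η‖ ≤ a := by rw [hr] at hη; linarith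
    have h1 : ((x, σ x t + η, t) : ℂ × ℂ × ℂ) ∈ Metric.closedBall (x0, 0, 0) a :=
      LemmaB_mem hxn hs2 b4.le
    have h2 : ((x, η, 0) : ℂ × ℂ × ℂ) ∈ Metric.closedBall (x0, 0, 0) a :=
      LemmaB_mem hxn hη2 (by rw [norm_zero]; exact ha0.le)
    have h3 : dist ((x, σ x t + η, t) : ℂ × ℂ × ℂ) (x, η, 0) < d := by
      rw [Prod.dist_eq, Prod.dist_eq, dist_self, dist_zero_right, dist_eq_norm,
        add_sub_cancel_right]
      exact max_lt hd (max_lt (lt_of_le_of_lt hs b6) b5)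
    have h4 := Hd _ h1 _ h2 h3
    rw [dist_eq_norm, hF0 x η hxn hη2] at h4
    exact h4.le
  have hk : ‖k t‖ ≤ c * a * r ^ 2 / 16 := by
    have h1 := hcmp x0 (Metric.mem_ball_self ha0) 0 (by rw [norm_zero]; exact hr0)
    rw [add_zero, (hσ' x0 (hball x0 (Metric.mem_ball_self ha0)) t b3).2.2] at h1
    simpa using h1
  -- the bound of the double zero
  have hdz : ∀ x ∈ Metric.ball x0 a, ∀ η : ℂ, ‖η‖ < r →
      ‖F (x, σ x t + η, t) - k t - e x * η ^ 2‖ ≤ c * a * r ^ 2 / 8 * (‖η‖ / r) ^ 2 := by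
    intro x hx η hη
    have hxn : ‖x - x0‖ ≤ a := (mem_ball_iff_norm.1 hx).le
    obtain ⟨hs, hs1, hs3⟩ := hσ' x (hball x hx) t b3
    have hder : ∀ η' : ℂ, ‖η'‖ < r → HasDerivAt (fun η : ℂ => F (x, σ x t + η, t))
        (D2 F (x, σ x t + η', t)) η' := by
      intro η' hη'
      have hs2 : ‖σ x t + η'‖ ≤ a := by
        have := norm_add_le (σ x t) η'
        rw [hr] at hη'
        linarith
      have h1 := (hFd _ (LemmaB_mem hxn hs2 b4.le)).hasFDerivAt
      have h2 : HasDerivAt (fun η : ℂ => ((x, σ x t + η, t) : ℂ × ℂ × ℂ)) (0, 1, 0) η' :=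
        (hasDerivAt_const η' x).prodMk
          (((hasDerivAt_id η').const_add (σ x t)).prodMk (hasDerivAt_const η' t))
      exact h1.comp_hasDerivAt η' h2
    have hg : ∀ η' : ℂ, ‖η'‖ < r → HasDerivAt
        (fun η : ℂ => F (x, σ x t + η, t) - k t - e x * η ^ 2)
        (D2 F (x, σ x t + η', t) - e x * (2 * η')) η' := by
      intro η' hη'
      have h3 : HasDerivAt (fun η : ℂ => e x * η ^ 2) (e x * (2 * η')) η' := by
        have := (hasDerivAt_pow 2 η').const_mul (e x)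
        simpa using this
      exact ((hder η' hη').sub_const (k t)).sub h3
    refine LemmaB_two (g := fun η : ℂ => F (x, σ x t + η, t) - k t - e x * η ^ 2) ?_ ?_ ?_ ?_ hη
    · intro η' hη'
      exact (hg η' (mem_ball_zero_iff.1 hη')).differentiableAt.differentiableWithinAt
    · simp only [add_zero]
      rw [hs3]
      simp
    · have h4 := hg 0 (by rw [norm_zero]; exact hr0)
      rw [add_zero, hs1] at h4
      simpa using h4
    · intro η' hη'
      have h5 := hcmp x hx η' (mem_ball_zero_iff.1 hη')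
      have h6 : F (x, σ x t + η', t) - k t - e x * η' ^ 2 =
          (F (x, σ x t + η', t) - e x * η' ^ 2) - k t := by ring
      rw [h6]
      have h7 := norm_sub_le (F (x, σ x t + η', t) - e x * η' ^ 2) (k t)
      linarith
  -- the critical point
  obtain ⟨hs, hs1, hs3⟩ := hσ' x1 (hball x1 hx1) t b3
  by_cases hη0 : ξ1 - σ x1 t = 0
  · have hξ : ξ1 = σ x1 t := sub_eq_zero.1 hη0
    simp only
    rw [hξ]
    exact hs3
  · exfalso
    set η : ℂ := ξ1 - σ x1 t with hη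
    have hξ : σ x1 t + η = ξ1 := by rw [hη]; ring
    have hηr : ‖η‖ < r := by
      have := norm_sub_le ξ1 (σ x1 t)
      rw [hr]
      linarith
    have hη2 : ‖η‖ ^ 2 ≠ 0 := pow_ne_zero 2 (norm_ne_zero_iff.2 hη0)
    have hcomp : ∀ x ∈ Metric.ball x0 a, HasDerivAt (fun x : ℂ => F (x, σ x t + η, t))
        (fderiv ℂ F (x, σ x t + η, t) (1, deriv (fun x => σ x t) x, 0)) x := by
      intro x hx
      have hxn : ‖x - x0‖ ≤ a := (mem_ball_iff_norm.1 hx).le
      have hsx := (hσ' x (hball x hx) t b3).1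
      have hs2 : ‖σ x t + η‖ ≤ a := by
        have := norm_add_le (σ x t) η
        rw [hr] at hηr
        linarith
      have h1 := (hFd _ (LemmaB_mem hxn hs2 b4.le)).hasFDerivAt
      have h2 : HasDerivAt (fun x => σ x t) (deriv (fun x => σ x t) x) x :=
        ((hσ t b3).differentiableAt (Metric.isOpen_ball.mem_nhds (hball x hx))).hasDerivAt
      have h3 : HasDerivAt (fun x : ℂ => ((x, σ x t + η, t) : ℂ × ℂ × ℂ))
          (1, deriv (fun x => σ x t) x, 0) x :=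
        (hasDerivAt_id x).prodMk ((h2.add_const η).prodMk (hasDerivAt_const x t))
      exact h1.comp_hasDerivAt x h3
    have hh : ∀ x ∈ Metric.ball x0 a, HasDerivAt
        (fun x : ℂ => (F (x, σ x t + η, t) - k t) / η ^ 2 - e x)
        (fderiv ℂ F (x, σ x t + η, t) (1, deriv (fun x => σ x t) x, 0) / η ^ 2 - deriv e x) x :=
      fun x hx => (((hcomp x hx).sub_const (k t)).div_const (η ^ 2)).sub (hed x hx).hasDerivAt
    have hder1 : deriv (fun x : ℂ => (F (x, σ x t + η, t) - k t) / η ^ 2 - e x) x1 =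
        -deriv e x1 := by
      rw [(hh x1 hx1).deriv, hξ]
      have e1 : ((1, deriv (fun x => σ x t) x1, 0) : ℂ × ℂ × ℂ) =
          (1, 0, 0) + deriv (fun x => σ x t) x1 • ((0, 1, 0) : ℂ × ℂ × ℂ) := by
        simp
      have e2 : fderiv ℂ F (x1, ξ1, t) (1, 0, 0) = 0 := hD1
      have e3 : fderiv ℂ F (x1, ξ1, t) (0, 1, 0) = 0 := hD2
      rw [e1, map_add, map_smul, e2, e3]
      simp
    have hbound : ∀ x ∈ Metric.ball x0 a,
        ‖(F (x, σ x t + η, t) - k t) / η ^ 2 - e x‖ ≤ c * a / 8 := by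
      intro x hx
      have h1 := hdz x hx η hηr
      have hη3 : η ^ 2 ≠ 0 := pow_ne_zero 2 hη0
      have h2 : (F (x, σ x t + η, t) - k t) / η ^ 2 - e x =
          (F (x, σ x t + η, t) - k t - e x * η ^ 2) / η ^ 2 := by
        field_simp
      rw [h2, norm_div, norm_pow, div_le_iff₀ (by positivity)]
      refine h1.trans (le_of_eq ?_)
      field_simp
    have hsub : Metric.closedBall x1 (a / 4) ⊆ Metric.ball x0 a := by
      intro x hx
      rw [mem_ball_iff_norm]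
      rw [mem_closedBall_iff_norm] at hx
      have h1 : x - x0 = (x - x1) + (x1 - x0) := by ring
      rw [h1]
      have h2 := norm_add_le (x - x1) (x1 - x0)
      linarith
    have hC := Complex.norm_deriv_le_of_forall_mem_sphere_norm_le (c := x1) (R := a / 4)
      (C := c * a / 8) (f := fun x : ℂ => (F (x, σ x t + η, t) - k t) / η ^ 2 - e x)
      (by positivity)
      (DifferentiableOn.diffContOnCl_ball (U := Metric.ball x0 a)
        (fun x hx => (hh x hx).differentiableAt.differentiableWithinAt) hsub)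
      (fun x hx => hbound x (hsub (Metric.sphere_subset_closedBall hx)))
    rw [hder1, norm_neg] at hC
    have h1 := hec x1 hx1
    have h2 : c * a / 8 / (a / 4) = c / 2 := by
      field_simp
      ring
    rw [h2] at hC
    linarith

theorem lemmaB {F : ℂ × ℂ × ℂ → ℂ} {x0 : ℂ} {e : ℂ → ℂ} (h : IsLoc F x0 e)
    (he0 : e x0 = 0) (he1 : deriv e x0 ≠ 0) {κ : ℕ → ℂ} {k : ℂ → ℂ} (hk : HasCoeffs k κ)
    (hf : ∀ᶠ y in 𝓝[≠] x0, ∀ n, ∃ B, Form F y κ n B) :
    ∀ᶠ z : ℂ × ℂ × ℂ in 𝓝 (x0, 0, 0), D1 F z = 0 → D2 F z = 0 → F z = k z.2.2 := by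
  obtain ⟨R, δ, M, hR, hδ, hM, σ, h1, h2⟩ := sum_root h he0 he1 hk hf
  exact crit_of_sum h he1 hR hδ hM h1 h2

end Pool.Agent.Lib.MP_d4bba2_ag
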