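import Pool.Agent.Lib.MP_d4bba2_ag.LocSysStep
import Pool.Agent.Lib.MP_d4bba2_ag.LemmaB

/-!
THE MAIN LOCAL THEOREM.  If Q is empty there is nothing to prove (k = 0).  Otherwise there is a regular point q0
(if q is special, simple_zero_ne and L.trans give regular points pt q y).
exists_kappa: by locsys_step, ∀ n, ∃ κ, AllAt L κ n (start: form_zero).  With form_coeff_uniq at q0 the κ's for
different n agree (for i < n), so κ i := κ^{(i+1)} i satisfies AllAt L κ n for all n (form_congr).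
(Alternatively define κ by recursion.)
Then all_forms at q0 gives k with HasCoeffs k κ.  For q regular: all_forms at q gives k_q, equal to k near 0
(coeffs_unique), and the last statement of all_forms.  For q special: near_forms_all and simple_zero_ne give the
hypothesis of lemmaB.
-/

open scoped Topology
open Filter

noncomputable section

namespace Pool.Agent.Lib.MP_d4bba2_ag

/-- a regular point exists as soon as `Q` is not empty -/
private theorem LocSysMain_regular (L : LocSys) (q : L.Q) : ∃ q0, L.e q0 (L.x q0) ≠ 0 := by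
  have h1 := simple_zero_ne (L.loc q).ean (L.ne q)
  have h2 : ∀ᶠ y in 𝓝[≠] (L.x q), L.e q y ≠ 0 →
      L.e (L.pt q y) (L.x (L.pt q y)) ≠ 0 ∧ ∃ T, Trans (L.F (L.pt q y)) (L.x (L.pt q y)) (L.F q) y T :=
    (L.trans q).filter_mono nhdsWithin_le_nhds
  obtain ⟨y, hy1, hy2⟩ := (h1.and h2).exists
  exact ⟨L.pt q y, (hy2 hy1).1⟩

private theorem LocSysMain_all (L : LocSys) : ∀ n, ∃ κ : ℕ → ℂ, AllAt L κ n := by
  intro n
  induction n with
  | zero => exact ⟨0, fun q hq => form_zero (L.loc q) hq 0⟩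
  | succ n ih =>
    obtain ⟨κ, hκ⟩ := ih
    obtain ⟨c, hc⟩ := locsys_step L hκ
    exact ⟨Function.update κ n c, hc⟩

theorem exists_kappa (L : LocSys) : ∃ κ : ℕ → ℂ, ∀ n, AllAt L κ n := by
  by_cases hreg : ∃ q0, L.e q0 (L.x q0) ≠ 0
  · obtain ⟨q0, hq0⟩ := hreg
    choose κs hκs using LocSysMain_all L
    refine ⟨fun i => κs (i + 1) i, fun n q hq => ?_⟩
    obtain ⟨B, hB⟩ := hκs n q hq
    refine ⟨B, form_congr ?_ hB⟩
    intro i hi
    show κs n i = κs (i + 1) i
    obtain ⟨B1, hB1⟩ := hκs n q0 hq0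
    obtain ⟨B2, hB2⟩ := hκs (i + 1) q0 hq0
    rcases Nat.lt_or_ge (i + 1) n with h | h
    · obtain ⟨B3, hB3, -⟩ := form_trunc hB1 h
      exact form_coeff_uniq (L.loc q0) hq0 hB3 hB2 i (Nat.lt_succ_self i)
    · have hn : n = i + 1 := by omega
      rw [hn] at hB1 ⊢
  · refine ⟨0, fun n q hq => ?_⟩
    exact absurd ⟨q, hq⟩ hreg

theorem locsys_main (L : LocSys) :
    ∃ k : ℂ → ℂ, ∀ q, ∀ᶠ z : ℂ × ℂ × ℂ in 𝓝 (L.x q, 0, 0),
      D1 (L.F q) z = 0 → D2 (L.F q) z = 0 → L.F q z = k z.2.2 := by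
  by_cases hne : Nonempty L.Q
  · obtain ⟨q1⟩ := hne
    obtain ⟨q0, hq0⟩ := LocSysMain_regular L q1
    obtain ⟨κ, hκ⟩ := exists_kappa L
    obtain ⟨k, hk, -, -⟩ := all_forms (L.loc q0) hq0 fun n => hκ n q0 hq0
    refine ⟨k, fun q => ?_⟩
    by_cases hq : L.e q (L.x q) = 0
    · have hd : deriv (L.e q) (L.x q) ≠ 0 := by
        rcases L.ne q with h | h
        · exact absurd hq h
        · exact h
      refine lemmaB (L.loc q) hq hd hk ?_
      have h1 := simple_zero_ne (L.loc q).ean (L.ne q)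
      have h2 : ∀ᶠ y in 𝓝[≠] (L.x q), L.e q y ≠ 0 → ∀ n, ∃ B, Form (L.F q) y κ n B :=
        (near_forms_all L hκ q).filter_mono nhdsWithin_le_nhds
      filter_upwards [h1, h2] with y a b
      exact b a
    · obtain ⟨k', hk', -, h3⟩ := all_forms (L.loc q) hq fun n => hκ n q hq
      have h4 := coeffs_unique hk' hk
      have hc : ContinuousAt (fun z : ℂ × ℂ × ℂ => z.2.2) (L.x q, 0, 0) := by fun_prop
      have h5 : ∀ᶠ z : ℂ × ℂ × ℂ in 𝓝 (L.x q, 0, 0), k' z.2.2 = k z.2.2 :=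
        hc.eventually h4
      filter_upwards [h3, h5] with z a b _ hd2
      rw [a hd2, b]
  · exact ⟨fun _ => 0, fun q => absurd ⟨q⟩ hne⟩

end Pool.Agent.Lib.MP_d4bba2_ag
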