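import Pool.Agent.Lib.MP_d4bba2_ag.TransAd
import Pool.Agent.Lib.MP_d4bba2_ag.LocSysMain

/-!
THE LocSys OF A FAMILY AND THE CONCLUSION.

Let βi be from beta_inv and for every critical q let Λ q, Λ' q be from adapted_exists with κ q = K.κ q.
LocSys: Q = {q : G.S // G.Crit q}, x q = (K.κ q q).1, F q = locF F βi (Λ q), e q = K.e q,
pt q y = if h : G.Crit ((K.κ q).symm (y,0)) then ⟨_, h⟩ else q.
 loc: locF_an (the base point is (x q, 0, 0) by snd_zero), K.e_an, locF_base with K.eq.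
 ne: K.ne.  pt_self: (K.κ q).symm (x q, 0) = (K.κ q).symm (K.κ q q) = q.
 trans: crit_near, regular_near, trans_adapted with κ' = K.κ q', M = Λ q', M' = Λ' q', q' = (K.κ q).symm (y,0).
 rigid: given a on Q, extend by 0 to G.S; for y near x q, a (pt q y) = the extension at (K.κ q).symm (y,0) (crit_near); K.Rigid.
locsys_main gives k.  For w near j q: w = Λ (Λ' w), z = Λ' w near (x q,0,0), Φ w = (β (F q z), z.2.2) (locF_phi); if
mfderiv Φ w is not surjective then D1 = D2 = 0 at z (sing_crit), so F q z = k z.2.2, hence (Φ w).1 = β (k (Φ w).2).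
-/

open scoped Manifold ContDiff Topology
open Filter

noncomputable section

universe u

namespace Pool.Agent.Lib.MP_d4bba2_ag

/-- the base point of the coordinates -/
theorem famLocSys_pt {G : FibreGerm} (K : CoreData G) {q : G.S} (hq : G.Crit q) :
    K.κ q q = ((K.κ q q).1, (0 : ℂ)) := Prod.ext rfl (K.snd_zero q hq)

theorem famLocSys_symm {G : FibreGerm} (K : CoreData G) {q : G.S} (hq : G.Crit q) :
    (K.κ q).symm ((K.κ q q).1, (0 : ℂ)) = q := by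
  rw [← famLocSys_pt K hq]
  exact (K.κ q).left_inv (K.mem_source q hq)

open Classical in
/-- the point of the critical curve with coordinate `y` -/
def famPt {G : FibreGerm} (K : CoreData G) (q : {q : G.S // G.Crit q}) (y : ℂ) :
    {q : G.S // G.Crit q} :=
  if h : G.Crit ((K.κ q.1).symm (y, 0)) then ⟨(K.κ q.1).symm (y, 0), h⟩ else q

theorem famPt_of {G : FibreGerm} (K : CoreData G) (q : {q : G.S // G.Crit q}) {y : ℂ}
    (h : G.Crit ((K.κ q.1).symm (y, 0))) : famPt K q y = ⟨(K.κ q.1).symm (y, 0), h⟩ := by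
  unfold famPt
  rw [dif_pos h]

open Classical in
/-- extension by zero -/
def famExt {G : FibreGerm} (a : {q : G.S // G.Crit q} → ℂ) (q : G.S) : ℂ :=
  if h : G.Crit q then a ⟨q, h⟩ else 0

theorem famExt_of {G : FibreGerm} (a : {q : G.S // G.Crit q} → ℂ) {q : G.S}
    (h : G.Crit q) : famExt a q = a ⟨q, h⟩ := by
  unfold famExt
  rw [dif_pos h]

/-- the extension at the points near `q` -/
theorem famExt_near {G : FibreGerm} (K : CoreData G) (a : {q : G.S // G.Crit q} → ℂ)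
    (q : {q : G.S // G.Crit q}) :
    ∀ᶠ y in 𝓝 (K.κ q.1 q.1).1, famExt a ((K.κ q.1).symm (y, 0)) = a (famPt K q y) := by
  filter_upwards [crit_near K q.2] with y hy
  rw [famExt_of a hy.2, famPt_of K q hy.2]

theorem fam_loc {G : FibreGerm} (K : CoreData G) (F : SplittingFamily.{u} G) {βi : ℂ → ℂ}
    (hβ : BetaInv F βi) {q : G.S} (hq : G.Crit q) {Λ : ℂ × ℂ × ℂ → F.X} {Λ' : F.X → ℂ × ℂ × ℂ}
    (hA : Adapted F q (K.κ q) Λ Λ') : IsLoc (locF F βi Λ) (K.κ q q).1 (K.e q) where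
  an := by
    have h := locF_an hq.zero hA hβ
    rwa [K.snd_zero q hq] at h
  ean := K.e_an q hq
  eq := by
    have h1 := locF_base hq.zero (K.mem_source q hq) hA hβ
    have h2 := K.eq q hq
    rw [famLocSys_pt K hq] at h1 h2
    filter_upwards [h1, h2] with p a b
    rw [a, b]

theorem fam_trans {G : FibreGerm} (K : CoreData G) (F : SplittingFamily.{u} G)
    (βi : ℂ → ℂ) {Λ : {q : G.S // G.Crit q} → ℂ × ℂ × ℂ → F.X}
    {Λ' : {q : G.S // G.Crit q} → F.X → ℂ × ℂ × ℂ}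
    (hA : ∀ q : {q : G.S // G.Crit q}, Adapted F q.1 (K.κ q.1) (Λ q) (Λ' q))
    (q : {q : G.S // G.Crit q}) : ∀ᶠ y in 𝓝 (K.κ q.1 q.1).1, K.e q.1 y ≠ 0 →
      K.e (famPt K q y).1 (K.κ (famPt K q y).1 (famPt K q y).1).1 ≠ 0 ∧
      ∃ T, Trans (locF F βi (Λ (famPt K q y))) (K.κ (famPt K q y).1 (famPt K q y).1).1
        (locF F βi (Λ q)) y T := by
  filter_upwards [crit_near K q.2, regular_near K q.2,
    trans_adapted q.2.zero (K.mem_source q.1 q.2) (K.snd_zero q.1 q.2) (hA q) βi]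
    with y h1 h2 h3 he
  rw [famPt_of K q h1.2]
  exact ⟨h2 he, _, h3 (K.κ _) (Λ ⟨_, h1.2⟩) (Λ' ⟨_, h1.2⟩) (K.snd_zero _ h1.2)
    (hA ⟨_, h1.2⟩)⟩

theorem fam_rigid {G : FibreGerm} (K : CoreData G) (hK : K.Rigid)
    (a : {q : G.S // G.Crit q} → ℂ)
    (h1 : ∀ q : {q : G.S // G.Crit q}, K.e q.1 (K.κ q.1 q.1).1 ≠ 0 →
      ∃ g, AnalyticAt ℂ g (K.κ q.1 q.1).1 ∧ ∀ᶠ y in 𝓝 (K.κ q.1 q.1).1, a (famPt K q y) = g y)
    (h2 : ∀ q : {q : G.S // G.Crit q}, K.e q.1 (K.κ q.1 q.1).1 = 0 →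
      ∃ g, AnalyticAt ℂ g (K.κ q.1 q.1).1 ∧
        ∀ᶠ y in 𝓝[≠] (K.κ q.1 q.1).1, K.e q.1 y * a (famPt K q y) = g y) :
    ∃ c, ∀ q : {q : G.S // G.Crit q}, K.e q.1 (K.κ q.1 q.1).1 ≠ 0 → a q = c := by
  obtain ⟨c, hc⟩ := hK (famExt a) (fun q hq he => by
    obtain ⟨g, hg, h⟩ := h1 ⟨q, hq⟩ he
    refine ⟨g, hg, ?_⟩
    filter_upwards [h, famExt_near K a ⟨q, hq⟩] with y b1 b2
    rw [b2, b1]) (fun q hq he => by
    obtain ⟨g, hg, h⟩ := h2 ⟨q, hq⟩ he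
    refine ⟨g, hg, ?_⟩
    filter_upwards [h, (famExt_near K a ⟨q, hq⟩).filter_mono nhdsWithin_le_nhds] with y b1 b2
    rw [b2, b1])
  refine ⟨c, fun q hq => ?_⟩
  rw [← hc q.1 q.2 hq, famExt_of a q.2]

theorem family_k {G : FibreGerm} (K : CoreData G) (hK : K.Rigid) (F : SplittingFamily.{u} G) :
    ∃ k : ℂ → ℂ, ∀ q, G.Crit q → ∀ᶠ w in 𝓝 (F.j q),
      ¬ Function.Surjective (mfderiv 𝓘(ℂ, ℂ × ℂ × ℂ) 𝓘(ℂ, ℂ × ℂ) F.Φ w) →
        (F.Φ w).1 = F.β (k (F.Φ w).2) := by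
  obtain ⟨βi, hβ⟩ := beta_inv F
  choose Λ Λ' hA using fun q : {q : G.S // G.Crit q} =>
    adapted_exists F q.2.zero (K.mem_atlas q.1 q.2) (K.mem_source q.1 q.2)
  let L : LocSys :=
    { Q := {q : G.S // G.Crit q}
      F := fun q => locF F βi (Λ q)
      e := fun q => K.e q.1
      x := fun q => (K.κ q.1 q.1).1
      pt := famPt K
      loc := fun q => fam_loc K F hβ q.2 (hA q)
      ne := fun q => K.ne q.1 q.2
      pt_self := fun q => by
        have h : G.Crit ((K.κ q.1).symm ((K.κ q.1 q.1).1, 0)) := by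
          rw [famLocSys_symm K q.2]
          exact q.2
        rw [famPt_of K q h]
        exact Subtype.ext (famLocSys_symm K q.2)
      trans := fam_trans K F βi hA
      rigid := fam_rigid K hK }
  obtain ⟨k, hk⟩ := locsys_main L
  refine ⟨k, fun q hq => ?_⟩
  have hz0 := hq.zero
  have h1 := locF_phi hz0 (hA ⟨q, hq⟩) hβ
  have h2 := sing_crit hz0 (hA ⟨q, hq⟩) hβ
  have h3 : ∀ᶠ z : ℂ × ℂ × ℂ in 𝓝 ((K.κ q q).1, (K.κ q q).2, 0),
      D1 (locF F βi (Λ ⟨q, hq⟩)) z = 0 → D2 (locF F βi (Λ ⟨q, hq⟩)) z = 0 →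
        locF F βi (Λ ⟨q, hq⟩) z = k z.2.2 := by
    rw [K.snd_zero q hq]
    exact hk ⟨q, hq⟩
  have hT : Tendsto (Λ' ⟨q, hq⟩) (𝓝 (F.j q)) (𝓝 ((K.κ q q).1, (K.κ q q).2, 0)) := by
    have h := (hA ⟨q, hq⟩).an'.continuousAt
    have h' : Tendsto (Λ' ⟨q, hq⟩) (𝓝 (F.j q)) (𝓝 (Λ' ⟨q, hq⟩ (F.j q))) := h
    rwa [(hA ⟨q, hq⟩).pt'] at h'
  filter_upwards [(hA ⟨q, hq⟩).right, hT.eventually h1, hT.eventually h2, hT.eventually h3]
    with w b0 b1 b2 b3 hs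
  rw [b0] at b1 b2
  obtain ⟨d1, d2⟩ := b2 hs
  rw [b1, b3 d1 d2]

end Pool.Agent.Lib.MP_d4bba2_ag
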