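import Pool.Agent.Lib.MP_d4bba2_ag.LocSysMain

/-!
Critical points exist for all small `t`: the points of the curve `ξ = ρ (x, t)`.
-/

open scoped Topology
open Filter

noncomputable section

namespace Pool.Agent.Lib.MP_d4bba2_ag

theorem root_crit {F : ℂ × ℂ × ℂ → ℂ} {x0 : ℂ} {e : ℂ → ℂ} (h : IsLoc F x0 e) {ρ : ℂ × ℂ → ℂ}
    (hρ : RootAt F x0 ρ) {k : ℂ → ℂ}
    (hk : ∀ᶠ p : ℂ × ℂ in 𝓝 (x0, 0), F (p.1, ρ p, p.2) = k p.2) :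
    ∀ᶠ t in 𝓝 (0 : ℂ), D1 F (x0, ρ (x0, t), t) = 0 ∧ D2 F (x0, ρ (x0, t), t) = 0 ∧
      F (x0, ρ (x0, t), t) = k t := by
  have hρ0 : ρ (x0, 0) = 0 := hρ.zero.self_of_nhds
  have hc1 : ContinuousAt (fun t : ℂ => ((x0, t) : ℂ × ℂ)) 0 := by fun_prop
  have hρc : ContinuousAt (fun t : ℂ => ρ (x0, t)) 0 :=
    ContinuousAt.comp (g := ρ) (f := fun t : ℂ => ((x0, t) : ℂ × ℂ)) hρ.an.continuousAt hc1
  have hc2 : ContinuousAt (fun t : ℂ => ((x0, ρ (x0, t), t) : ℂ × ℂ × ℂ)) 0 :=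
    continuousAt_const.prodMk (hρc.prodMk continuousAt_id)
  have e1 : ∀ᶠ t in 𝓝 (0 : ℂ), AnalyticAt ℂ ρ (x0, t) :=
    hc1.eventually hρ.an.eventually_analyticAt
  have e2 : ∀ᶠ t in 𝓝 (0 : ℂ), AnalyticAt ℂ F (x0, ρ (x0, t), t) := by
    have : ∀ᶠ z in 𝓝 ((x0, ρ (x0, 0), 0) : ℂ × ℂ × ℂ), AnalyticAt ℂ F z := by
      rw [hρ0]
      exact h.an.eventually_analyticAt
    exact hc2.eventually this
  have e3 : ∀ᶠ t in 𝓝 (0 : ℂ), ∀ᶠ p : ℂ × ℂ in 𝓝 (x0, t), F (p.1, ρ p, p.2) = k p.2 :=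
    hc1.eventually (eventually_eventually_nhds.2 hk)
  have e4 : ∀ᶠ t in 𝓝 (0 : ℂ), D2 F (x0, ρ (x0, t), t) = 0 := hc1.eventually hρ.root
  filter_upwards [e1, e2, e3, e4] with t a1 a2 a3 a4
  have hx : ContinuousAt (fun x : ℂ => ((x, t) : ℂ × ℂ)) x0 := by fun_prop
  have b1 : ∀ᶠ x in 𝓝 x0, F (x, ρ (x, t), t) = k t := hx.eventually a3
  have hl : HasDerivAt (fun x : ℂ => ((x, t) : ℂ × ℂ)) (1, 0) x0 :=
    (hasDerivAt_id x0).prodMk (hasDerivAt_const x0 t)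
  have hr : HasDerivAt (fun x : ℂ => ρ (x, t)) (fderiv ℂ ρ (x0, t) (1, 0)) x0 :=
    (a1.differentiableAt.hasFDerivAt).comp_hasDerivAt x0 hl
  have hz : HasDerivAt (fun x : ℂ => ((x, ρ (x, t), t) : ℂ × ℂ × ℂ))
      (1, fderiv ℂ ρ (x0, t) (1, 0), 0) x0 :=
    (hasDerivAt_id x0).prodMk (hr.prodMk (hasDerivAt_const x0 t))
  have hF : HasDerivAt (fun x : ℂ => F (x, ρ (x, t), t))
      (fderiv ℂ F (x0, ρ (x0, t), t) (1, fderiv ℂ ρ (x0, t) (1, 0), 0)) x0 :=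
    (a2.differentiableAt.hasFDerivAt).comp_hasDerivAt x0 hz
  have hz0 : fderiv ℂ F (x0, ρ (x0, t), t) (1, fderiv ℂ ρ (x0, t) (1, 0), 0) = 0 := by
    have h0 : HasDerivAt (fun x : ℂ => F (x, ρ (x, t), t)) 0 x0 :=
      (hasDerivAt_const x0 (k t)).congr_of_eventuallyEq b1
    exact hF.unique h0
  have hsplit : ((1, fderiv ℂ ρ (x0, t) (1, 0), 0) : ℂ × ℂ × ℂ) =
      (1, 0, 0) + (fderiv ℂ ρ (x0, t) (1, 0)) • ((0, 1, 0) : ℂ × ℂ × ℂ) := by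
    simp
  rw [hsplit, map_add, map_smul] at hz0
  refine ⟨?_, a4, ?_⟩
  · have h2 : fderiv ℂ F (x0, ρ (x0, t), t) (0, 1, 0) = 0 := a4
    rw [h2, smul_zero, add_zero] at hz0
    exact hz0
  · exact a3.self_of_nhds

/-- a critical curve with critical value `k` over all small `t` -/
theorem locsys_root (L : LocSys) (hne : Nonempty L.Q) :
    ∃ k : ℂ → ℂ, ContinuousAt k 0 ∧ k 0 = 0 ∧ ∃ (q : L.Q) (ξ : ℂ → ℂ), ContinuousAt ξ 0 ∧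
      ξ 0 = 0 ∧ ∀ᶠ t in 𝓝 (0 : ℂ), D1 (L.F q) (L.x q, ξ t, t) = 0 ∧
        D2 (L.F q) (L.x q, ξ t, t) = 0 ∧ L.F q (L.x q, ξ t, t) = k t := by
  obtain ⟨q1⟩ := hne
  have hreg : ∃ q0, L.e q0 (L.x q0) ≠ 0 := by
    have h1 := simple_zero_ne (L.loc q1).ean (L.ne q1)
    have h2 : ∀ᶠ y in 𝓝[≠] (L.x q1), L.e q1 y ≠ 0 →
        L.e (L.pt q1 y) (L.x (L.pt q1 y)) ≠ 0 ∧
          ∃ T, Trans (L.F (L.pt q1 y)) (L.x (L.pt q1 y)) (L.F q1) y T :=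
      (L.trans q1).filter_mono nhdsWithin_le_nhds
    obtain ⟨y, hy1, hy2⟩ := (h1.and h2).exists
    exact ⟨L.pt q1 y, (hy2 hy1).1⟩
  obtain ⟨q0, hq0⟩ := hreg
  obtain ⟨κ, hκ⟩ := exists_kappa L
  obtain ⟨k, hk, hk2, -⟩ := all_forms (L.loc q0) hq0 fun n => hκ n q0 hq0
  obtain ⟨ρ, hρ, -⟩ := root_exists (L.loc q0) hq0
  have h3 := root_crit (L.loc q0) hρ (hk2 ρ hρ)
  have hρ0 : ρ (L.x q0, 0) = 0 := hρ.zero.self_of_nhds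
  have hc1 : ContinuousAt (fun t : ℂ => ((L.x q0, t) : ℂ × ℂ)) 0 := by fun_prop
  refine ⟨k, hk.an.continuousAt, ?_, q0, fun t => ρ (L.x q0, t), ?_, hρ0, h3⟩
  · have h4 := (hk2 ρ hρ).self_of_nhds
    have h5 := (L.loc q0).eq.self_of_nhds
    simp only [hρ0] at h4
    rw [← h4, h5]
    ring
  · exact ContinuousAt.comp (g := ρ) (f := fun t : ℂ => ((L.x q0, t) : ℂ × ℂ))
      hρ.an.continuousAt hc1

end Pool.Agent.Lib.MP_d4bba2_ag
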