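import Pool.Agent.Lib.MP_d4bba2_ag.AtomicOfCore
import Pool.Agent.Lib.MP_d4bba2_ag.RootCrit

/-!
For all small `t` there is a singular fibre, so there is exactly one near the central fibre.
-/

open scoped Manifold ContDiff Topology
open Filter

noncomputable section

universe u

namespace Pool.Agent.Lib.MP_d4bba2_ag

theorem famSing_surj (T : (ℂ × ℂ × ℂ) →L[ℂ] (ℂ × ℂ × ℂ)) (h : Function.Injective T) :
    Function.Surjective T := by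
  have h' : Function.Injective T.toLinearMap := h
  exact LinearMap.injective_iff_surjective.1 h'

/-- the converse of `sing_crit` -/
theorem crit_sing {G : FibreGerm} {F : SplittingFamily.{u} G} {q : G.S} (hq : G.f q = 0)
    {κ : OpenPartialHomeomorph G.S (ℂ × ℂ)}
    {Λ : ℂ × ℂ × ℂ → F.X} {Λ' : F.X → ℂ × ℂ × ℂ} (hA : Adapted F q κ Λ Λ') {βi : ℂ → ℂ}
    (hβ : BetaInv F βi) :
    ∀ᶠ z : ℂ × ℂ × ℂ in 𝓝 ((κ q).1, (κ q).2, 0),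
      D1 (locF F βi Λ) z = 0 → D2 (locF F βi Λ) z = 0 →
        ¬ Function.Surjective (mfderiv 𝓘(ℂ, ℂ × ℂ × ℂ) 𝓘(ℂ, ℂ × ℂ) F.Φ (Λ z)) := by
  have hF := locF_an hq hA hβ
  have hεm : q ∈ G.f ⁻¹' Metric.ball 0 F.ε := by
    rw [Set.mem_preimage, hq]
    exact Metric.mem_ball_self F.ε_pos
  have h0 : locF F βi Λ ((κ q).1, (κ q).2, 0) = 0 := by
    show βi (F.Φ (Λ ((κ q).1, (κ q).2, 0))).1 = 0
    rw [hA.pt, F.Φ_j q hεm, hq, F.β_zero]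
    exact hβ.zero
  have hc : Tendsto (locF F βi Λ) (𝓝 ((κ q).1, (κ q).2, (0 : ℂ))) (𝓝 0) := by
    have := hF.continuousAt.tendsto
    rw [h0] at this
    exact this
  have hbeta : ∀ᶠ b in 𝓝 (0 : ℂ), DifferentiableAt ℂ F.β b := by
    have h0 : AnalyticAt ℂ F.β 0 := F.β_holo 0 (Metric.mem_ball_self F.ε_pos)
    filter_upwards [h0.eventually_analyticAt] with b hb
    exact hb.differentiableAt
  have hΛ := (contMDiffAt_iff_contMDiffAt_nhds (by simp)).1 hA.an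
  have hcΛ : Tendsto Λ (𝓝 ((κ q).1, (κ q).2, (0 : ℂ))) (𝓝 (F.j q)) := by
    have := hA.an.continuousAt.tendsto
    rw [hA.pt] at this
    exact this
  have hΛ' := hcΛ.eventually ((contMDiffAt_iff_contMDiffAt_nhds (by simp)).1 hA.an')
  filter_upwards [eventually_eventually_nhds.2 (locF_phi hq hA hβ), hF.eventually_analyticAt,
    hc.eventually hbeta, hΛ, hΛ', eventually_eventually_nhds.2 hA.left]
    with z h1 h2 h3 h4 h4' h6 hd1 hd2 hs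
  have hL : MDifferentiableAt 𝓘(ℂ, ℂ × ℂ × ℂ) 𝓘(ℂ, ℂ × ℂ) F.Φ (Λ z) :=
    (F.holo (Λ z)).mdifferentiableAt (by simp)
  have hM : MDifferentiableAt 𝓘(ℂ, ℂ × ℂ × ℂ) 𝓘(ℂ, ℂ × ℂ × ℂ) Λ z :=
    h4.mdifferentiableAt (by simp)
  have hM' : MDifferentiableAt 𝓘(ℂ, ℂ × ℂ × ℂ) 𝓘(ℂ, ℂ × ℂ × ℂ) Λ' (Λ z) :=
    h4'.mdifferentiableAt (by simp)
  have e1 : mfderiv 𝓘(ℂ, ℂ × ℂ × ℂ) 𝓘(ℂ, ℂ × ℂ) (F.Φ ∘ Λ) z =
      (mfderiv 𝓘(ℂ, ℂ × ℂ × ℂ) 𝓘(ℂ, ℂ × ℂ) F.Φ (Λ z)).comp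
        (mfderiv 𝓘(ℂ, ℂ × ℂ × ℂ) 𝓘(ℂ, ℂ × ℂ × ℂ) Λ z) := mfderiv_comp z hL hM
  have e1' : mfderiv 𝓘(ℂ, ℂ × ℂ × ℂ) 𝓘(ℂ, ℂ × ℂ × ℂ) (Λ' ∘ Λ) z =
      (mfderiv 𝓘(ℂ, ℂ × ℂ × ℂ) 𝓘(ℂ, ℂ × ℂ × ℂ) Λ' (Λ z)).comp
        (mfderiv 𝓘(ℂ, ℂ × ℂ × ℂ) 𝓘(ℂ, ℂ × ℂ × ℂ) Λ z) := mfderiv_comp z hM' hM
  rw [mfderiv_eq_fderiv] at e1 e1'
  have e2' : fderiv ℂ (Λ' ∘ Λ) z = fderiv ℂ (fun w : ℂ × ℂ × ℂ => w) z :=
    Filter.EventuallyEq.fderiv_eq h6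
  rw [e2', fderiv_fun_id] at e1'
  have hinj : Function.Injective (mfderiv 𝓘(ℂ, ℂ × ℂ × ℂ) 𝓘(ℂ, ℂ × ℂ × ℂ) Λ z) := by
    intro a b hab
    have ha := congrArg (fun T : (ℂ × ℂ × ℂ) →L[ℂ] (ℂ × ℂ × ℂ) => T a) e1'
    have hb := congrArg (fun T : (ℂ × ℂ × ℂ) →L[ℂ] (ℂ × ℂ × ℂ) => T b) e1'
    have ha' : a = mfderiv 𝓘(ℂ, ℂ × ℂ × ℂ) 𝓘(ℂ, ℂ × ℂ × ℂ) Λ' (Λ z)
      (mfderiv 𝓘(ℂ, ℂ × ℂ × ℂ) 𝓘(ℂ, ℂ × ℂ × ℂ) Λ z a) := ha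
    have hb' : b = mfderiv 𝓘(ℂ, ℂ × ℂ × ℂ) 𝓘(ℂ, ℂ × ℂ × ℂ) Λ' (Λ z)
      (mfderiv 𝓘(ℂ, ℂ × ℂ × ℂ) 𝓘(ℂ, ℂ × ℂ × ℂ) Λ z b) := hb
    rw [ha', hb', hab]
  have hsurj : Function.Surjective (mfderiv 𝓘(ℂ, ℂ × ℂ × ℂ) 𝓘(ℂ, ℂ × ℂ × ℂ) Λ z) :=
    famSing_surj (mfderiv 𝓘(ℂ, ℂ × ℂ × ℂ) 𝓘(ℂ, ℂ × ℂ × ℂ) Λ z) hinj
  have e2 : fderiv ℂ (F.Φ ∘ Λ) z = fderiv ℂ (fun w : ℂ × ℂ × ℂ =>
      (F.β (locF F βi Λ w), w.2.2)) z := Filter.EventuallyEq.fderiv_eq h1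
  have e3 : HasFDerivAt (fun w : ℂ × ℂ × ℂ => (F.β (locF F βi Λ w), w.2.2))
      ((deriv F.β (locF F βi Λ z) • fderiv ℂ (locF F βi Λ) z).prod
        ((ContinuousLinearMap.snd ℂ ℂ ℂ).comp (ContinuousLinearMap.snd ℂ ℂ (ℂ × ℂ)))) z := by
    refine HasFDerivAt.prodMk ?_ ?_
    · exact h3.hasDerivAt.comp_hasFDerivAt z h2.differentiableAt.hasFDerivAt
    · exact ((ContinuousLinearMap.snd ℂ ℂ ℂ).comp
        (ContinuousLinearMap.snd ℂ ℂ (ℂ × ℂ))).hasFDerivAt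
  rw [e2, e3.fderiv] at e1
  obtain ⟨w, hw⟩ := hs (((1 : ℂ), (0 : ℂ)) : ℂ × ℂ)
  obtain ⟨v, rfl⟩ := hsurj w
  have hv : ((deriv F.β (locF F βi Λ z) • fderiv ℂ (locF F βi Λ) z).prod
        ((ContinuousLinearMap.snd ℂ ℂ ℂ).comp (ContinuousLinearMap.snd ℂ ℂ (ℂ × ℂ)))) v =
      (((1 : ℂ), (0 : ℂ)) : ℂ × ℂ) := by
    rw [← hw]
    exact congrArg (fun T : (ℂ × ℂ × ℂ) →L[ℂ] (ℂ × ℂ) => T v) e1
  have hv2 : (v : ℂ × ℂ × ℂ).2.2 = 0 := congrArg Prod.snd hv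
  have hv1 : deriv F.β (locF F βi Λ z) * fderiv ℂ (locF F βi Λ) z v = 1 := congrArg Prod.fst hv
  have hsplit : (v : ℂ × ℂ × ℂ) = (v : ℂ × ℂ × ℂ).1 • ((1, 0, 0) : ℂ × ℂ × ℂ) +
      (v : ℂ × ℂ × ℂ).2.1 • ((0, 1, 0) : ℂ × ℂ × ℂ) := by
    refine Prod.ext ?_ (Prod.ext ?_ ?_)
    · simp
    · simp
    · simp [hv2]
  have hz : fderiv ℂ (locF F βi Λ) z (v : ℂ × ℂ × ℂ) = 0 := by
    rw [hsplit, map_add, map_smul, map_smul]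
    have g1 : fderiv ℂ (locF F βi Λ) z (1, 0, 0) = 0 := hd1
    have g2 : fderiv ℂ (locF F βi Λ) z (0, 1, 0) = 0 := hd2
    rw [g1, g2]
    simp
  rw [hz, mul_zero] at hv1
  exact zero_ne_one hv1

theorem family_sing {G : FibreGerm} (K : CoreData G) (hK : K.Rigid) (F : SplittingFamily.{u} G)
    (hne : ∃ q, G.Crit q) :
    ∃ b : ℂ → ℂ, ContinuousAt b 0 ∧ b 0 = 0 ∧ ∀ᶠ t in 𝓝 (0 : ℂ), F.Singular (b t, t) := by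
  obtain ⟨βi, hβ⟩ := beta_inv F
  choose Λ Λ' hA using fun q : {q : G.S // G.Crit q} =>
    adapted_exists F q.2.zero (K.mem_atlas q.1 q.2) (K.mem_source q.1 q.2)
  let L : LocSys :=
    { Q := {q : G.S // G.Crit q}
      F := fun q => locF F βi (Λ q)
      e := fun q => K.e q.1
      x := fun q => (K.κ q.1 q.1).1
      pt := famPt K
      loc := fun q => fam_loc K F hβ q.2 (hA q)
      ne := fun q => K.ne q.1 q.2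
      pt_self := fun q => by
        have h : G.Crit ((K.κ q.1).symm ((K.κ q.1 q.1).1, 0)) := by
          rw [famLocSys_symm K q.2]
          exact q.2
        rw [famPt_of K q h]
        exact Subtype.ext (famLocSys_symm K q.2)
      trans := fam_trans K F βi hA
      rigid := fam_rigid K hK }
  obtain ⟨q1, hq1⟩ := hne
  obtain ⟨k, hk, hk0, q, ξ, hξ, hξ0, hcr⟩ := locsys_root L ⟨⟨q1, hq1⟩⟩
  have hz0 := q.2.zero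
  have hb0 : ContinuousAt F.β 0 :=
    (F.β_holo 0 (Metric.mem_ball_self F.ε_pos)).continuousAt
  refine ⟨fun t => F.β (k t), ?_, ?_, ?_⟩
  · refine ContinuousAt.comp (g := F.β) (f := k) ?_ hk
    rw [hk0]
    exact hb0
  · show F.β (k 0) = 0
    rw [hk0, F.β_zero]
  · have h1 := locF_phi hz0 (hA q) hβ
    have h2 := crit_sing hz0 (hA q) hβ
    have hc : Tendsto (fun t : ℂ => (((K.κ q.1 q.1).1, ξ t, t) : ℂ × ℂ × ℂ)) (𝓝 0)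
        (𝓝 ((K.κ q.1 q.1).1, (K.κ q.1 q.1).2, (0 : ℂ))) := by
      have hc2 : ContinuousAt (fun t : ℂ => (((K.κ q.1 q.1).1, ξ t, t) : ℂ × ℂ × ℂ)) 0 :=
        continuousAt_const.prodMk (hξ.prodMk continuousAt_id)
      have := hc2.tendsto
      rw [hξ0] at this
      rw [K.snd_zero q.1 q.2]
      exact this
    filter_upwards [hcr, hc.eventually h1, hc.eventually h2] with t a1 a2 a3
    refine ⟨Λ q ((K.κ q.1 q.1).1, ξ t, t), ?_, a3 a1.1 a1.2.1⟩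
    rw [a2]
    have : locF F βi (Λ q) ((K.κ q.1 q.1).1, ξ t, t) = k t := a1.2.2
    rw [this]

/-- near the central fibre every `f_t` has exactly one singular fibre -/
theorem exactly_one {G : FibreGerm} (K : CoreData G) (hK : K.Rigid) (F : SplittingFamily.{u} G)
    (hne : ∃ q, G.Crit q) :
    ∃ δ₀ : ℝ, 0 < δ₀ ∧ ∀ δ : ℝ, 0 < δ → δ ≤ δ₀ →
      ∀ᶠ t in 𝓝 (0 : ℂ), ∃! b : ℂ, ‖b‖ < δ ∧ F.Singular (b, t) := by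
  obtain ⟨δ₀, hδ₀, h⟩ := at_most_one K hK F
  obtain ⟨b, hb, hb0, hs⟩ := family_sing K hK F hne
  refine ⟨δ₀, hδ₀, fun δ hδ hδ' => ?_⟩
  have h1 : ∀ᶠ t in 𝓝 (0 : ℂ), ‖b t‖ < δ := by
    have h2 : Tendsto (fun t => ‖b t‖) (𝓝 0) (𝓝 0) := by
      have := hb.tendsto.norm
      rw [hb0, norm_zero] at this
      exact this
    exact h2.eventually (gt_mem_nhds hδ)
  have h3 : ∀ᶠ t in 𝓝 (0 : ℂ), ‖t‖ < δ₀ := by
    have h2 : Tendsto (fun t : ℂ => ‖t‖) (𝓝 0) (𝓝 0) := by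
      simpa using (continuous_norm (E := ℂ)).tendsto 0
    exact h2.eventually (gt_mem_nhds hδ₀)
  filter_upwards [hs, h1, h3] with t a1 a2 a3
  refine ⟨b t, ⟨a2, a1⟩, ?_⟩
  rintro b' ⟨c1, c2⟩
  exact h t b' (b t) a3 (c1.trans_le hδ') (a2.trans_le hδ') c2 a1

end Pool.Agent.Lib.MP_d4bba2_ag
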