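import Mathlib

/-!
A HOLOMORPHIC FUNCTION ON A PUNCTURED BALL OF ℂ × ℂ IS BOUNDED NEAR THE CENTRE (maximum principle on discs).
ball (0,r) of ℂ × ℂ is the product of discs (sup norm).  Let ρ = r/2, M = max of ‖h‖ on the compact set
{(a,b) | |a| ≤ ρ, |b| = ρ} (it does not contain 0; h is continuous there).  For 0 < |a| ≤ ρ, |b| < ρ the function b' ↦ h (a,b') is
differentiable on |b'| ≤ ρ (in fact on |b'| < r; (a,b') ≠ 0) so by the maximum principle ‖h (a,b)‖ ≤ M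
(Complex.norm_le_of_forall_mem_frontier_norm_le).  For a = 0, 0 < |b| < ρ: h is continuous at (0,b), and (a,b) → (0,b) as a → 0, a ≠ 0,
so ‖h (0,b)‖ ≤ M as well.
-/

open scoped Topology
open Filter

noncomputable section

namespace Pool.Agent.Lib.MP_d4bba2_ag

theorem bounded_punctured {h : ℂ × ℂ → ℂ} {r : ℝ} (hr : 0 < r)
    (hd : ∀ w : ℂ × ℂ, ‖w‖ < r → w ≠ 0 → DifferentiableAt ℂ h w) :
    ∃ M : ℝ, ∀ w : ℂ × ℂ, ‖w‖ < r / 2 → w ≠ 0 → ‖h w‖ ≤ M := by
  have hρ : 0 < r / 2 := by linarith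
  have hK : IsCompact (Metric.closedBall (0 : ℂ) (r / 2) ×ˢ Metric.sphere (0 : ℂ) (r / 2)) :=
    (isCompact_closedBall 0 (r / 2)).prod (isCompact_sphere 0 (r / 2))
  have hnorm : ∀ w : ℂ × ℂ, ‖w.1‖ ≤ r / 2 → ‖w.2‖ ≤ r / 2 → ‖w‖ < r := by
    intro w h1 h2
    rw [Prod.norm_def]
    exact lt_of_le_of_lt (max_le h1 h2) (by linarith)
  have hcont : ContinuousOn h (Metric.closedBall (0 : ℂ) (r / 2) ×ˢ Metric.sphere (0 : ℂ) (r / 2)) := by
    intro w hw
    have h1 : ‖w.1‖ ≤ r / 2 := mem_closedBall_zero_iff.1 hw.1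
    have h2 : ‖w.2‖ = r / 2 := mem_sphere_zero_iff_norm.1 hw.2
    have h3 : w ≠ 0 := by
      rintro rfl
      rw [Prod.snd_zero, norm_zero] at h2
      linarith
    exact (hd w (hnorm w h1 h2.le) h3).continuousAt.continuousWithinAt
  obtain ⟨M, hM⟩ := hK.exists_bound_of_continuousOn hcont
  have main : ∀ a b : ℂ, ‖a‖ < r / 2 → ‖b‖ < r / 2 → a ≠ 0 → ‖h (a, b)‖ ≤ M := by
    intro a b ha hb ha0
    have hdf : DiffContOnCl ℂ (fun b' : ℂ => h (a, b')) (Metric.ball (0 : ℂ) (r / 2)) := by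
      refine DifferentiableOn.diffContOnCl ?_
      rw [closure_ball _ hρ.ne']
      intro b' hb'
      have h1 : ‖b'‖ ≤ r / 2 := mem_closedBall_zero_iff.1 hb'
      have h2 : ((a, b') : ℂ × ℂ) ≠ 0 := by
        intro h0
        exact ha0 (congrArg Prod.fst h0)
      have h3 := hd (a, b') (hnorm (a, b') ha.le h1) h2
      have h4 : DifferentiableAt ℂ (fun b' : ℂ => ((a, b') : ℂ × ℂ)) b' :=
        (differentiableAt_const a).prodMk differentiableAt_id
      exact (h3.comp b' h4).differentiableWithinAt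
    refine Complex.norm_le_of_forall_mem_frontier_norm_le (U := Metric.ball (0 : ℂ) (r / 2))
      Metric.isBounded_ball hdf ?_ (z := b) ?_
    · intro z hz
      rw [frontier_ball _ hρ.ne'] at hz
      exact hM (a, z) ⟨mem_closedBall_zero_iff.2 ha.le, hz⟩
    · exact subset_closure (mem_ball_zero_iff.2 hb)
  refine ⟨M, ?_⟩
  rintro ⟨a, b⟩ hw h0
  rw [Prod.norm_def] at hw
  have ha : ‖a‖ < r / 2 := lt_of_le_of_lt (le_max_left _ _) hw
  have hb : ‖b‖ < r / 2 := lt_of_le_of_lt (le_max_right _ _) hw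
  by_cases ha0 : a = 0
  · subst ha0
    have hcts : ContinuousAt h ((0 : ℂ), b) :=
      (hd (0, b) (hnorm (0, b) ha.le hb.le) h0).continuousAt
    have hc1 : ContinuousAt (fun a' : ℂ => h (a', b)) 0 := by
      have h1 : ContinuousAt (fun a' : ℂ => ((a', b) : ℂ × ℂ)) 0 :=
        continuousAt_id.prodMk continuousAt_const
      exact ContinuousAt.comp (f := fun a' : ℂ => ((a', b) : ℂ × ℂ)) hcts h1
    have ht : Tendsto (fun a' : ℂ => ‖h (a', b)‖) (𝓝[≠] 0) (𝓝 ‖h (0, b)‖) :=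
      (hc1.norm.tendsto).mono_left nhdsWithin_le_nhds
    refine le_of_tendsto ht ?_
    have hball : ∀ᶠ a' : ℂ in 𝓝[≠] 0, a' ∈ Metric.ball (0 : ℂ) (r / 2) :=
      nhdsWithin_le_nhds (Metric.ball_mem_nhds _ hρ)
    filter_upwards [hball, self_mem_nhdsWithin] with a' h1 h2
    exact main a' b (mem_ball_zero_iff.1 h1) hb h2
  · exact main a b ha hb ha0

end Pool.Agent.Lib.MP_d4bba2_ag
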