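import Pool.Agent.Lib.MP_d4bba2_ag.SVol
import Pool.Agent.Lib.MP_d4bba2_ag.Punct
import Pool.Agent.Lib.MP_d4bba2_ag.Core
import Pool.Agent.Lib.MP_d4bba2_ag.InvFun

/-!
A HOLOMORPHIC 2-FORM WITH FINITELY MANY ZEROS ON EVERY FIBRE EXCLUDES (-1)-CURVES.

Let E ⊆ f⁻¹(b) be exceptional with V, π.  Write φ_x = chartAt (ℂ × ℂ) x.  J ψ p = det fderiv (π ∘ ψ.symm) p.
(0) for x ∈ V the function π ∘ φ_x.symm is analytic at φ_x x (contMDiffAt_iff_chart; ContMDiffOn on the open V), J φ_x is analytic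
    (continuous) near φ_x x.  For x ∈ V \ E : J φ_x (φ_x x) ≠ 0 (mfderiv_inj_iff; injective endomorphism of ℂ × ℂ has det ≠ 0).
(1) ratio: for y ∈ V \ E let R y = Ω y / J φ_y (φ_y y).  For y near x0 (y ∈ V \ E, p = φ_{x0} y):
    volDens Ω φ_{x0} p = Ω y * D and J φ_{x0} p = J φ_y (φ_y y) * D with D = det fderiv (φ_y ∘ φ_{x0}.symm) p ≠ 0 (chain rule,
    transition maps are invertible), so R y = volDens Ω φ_{x0} p / J φ_{x0} p.
(2) h w = R (π⁻¹ w) for w ∈ π '' (V \ E) (π is injective on V \ E), choose r with ball 0 r ⊆ π '' V; for 0 < ‖w‖ < r there is a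
    unique x ∈ V \ E with π x = w.  h is differentiable at such w0 = π x0: by analytic_inverse applied to π ∘ φ_{x0}.symm at
    φ_{x0} x0 there is a local inverse G of π ∘ φ_{x0}.symm near w0, and for w near w0 the point φ_{x0}.symm (G w) is in V \ E
    (open: V open, E closed since compact in a Hausdorff space) and has π = w, so it is π⁻¹ w and
    h w = volDens Ω φ_{x0} (G w) / J φ_{x0} (G w), differentiable at w0 (volDens analytic near φ_{x0} x0 by hypothesis).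
(3) bounded_punctured: |h w| ≤ M for 0 < ‖w‖ < r/2.  So ‖Ω y‖ ≤ M ‖J φ_y (φ_y y)‖ for y ∈ V \ E with ‖π y‖ < r/2, and by the
    formulas of (1): ‖volDens Ω φ_{x0} p‖ ≤ M ‖J φ_{x0} p‖ for all p near φ_{x0} x0 with φ_{x0}.symm p ∉ E.
(4) Let x0 ∈ E.  J φ_{x0} (φ_{x0} x0) = 0: otherwise π ∘ φ_{x0}.symm is injective near φ_{x0} x0 (analytic_inverse), but π = 0 on E
    and x0 is an accumulation point of E (E is connected with at least two points in a T1 space: IsPreconnected.preperfect..,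
    or: otherwise {x0} would be clopen in E).  The complement of E is dense near x0 (hvary: f is nowhere locally constant and f = b on
    E).  Let p → φ_{x0} x0 with φ_{x0}.symm p ∉ E: volDens Ω φ_{x0} and J φ_{x0} are continuous at φ_{x0} x0, so
    volDens Ω φ_{x0} (φ_{x0} x0) = 0, and this value is Ω x0 * det id = Ω x0.
(5) So E ⊆ {f = b, Ω = 0} is finite, but a connected set with two points in a T1 space is infinite
    (IsPreconnected.infinite_of_nontrivial).  Contradiction.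
-/

open scoped Topology Manifold ContDiff
open Filter

noncomputable section

namespace Pool.Agent.Lib.MP_d4bba2_ag

private theorem rm_det_ne {A : ℂ × ℂ →L[ℂ] ℂ × ℂ} (h : Function.Injective A) : A.det ≠ 0 := by
  intro h0
  have h1 : (⊥ : Submodule ℂ (ℂ × ℂ)) < LinearMap.ker (A : ℂ × ℂ →ₗ[ℂ] ℂ × ℂ) :=
    LinearMap.bot_lt_ker_of_det_eq_zero h0
  have h2 : LinearMap.ker (A : ℂ × ℂ →ₗ[ℂ] ℂ × ℂ) = ⊥ := LinearMap.ker_eq_bot.2 h
  rw [h2] at h1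
  exact lt_irrefl _ h1

private theorem rm_inj_of_det {A : ℂ × ℂ →L[ℂ] ℂ × ℂ} (h : A.det ≠ 0) : Function.Injective A := by
  have h1 : IsUnit (LinearMap.det (A : ℂ × ℂ →ₗ[ℂ] ℂ × ℂ)) := isUnit_iff_ne_zero.2 h
  intro x y hxy
  refine (LinearMap.equivOfIsUnitDet h1).injective ?_
  rw [LinearMap.equivOfIsUnitDet_apply, LinearMap.equivOfIsUnitDet_apply]
  exact hxy

private theorem rm_det_diff {Ψ : ℂ × ℂ → ℂ × ℂ} {a : ℂ × ℂ} (h : AnalyticAt ℂ Ψ a) :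
    DifferentiableAt ℂ (fun q => (fderiv ℂ Ψ q).det) a := by
  have h1 : DifferentiableAt ℂ (fun q => fderiv ℂ Ψ q) a := h.fderiv.differentiableAt
  have h2 : ∀ v : ℂ × ℂ, DifferentiableAt ℂ (fun q => (fderiv ℂ Ψ q) v) a := fun v =>
    h1.clm_apply (differentiableAt_const v)
  have h3 : (fun q => (fderiv ℂ Ψ q).det) = fun q =>
      ((fderiv ℂ Ψ q) (1, 0)).1 * ((fderiv ℂ Ψ q) (0, 1)).2 -
        ((fderiv ℂ Ψ q) (0, 1)).1 * ((fderiv ℂ Ψ q) (1, 0)).2 := by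
    funext q
    exact det_two _
  rw [h3]
  exact ((h2 _).fst.mul (h2 _).snd).sub ((h2 _).fst.mul (h2 _).snd)

section rm

variable {M : Type} [TopologicalSpace M] [ChartedSpace (ℂ × ℂ) M] [IsManifold 𝓘(ℂ, ℂ × ℂ) ω M]

/-- the Jacobian determinant of `π` in a chart -/
private def rmJ (π : M → ℂ × ℂ) (ψ : OpenPartialHomeomorph M (ℂ × ℂ)) (p : ℂ × ℂ) : ℂ :=
  (fderiv ℂ (fun q => π (ψ.symm q)) p).det

private theorem rmJ_trans {π : M → ℂ × ℂ} {ψ ψ' : OpenPartialHomeomorph M (ℂ × ℂ)}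
    (hψ : ψ ∈ IsManifold.maximalAtlas 𝓘(ℂ, ℂ × ℂ) ω M)
    (hψ' : ψ' ∈ IsManifold.maximalAtlas 𝓘(ℂ, ℂ × ℂ) ω M) {x : M} (hx : x ∈ ψ.source)
    (hx' : x ∈ ψ'.source) (hπ : ContMDiffAt 𝓘(ℂ, ℂ × ℂ) 𝓘(ℂ, ℂ × ℂ) ω π x) :
    rmJ π ψ (ψ x) = rmJ π ψ' (ψ' x) * (fderiv ℂ (fun p' => ψ' (ψ.symm p')) (ψ x)).det := by
  unfold rmJ
  have h1 : AnalyticAt ℂ (fun q => π (ψ'.symm q)) (ψ' (ψ.symm (ψ x))) := by
    rw [ψ.left_inv hx]
    exact (contMDiffAt_iff_chart hψ' hx').1 hπ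
  have h2 : AnalyticAt ℂ (fun q => ψ' (ψ.symm q)) (ψ x) := transition_an hψ hψ' hx hx'
  have h3 := h1.differentiableAt.hasFDerivAt
  have h4 := h2.differentiableAt.hasFDerivAt
  have h5 : HasFDerivAt ((fun q => π (ψ'.symm q)) ∘ (fun q => ψ' (ψ.symm q))) _ (ψ x) :=
    HasFDerivAt.comp (ψ x) h3 h4
  have h6 : (fun p' => π (ψ.symm p')) =ᶠ[𝓝 (ψ x)]
      ((fun q => π (ψ'.symm q)) ∘ (fun q => ψ' (ψ.symm q))) := by
    have hc : ContinuousAt ψ.symm (ψ x) := ψ.symm.continuousAt (ψ.map_source hx)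
    have h7 : ∀ᶠ q in 𝓝 (ψ x), ψ.symm q ∈ ψ'.source := by
      refine hc.eventually ?_
      rw [ψ.left_inv hx]
      exact ψ'.open_source.mem_nhds hx'
    filter_upwards [h7] with q hq
    simp only [Function.comp]
    rw [ψ'.left_inv hq]
  rw [h6.fderiv_eq, h5.fderiv]
  unfold ContinuousLinearMap.det
  rw [ContinuousLinearMap.toLinearMap_comp, LinearMap.det_comp, ψ.left_inv hx]

private theorem rm_trans_det {ψ ψ' : OpenPartialHomeomorph M (ℂ × ℂ)}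
    (hψ : ψ ∈ IsManifold.maximalAtlas 𝓘(ℂ, ℂ × ℂ) ω M)
    (hψ' : ψ' ∈ IsManifold.maximalAtlas 𝓘(ℂ, ℂ × ℂ) ω M) {x : M} (hx : x ∈ ψ.source)
    (hx' : x ∈ ψ'.source) : (fderiv ℂ (fun p' => ψ' (ψ.symm p')) (ψ x)).det ≠ 0 := by
  refine rm_det_ne ?_
  have h1 : AnalyticAt ℂ (fun q => ψ' (ψ.symm q)) (ψ x) := transition_an hψ hψ' hx hx'
  have h2 : AnalyticAt ℂ (fun q => ψ (ψ'.symm q)) ((fun q => ψ' (ψ.symm q)) (ψ x)) := by
    change AnalyticAt ℂ (fun q => ψ (ψ'.symm q)) (ψ' (ψ.symm (ψ x)))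
    rw [ψ.left_inv hx]
    exact transition_an hψ' hψ hx' hx
  refine injective_of_left_inverse h1.differentiableAt h2.differentiableAt ?_
  have hc : ContinuousAt ψ.symm (ψ x) := ψ.symm.continuousAt (ψ.map_source hx)
  have h7 : ∀ᶠ q in 𝓝 (ψ x), ψ.symm q ∈ ψ'.source := by
    refine hc.eventually ?_
    rw [ψ.left_inv hx]
    exact ψ'.open_source.mem_nhds hx'
  filter_upwards [h7, ψ.open_target.mem_nhds (ψ.map_source hx)] with q hq hq2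
  rw [ψ'.left_inv hq, ψ.right_inv hq2]

/-- the ratio of the two forms -/
private def rmR (Ω : M → ℂ) (π : M → ℂ × ℂ) (y : M) : ℂ :=
  Ω y / rmJ π (chartAt (ℂ × ℂ) y) (chartAt (ℂ × ℂ) y y)

private theorem rmR_eq (Ω : M → ℂ) {π : M → ℂ × ℂ} {ψ : OpenPartialHomeomorph M (ℂ × ℂ)}
    (hψ : ψ ∈ IsManifold.maximalAtlas 𝓘(ℂ, ℂ × ℂ) ω M) {y : M} (hy : y ∈ ψ.source)
    (hπ : ContMDiffAt 𝓘(ℂ, ℂ × ℂ) 𝓘(ℂ, ℂ × ℂ) ω π y) :
    rmR Ω π y = volDens Ω ψ (ψ y) / rmJ π ψ (ψ y) := by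
  have h1 := rmJ_trans hψ (IsManifold.chart_mem_maximalAtlas y) hy (mem_chart_source _ y) hπ
  have h2 := rm_trans_det hψ (IsManifold.chart_mem_maximalAtlas y) hy (mem_chart_source _ y)
  have h3 : volDens Ω ψ (ψ y) =
      Ω y * (fderiv ℂ (fun p' => chartAt (ℂ × ℂ) y (ψ.symm p')) (ψ y)).det := by
    unfold volDens
    rw [ψ.left_inv hy]
  rw [h1, h3]
  unfold rmR
  rw [mul_div_mul_right _ _ h2]

private theorem rmJ_ne {π : M → ℂ × ℂ} {ψ : OpenPartialHomeomorph M (ℂ × ℂ)}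
    (hψ : ψ ∈ IsManifold.maximalAtlas 𝓘(ℂ, ℂ × ℂ) ω M) {y : M} (hy : y ∈ ψ.source)
    (hπ : ContMDiffAt 𝓘(ℂ, ℂ × ℂ) 𝓘(ℂ, ℂ × ℂ) ω π y)
    (hi : Function.Injective (mfderiv 𝓘(ℂ, ℂ × ℂ) 𝓘(ℂ, ℂ × ℂ) π y)) :
    rmJ π ψ (ψ y) ≠ 0 := rm_det_ne ((mfderiv_inj_iff hψ hy hπ).1 hi)

omit [IsManifold 𝓘(ℂ, ℂ × ℂ) ω M] in
private theorem volDens_self (Ω : M → ℂ) (x : M) :
    volDens Ω (chartAt (ℂ × ℂ) x) (chartAt (ℂ × ℂ) x x) = Ω x := by
  unfold volDens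
  rw [(chartAt (ℂ × ℂ) x).left_inv (mem_chart_source _ x), det_id, mul_one]
  filter_upwards [(chartAt (ℂ × ℂ) x).open_target.mem_nhds
    ((chartAt (ℂ × ℂ) x).map_source (mem_chart_source _ x))] with q hq
  exact (chartAt (ℂ × ℂ) x).right_inv hq

/-- the ratio is bounded near the exceptional set -/
private theorem rm_bound [T2Space M] (Ω : M → ℂ)
    (hΩ : ∀ x, AnalyticAt ℂ (volDens Ω (chartAt (ℂ × ℂ) x)) (chartAt (ℂ × ℂ) x x))
    {E V : Set M} {π : M → ℂ × ℂ} (hE : IsCompact E) (hV : IsOpen V)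
    (hπ : ContMDiffOn 𝓘(ℂ, ℂ × ℂ) 𝓘(ℂ, ℂ × ℂ) ω π V) (hz : ∀ x ∈ V, π x = 0 ↔ x ∈ E)
    (hinj : Set.InjOn π (V \ E))
    (himm : ∀ x ∈ V \ E, Function.Injective (mfderiv 𝓘(ℂ, ℂ × ℂ) 𝓘(ℂ, ℂ × ℂ) π x))
    (hn : π '' V ∈ 𝓝 (0 : ℂ × ℂ)) :
    ∃ r M0 : ℝ, 0 < r ∧ ∀ y ∈ V \ E, ‖π y‖ < r → ‖rmR Ω π y‖ ≤ M0 := by
  obtain ⟨r, hr, hball⟩ := Metric.mem_nhds_iff.1 hn
  have hπat : ∀ x ∈ V, ContMDiffAt 𝓘(ℂ, ℂ × ℂ) 𝓘(ℂ, ℂ × ℂ) ω π x := fun x hx =>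
    hπ.contMDiffAt (hV.mem_nhds hx)
  have hVE : IsOpen (V \ E) := hV.sdiff hE.isClosed
  have h0 : (0 : ℂ × ℂ) ∈ π '' V := hball (Metric.mem_ball_self hr)
  obtain ⟨e0, he0, -⟩ := h0
  have : Nonempty M := ⟨e0⟩
  have hiv : ∀ w : ℂ × ℂ, ‖w‖ < r → Function.invFunOn π V w ∈ V ∧
      π (Function.invFunOn π V w) = w := by
    intro w hw
    have h1 : w ∈ π '' V := hball (by rwa [mem_ball_zero_iff])
    obtain ⟨x, hx, hxw⟩ := h1
    exact ⟨Function.invFunOn_mem ⟨x, hx, hxw⟩, Function.invFunOn_eq ⟨x, hx, hxw⟩⟩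
  have hivE : ∀ w : ℂ × ℂ, ‖w‖ < r → w ≠ 0 → Function.invFunOn π V w ∈ V \ E := by
    intro w hw hw0
    obtain ⟨h1, h2⟩ := hiv w hw
    refine ⟨h1, fun h3 => hw0 ?_⟩
    rw [← h2]
    exact (hz _ h1).2 h3
  have hiveq : ∀ y ∈ V \ E, ‖π y‖ < r → Function.invFunOn π V (π y) = y := by
    intro y hy hyr
    have h1 : π y ≠ 0 := fun h => hy.2 ((hz y hy.1).1 h)
    exact hinj (hivE _ hyr h1) hy (hiv _ hyr).2
  have hd : ∀ w : ℂ × ℂ, ‖w‖ < r → w ≠ 0 →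
      DifferentiableAt ℂ (fun w => rmR Ω π (Function.invFunOn π V w)) w := by
    intro w0 hw0 hw00
    have hx0 := hivE w0 hw0 hw00
    have hx0w := (hiv w0 hw0).2
    generalize Function.invFunOn π V w0 = x0 at hx0 hx0w
    have hφ : chartAt (ℂ × ℂ) x0 ∈ IsManifold.maximalAtlas 𝓘(ℂ, ℂ × ℂ) ω M :=
      IsManifold.chart_mem_maximalAtlas x0
    have hs : x0 ∈ (chartAt (ℂ × ℂ) x0).source := mem_chart_source _ x0
    have hΩ0 := hΩ x0
    generalize chartAt (ℂ × ℂ) x0 = φ at hφ hs hΩ0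
    have hΨ : AnalyticAt ℂ (fun q => π (φ.symm q)) (φ x0) :=
      (contMDiffAt_iff_chart hφ hs).1 (hπat x0 hx0.1)
    have hΨi : Function.Injective (fderiv ℂ (fun q => π (φ.symm q)) (φ x0)) :=
      (mfderiv_inj_iff hφ hs (hπat x0 hx0.1)).1 (himm x0 hx0)
    obtain ⟨Ψi, hi1, hi2, -, hi4⟩ := analytic_inverse hΨ hΨi
    have e1 : π (φ.symm (φ x0)) = w0 := by
      rw [φ.left_inv hs, hx0w]
    rw [e1] at hi1 hi2 hi4
    have hJ : rmJ π φ (Ψi w0) ≠ 0 := by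
      rw [hi2]
      exact rmJ_ne hφ hs (hπat x0 hx0.1) (himm x0 hx0)
    have hdJ : DifferentiableAt ℂ (fun w => rmJ π φ (Ψi w)) w0 := by
      have h1 : DifferentiableAt ℂ (rmJ π φ) (Ψi w0) := by
        rw [hi2]
        exact rm_det_diff hΨ
      exact h1.comp w0 hi1.differentiableAt
    have hdV : DifferentiableAt ℂ (fun w => volDens Ω φ (Ψi w)) w0 := by
      have h1 : DifferentiableAt ℂ (volDens Ω φ) (Ψi w0) := by
        rw [hi2]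
        exact hΩ0.differentiableAt
      exact h1.comp w0 hi1.differentiableAt
    refine (hdV.mul (hdJ.inv hJ)).congr_of_eventuallyEq ?_
    have hct : ContinuousAt Ψi w0 := hi1.continuousAt
    have hc2 : ContinuousAt φ.symm (φ x0) := φ.symm.continuousAt (φ.map_source hs)
    have a1 : ∀ᶠ w in 𝓝 w0, Ψi w ∈ φ.target := by
      refine hct.eventually ?_
      rw [hi2]
      exact φ.open_target.mem_nhds (φ.map_source hs)
    have a2 : ∀ᶠ w in 𝓝 w0, φ.symm (Ψi w) ∈ V \ E := by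
      have h1 : ∀ᶠ q in 𝓝 (Ψi w0), φ.symm q ∈ V \ E := by
        rw [hi2]
        refine hc2.eventually ?_
        rw [φ.left_inv hs]
        exact hVE.mem_nhds hx0
      exact hct.eventually h1
    have a3 : ∀ᶠ w : ℂ × ℂ in 𝓝 w0, ‖w‖ < r :=
      continuous_norm.continuousAt.eventually (gt_mem_nhds hw0)
    filter_upwards [a1, a2, a3, hi4] with w b1 b2 b3 b4
    have b4' : π (φ.symm (Ψi w)) = w := b4
    have b5 : Function.invFunOn π V w = φ.symm (Ψi w) := by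
      have h1 := hiveq _ b2 (by rw [b4']; exact b3)
      rwa [b4'] at h1
    rw [b5, rmR_eq Ω hφ (φ.map_target b1) (hπat _ b2.1), φ.right_inv b1]
    rfl
  obtain ⟨M0, hM⟩ := bounded_punctured hr hd
  refine ⟨r / 2, M0, by positivity, ?_⟩
  intro y hy hyr
  have h1 : π y ≠ 0 := fun h => hy.2 ((hz y hy.1).1 h)
  have h2 := hM (π y) hyr h1
  rwa [hiveq y hy (by linarith)] at h2

end rm

theorem rel_min (G : FibreGerm) (Ω : G.S → ℂ)
    (hΩ : ∀ x, AnalyticAt ℂ (volDens Ω (chartAt (ℂ × ℂ) x)) (chartAt (ℂ × ℂ) x x))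
    (hfin : ∀ b : ℂ, {x | G.f x = b ∧ Ω x = 0}.Finite)
    (hvary : ∀ x, ∃ᶠ y in 𝓝 x, G.f y ≠ G.f x) : G.RelativelyMinimal := by
  rintro b E hEb ⟨hE, hconn, hnt, V, π, hV, hEV, hπ, hz, hinj, himm, hn⟩
  obtain ⟨r, M0, hr, hM⟩ := rm_bound Ω hΩ hE hV hπ hz hinj himm hn
  have hπat : ∀ x ∈ V, ContMDiffAt 𝓘(ℂ, ℂ × ℂ) 𝓘(ℂ, ℂ × ℂ) ω π x := fun x hx =>
    hπ.contMDiffAt (hV.mem_nhds hx)
  have hsub : E ⊆ {x | G.f x = b ∧ Ω x = 0} := by
    intro x0 hx0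
    refine ⟨hEb hx0, ?_⟩
    have hφ : chartAt (ℂ × ℂ) x0 ∈ IsManifold.maximalAtlas 𝓘(ℂ, ℂ × ℂ) ω G.S :=
      IsManifold.chart_mem_maximalAtlas x0
    have hs : x0 ∈ (chartAt (ℂ × ℂ) x0).source := mem_chart_source _ x0
    have hΩ0 := hΩ x0
    rw [← volDens_self Ω x0]
    generalize chartAt (ℂ × ℂ) x0 = φ at hφ hs hΩ0
    have hΨ : AnalyticAt ℂ (fun q => π (φ.symm q)) (φ x0) :=
      (contMDiffAt_iff_chart hφ hs).1 (hπat x0 (hEV hx0))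
    have hcφ : ContinuousAt φ x0 := φ.continuousAt hs
    have hJ0 : rmJ π φ (φ x0) = 0 := by
      by_contra hne
      obtain ⟨Ψi, -, -, hi3, -⟩ := analytic_inverse hΨ (rm_inj_of_det hne)
      have h1 : ∀ᶠ y in 𝓝 x0, Ψi (π (φ.symm (φ y))) = φ y := hcφ.eventually hi3
      have h2 : ∀ᶠ y in 𝓝 x0, y ∈ φ.source := φ.open_source.mem_nhds hs
      have h3 : AccPt x0 (𝓟 E) := hconn.isPreconnected.preperfect_of_nontrivial hnt x0 hx0
      rw [accPt_iff_frequently] at h3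
      obtain ⟨y, ⟨hy1, hy2⟩, hy3, hy4⟩ := (h3.and_eventually (h1.and h2)).exists
      have h4 := h1.self_of_nhds
      rw [φ.left_inv hy4, (hz y (hEV hy2)).2 hy2] at hy3
      rw [φ.left_inv hs, (hz x0 (hEV hx0)).2 hx0] at h4
      exact hy1 (φ.injOn hy4 hs (hy3.symm.trans h4))
    by_contra hne
    have hlt : M0 * ‖rmJ π φ (φ x0)‖ < ‖volDens Ω φ (φ x0)‖ := by
      rw [hJ0, norm_zero, mul_zero]
      exact norm_pos_iff.2 hne
    have hc1 : ContinuousAt (fun y => M0 * ‖rmJ π φ (φ y)‖) x0 := by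
      have h1 : ContinuousAt (rmJ π φ) (φ x0) := (rm_det_diff hΨ).continuousAt
      have h2 : ContinuousAt (fun y => rmJ π φ (φ y)) x0 :=
        ContinuousAt.comp (f := φ) (g := rmJ π φ) h1 hcφ
      exact continuousAt_const.mul h2.norm
    have hc2 : ContinuousAt (fun y => ‖volDens Ω φ (φ y)‖) x0 := by
      have h2 : ContinuousAt (fun y => volDens Ω φ (φ y)) x0 :=
        ContinuousAt.comp hΩ0.continuousAt hcφ
      exact h2.norm
    have hev := hc1.eventually_lt hc2 hlt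
    have h1 : ∃ᶠ y in 𝓝 x0, y ∉ E := by
      refine (hvary x0).mono ?_
      intro y hy hyE
      have e1 : G.f y = b := hEb hyE
      have e2 : G.f x0 = b := hEb hx0
      exact hy (e1.trans e2.symm)
    have h2 : ∀ᶠ y in 𝓝 x0, y ∈ φ.source := φ.open_source.mem_nhds hs
    have h3 : ∀ᶠ y in 𝓝 x0, y ∈ V := hV.mem_nhds (hEV hx0)
    have h4 : ∀ᶠ y in 𝓝 x0, ‖π y‖ < r := by
      have h5 : ContinuousAt (fun y => ‖π y‖) x0 := (hπat x0 (hEV hx0)).continuousAt.norm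
      refine h5.eventually (gt_mem_nhds ?_)
      change ‖π x0‖ < r
      rw [(hz x0 (hEV hx0)).2 hx0, norm_zero]
      exact hr
    obtain ⟨y, hy1, hy2, hy3, hy4, hy5⟩ :=
      (h1.and_eventually (h2.and (h3.and (h4.and hev)))).exists
    have h6 := hM y ⟨hy3, hy1⟩ hy4
    rw [rmR_eq Ω hφ hy2 (hπat y hy3), norm_div] at h6
    have h7 : rmJ π φ (φ y) ≠ 0 := rmJ_ne hφ hy2 (hπat y hy3) (himm y ⟨hy3, hy1⟩)
    rw [div_le_iff₀ (norm_pos_iff.2 h7)] at h6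
    exact absurd hy5 (not_lt.2 h6)
  exact (hconn.isPreconnected.infinite_of_nontrivial hnt) ((hfin b).subset hsub)

end Pool.Agent.Lib.MP_d4bba2_ag
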