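import Pool.Agent.Lib.MP_d4bba2_ag.SGerm

/-!
CoreData OF THE GERM, RIGIDITY.
κ x: the chart at x (chartAt (ℂ × ℂ) x): cG (chartAt c) at genS c 0 for c free, cA k at genS (p k) 0; e x: c free:
 e y = s ((chartAt c).symm y); c = p k: e y = y * g k y (choose k; by p_inj it is unique).
snd_zero: xi k (p k) 0 = 0.  ne: s c ≠ 0; derivative of y g k y at 0 is g k 0 ≠ 0.  eq: sF_G, sF_A (near the point).
Rigid: given a : S → ℂ put aC c = a (genS c 0).  c free: the first hypothesis gives g analytic at chartAt c c with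
 aC ((chartAt c).symm y) = g y near, so aC is ContMDiffAt at c (contMDiffAt_iff_chart).  p k: the second hypothesis:
 y * g k y * aC ((z k).symm y) = g0 y for y near 0, y ≠ 0, so y * aC ((z k).symm y) = g0 y / g k y.  D.Rigid gives the constant.
 (The value (cA k).symm (y,0) = genS ((z k).symm y) (0 * ..) = genS _ 0.)
-/

open scoped Topology Manifold ContDiff
open Filter

noncomputable section

namespace Pool.Agent.Lib.MP_d4bba2_ag

open Classical in
private def score_eFun (D : CurveData) : Surf D → ℂ → ℂ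
  | .gen c _ => if h : D.Free c then fun y => D.s ((chartAt ℂ c).symm y)
      else fun y => y * D.g (D.not_free h).choose y
  | .dd _ _ => fun _ => 0

private def score_e (D : CurveData) (x : SurfS D) : ℂ → ℂ := score_eFun D (x : Surf D)

private theorem score_e_free {D : CurveData} {c : D.C} (hc : D.Free c) (ζ : ℂ) :
    score_e D (genS c ζ) = fun y => D.s ((chartAt ℂ c).symm y) := by
  change score_eFun D (Surf.gen c ζ) = _
  unfold score_eFun
  exact dif_pos hc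

private theorem score_e_p {D : CurveData} (k : D.K) (ζ : ℂ) :
    score_e D (genS (D.p k) ζ) = fun y => y * D.g k y := by
  have h : ¬ D.Free (D.p k) := fun h => h k rfl
  have h1 : score_eFun D (Surf.gen (D.p k) ζ) = fun y => y * D.g (D.not_free h).choose y := by
    unfold score_eFun
    exact dif_neg h
  have h2 : (D.not_free h).choose = k := (D.p_inj (D.not_free h).choose_spec).symm
  change score_eFun D (Surf.gen (D.p k) ζ) = _
  rw [h1, h2]

private theorem score_cases {D : CurveData} {q : SurfS D} (h : ∃ c, q = genS c 0) :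
    (∃ c, D.Free c ∧ q = genS c 0 ∧ chartAt (ℂ × ℂ) q =
      cG D (chartAt ℂ c) (IsManifold.chart_mem_maximalAtlas c) ∧
      score_e D q = fun y => D.s ((chartAt ℂ c).symm y)) ∨
    ∃ k, q = genS (D.p k) 0 ∧ chartAt (ℂ × ℂ) q = cA D k ∧
      score_e D q = fun y => y * D.g k y := by
  obtain ⟨c, rfl⟩ := h
  by_cases hc : D.Free c
  · exact Or.inl ⟨c, hc, rfl, chartAt_free hc 0, score_e_free hc 0⟩
  · obtain ⟨k, rfl⟩ := D.not_free hc
    exact Or.inr ⟨k, rfl, chartAt_p k 0, score_e_p k 0⟩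

private theorem score_G {D : CurveData} (φ : OpenPartialHomeomorph D.C ℂ)
    (h : φ ∈ IsManifold.maximalAtlas 𝓘(ℂ, ℂ) ω D.C) (c : D.C) (ζ : ℂ) :
    cG D φ h (genS c ζ) = (φ c, ζ) := rfl

private theorem score_A {D : CurveData} (k : D.K) :
    cA D k (genS (D.p k) 0) = ((0 : ℂ), (0 : ℂ)) := by
  change (D.z k (D.p k), xi D k (D.p k) 0) = _
  unfold xi
  rw [if_pos rfl, D.z_p]

private theorem score_Gs {D : CurveData} (φ : OpenPartialHomeomorph D.C ℂ)
    (h : φ ∈ IsManifold.maximalAtlas 𝓘(ℂ, ℂ) ω D.C) (y : ℂ) :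
    (cG D φ h).symm (y, 0) = genS (φ.symm y) 0 := rfl

private theorem score_As {D : CurveData} (k : D.K) (y : ℂ) :
    (cA D k).symm (y, 0) = genS ((D.z k).symm y) 0 := by
  change chAinv D k (y, 0) = Surf.gen ((D.z k).symm y) 0
  unfold chAinv
  by_cases h : y = 0
  · rw [if_pos h]
  · rw [if_neg h, zero_mul]

private theorem score_g0 (D : CurveData) (k : D.K) : AnalyticAt ℂ (D.g k) 0 :=
  D.g_an k 0 (Metric.mem_ball_self (by norm_num))

private theorem score_gne (D : CurveData) (k : D.K) : D.g k 0 ≠ 0 :=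
  D.g_ne k 0 (Metric.mem_ball_self (by norm_num))

private theorem score_snd {D : CurveData} {q : SurfS D} (hq : ∃ c, q = genS c 0) :
    (chartAt (ℂ × ℂ) q q).2 = 0 := by
  rcases score_cases hq with ⟨c, hc, rfl, h1, h2⟩ | ⟨k, rfl, h1, h2⟩
  · rw [h1]
    rfl
  · rw [h1, score_A]

private theorem score_an {D : CurveData} {q : SurfS D} (hq : ∃ c, q = genS c 0) :
    AnalyticAt ℂ (score_e D q) (chartAt (ℂ × ℂ) q q).1 := by
  rcases score_cases hq with ⟨c, hc, rfl, h1, h2⟩ | ⟨k, rfl, h1, h2⟩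
  · rw [h1, h2]
    exact (contMDiffAt_iff_chart (IsManifold.chart_mem_maximalAtlas c)
      (mem_chart_source ℂ c)).1 (D.s_an c hc)
  · rw [h1, h2, score_A]
    exact analyticAt_id.mul (score_g0 D k)

private theorem score_ne {D : CurveData} {q : SurfS D} (hq : ∃ c, q = genS c 0) :
    score_e D q (chartAt (ℂ × ℂ) q q).1 ≠ 0 ∨
      deriv (score_e D q) (chartAt (ℂ × ℂ) q q).1 ≠ 0 := by
  rcases score_cases hq with ⟨c, hc, rfl, h1, h2⟩ | ⟨k, rfl, h1, h2⟩
  · left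
    rw [h1, h2]
    change D.s ((chartAt ℂ c).symm (chartAt ℂ c c)) ≠ 0
    rw [(chartAt ℂ c).left_inv (mem_chart_source ℂ c)]
    exact D.s_ne c hc
  · right
    rw [h1, h2, score_A]
    have h3 : HasDerivAt (fun y : ℂ => y * D.g k y) (1 * D.g k 0 + 0 * deriv (D.g k) 0) 0 :=
      (hasDerivAt_id (0 : ℂ)).mul (score_g0 D k).differentiableAt.hasDerivAt
    change deriv (fun y : ℂ => y * D.g k y) 0 ≠ 0
    rw [h3.deriv, one_mul, zero_mul, add_zero]
    exact score_gne D k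

private theorem score_eq {D : CurveData} {q : SurfS D} (hq : ∃ c, q = genS c 0) :
    ∀ᶠ p in 𝓝 (chartAt (ℂ × ℂ) q q), sF D ((chartAt (ℂ × ℂ) q).symm p) =
      score_e D q p.1 * p.2 ^ 2 := by
  rcases score_cases hq with ⟨c, hc, rfl, h1, h2⟩ | ⟨k, rfl, h1, h2⟩
  · rw [h1, h2]
    exact Eventually.of_forall fun p => sF_G D (chartAt ℂ c) _ p
  · rw [h1, h2, score_A]
    have h3 : ∀ᶠ p : ℂ × ℂ in 𝓝 ((0 : ℂ), (0 : ℂ)), p.1 ∈ Metric.ball (0 : ℂ) (1 / 2) :=
      continuousAt_fst.eventually (Metric.ball_mem_nhds (0 : ℂ) (by norm_num))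
    filter_upwards [h3] with p hp
    exact sF_A D k p hp

private theorem score_rigid {D : CurveData} (hD : D.Rigid) (a : SurfS D → ℂ)
    (ha1 : ∀ q : SurfS D, (∃ c, q = genS c 0) → score_e D q (chartAt (ℂ × ℂ) q q).1 ≠ 0 →
      ∃ g, AnalyticAt ℂ g (chartAt (ℂ × ℂ) q q).1 ∧
        ∀ᶠ y in 𝓝 (chartAt (ℂ × ℂ) q q).1, a ((chartAt (ℂ × ℂ) q).symm (y, 0)) = g y)
    (ha2 : ∀ q : SurfS D, (∃ c, q = genS c 0) → score_e D q (chartAt (ℂ × ℂ) q q).1 = 0 →
      ∃ g, AnalyticAt ℂ g (chartAt (ℂ × ℂ) q q).1 ∧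
        ∀ᶠ y in 𝓝[≠] (chartAt (ℂ × ℂ) q q).1,
          score_e D q y * a ((chartAt (ℂ × ℂ) q).symm (y, 0)) = g y) :
    ∃ c0, ∀ q : SurfS D, (∃ c, q = genS c 0) → score_e D q (chartAt (ℂ × ℂ) q q).1 ≠ 0 →
      a q = c0 := by
  have k1 : ∀ c, (∀ k, c ≠ D.p k) →
      ContMDiffAt 𝓘(ℂ, ℂ) 𝓘(ℂ, ℂ) ω (fun c => a (genS c 0 : SurfS D)) c := by
    intro c hc
    have h0 : score_e D (genS c 0) (chartAt (ℂ × ℂ) (genS c 0 : SurfS D) (genS c 0)).1 ≠ 0 := by
      rw [chartAt_free hc 0, score_e_free hc 0]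
      change D.s ((chartAt ℂ c).symm (chartAt ℂ c c)) ≠ 0
      rw [(chartAt ℂ c).left_inv (mem_chart_source ℂ c)]
      exact D.s_ne c hc
    obtain ⟨g, hg, hga⟩ := ha1 _ ⟨c, rfl⟩ h0
    rw [chartAt_free hc 0] at hg hga
    rw [contMDiffAt_iff_chart (IsManifold.chart_mem_maximalAtlas c) (mem_chart_source ℂ c)]
    exact hg.congr (hga.mono fun y hy => hy.symm)
  have k2 : ∀ k, ∃ a0 : ℂ → ℂ, AnalyticAt ℂ a0 0 ∧ ∀ᶠ x in 𝓝[≠] (0 : ℂ),
      x * (fun c => a (genS c 0 : SurfS D)) ((D.z k).symm x) = a0 x := by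
    intro k
    have h0 : score_e D (genS (D.p k) 0)
        (chartAt (ℂ × ℂ) (genS (D.p k) 0 : SurfS D) (genS (D.p k) 0)).1 = 0 := by
      rw [chartAt_p k 0, score_e_p k 0, score_A]
      exact zero_mul _
    obtain ⟨g, hg, hga⟩ := ha2 _ ⟨_, rfl⟩ h0
    rw [chartAt_p k 0, score_A] at hg hga
    rw [score_e_p k 0] at hga
    refine ⟨fun y => g y / D.g k y, hg.div (score_g0 D k) (score_gne D k), ?_⟩
    have h1 : ∀ᶠ y in 𝓝[≠] (0 : ℂ), y ∈ Metric.ball (0 : ℂ) (1 / 2) :=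
      nhdsWithin_le_nhds (Metric.ball_mem_nhds (0 : ℂ) (by norm_num))
    filter_upwards [hga, h1] with y hy hy1
    have h2 := D.g_ne k y hy1
    rw [score_As] at hy
    rw [eq_div_iff h2, ← hy]
    ring
  obtain ⟨c0, hc0⟩ := hD _ k1 k2
  refine ⟨c0, fun q hq hne => ?_⟩
  rcases score_cases hq with ⟨c, hc, rfl, h1, h2⟩ | ⟨k, rfl, h1, h2⟩
  · exact hc0 c hc
  · exfalso
    apply hne
    rw [h1, h2, score_A]
    exact zero_mul _

theorem sGerm_core (D : CurveData) (hD : D.Rigid) : ∃ K : CoreData (sGerm D), K.Rigid := by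
  let K : CoreData (sGerm D) :=
    { κ := fun q => chartAt (ℂ × ℂ) (q : SurfS D)
      e := fun q => score_e D q
      mem_atlas := fun q _ =>
        IsManifold.chart_mem_maximalAtlas (I := 𝓘(ℂ, ℂ × ℂ)) (n := ω) (q : SurfS D)
      mem_source := fun q _ => mem_chart_source (ℂ × ℂ) (q : SurfS D)
      snd_zero := fun q hq => score_snd ((sGerm_crit D q).1 hq)
      e_an := fun q hq => score_an ((sGerm_crit D q).1 hq)
      ne := fun q hq => score_ne ((sGerm_crit D q).1 hq)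
      eq := fun q hq => score_eq ((sGerm_crit D q).1 hq) }
  refine ⟨K, fun a ha1 ha2 => ?_⟩
  obtain ⟨c0, hc0⟩ := score_rigid hD a
    (fun q hq h => ha1 q ((sGerm_crit D q).2 hq) h)
    (fun q hq h => ha2 q ((sGerm_crit D q).2 hq) h)
  exact ⟨c0, fun q hq h => hc0 q ((sGerm_crit D q).1 hq) h⟩

end Pool.Agent.Lib.MP_d4bba2_ag
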