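import Pool.Agent.Lib.MP_d4bba2_ag.SGerm

/-!
THE CENTRAL FIBRE IS NOT OF THE TWO TYPES.
not_one: the points genS c 0 for all c ∈ C are critical (sGerm_crit); C has at least two points: p k and (z k).symm (1/4), or: if C
 were a single point then (z k).target would be a single point.
not_multiple: suppose f = g^m locally at every point of the fibre, m ≥ 1, g submersion.
 m = 1: at genS c 0: f = g^1 near, so mfderiv f = mfderiv g ≠ 0 (Filter.EventuallyEq.mfderiv_eq), but genS c 0 is critical.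
 m ≥ 2: at x = genS (p k) 1 : f x = 0, so g x ^ m = 0, g x = 0, mfderiv f x = m g x ^(m-1) mfderiv g x = 0, but x is not critical
 (sGerm_crit: genS (p k) 1 ≠ genS c 0).  (To compute: in the chart, fderiv of g^m at a point where g = 0 and m ≥ 2 is 0;
 mfderiv_zero_iff; or HasMFDerivAt.pow / composition with z ↦ z^m.)
-/

open scoped Topology Manifold ContDiff
open Filter

noncomputable section

namespace Pool.Agent.Lib.MP_d4bba2_ag

private lemma stypes_pow {G : ℂ × ℂ → ℂ} {q : ℂ × ℂ} (hG : DifferentiableAt ℂ G q)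
    (h0 : G q = 0) {m : ℕ} (hm : 1 < m) : fderiv ℂ (fun p => G p ^ m) q = 0 := by
  have hG' : HasFDerivAt (fun p => G p ^ m) (((m : ℂ) * G q ^ (m - 1)) • fderiv ℂ G q) q :=
    (hasDerivAt_pow m (G q)).comp_hasFDerivAt q hG.hasFDerivAt
  have h1 : (m : ℂ) * G q ^ (m - 1) = 0 := by
    rw [h0, zero_pow (by omega), mul_zero]
  refine hG'.fderiv.trans (ContinuousLinearMap.ext fun v => ?_)
  change ((m : ℂ) * G q ^ (m - 1)) * fderiv ℂ G q v = 0
  rw [h1, zero_mul]

theorem not_one (D : CurveData) : ¬ (sGerm D).AtMostOneSingularPoint := by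
  intro h
  obtain ⟨k⟩ := D.neK
  have h4 : (1 / 4 : ℂ) ∈ Metric.ball (0 : ℂ) (1 / 2) := by
    rw [mem_ball_zero_iff]
    norm_num
  have h1 : (sGerm D).Crit (genS (D.p k) 0 : SurfS D) := (sGerm_crit D _).2 ⟨_, rfl⟩
  have h2 : (sGerm D).Crit (genS ((D.z k).symm (1 / 4)) 0 : SurfS D) :=
    (sGerm_crit D _).2 ⟨_, rfl⟩
  have h3 := h _ _ h2 h1
  have h5 : (D.z k).symm (1 / 4) = D.p k := (genS_inj h3).1
  have h6 := (D.symm_eq_p h4).1 h5
  norm_num at h6

theorem not_multiple (D : CurveData) : ¬ (sGerm D).MultipleOfSmooth := by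
  rintro ⟨m, hm, H⟩
  obtain ⟨k⟩ := D.neK
  rcases Nat.eq_or_lt_of_le hm with h1 | h1
  · have hx : (sGerm D).f (genS (D.p k) 0 : SurfS D) = 0 := by
      change D.s (D.p k) * (0 : ℂ) ^ 2 = 0
      ring
    obtain ⟨g, -, hg2, hg3⟩ := H (genS (D.p k) 0 : SurfS D) hx
    have hc : (sGerm D).Crit (genS (D.p k) 0 : SurfS D) := (sGerm_crit D _).2 ⟨_, rfl⟩
    have hev : (sGerm D).f =ᶠ[𝓝 (genS (D.p k) 0 : SurfS D)] g := by
      filter_upwards [hg3] with y hy
      rw [hy, ← h1, pow_one]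
    have h2 := hev.mfderiv_eq (I := 𝓘(ℂ, ℂ × ℂ)) (I' := 𝓘(ℂ, ℂ))
    exact hg2 (dZero_iff.2 (h2.symm.trans (dZero_iff.1 hc)))
  · have hx : (sGerm D).f (genS (D.p k) 1 : SurfS D) = 0 := by
      change D.s (D.p k) * (1 : ℂ) ^ 2 = 0
      rw [D.s_p]
      ring
    obtain ⟨g, hg1, -, hg3⟩ := H (genS (D.p k) 1 : SurfS D) hx
    have hmem : (genS (D.p k) 1 : SurfS D) ∈ (cA D k).source := mem_cA k 1
    have hat : cA D k ∈ IsManifold.maximalAtlas 𝓘(ℂ, ℂ × ℂ) ω (SurfS D) :=
      (sGlue D).chart_mem _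
    have hG := (contMDiffAt_iff_chart hat hmem).1 hg1
    have hgx : g (genS (D.p k) 1 : SurfS D) = 0 := by
      have h2 := hg3.self_of_nhds
      rw [hx] at h2
      exact pow_eq_zero_iff (by omega) |>.1 h2.symm
    have hcrit : (sGerm D).Crit (genS (D.p k) 1 : SurfS D) := by
      have hF := (sF_an D).contMDiffAt (x := (genS (D.p k) 1 : SurfS D))
      refine dZero_iff.2 ((mfderiv_zero_iff hat hmem hF).2 ?_)
      have hcts : ContinuousAt (cA D k).symm (cA D k (genS (D.p k) 1 : SurfS D)) :=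
        (cA D k).continuousAt_symm ((cA D k).map_source hmem)
      have hl : (cA D k).symm (cA D k (genS (D.p k) 1 : SurfS D)) = genS (D.p k) 1 :=
        (cA D k).left_inv hmem
      have hev : (fun q => sF D ((cA D k).symm q)) =ᶠ[𝓝 (cA D k (genS (D.p k) 1 : SurfS D))]
          fun q => (g ((cA D k).symm q)) ^ m := by
        have h3 : ∀ᶠ y in 𝓝 ((cA D k).symm (cA D k (genS (D.p k) 1 : SurfS D))),
            (sGerm D).f y = g y ^ m := by
          rw [hl]
          exact hg3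
        exact hcts.eventually h3
      rw [hev.fderiv_eq]
      refine stypes_pow hG.differentiableAt ?_ h1
      exact (congrArg g hl).trans hgx
    obtain ⟨c, hc⟩ := (sGerm_crit D _).1 hcrit
    have h5 := (genS_inj hc).2
    exact one_ne_zero h5

end Pool.Agent.Lib.MP_d4bba2_ag
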