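import Pool.Agent.Lib.MP_d4bba2_ag.FamSing
import Pool.Agent.Lib.MP_d4bba2_ag.SCore
import Pool.Agent.Lib.MP_d4bba2_ag.STypes
import Pool.Agent.Lib.MP_d4bba2_ag.RelMin
import Pool.Agent.Lib.MP_d4bba2_ag.CvRigid
import Pool.Agent.Lib.MP_d4bba2_ag.CvForm

/-!
Assembly.
-/

open scoped Topology Manifold ContDiff
open Filter

noncomputable section

universe u

namespace Pool.Agent.Lib.MP_d4bba2_ag

theorem morsification_false :
    ∃ G : FibreGerm, G.RelativelyMinimal ∧ FibreGerm.Atomic.{u} G ∧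
      (∀ F : SplittingFamily.{u} G, F.ExactlyOneSingularFibre) ∧
      ¬ G.AtMostOneSingularPoint ∧ ¬ G.MultipleOfSmooth := by
  obtain ⟨K, hK⟩ := sGerm_core cvData cv_rigid
  obtain ⟨Ω, h1, h2⟩ := s_vol cvData cvForm
  have hc : ∃ q, (sGerm cvData).Crit q :=
    ⟨(genS (cvData.p false) 0 : SurfS cvData), (sGerm_crit cvData _).2 ⟨_, rfl⟩⟩
  exact ⟨sGerm cvData, rel_min (sGerm cvData) Ω h1 h2 (sF_vary cvData),
    atomic_of_core K hK, fun F => exactly_one K hK F hc, not_one _, not_multiple _⟩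

end Pool.Agent.Lib.MP_d4bba2_ag
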