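import Pool.Agent.Lib.MP_d4bba2_ag.Root
import Pool.Agent.Lib.MP_d4bba2_ag.TaylorT

/-!
BASIC PROPERTIES OF Form.
form_zero: ρ from root_exists, B p = F (p.1, ρ p, p.2) (analytic at (x0,0): ρ (x0,0) = 0).
form_step: B (x,t) - κ n is zero for t = 0, x near x0; div_last gives B = κ n + t * B'.
form_trunc: B' p = ∑ i ∈ Ico m n, κ i * t^(i-m) + t^(n-m) * B p; B' (x,0) = κ m (every other term has a factor 0).
form_uniq: the two roots agree near (x0,0) (root_unique), so t^n * B = t^n * B' near (x0,0); for x near x0 the functions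
t ↦ B (x,t), B' (x,t) are continuous at t = 0 and agree for t ≠ 0 small.
form_coeff_uniq: same with expansion_unique at x = x0.
form_congr: the sum only uses i < n.
-/

open scoped Topology
open Filter

noncomputable section

namespace Pool.Agent.Lib.MP_d4bba2_ag

theorem form_zero {F : ℂ × ℂ × ℂ → ℂ} {x0 : ℂ} {e : ℂ → ℂ} (h : IsLoc F x0 e)
    (he : e x0 ≠ 0) (κ : ℕ → ℂ) : ∃ B, Form F x0 κ 0 B := by
  obtain ⟨ρ, hρ, _⟩ := root_exists h he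
  have h0 : ρ (x0, 0) = 0 := hρ.zero.self_of_nhds
  refine ⟨fun p => F (p.1, ρ p, p.2), ?_, ρ, hρ, Eventually.of_forall fun p => by simp⟩
  have h1 : AnalyticAt ℂ (fun p : ℂ × ℂ => ((p.1, ρ p, p.2) : ℂ × ℂ × ℂ)) (x0, 0) :=
    analyticAt_fst.prod (hρ.an.prod analyticAt_snd)
  have h2 : AnalyticAt ℂ F ((fun p : ℂ × ℂ => ((p.1, ρ p, p.2) : ℂ × ℂ × ℂ)) (x0, 0)) := by
    simp only [h0]
    exact h.an
  exact AnalyticAt.comp (g := F) (f := fun p : ℂ × ℂ => ((p.1, ρ p, p.2) : ℂ × ℂ × ℂ)) h2 h1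

theorem form_step {F : ℂ × ℂ × ℂ → ℂ} {x0 : ℂ} {κ : ℕ → ℂ} {n : ℕ} {B : ℂ × ℂ → ℂ}
    (hB : Form F x0 κ n B) (hc : ∀ᶠ x in 𝓝 x0, B (x, 0) = κ n) :
    ∃ B', Form F x0 κ (n + 1) B' := by
  obtain ⟨g, hg, hgB⟩ := div_last (fun p : ℂ × ℂ => B p - κ n) x0 (hB.an.sub analyticAt_const)
    (by filter_upwards [hc] with x hx; rw [hx, sub_self])
  obtain ⟨ρ, hρ, hF⟩ := hB.ex
  refine ⟨g, hg, ρ, hρ, ?_⟩
  filter_upwards [hgB, hF] with p h1 h2
  have h3 : B p = κ n + p.2 * g p := by rw [← h1]; ring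
  rw [h2, h3, Finset.sum_range_succ]
  ring

theorem form_trunc {F : ℂ × ℂ × ℂ → ℂ} {x0 : ℂ} {κ : ℕ → ℂ} {n m : ℕ} {B : ℂ × ℂ → ℂ}
    (hB : Form F x0 κ n B) (hmn : m < n) :
    ∃ B', Form F x0 κ m B' ∧ ∀ᶠ x in 𝓝 x0, B' (x, 0) = κ m := by
  obtain ⟨k, rfl⟩ : ∃ k, n = m + (k + 1) := ⟨n - m - 1, by omega⟩
  obtain ⟨ρ, hρ, hF⟩ := hB.ex
  refine ⟨fun p => ∑ i ∈ Finset.range (k + 1), κ (m + i) * p.2 ^ i + p.2 ^ (k + 1) * B p,
    ⟨?_, ρ, hρ, ?_⟩, Eventually.of_forall fun x => ?_⟩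
  · refine AnalyticAt.add ?_ ((analyticAt_snd.pow _).mul hB.an)
    have : AnalyticAt ℂ (fun p : ℂ × ℂ => ∑ i ∈ Finset.range (k + 1), κ (m + i) * p.2 ^ i)
        (x0, 0) := by
      refine Finset.analyticAt_fun_sum _ fun i _ => ?_
      exact analyticAt_const.mul (analyticAt_snd.pow _)
    exact this
  · filter_upwards [hF] with p hp
    rw [hp, Finset.sum_range_add, mul_add, Finset.mul_sum, ← mul_assoc, ← pow_add, add_assoc]
    congr 1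
    congr 1
    refine Finset.sum_congr rfl fun i _ => ?_
    rw [pow_add]
    ring
  · show ∑ i ∈ Finset.range (k + 1), κ (m + i) * (0 : ℂ) ^ i + (0 : ℂ) ^ (k + 1) * B (x, 0) = κ m
    rw [Finset.sum_range_succ']
    simp

private theorem FormBasic_exp {F : ℂ × ℂ × ℂ → ℂ} {x0 : ℂ} {e : ℂ → ℂ} (h : IsLoc F x0 e)
    (he : e x0 ≠ 0) {κ κ' : ℕ → ℂ} {n : ℕ} {B B' : ℂ × ℂ → ℂ} (hB : Form F x0 κ n B)
    (hB' : Form F x0 κ' n B') :
    ∀ᶠ p in 𝓝 (x0, (0 : ℂ)), ∑ i ∈ Finset.range n, κ i * p.2 ^ i + p.2 ^ n * B p =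
      ∑ i ∈ Finset.range n, κ' i * p.2 ^ i + p.2 ^ n * B' p := by
  obtain ⟨ρ, hρ, hF⟩ := hB.ex
  obtain ⟨ρ', hρ', hF'⟩ := hB'.ex
  filter_upwards [hF, hF', root_unique h he hρ hρ'] with p h1 h2 h3
  rw [← h1, ← h2, h3]

private theorem FormBasic_line (x : ℂ) : Filter.Tendsto (fun t : ℂ => (x, t)) (𝓝[≠] 0)
    (𝓝 (x, (0 : ℂ))) := by
  have : Continuous fun t : ℂ => (x, t) := by fun_prop
  exact (this.tendsto 0).mono_left nhdsWithin_le_nhds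

theorem form_uniq {F : ℂ × ℂ × ℂ → ℂ} {x0 : ℂ} {e : ℂ → ℂ} (h : IsLoc F x0 e) (he : e x0 ≠ 0)
    {κ : ℕ → ℂ} {n : ℕ} {B B' : ℂ × ℂ → ℂ} (hB : Form F x0 κ n B) (hB' : Form F x0 κ n B') :
    ∀ᶠ x in 𝓝 x0, B (x, 0) = B' (x, 0) := by
  have h1 := FormBasic_exp h he hB hB'
  have hc : Continuous fun y : ℂ => ((y, 0) : ℂ × ℂ) := by fun_prop
  have h2 := hc.continuousAt.eventually (eventually_eventually_nhds.2 h1)
  have h3 : ∀ᶠ y in 𝓝 x0, AnalyticAt ℂ B (y, 0) :=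
    hc.continuousAt.eventually hB.an.eventually_analyticAt
  have h4 : ∀ᶠ y in 𝓝 x0, AnalyticAt ℂ B' (y, 0) :=
    hc.continuousAt.eventually hB'.an.eventually_analyticAt
  filter_upwards [h2, h3, h4] with x a b c
  have hl : Continuous fun t : ℂ => (x, t) := by fun_prop
  refine (expansion_unique κ κ n (fun t => B (x, t)) (fun t => B' (x, t))
    (ContinuousAt.comp (f := fun t : ℂ => (x, t)) (g := B) b.continuousAt hl.continuousAt)
    (ContinuousAt.comp (f := fun t : ℂ => (x, t)) (g := B') c.continuousAt hl.continuousAt) ?_).2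
  exact (FormBasic_line x).eventually a

theorem form_coeff_uniq {F : ℂ × ℂ × ℂ → ℂ} {x0 : ℂ} {e : ℂ → ℂ} (h : IsLoc F x0 e)
    (he : e x0 ≠ 0) {κ κ' : ℕ → ℂ} {n : ℕ} {B B' : ℂ × ℂ → ℂ} (hB : Form F x0 κ n B)
    (hB' : Form F x0 κ' n B') : ∀ i < n, κ i = κ' i := by
  have h1 := FormBasic_exp h he hB hB'
  have hl : Continuous fun t : ℂ => (x0, t) := by fun_prop
  refine (expansion_unique κ κ' n (fun t => B (x0, t)) (fun t => B' (x0, t))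
    (ContinuousAt.comp (f := fun t : ℂ => (x0, t)) (g := B) hB.an.continuousAt hl.continuousAt)
    (ContinuousAt.comp (f := fun t : ℂ => (x0, t)) (g := B') hB'.an.continuousAt
      hl.continuousAt) ?_).1
  exact (FormBasic_line x0).eventually h1

theorem form_congr {F : ℂ × ℂ × ℂ → ℂ} {x0 : ℂ} {κ κ' : ℕ → ℂ} {n : ℕ} {B : ℂ × ℂ → ℂ}
    (hκ : ∀ i < n, κ i = κ' i) (hB : Form F x0 κ n B) : Form F x0 κ' n B := by
  obtain ⟨ρ, hρ, hF⟩ := hB.ex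
  refine ⟨hB.an, ρ, hρ, ?_⟩
  filter_upwards [hF] with p hp
  rw [hp]
  congr 1
  refine Finset.sum_congr rfl fun i hi => ?_
  rw [hκ i (Finset.mem_range.1 hi)]

end Pool.Agent.Lib.MP_d4bba2_ag
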