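import Pool.Agent.Lib.MP_d4bba2_ag.Shifts

/-!
LEMMA A: at a special point the n-th coefficient has at most a simple pole.

Let m = max 1 ((n+1)/2): then 1 ≤ m, (m = 1 or 2 (m-1) < n), n ≤ 2m.  shifts gives σ, G with D2 F (x,σ,t) = t^m G.
P (x,t) = F (x, σ (x,t), t), taylor_last at x0: P = ∑_{i ≤ n} c i x t^i + t^(n+1) R'.
For y ≠ x0 near x0 and Form F y κ n B with root ρ, expand_reg at y gives
  F (x,ρ,t) = P - t^(2m) G (x,0)^2/(4 e x) + t^(2m+1) R.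
Compare the coefficients of t^n at x = y with ∑_{i<n} κ i t^i + t^n B (expansion_unique):
  n < 2m : B (y,0) = c n y,                           so e y * B (y,0) = e y * c n y;
  n = 2m : B (y,0) = c n y - G (y,0)^2 / (4 e y),       so e y * B (y,0) = e y * c n y - G (y,0)^2 / 4.
The right hand sides are analytic at x0.
-/

open scoped Topology
open Filter

noncomputable section

namespace Pool.Agent.Lib.MP_d4bba2_ag

/-- the comparison of coefficients at a regular point `y` -/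
theorem lemmaA_at {F : ℂ × ℂ × ℂ → ℂ} {y : ℂ} {e : ℂ → ℂ} (h : IsLoc F y e) (he : e y ≠ 0)
    {κ : ℕ → ℂ} {n m : ℕ} (hnm : n ≤ 2 * m)
    {σ G : ℂ × ℂ → ℂ} (hσ : AnalyticAt ℂ σ (y, 0)) (hσ0 : ∀ᶠ x in 𝓝 y, σ (x, 0) = 0)
    (hG : AnalyticAt ℂ G (y, 0))
    (hs : ∀ᶠ p : ℂ × ℂ in 𝓝 (y, 0), D2 F (p.1, σ p, p.2) = p.2 ^ m * G p)
    {c : ℕ → ℂ → ℂ} {R' : ℂ × ℂ → ℂ} (hR'a : AnalyticAt ℂ R' (y, 0))
    (hR' : ∀ᶠ p : ℂ × ℂ in 𝓝 (y, 0), F (p.1, σ p, p.2) =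
      ∑ i ∈ Finset.range (n + 1), c i p.1 * p.2 ^ i + p.2 ^ (n + 1) * R' p)
    {B : ℂ × ℂ → ℂ} (hB : Form F y κ n B) :
    e y * B (y, 0) = e y * c n y - (0 : ℂ) ^ (2 * m - n) * (G (y, 0) ^ 2 / 4) := by
  obtain ⟨ρ, hρ, hfe⟩ := hB.ex
  obtain ⟨-, R, hRa, hR⟩ := expand_reg h he hσ hσ0 hG hs hρ
  have hcurve : Tendsto (fun t : ℂ => ((y, t) : ℂ × ℂ)) (𝓝 0) (𝓝 (y, 0)) := by
    have hc : Continuous fun t : ℂ => ((y, t) : ℂ × ℂ) := by fun_prop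
    exact hc.tendsto' 0 (y, 0) rfl
  have hcont : ∀ {f : ℂ × ℂ → ℂ}, AnalyticAt ℂ f (y, 0) → ContinuousAt (fun t : ℂ => f (y, t)) 0 := by
    intro f hf
    exact hf.continuousAt.tendsto.comp hcurve
  have hE := expansion_unique κ (fun i => c i y) n (fun t => B (y, t))
    (fun t => c n y + t * R' (y, t) - t ^ (2 * m - n) * (G (y, 0) ^ 2 / (4 * e y)) +
      t ^ (2 * m + 1 - n) * R (y, t)) (hcont hB.an) (by
        have h1 := hcont hR'a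
        have h2 := hcont hRa
        fun_prop) (by
        refine Filter.Eventually.filter_mono nhdsWithin_le_nhds ?_
        filter_upwards [hcurve.eventually hfe, hcurve.eventually hR, hcurve.eventually hR'] with
          t ht1 ht2 ht3
        have e1 : t ^ (2 * m) = t ^ n * t ^ (2 * m - n) := by
          rw [← pow_add]; congr 1; omega
        have e2 : t ^ (2 * m + 1) = t ^ n * t ^ (2 * m + 1 - n) := by
          rw [← pow_add]; congr 1; omega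
        rw [← ht1, ht2, ht3, Finset.sum_range_succ, e1, e2]
        ring)
  have hB0 := hE.2
  have e3 : (0 : ℂ) ^ (2 * m + 1 - n) = 0 := by
    rw [zero_pow]; omega
  rw [hB0, e3]
  have h4 : e y * (G (y, 0) ^ 2 / (4 * e y)) = G (y, 0) ^ 2 / 4 := by
    field_simp
  linear_combination (-(0 : ℂ) ^ (2 * m - n)) * h4

theorem lemmaA {F : ℂ × ℂ × ℂ → ℂ} {x0 : ℂ} {e : ℂ → ℂ} (h : IsLoc F x0 e)
    (he0 : e x0 = 0) (he1 : deriv e x0 ≠ 0) {κ : ℕ → ℂ} {n : ℕ}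
    (hf : ∀ᶠ y in 𝓝[≠] x0, ∃ B, Form F y κ n B) :
    ∃ g : ℂ → ℂ, AnalyticAt ℂ g x0 ∧
      ∀ᶠ y in 𝓝[≠] x0, ∀ B, Form F y κ n B → e y * B (y, 0) = g y := by
  obtain ⟨m, hm1, hm2, hm3⟩ : ∃ m : ℕ, 1 ≤ m ∧ (m = 1 ∨ 2 * (m - 1) < n) ∧ n ≤ 2 * m := by
    rcases Nat.lt_or_ge n 3 with hn | hn
    · exact ⟨1, le_rfl, Or.inl rfl, by omega⟩
    · exact ⟨(n + 1) / 2, by omega, Or.inr (by omega), by omega⟩
  obtain ⟨σ, G, hσ, hσ0, hG, hs⟩ := shifts h he0 he1 hf m hm1 hm2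
  have hσx : σ (x0, 0) = 0 := hσ0.self_of_nhds
  have hP : AnalyticAt ℂ (fun p : ℂ × ℂ => F (p.1, σ p, p.2)) (x0, 0) := by
    have h1 : AnalyticAt ℂ (fun p : ℂ × ℂ => ((p.1, σ p, p.2) : ℂ × ℂ × ℂ)) (x0, 0) :=
      analyticAt_fst.prod (hσ.prod analyticAt_snd)
    refine AnalyticAt.comp (g := F) ?_ h1
    simp only [hσx]
    exact h.an
  obtain ⟨c, hc, hRR⟩ := taylor_last (fun p : ℂ × ℂ => F (p.1, σ p, p.2)) x0 hP
  obtain ⟨R', hR'a, hR'⟩ := hRR (n + 1)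
  refine ⟨fun y => e y * c n y - (0 : ℂ) ^ (2 * m - n) * (G (y, 0) ^ 2 / 4), ?_, ?_⟩
  · have h1 : AnalyticAt ℂ (fun y : ℂ => G (y, 0)) x0 := by
      have h2 : AnalyticAt ℂ (fun y : ℂ => ((y, 0) : ℂ × ℂ)) x0 :=
        analyticAt_id.prod analyticAt_const
      exact AnalyticAt.comp (g := G) hG h2
    have h3 : AnalyticAt ℂ (fun y : ℂ => G (y, 0) ^ 2 / 4) x0 := by
      simp only [div_eq_mul_inv]
      exact (h1.pow 2).mul analyticAt_const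
    exact (h.ean.mul (hc n)).sub (analyticAt_const.mul h3)
  · have hcx : Continuous fun y : ℂ => ((y, 0) : ℂ × ℂ) := by fun_prop
    have k0 : ∀ᶠ y in 𝓝[≠] x0, e y ≠ 0 := h.ean.differentiableAt.hasDerivAt.eventually_ne he1
    have k1 : ∀ᶠ y in 𝓝[≠] x0, IsLoc F y e := h.near.filter_mono nhdsWithin_le_nhds
    have k2 : ∀ᶠ y in 𝓝[≠] x0, AnalyticAt ℂ σ (y, 0) :=
      (hcx.continuousAt.eventually hσ.eventually_analyticAt).filter_mono nhdsWithin_le_nhds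
    have k3 : ∀ᶠ y in 𝓝[≠] x0, ∀ᶠ x in 𝓝 y, σ (x, 0) = 0 :=
      (eventually_eventually_nhds.2 hσ0).filter_mono nhdsWithin_le_nhds
    have k4 : ∀ᶠ y in 𝓝[≠] x0, AnalyticAt ℂ G (y, 0) :=
      (hcx.continuousAt.eventually hG.eventually_analyticAt).filter_mono nhdsWithin_le_nhds
    have k5 : ∀ᶠ y in 𝓝[≠] x0, ∀ᶠ p : ℂ × ℂ in 𝓝 (y, 0),
        D2 F (p.1, σ p, p.2) = p.2 ^ m * G p :=
      (hcx.continuousAt.eventually (eventually_eventually_nhds.2 hs)).filter_mono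
        nhdsWithin_le_nhds
    have k6 : ∀ᶠ y in 𝓝[≠] x0, AnalyticAt ℂ R' (y, 0) :=
      (hcx.continuousAt.eventually hR'a.eventually_analyticAt).filter_mono nhdsWithin_le_nhds
    have k7 : ∀ᶠ y in 𝓝[≠] x0, ∀ᶠ p : ℂ × ℂ in 𝓝 (y, 0), F (p.1, σ p, p.2) =
        ∑ i ∈ Finset.range (n + 1), c i p.1 * p.2 ^ i + p.2 ^ (n + 1) * R' p :=
      (hcx.continuousAt.eventually (eventually_eventually_nhds.2 hR')).filter_mono
        nhdsWithin_le_nhds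
    filter_upwards [k0, k1, k2, k3, k4, k5, k6, k7] with y j0 j1 j2 j3 j4 j5 j6 j7 B hB
    exact lemmaA_at j1 j0 hm3 j2 j3 j4 j5 j6 j7 hB

end Pool.Agent.Lib.MP_d4bba2_ag
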