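import Pool.Agent.Lib.MP_d4bba2_ag.Quad
import Pool.Agent.Lib.MP_d4bba2_ag.FormBasic

/-!
LEMMA C: the first coefficient which is not yet known to be constant has the same value at the point in both charts.

n = 0: B (x0,0) = F (x0, ρ (x0,0), 0) = F (x0,0,0) = F' (T (x0,0,0)) = F' (x0',0,0) = B' (x0',0).
n ≥ 1: let z(τ) = (x0, ρ (x0,τ), τ), z'(τ) = T (z(τ)) = (x', ξ', τ).
(1) A (x,t) = F (x, ρ (x,t), t) = ∑_{i<n} κ i t^i + t^n B (x,t) near (x0,0).  Derivative in x: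
    D1 F (x,ρ,t) + D2 F (x,ρ,t) * ρ_x = D1 F (x,ρ,t) = t^n * B_x (x,t).  So D1 F (z(τ)) = O(τ^n), D2 F (z(τ)) = 0.
(2) F = F' ∘ T near, so for v ∈ {(1,0,0),(0,1,0)}: fderiv F z v = fderiv F' (T z) (fderiv T z v), and the last component
    of fderiv T z v is 0 (T preserves t near).  Let a = D1 F' (T z), b = D2 F' (T z): a * M11 + b * M21 = D1 F z,
    a * M12 + b * M22 = D2 F z, with M the 2 × 2 block of fderiv T z; M is continuous in z and det M ≠ 0 at (x0,0,0)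
    because fderiv T (x0,0,0) is injective (and maps the plane of the first two coordinates to itself).  By Cramer
    b * det M = D2 F z * M11 - D1 F z * M12, so D2 F' (z'(τ)) = O(τ^n).
(3) quad for F' at x0': |ξ' - ρ' (x',τ)| ≤ C |D2 F' (z')| = O(τ^n) and
    F' (z') = F' (x', ρ' (x',τ), τ) + O(τ^(2n)) = ∑_{i<n} κ i τ^i + τ^n B' (x'(τ),τ) + O(τ^(2n)).
(4) F (z(τ)) = F' (z'(τ)), so τ^n (B (x0,τ) - B' (x'(τ),τ)) = O(τ^(2n)), divide by τ^n (τ ≠ 0) and let τ → 0: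
    x'(τ) → x0' and B, B' are continuous at (x0,0), (x0',0); n ≥ 1.
(All near τ = 0; the statement of (1) uses that ρ (x0, ·) → 0.)
-/

open scoped Topology
open Filter

noncomputable section

namespace Pool.Agent.Lib.MP_d4bba2_ag

private theorem lc_lin (L : ℂ × ℂ × ℂ →L[ℂ] ℂ) (a b : ℂ) :
    L (a, b, 0) = a * L (1, 0, 0) + b * L (0, 1, 0) := by
  have h : ((a, b, 0) : ℂ × ℂ × ℂ) = a • (1, 0, 0) + b • (0, 1, 0) := by
    simp
  rw [h, map_add, map_smul, map_smul, smul_eq_mul, smul_eq_mul]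

/-- the derivative in `x` of the critical value function -/
private theorem lc_D1 {F : ℂ × ℂ × ℂ → ℂ} {x0 : ℂ} (hF : AnalyticAt ℂ F (x0, 0, 0))
    {ρ : ℂ × ℂ → ℂ} (hρ : RootAt F x0 ρ) {S : ℂ → ℂ} {n : ℕ} {B : ℂ × ℂ → ℂ}
    (hB : AnalyticAt ℂ B (x0, 0))
    (hid : ∀ᶠ p : ℂ × ℂ in 𝓝 (x0, 0), F (p.1, ρ p, p.2) = S p.2 + p.2 ^ n * B p) :
    ∀ᶠ τ : ℂ in 𝓝 0, D1 F (x0, ρ (x0, τ), τ) = τ ^ n * fderiv ℂ B (x0, τ) (1, 0) ∧
      D2 F (x0, ρ (x0, τ), τ) = 0 := by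
  have hρ0 : ρ (x0, 0) = 0 := hρ.zero.self_of_nhds
  have hc : ContinuousAt (fun τ : ℂ => ((x0, τ) : ℂ × ℂ)) 0 := by fun_prop
  have hz : ContinuousAt (fun τ : ℂ => ((x0, ρ (x0, τ), τ) : ℂ × ℂ × ℂ)) 0 := by
    have h1 : ContinuousAt (fun τ : ℂ => ρ (x0, τ)) 0 :=
      ContinuousAt.comp (g := ρ) (f := fun τ : ℂ => ((x0, τ) : ℂ × ℂ)) hρ.an.continuousAt hc
    exact continuousAt_const.prodMk (h1.prodMk continuousAt_id)
  have hz0 : (fun τ : ℂ => ((x0, ρ (x0, τ), τ) : ℂ × ℂ × ℂ)) 0 = (x0, 0, 0) := by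
    simp [hρ0]
  have e1 : ∀ᶠ τ : ℂ in 𝓝 0, AnalyticAt ℂ F (x0, ρ (x0, τ), τ) := by
    refine hz.eventually ?_
    rw [hz0]
    exact hF.eventually_analyticAt
  have e2 : ∀ᶠ τ : ℂ in 𝓝 0, AnalyticAt ℂ ρ (x0, τ) := hc.eventually hρ.an.eventually_analyticAt
  have e3 : ∀ᶠ τ : ℂ in 𝓝 0, AnalyticAt ℂ B (x0, τ) := hc.eventually hB.eventually_analyticAt
  have e4 := hc.eventually (eventually_eventually_nhds.2 hid)
  have e5 := hc.eventually hρ.root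
  filter_upwards [e1, e2, e3, e4, e5] with τ a1 a2 a3 a4 a5
  refine ⟨?_, a5⟩
  have hin : HasDerivAt (fun x : ℂ => ((x, τ) : ℂ × ℂ)) (1, 0) x0 :=
    (hasDerivAt_id x0).prodMk (hasDerivAt_const x0 τ)
  have g1 : HasDerivAt (fun x : ℂ => ρ (x, τ)) (fderiv ℂ ρ (x0, τ) (1, 0)) x0 :=
    a2.differentiableAt.hasFDerivAt.comp_hasDerivAt x0 hin
  have g2 : HasDerivAt (fun x : ℂ => ((x, ρ (x, τ), τ) : ℂ × ℂ × ℂ))
      (1, fderiv ℂ ρ (x0, τ) (1, 0), 0) x0 :=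
    (hasDerivAt_id x0).prodMk (g1.prodMk (hasDerivAt_const x0 τ))
  have g3 : HasDerivAt (fun x : ℂ => F (x, ρ (x, τ), τ))
      (fderiv ℂ F (x0, ρ (x0, τ), τ) (1, fderiv ℂ ρ (x0, τ) (1, 0), 0)) x0 :=
    HasFDerivAt.comp_hasDerivAt (f := fun x : ℂ => ((x, ρ (x, τ), τ) : ℂ × ℂ × ℂ)) x0
      a1.differentiableAt.hasFDerivAt g2
  have g4 : HasDerivAt (fun x : ℂ => S τ + τ ^ n * B (x, τ))
      (τ ^ n * fderiv ℂ B (x0, τ) (1, 0)) x0 := by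
    have g5 : HasDerivAt (fun x : ℂ => B (x, τ)) (fderiv ℂ B (x0, τ) (1, 0)) x0 :=
      a3.differentiableAt.hasFDerivAt.comp_hasDerivAt x0 hin
    exact (g5.const_mul (τ ^ n)).const_add (S τ)
  have g6 : (fun x : ℂ => F (x, ρ (x, τ), τ)) =ᶠ[𝓝 x0] (fun x : ℂ => S τ + τ ^ n * B (x, τ)) := by
    have hc2 : ContinuousAt (fun x : ℂ => ((x, τ) : ℂ × ℂ)) x0 := by fun_prop
    exact hc2.eventually a4
  have g7 := g3.unique (g4.congr_of_eventuallyEq g6)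
  rw [lc_lin] at g7
  have a5' : fderiv ℂ F (x0, ρ (x0, τ), τ) (0, 1, 0) = 0 := a5
  rw [a5', mul_zero, add_zero, one_mul] at g7
  exact g7

/-- the relative differential in the second chart -/
private theorem lc_T {F F' : ℂ × ℂ × ℂ → ℂ} {x0 x0' : ℂ} {T : ℂ × ℂ × ℂ → ℂ × ℂ × ℂ}
    (hF' : AnalyticAt ℂ F' (x0', 0, 0)) (hT : Trans F x0 F' x0' T) :
    ∃ C : ℝ, 0 < C ∧ ∀ᶠ z in 𝓝 ((x0, 0, 0) : ℂ × ℂ × ℂ),
      ‖D2 F' (T z)‖ ≤ C * (‖D1 F z‖ + ‖D2 F z‖) := by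
  let u : ℂ × ℂ × ℂ → ℂ × ℂ × ℂ := fun z => fderiv ℂ T z (1, 0, 0)
  let v : ℂ × ℂ × ℂ → ℂ × ℂ × ℂ := fun z => fderiv ℂ T z (0, 1, 0)
  have hfc : ContinuousAt (fun z => fderiv ℂ T z) (x0, 0, 0) := hT.an.fderiv.continuousAt
  have hu : ContinuousAt u (x0, 0, 0) := hfc.clm_apply continuousAt_const
  have hv : ContinuousAt v (x0, 0, 0) := hfc.clm_apply continuousAt_const
  let dt : ℂ × ℂ × ℂ → ℂ := fun z => (u z).1 * (v z).2.1 - (v z).1 * (u z).2.1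
  have hdt : ContinuousAt dt (x0, 0, 0) :=
    (hu.fst.mul hv.snd.fst).sub (hv.fst.mul hu.snd.fst)
  have hTc : ContinuousAt T (x0, 0, 0) := hT.an.continuousAt
  -- last components
  have hlast : ∀ᶠ z in 𝓝 ((x0, 0, 0) : ℂ × ℂ × ℂ), ∀ w : ℂ × ℂ × ℂ,
      (fderiv ℂ T z w).2.2 = w.2.2 := by
    filter_upwards [hT.an.eventually_analyticAt, eventually_eventually_nhds.2 hT.t] with z a1 a2 w
    have b1 : HasFDerivAt (fun y => (T y).2.2)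
        ((ContinuousLinearMap.snd ℂ ℂ ℂ).comp ((ContinuousLinearMap.snd ℂ ℂ (ℂ × ℂ)).comp
          (fderiv ℂ T z))) z :=
      a1.differentiableAt.hasFDerivAt.snd.snd
    have b2 : HasFDerivAt (fun y : ℂ × ℂ × ℂ => y.2.2)
        ((ContinuousLinearMap.snd ℂ ℂ ℂ).comp (ContinuousLinearMap.snd ℂ ℂ (ℂ × ℂ))) z :=
      ((ContinuousLinearMap.snd ℂ ℂ ℂ).comp (ContinuousLinearMap.snd ℂ ℂ (ℂ × ℂ))).hasFDerivAt
    have b3 := b1.unique (b2.congr_of_eventuallyEq a2)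
    exact congrArg (fun L => L w) b3
  -- the determinant
  have hdt0 : dt (x0, 0, 0) ≠ 0 := by
    intro h0
    have hl := hlast.self_of_nhds
    have hex : ∀ a b : ℂ, fderiv ℂ T (x0, 0, 0) (a, b, 0) =
        a • u (x0, 0, 0) + b • v (x0, 0, 0) := by
      intro a b
      have : ((a, b, 0) : ℂ × ℂ × ℂ) = a • (1, 0, 0) + b • (0, 1, 0) := by simp
      rw [this, map_add, map_smul, map_smul]
    have hu3 : (u (x0, 0, 0)).2.2 = 0 := hl _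
    have hv3 : (v (x0, 0, 0)).2.2 = 0 := hl _
    have k1 : fderiv ℂ T (x0, 0, 0) ((v (x0, 0, 0)).2.1, -(u (x0, 0, 0)).2.1, 0) = 0 := by
      rw [hex]
      refine Prod.ext ?_ (Prod.ext ?_ ?_)
      · simp only [Prod.fst_add, Prod.smul_fst, smul_eq_mul, Prod.fst_zero]
        linear_combination h0
      · simp only [Prod.snd_add, Prod.smul_snd, Prod.fst_add, Prod.smul_fst, smul_eq_mul,
          Prod.snd_zero, Prod.fst_zero]
        ring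
      · simp only [Prod.snd_add, Prod.smul_snd, smul_eq_mul, Prod.snd_zero, hu3, hv3]
        ring
    have k2 : fderiv ℂ T (x0, 0, 0) (-(v (x0, 0, 0)).1, (u (x0, 0, 0)).1, 0) = 0 := by
      rw [hex]
      refine Prod.ext ?_ (Prod.ext ?_ ?_)
      · simp only [Prod.fst_add, Prod.smul_fst, smul_eq_mul, Prod.fst_zero]
        ring
      · simp only [Prod.snd_add, Prod.smul_snd, Prod.fst_add, Prod.smul_fst, smul_eq_mul,
          Prod.snd_zero, Prod.fst_zero]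
        linear_combination h0
      · simp only [Prod.snd_add, Prod.smul_snd, smul_eq_mul, Prod.snd_zero, hu3, hv3]
        ring
    have hz : fderiv ℂ T (x0, 0, 0) 0 = 0 := map_zero _
    have m1 := hT.inj (k1.trans hz.symm)
    have m2 := hT.inj (k2.trans hz.symm)
    have n1 : (u (x0, 0, 0)).2.1 = 0 := by
      have := congrArg (fun w : ℂ × ℂ × ℂ => w.2.1) m1
      simpa using this
    have n2 : (u (x0, 0, 0)).1 = 0 := by
      have := congrArg (fun w : ℂ × ℂ × ℂ => w.2.1) m2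
      simpa using this
    have n3 : u (x0, 0, 0) = 0 := Prod.ext n2 (Prod.ext n1 hu3)
    have n4 : ((1, 0, 0) : ℂ × ℂ × ℂ) = 0 := hT.inj (n3.trans hz.symm)
    have := congrArg (fun w : ℂ × ℂ × ℂ => w.1) n4
    simp at this
  -- identities
  have hTF' : ∀ᶠ z in 𝓝 ((x0, 0, 0) : ℂ × ℂ × ℂ), AnalyticAt ℂ F' (T z) := by
    refine hTc.eventually ?_
    rw [hT.pt]
    exact hF'.eventually_analyticAt
  have hid : ∀ᶠ z in 𝓝 ((x0, 0, 0) : ℂ × ℂ × ℂ),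
      D2 F' (T z) * dt z = (u z).1 * D2 F z - (v z).1 * D1 F z := by
    filter_upwards [hT.an.eventually_analyticAt, hTF', eventually_eventually_nhds.2 hT.eq, hlast]
      with z a1 a2 a3 a4
    have b1 : HasFDerivAt (fun y => F' (T y)) ((fderiv ℂ F' (T z)).comp (fderiv ℂ T z)) z :=
      HasFDerivAt.comp z a2.differentiableAt.hasFDerivAt a1.differentiableAt.hasFDerivAt
    have b2 : fderiv ℂ F z = (fderiv ℂ F' (T z)).comp (fderiv ℂ T z) :=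
      (b1.congr_of_eventuallyEq a3).fderiv
    have c1 : D1 F z = fderiv ℂ F' (T z) (u z) := by
      show fderiv ℂ F z (1, 0, 0) = _
      rw [b2]
      rfl
    have c2 : D2 F z = fderiv ℂ F' (T z) (v z) := by
      show fderiv ℂ F z (0, 1, 0) = _
      rw [b2]
      rfl
    have d1 : u z = ((u z).1, (u z).2.1, 0) := Prod.ext rfl (Prod.ext rfl (a4 _))
    have d2 : v z = ((v z).1, (v z).2.1, 0) := Prod.ext rfl (Prod.ext rfl (a4 _))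
    rw [d1, lc_lin] at c1
    rw [d2, lc_lin] at c2
    have f1 : fderiv ℂ F' (T z) (1, 0, 0) = D1 F' (T z) := rfl
    have f2 : fderiv ℂ F' (T z) (0, 1, 0) = D2 F' (T z) := rfl
    rw [f1, f2] at c1 c2
    rw [c1, c2]
    show D2 F' (T z) * ((u z).1 * (v z).2.1 - (v z).1 * (u z).2.1) = _
    ring
  -- bounds
  have hb1 : ∀ᶠ z in 𝓝 ((x0, 0, 0) : ℂ × ℂ × ℂ), ‖(u z).1‖ < ‖(u (x0, 0, 0)).1‖ + 1 :=
    hu.fst.norm.eventually_lt_const (lt_add_one _)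
  have hb2 : ∀ᶠ z in 𝓝 ((x0, 0, 0) : ℂ × ℂ × ℂ), ‖(v z).1‖ < ‖(v (x0, 0, 0)).1‖ + 1 :=
    hv.fst.norm.eventually_lt_const (lt_add_one _)
  have hpos : 0 < ‖dt (x0, 0, 0)‖ := norm_pos_iff.2 hdt0
  have hb3 : ∀ᶠ z in 𝓝 ((x0, 0, 0) : ℂ × ℂ × ℂ), ‖dt (x0, 0, 0)‖ / 2 < ‖dt z‖ :=
    hdt.norm.eventually_const_lt (by simp only; linarith)
  set M : ℝ := ‖(u (x0, 0, 0)).1‖ + 1 + (‖(v (x0, 0, 0)).1‖ + 1) with hM
  set d : ℝ := ‖dt (x0, 0, 0)‖ / 2 with hd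
  have hM1 : ‖(u (x0, 0, 0)).1‖ + 1 ≤ M := by
    have := norm_nonneg (v (x0, 0, 0)).1
    linarith
  have hM2 : ‖(v (x0, 0, 0)).1‖ + 1 ≤ M := by
    have := norm_nonneg (u (x0, 0, 0)).1
    linarith
  have hM0 : 0 < M := by
    have := norm_nonneg (u (x0, 0, 0)).1
    linarith
  have hd0 : 0 < d := by positivity
  refine ⟨M / d, by positivity, ?_⟩
  filter_upwards [hid, hb1, hb2, hb3] with z a1 a2 a3 a4
  have k1 : ‖D2 F' (T z)‖ * ‖dt z‖ ≤ M * (‖D1 F z‖ + ‖D2 F z‖) := by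
    rw [← norm_mul, a1]
    calc ‖(u z).1 * D2 F z - (v z).1 * D1 F z‖ ≤ ‖(u z).1 * D2 F z‖ + ‖(v z).1 * D1 F z‖ :=
          norm_sub_le _ _
      _ = ‖(u z).1‖ * ‖D2 F z‖ + ‖(v z).1‖ * ‖D1 F z‖ := by rw [norm_mul, norm_mul]
      _ ≤ M * ‖D2 F z‖ + M * ‖D1 F z‖ := by
          gcongr
          · linarith
          · linarith
      _ = M * (‖D1 F z‖ + ‖D2 F z‖) := by ring
  have k2 : ‖D2 F' (T z)‖ * d ≤ ‖D2 F' (T z)‖ * ‖dt z‖ := by gcongr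
  rw [div_mul_eq_mul_div, le_div_iff₀ hd0]
  exact k2.trans k1

theorem lemmaC {F F' : ℂ × ℂ × ℂ → ℂ} {x0 x0' : ℂ} {e e' : ℂ → ℂ}
    (h : IsLoc F x0 e) (he : e x0 ≠ 0) (h' : IsLoc F' x0' e') (he' : e' x0' ≠ 0)
    {κ : ℕ → ℂ} {n : ℕ} {B B' : ℂ × ℂ → ℂ} (hB : Form F x0 κ n B) (hB' : Form F' x0' κ n B')
    {T : ℂ × ℂ × ℂ → ℂ × ℂ × ℂ} (hT : Trans F x0 F' x0' T) : B (x0, 0) = B' (x0', 0) := by
  obtain ⟨ρ, hρ, hρe⟩ := hB.ex
  obtain ⟨ρ', hρ', hρe'⟩ := hB'.ex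
  have hρ0 : ρ (x0, 0) = 0 := hρ.zero.self_of_nhds
  have hρ0' : ρ' (x0', 0) = 0 := hρ'.zero.self_of_nhds
  rcases Nat.eq_zero_or_pos n with rfl | hn
  · have h1 := hρe.self_of_nhds
    have h2 := hρe'.self_of_nhds
    simp only [hρ0, hρ0', Finset.range_zero, Finset.sum_empty, pow_zero, one_mul, zero_add]
      at h1 h2
    have h3 := hT.eq.self_of_nhds
    rw [hT.pt] at h3
    rw [← h1, ← h2, h3]
  -- the curve
  have hc : ContinuousAt (fun τ : ℂ => ((x0, τ) : ℂ × ℂ)) 0 := by fun_prop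
  have hz : ContinuousAt (fun τ : ℂ => ((x0, ρ (x0, τ), τ) : ℂ × ℂ × ℂ)) 0 := by
    have h1 : ContinuousAt (fun τ : ℂ => ρ (x0, τ)) 0 :=
      ContinuousAt.comp (g := ρ) (f := fun τ : ℂ => ((x0, τ) : ℂ × ℂ)) hρ.an.continuousAt hc
    exact continuousAt_const.prodMk (h1.prodMk continuousAt_id)
  have hzt : Tendsto (fun τ : ℂ => ((x0, ρ (x0, τ), τ) : ℂ × ℂ × ℂ)) (𝓝 0) (𝓝 (x0, 0, 0)) := by
    have := hz.tendsto
    simpa [hρ0] using this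
  have hTt : Tendsto T (𝓝 (x0, 0, 0)) (𝓝 (x0', 0, 0)) := by
    have := hT.an.continuousAt.tendsto
    rwa [hT.pt] at this
  have hwt : Tendsto (fun τ : ℂ => T (x0, ρ (x0, τ), τ)) (𝓝 0) (𝓝 (x0', 0, 0)) := hTt.comp hzt
  obtain ⟨C1, hC1, hq⟩ := quad h' he' hρ'
  obtain ⟨C2, hC2, ht⟩ := lc_T h'.an hT
  have hD := lc_D1 (S := fun t => ∑ i ∈ Finset.range n, κ i * t ^ i) h.an hρ hB.an hρe
  -- bound of the derivative of `B`
  have hBc : ContinuousAt (fun τ : ℂ => ‖fderiv ℂ B (x0, τ) (1, 0)‖) 0 := by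
    have h1 : ContinuousAt (fun p => fderiv ℂ B p) (x0, 0) := hB.an.fderiv.continuousAt
    have h2 : ContinuousAt (fun τ : ℂ => fderiv ℂ B (x0, τ)) 0 :=
      ContinuousAt.comp (g := fun p => fderiv ℂ B p) (f := fun τ : ℂ => ((x0, τ) : ℂ × ℂ)) h1 hc
    exact (h2.clm_apply continuousAt_const).norm
  set K : ℝ := ‖fderiv ℂ B (x0, 0) (1, 0)‖ + 1 with hK
  have hK0 : 0 < K := by positivity
  have hBb : ∀ᶠ τ : ℂ in 𝓝 0, ‖fderiv ℂ B (x0, τ) (1, 0)‖ < K :=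
    hBc.eventually_lt_const (lt_add_one _)
  -- the main estimate
  have hpair : Tendsto (fun τ : ℂ => (((T (x0, ρ (x0, τ), τ)).1, τ) : ℂ × ℂ)) (𝓝 0)
      (𝓝 (x0', 0)) := by
    refine Tendsto.prodMk_nhds ?_ tendsto_id
    exact (continuous_fst.tendsto _).comp hwt
  have hmain : ∀ᶠ τ : ℂ in 𝓝 0, ‖τ ^ n * (B (x0, τ) - B' ((T (x0, ρ (x0, τ), τ)).1, τ))‖ ≤
      C1 * (C1 * (C2 * (‖τ‖ ^ n * K))) ^ 2 := by
    filter_upwards [hwt.eventually hq, hzt.eventually ht, hD, hBb, hc.eventually hρe,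
      hpair.eventually hρe', hzt.eventually hT.eq, hzt.eventually hT.t] with
      τ a1 a2 a3 a4 a5 a6 a7 a8
    set w := T (x0, ρ (x0, τ), τ) with hw
    obtain ⟨b1, b2⟩ := a1
    rw [a8] at b1 b2
    rw [a3.2, norm_zero, add_zero, a3.1, norm_mul, norm_pow] at a2
    have c1 : ‖D2 F' w‖ ≤ C2 * (‖τ‖ ^ n * K) := by
      refine a2.trans ?_
      gcongr
    have c2 : ‖w.2.1 - ρ' (w.1, τ)‖ ≤ C1 * (C2 * (‖τ‖ ^ n * K)) := by
      refine b1.trans ?_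
      gcongr
    have c3 : τ ^ n * (B (x0, τ) - B' (w.1, τ)) = F' w - F' (w.1, ρ' (w.1, τ), τ) := by
      rw [a6, ← a7, a5]
      ring
    rw [c3]
    refine b2.trans ?_
    gcongr
  -- the limit
  have hlim1 : Tendsto (fun τ : ℂ => B (x0, τ) - B' ((T (x0, ρ (x0, τ), τ)).1, τ)) (𝓝[≠] 0)
      (𝓝 (B (x0, 0) - B' (x0', 0))) := by
    have h1 : Tendsto (fun τ : ℂ => B (x0, τ)) (𝓝 0) (𝓝 (B (x0, 0))) :=
      ContinuousAt.comp (g := B) (f := fun τ : ℂ => ((x0, τ) : ℂ × ℂ)) hB.an.continuousAt hc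
    have h2 : Tendsto (fun τ : ℂ => B' ((T (x0, ρ (x0, τ), τ)).1, τ)) (𝓝 0) (𝓝 (B' (x0', 0))) :=
      hB'.an.continuousAt.tendsto.comp hpair
    exact (h1.sub h2).mono_left nhdsWithin_le_nhds
  have hlim2 : Tendsto (fun τ : ℂ => B (x0, τ) - B' ((T (x0, ρ (x0, τ), τ)).1, τ)) (𝓝[≠] 0)
      (𝓝 0) := by
    have h1 : ∀ᶠ τ : ℂ in 𝓝[≠] 0, ‖B (x0, τ) - B' ((T (x0, ρ (x0, τ), τ)).1, τ)‖ ≤
        C1 * (C1 * (C2 * K)) ^ 2 * ‖τ‖ ^ n := by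
      filter_upwards [hmain.filter_mono nhdsWithin_le_nhds, self_mem_nhdsWithin] with τ a1 a2
      have hτ : 0 < ‖τ‖ ^ n := pow_pos (norm_pos_iff.2 a2) n
      rw [norm_mul, norm_pow] at a1
      have h2 : C1 * (C1 * (C2 * (‖τ‖ ^ n * K))) ^ 2 =
          ‖τ‖ ^ n * (C1 * (C1 * (C2 * K)) ^ 2 * ‖τ‖ ^ n) := by ring
      rw [h2] at a1
      exact le_of_mul_le_mul_left a1 hτ
    refine squeeze_zero_norm' h1 ?_
    have h3 : Tendsto (fun τ : ℂ => C1 * (C1 * (C2 * K)) ^ 2 * ‖τ‖ ^ n) (𝓝 0)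
        (𝓝 (C1 * (C1 * (C2 * K)) ^ 2 * ‖(0 : ℂ)‖ ^ n)) := by
      exact Continuous.tendsto (by fun_prop) _
    rw [norm_zero, zero_pow hn.ne', mul_zero] at h3
    exact h3.mono_left nhdsWithin_le_nhds
  exact sub_eq_zero.1 (tendsto_nhds_unique hlim1 hlim2)

end Pool.Agent.Lib.MP_d4bba2_ag
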