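import Mathlib

/-!
Local definitions. A point of the local threefold is `(x, ξ, t) : ℂ × ℂ × ℂ`; `D1` and `D2` are
the partial derivatives with respect to `x` and `ξ`.
-/

open scoped Topology
open Filter

noncomputable section

namespace Pool.Agent.Lib.MP_d4bba2_ag

/-- partial derivative with respect to `x` -/
def D1 (F : ℂ × ℂ × ℂ → ℂ) (z : ℂ × ℂ × ℂ) : ℂ := fderiv ℂ F z (1, 0, 0)

/-- partial derivative with respect to `ξ` -/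
def D2 (F : ℂ × ℂ × ℂ → ℂ) (z : ℂ × ℂ × ℂ) : ℂ := fderiv ℂ F z (0, 1, 0)

/-- `F` is analytic at `(x0, 0, 0)` and `F (x, ξ, 0) = e x * ξ ^ 2` there. -/
structure IsLoc (F : ℂ × ℂ × ℂ → ℂ) (x0 : ℂ) (e : ℂ → ℂ) : Prop where
  an : AnalyticAt ℂ F (x0, 0, 0)
  ean : AnalyticAt ℂ e x0
  eq : ∀ᶠ p : ℂ × ℂ in 𝓝 (x0, 0), F (p.1, p.2, 0) = e p.1 * p.2 ^ 2

/-- `ξ = ρ (x, t)` solves `D2 F = 0` near `(x0, 0, 0)`, with `ρ (x, 0) = 0`. -/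
structure RootAt (F : ℂ × ℂ × ℂ → ℂ) (x0 : ℂ) (ρ : ℂ × ℂ → ℂ) : Prop where
  an : AnalyticAt ℂ ρ (x0, 0)
  zero : ∀ᶠ x in 𝓝 x0, ρ (x, 0) = 0
  root : ∀ᶠ p : ℂ × ℂ in 𝓝 (x0, 0), D2 F (p.1, ρ p, p.2) = 0

/-- The critical value function `A (x, t) = F (x, ρ (x, t), t)` is
`∑ i < n, κ i * t ^ i + t ^ n * B (x, t)` near `(x0, 0)`. -/
structure Form (F : ℂ × ℂ × ℂ → ℂ) (x0 : ℂ) (κ : ℕ → ℂ) (n : ℕ) (B : ℂ × ℂ → ℂ) : Prop where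
  an : AnalyticAt ℂ B (x0, 0)
  ex : ∃ ρ, RootAt F x0 ρ ∧ ∀ᶠ p : ℂ × ℂ in 𝓝 (x0, 0),
    F (p.1, ρ p, p.2) = ∑ i ∈ Finset.range n, κ i * p.2 ^ i + p.2 ^ n * B p

/-- A change of coordinates `T` over the `t`-line with `F = F' ∘ T`. -/
structure Trans (F : ℂ × ℂ × ℂ → ℂ) (x0 : ℂ) (F' : ℂ × ℂ × ℂ → ℂ) (x0' : ℂ)
    (T : ℂ × ℂ × ℂ → ℂ × ℂ × ℂ) : Prop where
  an : AnalyticAt ℂ T (x0, 0, 0)
  pt : T (x0, 0, 0) = (x0', 0, 0)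
  t : ∀ᶠ z : ℂ × ℂ × ℂ in 𝓝 (x0, 0, 0), (T z).2.2 = z.2.2
  eq : ∀ᶠ z : ℂ × ℂ × ℂ in 𝓝 (x0, 0, 0), F z = F' (T z)
  inj : Function.Injective (fderiv ℂ T (x0, 0, 0))

/-- `k` is analytic at `0` with Taylor coefficients `κ`. -/
structure HasCoeffs (k : ℂ → ℂ) (κ : ℕ → ℂ) : Prop where
  an : AnalyticAt ℂ k 0
  approx : ∀ n : ℕ, (fun t : ℂ => k t - ∑ i ∈ Finset.range n, κ i * t ^ i) =O[𝓝 0]
    (fun t : ℂ => t ^ n)

/-- The local data of a deformation along the curve `C`: for every point `q` of `C` a local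
function `F q` near `(x q, 0, 0)` with `F q (x, ξ, 0) = e q x * ξ ^ 2`, where `e q` does not
vanish at `x q` or has a simple zero there; `pt q y` is the point of `C` with coordinate `y` in the
chart of `q`; the charts at two nearby points differ by a `Trans`; and `rigid` says that a function
on `C` which is holomorphic where `e ≠ 0` and has at most simple poles at the zeros of `e` is
constant. -/
structure LocSys where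
  Q : Type
  F : Q → ℂ × ℂ × ℂ → ℂ
  e : Q → ℂ → ℂ
  x : Q → ℂ
  pt : Q → ℂ → Q
  loc : ∀ q, IsLoc (F q) (x q) (e q)
  ne : ∀ q, e q (x q) ≠ 0 ∨ deriv (e q) (x q) ≠ 0
  pt_self : ∀ q, pt q (x q) = q
  trans : ∀ q, ∀ᶠ y in 𝓝 (x q), e q y ≠ 0 →
    e (pt q y) (x (pt q y)) ≠ 0 ∧ ∃ T, Trans (F (pt q y)) (x (pt q y)) (F q) y T
  rigid : ∀ a : Q → ℂ,
    (∀ q, e q (x q) ≠ 0 → ∃ g, AnalyticAt ℂ g (x q) ∧ ∀ᶠ y in 𝓝 (x q), a (pt q y) = g y) →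
    (∀ q, e q (x q) = 0 → ∃ g, AnalyticAt ℂ g (x q) ∧
      ∀ᶠ y in 𝓝[≠] (x q), e q y * a (pt q y) = g y) →
    ∃ c, ∀ q, e q (x q) ≠ 0 → a q = c

/-- `IsLoc` at nearby points -/
theorem IsLoc.near {F : ℂ × ℂ × ℂ → ℂ} {x0 : ℂ} {e : ℂ → ℂ} (h : IsLoc F x0 e) :
    ∀ᶠ y in 𝓝 x0, IsLoc F y e := by
  have h1 : ∀ᶠ y in 𝓝 x0, AnalyticAt ℂ F (y, 0, 0) := by
    have hc : Continuous fun y : ℂ => ((y, 0, 0) : ℂ × ℂ × ℂ) := by fun_prop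
    exact hc.continuousAt.eventually h.an.eventually_analyticAt
  have h2 : ∀ᶠ y in 𝓝 x0, AnalyticAt ℂ e y := h.ean.eventually_analyticAt
  have h3 : ∀ᶠ y in 𝓝 x0, ∀ᶠ p : ℂ × ℂ in 𝓝 (y, 0), F (p.1, p.2, 0) = e p.1 * p.2 ^ 2 := by
    have hc : Continuous fun y : ℂ => ((y, 0) : ℂ × ℂ) := by fun_prop
    exact hc.continuousAt.eventually (eventually_eventually_nhds.2 h.eq)
  filter_upwards [h1, h2, h3] with y a b c
  exact ⟨a, b, c⟩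

/-- `RootAt` at nearby points -/
theorem RootAt.near {F : ℂ × ℂ × ℂ → ℂ} {x0 : ℂ} {ρ : ℂ × ℂ → ℂ} (h : RootAt F x0 ρ) :
    ∀ᶠ y in 𝓝 x0, RootAt F y ρ := by
  have hc : Continuous fun y : ℂ => ((y, 0) : ℂ × ℂ) := by fun_prop
  have h1 : ∀ᶠ y in 𝓝 x0, AnalyticAt ℂ ρ (y, 0) :=
    hc.continuousAt.eventually h.an.eventually_analyticAt
  have h3 := hc.continuousAt.eventually (eventually_eventually_nhds.2 h.root)
  filter_upwards [h1, eventually_eventually_nhds.2 h.zero, h3] with y a b c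
  exact ⟨a, b, c⟩

/-- `Form` at nearby points -/
theorem Form.near {F : ℂ × ℂ × ℂ → ℂ} {x0 : ℂ} {κ : ℕ → ℂ} {n : ℕ} {B : ℂ × ℂ → ℂ}
    (h : Form F x0 κ n B) : ∀ᶠ y in 𝓝 x0, Form F y κ n B := by
  obtain ⟨ρ, hρ, he⟩ := h.ex
  have hc : Continuous fun y : ℂ => ((y, 0) : ℂ × ℂ) := by fun_prop
  have h1 : ∀ᶠ y in 𝓝 x0, AnalyticAt ℂ B (y, 0) :=
    hc.continuousAt.eventually h.an.eventually_analyticAt
  have h3 := hc.continuousAt.eventually (eventually_eventually_nhds.2 he)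
  filter_upwards [h1, hρ.near, h3] with y a b c
  exact ⟨a, ρ, b, c⟩

end Pool.Agent.Lib.MP_d4bba2_ag
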