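import Pool.Agent.Lib.MP_d4bba2_ag.LemmaA
import Pool.Agent.Lib.MP_d4bba2_ag.LemmaC

/-!
THE INDUCTION STEP FOR A LocSys.  AllAt L κ n: at every regular point q there is a Form with n.

near_forms.  Fix q.  For all y in a neighbourhood of x q: IsLoc (F q) y (e q) and the conclusion of L.trans at y (both are
eventual, use eventually_eventually_nhds to have them also for all y' near y).  Let y be such a point with e q y ≠ 0
(then e q y' ≠ 0 for y' near y, continuity of e q at y since IsLoc.ean).  Induction on m ≤ n: Form (F q) y κ m B.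
m = 0: form_zero.  m < n, m → m+1: by Form.near, Form (F q) y' κ m B for y' near y.  Let q' = pt q y', x' = x q'.
AllAt L κ n at q' and form_trunc (m < n) give B' with Form (F q') x' κ m B' and B' (x',0) = κ m.  lemmaC with
Trans (F q') x' (F q) y' T: B' (x',0) = B (y',0).  So B (y',0) = κ m for y' near y and form_step gives m+1.

step.  Let a q = B (x q,0) for regular q (B chosen from AllAt), a q = 0 otherwise.
(1) q regular: Form (F q) (x q) κ n B, Form.near: for y near x q, Form (F q) y κ n B, and lemmaC with L.trans: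
    a (pt q y) = B_{pt q y} (x (pt q y), 0) = B (y,0), analytic in y at x q.
(2) q special (e q (x q) = 0, deriv ≠ 0): near_forms gives hf for lemmaA (simple_zero_ne: e q y ≠ 0 for y ≠ x q near), and
    a (pt q y) = B (y,0) for any Form (F q) y κ n B, again by lemmaC; so e q y * a (pt q y) = g y.
L.rigid: a q = c for all regular q.  Then (1) shows B_q (y,0) = a (pt q y) = c for y near x q (pt q y is regular by
L.trans), so form_step applies to Form (F q) (x q) κ' n B with κ' = Function.update κ n c (form_congr: κ' = κ below n).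
-/

open scoped Topology
open Filter

noncomputable section

namespace Pool.Agent.Lib.MP_d4bba2_ag

def AllAt (L : LocSys) (κ : ℕ → ℂ) (n : ℕ) : Prop :=
  ∀ q, L.e q (L.x q) ≠ 0 → ∃ B, Form (L.F q) (L.x q) κ n B

/-- what is needed at a point `y` near `x q` -/
private def LocSysStepGood (L : LocSys) (q : L.Q) (y : ℂ) : Prop :=
  IsLoc (L.F q) y (L.e q) ∧ (L.e q y ≠ 0 →
    L.e (L.pt q y) (L.x (L.pt q y)) ≠ 0 ∧ ∃ T, Trans (L.F (L.pt q y)) (L.x (L.pt q y)) (L.F q) y T)

private theorem locSysStep_good (L : LocSys) (q : L.Q) :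
    ∀ᶠ y in 𝓝 (L.x q), LocSysStepGood L q y := by
  filter_upwards [(L.loc q).near, L.trans q] with y h1 h2
  exact ⟨h1, h2⟩

private theorem locSysStep_core (L : LocSys) {κ : ℕ → ℂ} {n : ℕ} (hn : AllAt L κ n) (q : L.Q)
    {y : ℂ} (hy : ∀ᶠ y' in 𝓝 y, LocSysStepGood L q y') (hey : L.e q y ≠ 0) :
    ∀ m, m ≤ n → ∃ B, Form (L.F q) y κ m B := by
  intro m
  induction m with
  | zero =>
    intro _
    exact form_zero hy.self_of_nhds.1 hey κ
  | succ m ih =>
    intro hm
    obtain ⟨B, hB⟩ := ih (by omega)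
    refine form_step hB ?_
    have hec : ∀ᶠ y' in 𝓝 y, L.e q y' ≠ 0 :=
      hy.self_of_nhds.1.ean.continuousAt.eventually_ne hey
    filter_upwards [hB.near, hy, hec] with y' h1 h2 h3
    obtain ⟨h4, T, hT⟩ := h2.2 h3
    obtain ⟨Bf, hBf⟩ := hn (L.pt q y') h4
    obtain ⟨B', hB', hB'c⟩ := form_trunc hBf (show m < n by omega)
    have h5 := lemmaC (L.loc (L.pt q y')) h4 h2.1 h3 hB' h1 hT
    rw [← h5]
    exact hB'c.self_of_nhds

theorem near_forms (L : LocSys) {κ : ℕ → ℂ} {n : ℕ} (hn : AllAt L κ n) (q : L.Q) :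
    ∀ᶠ y in 𝓝 (L.x q), L.e q y ≠ 0 → ∃ B, Form (L.F q) y κ n B := by
  filter_upwards [eventually_eventually_nhds.2 (locSysStep_good L q)] with y hy hey
  exact locSysStep_core L hn q hy hey n le_rfl

/-- the same for all `n` with one neighbourhood -/
theorem near_forms_all (L : LocSys) {κ : ℕ → ℂ} (hn : ∀ n, AllAt L κ n) (q : L.Q) :
    ∀ᶠ y in 𝓝 (L.x q), L.e q y ≠ 0 → ∀ n, ∃ B, Form (L.F q) y κ n B := by
  filter_upwards [eventually_eventually_nhds.2 (locSysStep_good L q)] with y hy hey n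
  exact locSysStep_core L (hn n) q hy hey n le_rfl

open Classical in
/-- the coefficient at the point `q` -/
private def locSysStepA (L : LocSys) {κ : ℕ → ℂ} {n : ℕ} (hn : AllAt L κ n) (q : L.Q) : ℂ :=
  if h : L.e q (L.x q) ≠ 0 then (Classical.choose (hn q h)) (L.x q, 0) else 0

private theorem locSysStep_a (L : LocSys) {κ : ℕ → ℂ} {n : ℕ} (hn : AllAt L κ n) (q : L.Q)
    {y : ℂ} (hy : LocSysStepGood L q y) (hey : L.e q y ≠ 0) {B : ℂ × ℂ → ℂ}
    (hB : Form (L.F q) y κ n B) : locSysStepA L hn (L.pt q y) = B (y, 0) := by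
  obtain ⟨h4, T, hT⟩ := hy.2 hey
  unfold locSysStepA
  rw [dif_pos h4]
  exact lemmaC (L.loc (L.pt q y)) h4 hy.1 hey (Classical.choose_spec (hn (L.pt q y) h4)) hB hT

theorem locsys_step (L : LocSys) {κ : ℕ → ℂ} {n : ℕ} (hn : AllAt L κ n) :
    ∃ c, AllAt L (Function.update κ n c) (n + 1) := by
  obtain ⟨c, hc⟩ := L.rigid (locSysStepA L hn)
    (fun q hq => by
      obtain ⟨B, hB⟩ := hn q hq
      refine ⟨fun y => B (y, 0), ?_, ?_⟩
      · have h1 : AnalyticAt ℂ (fun y : ℂ => ((y, 0) : ℂ × ℂ)) (L.x q) :=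
          analyticAt_id.prod analyticAt_const
        exact AnalyticAt.fun_comp (f := fun y : ℂ => ((y, 0) : ℂ × ℂ)) (g := B) hB.an h1
      · have hec : ∀ᶠ y' in 𝓝 (L.x q), L.e q y' ≠ 0 :=
          (L.loc q).ean.continuousAt.eventually_ne hq
        filter_upwards [locSysStep_good L q, hB.near, hec] with y h1 h2 h3
        exact locSysStep_a L hn q h1 h3 h2)
    (fun q hq => by
      have hd : deriv (L.e q) (L.x q) ≠ 0 := by
        rcases L.ne q with h | h
        · exact absurd hq h
        · exact h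
      have hne := simple_zero_ne (L.loc q).ean (L.ne q)
      obtain ⟨g, hg, hg2⟩ := lemmaA (κ := κ) (n := n) (L.loc q) hq hd (by
        filter_upwards [hne, (near_forms L hn q).filter_mono nhdsWithin_le_nhds] with y h1 h2
        exact h2 h1)
      refine ⟨g, hg, ?_⟩
      filter_upwards [hne, (near_forms L hn q).filter_mono nhdsWithin_le_nhds, hg2,
        (locSysStep_good L q).filter_mono nhdsWithin_le_nhds] with y h1 h2 h3 h4
      obtain ⟨B, hB⟩ := h2 h1
      rw [locSysStep_a L hn q h4 h1 hB]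
      exact h3 B hB)
  refine ⟨c, fun q hq => ?_⟩
  obtain ⟨B, hB⟩ := hn q hq
  have hB' : Form (L.F q) (L.x q) (Function.update κ n c) n B :=
    form_congr (fun i hi => by rw [Function.update_of_ne (by omega)]) hB
  refine form_step hB' ?_
  have hec : ∀ᶠ y' in 𝓝 (L.x q), L.e q y' ≠ 0 :=
    (L.loc q).ean.continuousAt.eventually_ne hq
  filter_upwards [locSysStep_good L q, hB.near, hec] with y h1 h2 h3
  rw [Function.update_self, ← locSysStep_a L hn q h1 h3 h2]
  exact hc _ (h1.2 h3).1

end Pool.Agent.Lib.MP_d4bba2_ag
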