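import Pool.Agent.Lib.MP_d4bba2_ag.Adapted
import Pool.Agent.Lib.MP_d4bba2_ag.Loc
import Pool.Agent.Lib.MP_d4bba2_ag.CritLocal

/-!
THE LOCAL FUNCTION locF z = βi (Φ (Λ z)).1 of a family in adapted coordinates, βi = germ of the inverse of β.

beta_inv: analytic_inverse with E = ℂ (AnalyticOnNhd β on the ball, deriv β 0 ≠ 0, β 0 = 0).
locF_an: composition (Λ is ContMDiffAt into X, Φ is ContMDiff; a ContMDiffAt map of degree ω between normed spaces is analytic: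
contMDiffAt_iff_contDiffAt, contDiffAt_omega_iff_analyticAt); the point: Φ (Λ pt) = Φ (j q) = (β 0, 0) = (0,0).
locF_base: Λ (x,ξ,0) = j (κ.symm (x,ξ)), Φ_j (the point κ.symm p is in G.f ⁻¹' ball 0 ε for p near κ q), βi (β b) = b.
locF_phi: Φ (Λ z) = (β (locF z), z.2.2) near the base point: β (βi b) = b and Adapted.t.
sing_crit: at z near the base point let Φ ∘ Λ = (β ∘ locF, t) near z (eventually_eventually_nhds).  If D1 locF z ≠ 0 or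
D2 locF z ≠ 0 then the derivative of Φ ∘ Λ at z is surjective: a vector v = (1,0,0) or (0,1,0) goes to (β' (locF z) * D, 0) with
β' ≠ 0 near 0, and (0,0,1) goes to (*, 1).  It is mfderiv Φ (Λ z) ∘ mfderiv Λ z (Λ is differentiable at z: an.eventually
near), so mfderiv Φ (Λ z) is surjective.
smooth_near: q not critical: locF (x,ξ,0) = f (κ.symm (x,ξ)) near κ q has non zero derivative at κ q (crit_iff_chart style
argument: mfderiv f q ≠ 0), so D1 locF or D2 locF is ≠ 0 at the base point, hence near it (continuity), and for w near j q: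
w = Λ (Λ' w) with Λ' w near the base point; sing_crit.
-/

open scoped Manifold ContDiff Topology
open Filter

noncomputable section

universe u

namespace Pool.Agent.Lib.MP_d4bba2_ag

structure BetaInv {G : FibreGerm} (F : SplittingFamily.{u} G) (βi : ℂ → ℂ) : Prop where
  an : AnalyticAt ℂ βi 0
  zero : βi 0 = 0
  left : ∀ᶠ b in 𝓝 (0 : ℂ), βi (F.β b) = b
  right : ∀ᶠ b in 𝓝 (0 : ℂ), F.β (βi b) = b

theorem beta_inv {G : FibreGerm} (F : SplittingFamily.{u} G) : ∃ βi, BetaInv F βi := by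
  have h0 : AnalyticAt ℂ F.β 0 := F.β_holo 0 (Metric.mem_ball_self F.ε_pos)
  have hi : Function.Injective (fderiv ℂ F.β 0) := by
    rw [injective_iff_map_eq_zero]
    intro v hv
    rw [fderiv_eq_smul_deriv, smul_eq_mul] at hv
    exact (mul_eq_zero.1 hv).resolve_right F.β_deriv
  obtain ⟨βi, h1, h2, h3, h4⟩ := analytic_inverse h0 hi
  rw [F.β_zero] at h1 h2 h4
  exact ⟨βi, h1, h2, h3, h4⟩

def locF {G : FibreGerm} (F : SplittingFamily.{u} G) (βi : ℂ → ℂ) (Λ : ℂ × ℂ × ℂ → F.X)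
    (z : ℂ × ℂ × ℂ) : ℂ := βi (F.Φ (Λ z)).1

private theorem LocalF_mem {G : FibreGerm} (F : SplittingFamily.{u} G) {q : G.S}
    (hq : G.f q = 0) : q ∈ G.f ⁻¹' Metric.ball 0 F.ε := by
  rw [Set.mem_preimage, hq]
  exact Metric.mem_ball_self F.ε_pos

private theorem LocalF_pt {G : FibreGerm} {F : SplittingFamily.{u} G} {q : G.S}
    (hq : G.f q = 0) {κ : OpenPartialHomeomorph G.S (ℂ × ℂ)}
    {Λ : ℂ × ℂ × ℂ → F.X} {Λ' : F.X → ℂ × ℂ × ℂ} (hA : Adapted F q κ Λ Λ') :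
    F.Φ (Λ ((κ q).1, (κ q).2, 0)) = (0, 0) := by
  rw [hA.pt, F.Φ_j q (LocalF_mem F hq), hq, F.β_zero]

private theorem LocalF_phi_an {G : FibreGerm} {F : SplittingFamily.{u} G} {q : G.S}
    {κ : OpenPartialHomeomorph G.S (ℂ × ℂ)}
    {Λ : ℂ × ℂ × ℂ → F.X} {Λ' : F.X → ℂ × ℂ × ℂ} (hA : Adapted F q κ Λ Λ') :
    AnalyticAt ℂ (fun z => F.Φ (Λ z)) ((κ q).1, (κ q).2, 0) := by
  refine ContDiffAt.analyticAt ?_
  rw [← contMDiffAt_iff_contDiffAt]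
  exact ContMDiffAt.comp (g := F.Φ) (f := Λ) ((κ q).1, (κ q).2, (0 : ℂ))
    (F.holo (Λ ((κ q).1, (κ q).2, 0))) hA.an

theorem locF_an {G : FibreGerm} {F : SplittingFamily.{u} G} {q : G.S} (hq : G.f q = 0)
    {κ : OpenPartialHomeomorph G.S (ℂ × ℂ)}
    {Λ : ℂ × ℂ × ℂ → F.X} {Λ' : F.X → ℂ × ℂ × ℂ} (hA : Adapted F q κ Λ Λ') {βi : ℂ → ℂ}
    (hβ : BetaInv F βi) : AnalyticAt ℂ (locF F βi Λ) ((κ q).1, (κ q).2, 0) := by
  have h1 : AnalyticAt ℂ (fun z => (F.Φ (Λ z)).1) ((κ q).1, (κ q).2, 0) :=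
    analyticAt_fst.comp (LocalF_phi_an hA)
  refine AnalyticAt.comp (g := βi) (f := fun z => (F.Φ (Λ z)).1) ?_ h1
  rw [LocalF_pt hq hA]
  exact hβ.an

theorem locF_base {G : FibreGerm} {F : SplittingFamily.{u} G} {q : G.S} (hq : G.f q = 0)
    {κ : OpenPartialHomeomorph G.S (ℂ × ℂ)} (hqs : q ∈ κ.source)
    {Λ : ℂ × ℂ × ℂ → F.X} {Λ' : F.X → ℂ × ℂ × ℂ} (hA : Adapted F q κ Λ Λ') {βi : ℂ → ℂ}
    (hβ : BetaInv F βi) :
    ∀ᶠ p : ℂ × ℂ in 𝓝 (κ q), locF F βi Λ (p.1, p.2, 0) = G.f (κ.symm p) := by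
  have hc : Tendsto (fun p => G.f (κ.symm p)) (𝓝 (κ q)) (𝓝 0) := by
    have h1 : Tendsto κ.symm (𝓝 (κ q)) (𝓝 q) := κ.tendsto_symm hqs
    have h2 : Tendsto G.f (𝓝 q) (𝓝 (G.f q)) := G.holo.continuous.continuousAt
    rw [hq] at h2
    exact h2.comp h1
  have hb : ∀ᶠ p in 𝓝 (κ q), G.f (κ.symm p) ∈ Metric.ball (0 : ℂ) F.ε :=
    hc (Metric.ball_mem_nhds _ F.ε_pos)
  filter_upwards [hA.base, hb, hc.eventually hβ.left] with p h1 h2 h3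
  show βi (F.Φ (Λ (p.1, p.2, 0))).1 = _
  rw [h1, F.Φ_j _ h2]
  exact h3

theorem locF_phi {G : FibreGerm} {F : SplittingFamily.{u} G} {q : G.S} (hq : G.f q = 0)
    {κ : OpenPartialHomeomorph G.S (ℂ × ℂ)}
    {Λ : ℂ × ℂ × ℂ → F.X} {Λ' : F.X → ℂ × ℂ × ℂ} (hA : Adapted F q κ Λ Λ') {βi : ℂ → ℂ}
    (hβ : BetaInv F βi) :
    ∀ᶠ z : ℂ × ℂ × ℂ in 𝓝 ((κ q).1, (κ q).2, 0),
      F.Φ (Λ z) = (F.β (locF F βi Λ z), z.2.2) := by
  have hc : Tendsto (fun z => (F.Φ (Λ z)).1) (𝓝 ((κ q).1, (κ q).2, (0 : ℂ))) (𝓝 0) := by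
    have h1 := (LocalF_phi_an hA).continuousAt
    have h2 : Tendsto (fun z => (F.Φ (Λ z)).1) (𝓝 ((κ q).1, (κ q).2, (0 : ℂ)))
        (𝓝 ((F.Φ (Λ ((κ q).1, (κ q).2, 0))).1)) := h1.fst
    rw [LocalF_pt hq hA] at h2
    exact h2
  filter_upwards [hA.t, hc.eventually hβ.right] with z h1 h2
  refine Prod.ext ?_ h1
  exact h2.symm

private theorem LocalF_beta {G : FibreGerm} (F : SplittingFamily.{u} G) :
    ∀ᶠ b in 𝓝 (0 : ℂ), DifferentiableAt ℂ F.β b ∧ deriv F.β b ≠ 0 := by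
  have h0 : AnalyticAt ℂ F.β 0 := F.β_holo 0 (Metric.mem_ball_self F.ε_pos)
  have h1 : ∀ᶠ b in 𝓝 (0 : ℂ), AnalyticAt ℂ F.β b := h0.eventually_analyticAt
  have h2 : ∀ᶠ b in 𝓝 (0 : ℂ), deriv F.β b ≠ 0 :=
    h0.deriv.continuousAt.eventually_ne F.β_deriv
  filter_upwards [h1, h2] with b h3 h4
  exact ⟨h3.differentiableAt, h4⟩

theorem sing_crit {G : FibreGerm} {F : SplittingFamily.{u} G} {q : G.S} (hq : G.f q = 0)
    {κ : OpenPartialHomeomorph G.S (ℂ × ℂ)}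
    {Λ : ℂ × ℂ × ℂ → F.X} {Λ' : F.X → ℂ × ℂ × ℂ} (hA : Adapted F q κ Λ Λ') {βi : ℂ → ℂ}
    (hβ : BetaInv F βi) :
    ∀ᶠ z : ℂ × ℂ × ℂ in 𝓝 ((κ q).1, (κ q).2, 0),
      ¬ Function.Surjective (mfderiv 𝓘(ℂ, ℂ × ℂ × ℂ) 𝓘(ℂ, ℂ × ℂ) F.Φ (Λ z)) →
        D1 (locF F βi Λ) z = 0 ∧ D2 (locF F βi Λ) z = 0 := by
  have hF := locF_an hq hA hβ
  have h0 : locF F βi Λ ((κ q).1, (κ q).2, 0) = 0 := by
    show βi (F.Φ (Λ ((κ q).1, (κ q).2, 0))).1 = 0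
    rw [LocalF_pt hq hA]
    exact hβ.zero
  have hc : Tendsto (locF F βi Λ) (𝓝 ((κ q).1, (κ q).2, (0 : ℂ))) (𝓝 0) := by
    have := hF.continuousAt.tendsto
    rw [h0] at this
    exact this
  have hΛ := (contMDiffAt_iff_contMDiffAt_nhds (by simp)).1 hA.an
  filter_upwards [eventually_eventually_nhds.2 (locF_phi hq hA hβ), hF.eventually_analyticAt,
    hc.eventually (LocalF_beta F), hΛ] with z h1 h2 h3 h4 h5
  by_contra hne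
  apply h5
  have hL : MDifferentiableAt 𝓘(ℂ, ℂ × ℂ × ℂ) 𝓘(ℂ, ℂ × ℂ) F.Φ (Λ z) :=
    (F.holo (Λ z)).mdifferentiableAt (by simp)
  have hM : MDifferentiableAt 𝓘(ℂ, ℂ × ℂ × ℂ) 𝓘(ℂ, ℂ × ℂ × ℂ) Λ z :=
    h4.mdifferentiableAt (by simp)
  have e1 : mfderiv 𝓘(ℂ, ℂ × ℂ × ℂ) 𝓘(ℂ, ℂ × ℂ) (F.Φ ∘ Λ) z =
      (mfderiv 𝓘(ℂ, ℂ × ℂ × ℂ) 𝓘(ℂ, ℂ × ℂ) F.Φ (Λ z)).comp
        (mfderiv 𝓘(ℂ, ℂ × ℂ × ℂ) 𝓘(ℂ, ℂ × ℂ × ℂ) Λ z) := mfderiv_comp z hL hM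
  rw [mfderiv_eq_fderiv] at e1
  have e2 : fderiv ℂ (F.Φ ∘ Λ) z = fderiv ℂ (fun w : ℂ × ℂ × ℂ =>
      (F.β (locF F βi Λ w), w.2.2)) z := Filter.EventuallyEq.fderiv_eq h1
  have e3 : HasFDerivAt (fun w : ℂ × ℂ × ℂ => (F.β (locF F βi Λ w), w.2.2))
      ((deriv F.β (locF F βi Λ z) • fderiv ℂ (locF F βi Λ) z).prod
        ((ContinuousLinearMap.snd ℂ ℂ ℂ).comp (ContinuousLinearMap.snd ℂ ℂ (ℂ × ℂ)))) z := by
    refine HasFDerivAt.prodMk ?_ ?_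
    · exact h3.1.hasDerivAt.comp_hasFDerivAt z h2.differentiableAt.hasFDerivAt
    · exact ((ContinuousLinearMap.snd ℂ ℂ ℂ).comp
        (ContinuousLinearMap.snd ℂ ℂ (ℂ × ℂ))).hasFDerivAt
  rw [e2, e3.fderiv] at e1
  have hs : Function.Surjective ((deriv F.β (locF F βi Λ z) • fderiv ℂ (locF F βi Λ) z).prod
        ((ContinuousLinearMap.snd ℂ ℂ ℂ).comp (ContinuousLinearMap.snd ℂ ℂ (ℂ × ℂ)))) := by
    obtain ⟨v, hv, hv2⟩ : ∃ v : ℂ × ℂ × ℂ, fderiv ℂ (locF F βi Λ) z v ≠ 0 ∧ v.2.2 = 0 := by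
      by_cases hD : D1 (locF F βi Λ) z = 0
      · have hD2 : D2 (locF F βi Λ) z ≠ 0 := fun h => hne ⟨hD, h⟩
        exact ⟨(0, 1, 0), hD2, rfl⟩
      · exact ⟨(1, 0, 0), hD, rfl⟩
    intro y
    have hd : deriv F.β (locF F βi Λ z) * fderiv ℂ (locF F βi Λ) z v ≠ 0 :=
      mul_ne_zero h3.2 hv
    refine ⟨((y.1 - deriv F.β (locF F βi Λ z) * fderiv ℂ (locF F βi Λ) z (0, 0, y.2)) /
      (deriv F.β (locF F βi Λ z) * fderiv ℂ (locF F βi Λ) z v)) • v + (0, 0, y.2), ?_⟩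
    refine Prod.ext ?_ ?_
    · have e5 : ∀ u : ℂ × ℂ × ℂ, (((deriv F.β (locF F βi Λ z) •
          fderiv ℂ (locF F βi Λ) z).prod ((ContinuousLinearMap.snd ℂ ℂ ℂ).comp
          (ContinuousLinearMap.snd ℂ ℂ (ℂ × ℂ)))) u).1 =
          deriv F.β (locF F βi Λ z) * fderiv ℂ (locF F βi Λ) z u := fun u => rfl
      rw [e5, map_add, map_smul, smul_eq_mul]
      linear_combination div_mul_cancel₀ (y.1 - deriv F.β (locF F βi Λ z) *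
        fderiv ℂ (locF F βi Λ) z (0, 0, y.2)) hd
    · have e5 : ∀ u : ℂ × ℂ × ℂ, (((deriv F.β (locF F βi Λ z) •
          fderiv ℂ (locF F βi Λ) z).prod ((ContinuousLinearMap.snd ℂ ℂ ℂ).comp
          (ContinuousLinearMap.snd ℂ ℂ (ℂ × ℂ)))) u).2 = u.2.2 := fun u => rfl
      rw [e5]
      simp only [Prod.snd_add, Prod.smul_snd, hv2, smul_zero, zero_add]
  intro y
  obtain ⟨v, hv⟩ := hs y
  refine ⟨mfderiv 𝓘(ℂ, ℂ × ℂ × ℂ) 𝓘(ℂ, ℂ × ℂ × ℂ) Λ z v, ?_⟩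
  rw [← hv]
  exact (congrArg (fun T : (ℂ × ℂ × ℂ) →L[ℂ] (ℂ × ℂ) => T v) e1).symm

private theorem LocalF_ne {F : ℂ × ℂ × ℂ → ℂ} {g : ℂ × ℂ → ℂ} {c : ℂ × ℂ}
    (hF : AnalyticAt ℂ F (c.1, c.2, 0)) (hg : ∀ᶠ p : ℂ × ℂ in 𝓝 c, F (p.1, p.2, 0) = g p)
    (h1 : D1 F (c.1, c.2, 0) = 0) (h2 : D2 F (c.1, c.2, 0) = 0) : fderiv ℂ g c = 0 := by
  have e1 : fderiv ℂ g c = fderiv ℂ (fun p : ℂ × ℂ => F (p.1, p.2, 0)) c :=
    (Filter.EventuallyEq.fderiv_eq hg).symm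
  have e2 : HasFDerivAt (fun p : ℂ × ℂ => ((p.1, p.2, 0) : ℂ × ℂ × ℂ))
      ((ContinuousLinearMap.fst ℂ ℂ ℂ).prod ((ContinuousLinearMap.snd ℂ ℂ ℂ).prod 0)) c := by
    refine HasFDerivAt.prodMk hasFDerivAt_fst (HasFDerivAt.prodMk hasFDerivAt_snd ?_)
    exact hasFDerivAt_const _ _
  have e3 : HasFDerivAt (fun p : ℂ × ℂ => F (p.1, p.2, 0))
      ((fderiv ℂ F (c.1, c.2, 0)).comp
        ((ContinuousLinearMap.fst ℂ ℂ ℂ).prod ((ContinuousLinearMap.snd ℂ ℂ ℂ).prod 0))) c :=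
    HasFDerivAt.comp (g := F) c hF.differentiableAt.hasFDerivAt e2
  rw [e1, e3.fderiv]
  ext
  all_goals
    simp only [ContinuousLinearMap.comp_apply, ContinuousLinearMap.prod_apply,
      ContinuousLinearMap.inl_apply, ContinuousLinearMap.inr_apply,
      ContinuousLinearMap.coe_fst', ContinuousLinearMap.coe_snd', zero_apply]
  · exact h1
  · exact h2

theorem smooth_near {G : FibreGerm} (F : SplittingFamily.{u} G) {q : G.S} (hq : G.f q = 0)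
    (hc : ¬ G.Crit q) :
    ∀ᶠ w in 𝓝 (F.j q),
      Function.Surjective (mfderiv 𝓘(ℂ, ℂ × ℂ × ℂ) 𝓘(ℂ, ℂ × ℂ) F.Φ w) := by
  have hκ : chartAt (ℂ × ℂ) q ∈ IsManifold.maximalAtlas 𝓘(ℂ, ℂ × ℂ) ω G.S :=
    IsManifold.chart_mem_maximalAtlas q
  have hqs : q ∈ (chartAt (ℂ × ℂ) q).source := mem_chart_source (ℂ × ℂ) q
  obtain ⟨Λ, Λ', hA⟩ := adapted_exists F hq hκ hqs
  obtain ⟨βi, hβ⟩ := beta_inv F
  have hF := locF_an hq hA hβ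
  have hd : ¬ fderiv ℂ (fun p => G.f ((chartAt (ℂ × ℂ) q).symm p)) ((chartAt (ℂ × ℂ) q) q) = 0 :=
    fun h => hc ((crit_iff_chart hκ hqs).2 h)
  have hD : D1 (locF F βi Λ) (((chartAt (ℂ × ℂ) q) q).1, ((chartAt (ℂ × ℂ) q) q).2, 0) ≠ 0 ∨
      D2 (locF F βi Λ) (((chartAt (ℂ × ℂ) q) q).1, ((chartAt (ℂ × ℂ) q) q).2, 0) ≠ 0 := by
    by_contra h
    rw [not_or, not_not, not_not] at h
    exact hd (LocalF_ne hF (locF_base hq hqs hA hβ) h.1 h.2)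
  have hcont : ∀ v : ℂ × ℂ × ℂ, ContinuousAt (fun z => fderiv ℂ (locF F βi Λ) z v)
      (((chartAt (ℂ × ℂ) q) q).1, ((chartAt (ℂ × ℂ) q) q).2, 0) := fun v =>
    hF.fderiv.continuousAt.clm_apply continuousAt_const
  have hD' : ∀ᶠ z in 𝓝 ((((chartAt (ℂ × ℂ) q) q).1, ((chartAt (ℂ × ℂ) q) q).2, 0) :
      ℂ × ℂ × ℂ), D1 (locF F βi Λ) z ≠ 0 ∨ D2 (locF F βi Λ) z ≠ 0 := by
    rcases hD with h | h
    · filter_upwards [(hcont (1, 0, 0)).eventually_ne h] with z hz using Or.inl hz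
    · filter_upwards [(hcont (0, 1, 0)).eventually_ne h] with z hz using Or.inr hz
  have ht : Tendsto Λ' (𝓝 (F.j q))
      (𝓝 (((chartAt (ℂ × ℂ) q) q).1, ((chartAt (ℂ × ℂ) q) q).2, 0)) := by
    have := hA.an'.continuousAt.tendsto
    rw [hA.pt'] at this
    exact this
  filter_upwards [ht.eventually (sing_crit hq hA hβ), ht.eventually hD', hA.right]
    with w h1 h2 h3
  by_contra h4
  rw [h3] at h1
  have h5 := h1 h4
  rcases h2 with h | h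
  · exact h h5.1
  · exact h h5.2

end Pool.Agent.Lib.MP_d4bba2_ag
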