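import Pool.Agent.Lib.MP_d4bba2_ag.ExpandReg
import Pool.Agent.Lib.MP_d4bba2_ag.FormBasic
import Pool.Agent.Lib.MP_d4bba2_ag.DivSimple

/-!
NEXT SHIFT AT A SPECIAL POINT x0 (e has a simple zero at x0).

P (x,t) = F (x, σ (x,t), t) is analytic at (x0,0); taylor_last: P = ∑_{i ≤ 2m} c i x t^i + t^(2m+1) * R' (n := 2m+1).
For y ≠ x0 near x0: e y ≠ 0, IsLoc F y e, Form F y κ n B with root ρ; expand_reg at y with this ρ (all hypotheses on σ, G
hold at y near x0, eventually_eventually_nhds):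
  F (x,ρ,t) = P (x,t) - t^(2m) G (x,0)^2 / (4 e x) + t^(2m+1) R.
Also F (x,ρ,t) = ∑_{i<n} κ i t^i + t^n B with 2m < n.  Compare the coefficients of t^(2m) at x = y (expansion_unique
with n := 2m+1): c (2m) y - G (y,0)^2/(4 e y) = κ (2m), so G (y,0)^2 = 4 e y (c (2m) y - κ (2m)) for y ≠ x0 near x0.
Both sides are continuous at x0: G (x0,0)^2 = 0.  So G (x0,0) = 0 and by div_simple G (x,0) = e x * g x near x0.
σ' = σ - t^m * (g x / 2).  shift_expand at x0 with σ and η = - t^m * g x / 2 (η → 0 as (x,t) → (x0,0) since m ≥ 1):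
  D2 F (x,σ',t) = t^m * G + η * K (x,η,t) = t^m * M, M = G - (g/2) * K (x,η (x,t),t),
  M (x,0) = G (x,0) - (g x/2) * 2 * e x = 0 (m ≥ 1, so η (x,0) = 0).  So M = t * G' by div_last.
-/

open scoped Topology
open Filter

noncomputable section

namespace Pool.Agent.Lib.MP_d4bba2_ag

private theorem nextShift_coeff {F : ℂ × ℂ × ℂ → ℂ} {y : ℂ} {e : ℂ → ℂ} (h : IsLoc F y e) (he : e y ≠ 0)
    {κ : ℕ → ℂ} {n m : ℕ} (hmn : 2 * m < n) {B : ℂ × ℂ → ℂ} (hf : Form F y κ n B)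
    {σ : ℂ × ℂ → ℂ} (hσ : AnalyticAt ℂ σ (y, 0)) (hσ0 : ∀ᶠ x in 𝓝 y, σ (x, 0) = 0)
    {G : ℂ × ℂ → ℂ} (hG : AnalyticAt ℂ G (y, 0))
    (hs : ∀ᶠ p : ℂ × ℂ in 𝓝 (y, 0), D2 F (p.1, σ p, p.2) = p.2 ^ m * G p)
    {c : ℕ → ℂ → ℂ} {R' : ℂ × ℂ → ℂ} (hR' : AnalyticAt ℂ R' (y, 0))
    (hc : ∀ᶠ p : ℂ × ℂ in 𝓝 (y, 0), F (p.1, σ p, p.2) =
      ∑ i ∈ Finset.range (2 * m + 1), c i p.1 * p.2 ^ i + p.2 ^ (2 * m + 1) * R' p) :
    G (y, 0) ^ 2 = 4 * e y * (c (2 * m) y - κ (2 * m)) := by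
  obtain ⟨B', hB'⟩ : ∃ B', Form F y κ (2 * m + 1) B' := by
    rcases Nat.lt_or_ge (2 * m + 1) n with hlt | hge
    · obtain ⟨B', hB', -⟩ := form_trunc hf hlt
      exact ⟨B', hB'⟩
    · have : n = 2 * m + 1 := by omega
      exact ⟨B, this ▸ hf⟩
  obtain ⟨ρ, hρ, hρ2⟩ := hB'.ex
  obtain ⟨-, R, hR, hR2⟩ := expand_reg h he hσ hσ0 hG hs hρ
  have hct : Continuous fun t : ℂ => ((y, t) : ℂ × ℂ) := by fun_prop
  have hcc : Tendsto (fun t : ℂ => ((y, t) : ℂ × ℂ)) (𝓝 0) (𝓝 (y, 0)) := hct.tendsto 0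
  have hev : ∀ᶠ t : ℂ in 𝓝[≠] 0,
      ∑ i ∈ Finset.range (2 * m + 1), (c i y - if i = 2 * m then G (y, 0) ^ 2 / (4 * e y) else 0) * t ^ i +
        t ^ (2 * m + 1) * (R' (y, t) + R (y, t)) =
      ∑ i ∈ Finset.range (2 * m + 1), κ i * t ^ i + t ^ (2 * m + 1) * B' (y, t) := by
    refine Filter.Eventually.filter_mono nhdsWithin_le_nhds ?_
    filter_upwards [hcc.eventually hρ2, hcc.eventually hR2, hcc.eventually hc] with t e1 e2 e3
    rw [← e1, e2, e3]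
    have e4 : ∑ i ∈ Finset.range (2 * m + 1), (c i y - if i = 2 * m then G (y, 0) ^ 2 / (4 * e y) else 0) * t ^ i =
        ∑ i ∈ Finset.range (2 * m + 1), c i y * t ^ i - t ^ (2 * m) * (G (y, 0) ^ 2 / (4 * e y)) := by
      have e5 : ∀ i ∈ Finset.range (2 * m + 1), (c i y - if i = 2 * m then G (y, 0) ^ 2 / (4 * e y) else 0) * t ^ i =
          c i y * t ^ i - (if i = 2 * m then t ^ (2 * m) * (G (y, 0) ^ 2 / (4 * e y)) else 0) := by
        intro i _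
        split_ifs with hi
        · subst hi
          ring
        · ring
      rw [Finset.sum_congr rfl e5, Finset.sum_sub_distrib, Finset.sum_ite_eq',
        if_pos (Finset.mem_range.2 (Nat.lt_succ_self _))]
    rw [e4]
    ring
  have hcR : ContinuousAt (fun t : ℂ => R' (y, t) + R (y, t)) 0 := by
    have h1 : ContinuousAt (fun t : ℂ => R' (y, t)) 0 :=
      ContinuousAt.comp (f := fun t : ℂ => ((y, t) : ℂ × ℂ)) (g := R') hR'.continuousAt hct.continuousAt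
    have h2 : ContinuousAt (fun t : ℂ => R (y, t)) 0 :=
      ContinuousAt.comp (f := fun t : ℂ => ((y, t) : ℂ × ℂ)) (g := R) hR.continuousAt hct.continuousAt
    exact h1.add h2
  have hcB : ContinuousAt (fun t : ℂ => B' (y, t)) 0 :=
    ContinuousAt.comp (f := fun t : ℂ => ((y, t) : ℂ × ℂ)) (g := B') hB'.an.continuousAt hct.continuousAt
  have key := (expansion_unique (fun i => c i y - if i = 2 * m then G (y, 0) ^ 2 / (4 * e y) else 0) κ (2 * m + 1)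
    (fun t => R' (y, t) + R (y, t)) (fun t => B' (y, t)) hcR hcB hev).1 (2 * m) (Nat.lt_succ_self _)
  simp only [if_true] at key
  rw [← key]
  field_simp
  ring

theorem next_shift {F : ℂ × ℂ × ℂ → ℂ} {x0 : ℂ} {e : ℂ → ℂ} (h : IsLoc F x0 e)
    (he0 : e x0 = 0) (he1 : deriv e x0 ≠ 0) {κ : ℕ → ℂ} {n m : ℕ} (hm : 1 ≤ m)
    (hmn : 2 * m < n) (hf : ∀ᶠ y in 𝓝[≠] x0, ∃ B, Form F y κ n B)
    {σ : ℂ × ℂ → ℂ} (hσ : AnalyticAt ℂ σ (x0, 0)) (hσ0 : ∀ᶠ x in 𝓝 x0, σ (x, 0) = 0)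
    {G : ℂ × ℂ → ℂ} (hG : AnalyticAt ℂ G (x0, 0))
    (hs : ∀ᶠ p : ℂ × ℂ in 𝓝 (x0, 0), D2 F (p.1, σ p, p.2) = p.2 ^ m * G p) :
    ∃ σ' G' : ℂ × ℂ → ℂ, AnalyticAt ℂ σ' (x0, 0) ∧ (∀ᶠ x in 𝓝 x0, σ' (x, 0) = 0) ∧
      AnalyticAt ℂ G' (x0, 0) ∧
      ∀ᶠ p : ℂ × ℂ in 𝓝 (x0, 0), D2 F (p.1, σ' p, p.2) = p.2 ^ (m + 1) * G' p := by
  have hσx : σ (x0, 0) = 0 := hσ0.self_of_nhds
  have hfst : AnalyticAt ℂ (fun p : ℂ × ℂ => p.1) (x0, 0) := analyticAt_fst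
  have hsnd : AnalyticAt ℂ (fun p : ℂ × ℂ => p.2) (x0, 0) := analyticAt_snd
  have hc0 : Continuous fun y : ℂ => ((y, 0) : ℂ × ℂ) := by fun_prop
  have hct : Tendsto (fun y : ℂ => ((y, 0) : ℂ × ℂ)) (𝓝 x0) (𝓝 (x0, 0)) := hc0.tendsto x0
  -- the function on the shifted surface
  have hP : AnalyticAt ℂ (fun p : ℂ × ℂ => F (p.1, σ p, p.2)) (x0, 0) := by
    refine AnalyticAt.fun_comp ?_ (hfst.prod (hσ.prod hsnd))
    simp only [hσx]
    exact h.an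
  obtain ⟨c, hc, hT⟩ := taylor_last _ x0 hP
  obtain ⟨R', hR', hR2⟩ := hT (2 * m + 1)
  -- the equation for the square of `G`
  have hsq : ∀ᶠ y in 𝓝[≠] x0, G (y, 0) ^ 2 = 4 * e y * (c (2 * m) y - κ (2 * m)) := by
    have n1 := (simple_zero_ne h.ean (Or.inr he1))
    have n2 := h.near.filter_mono (nhdsWithin_le_nhds (s := {x0}ᶜ))
    have n3 := (hct.eventually hσ.eventually_analyticAt).filter_mono (nhdsWithin_le_nhds (s := {x0}ᶜ))
    have n4 := (eventually_eventually_nhds.2 hσ0).filter_mono (nhdsWithin_le_nhds (s := {x0}ᶜ))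
    have n5 := (hct.eventually hG.eventually_analyticAt).filter_mono (nhdsWithin_le_nhds (s := {x0}ᶜ))
    have n6 := (hct.eventually (eventually_eventually_nhds.2 hs)).filter_mono (nhdsWithin_le_nhds (s := {x0}ᶜ))
    have n7 := (hct.eventually hR'.eventually_analyticAt).filter_mono (nhdsWithin_le_nhds (s := {x0}ᶜ))
    have n8 := (hct.eventually (eventually_eventually_nhds.2 hR2)).filter_mono (nhdsWithin_le_nhds (s := {x0}ᶜ))
    filter_upwards [n1, n2, n3, n4, n5, n6, n7, n8, hf] with y a1 a2 a3 a4 a5 a6 a7 a8 a9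
    obtain ⟨B, hB⟩ := a9
    exact nextShift_coeff a2 a1 hmn hB a3 a4 a5 a6 a7 a8
  have hGx : AnalyticAt ℂ (fun x : ℂ => G (x, 0)) x0 := by
    refine AnalyticAt.fun_comp (f := fun x : ℂ => ((x, 0) : ℂ × ℂ)) hG ?_
    exact analyticAt_id.prod analyticAt_const
  have hG0 : G (x0, 0) = 0 := by
    have t1 : Tendsto (fun y : ℂ => G (y, 0) ^ 2) (𝓝[≠] x0) (𝓝 (G (x0, 0) ^ 2)) :=
      (hGx.continuousAt.pow 2).tendsto.mono_left nhdsWithin_le_nhds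
    have t2 : Tendsto (fun y : ℂ => 4 * e y * (c (2 * m) y - κ (2 * m))) (𝓝[≠] x0)
        (𝓝 (4 * e x0 * (c (2 * m) x0 - κ (2 * m)))) := by
      have : ContinuousAt (fun y : ℂ => 4 * e y * (c (2 * m) y - κ (2 * m))) x0 :=
        (continuousAt_const.mul h.ean.continuousAt).mul ((hc (2 * m)).continuousAt.sub continuousAt_const)
      exact this.tendsto.mono_left nhdsWithin_le_nhds
    have t3 := tendsto_nhds_unique (t1.congr' hsq) t2
    rw [he0, mul_zero, zero_mul] at t3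
    exact pow_eq_zero_iff (two_ne_zero) |>.1 t3
  obtain ⟨g, hg, hg2⟩ := div_simple h.ean hGx he0 he1 hG0
  obtain ⟨H, K, -, hK, -, hK2, hK3⟩ := shift_expand h hσ hσ0
  -- the new shift
  set η : ℂ × ℂ → ℂ := fun p => -(p.2 ^ m * (g p.1 / 2)) with hη
  have hgp : AnalyticAt ℂ (fun p : ℂ × ℂ => g p.1) (x0, 0) :=
    AnalyticAt.fun_comp (f := fun p : ℂ × ℂ => p.1) hg hfst
  have hηa : AnalyticAt ℂ η (x0, 0) := ((hsnd.pow m).mul (hgp.div_const)).neg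
  have hη0 : ∀ x, η (x, 0) = 0 := by
    intro x
    simp only [hη]
    rw [zero_pow (by omega), zero_mul, neg_zero]
  have hq : AnalyticAt ℂ (fun p : ℂ × ℂ => ((p.1, η p, p.2) : ℂ × ℂ × ℂ)) (x0, 0) := hfst.prod (hηa.prod hsnd)
  have hηx : η (x0, 0) = 0 := hη0 x0
  have hKq : AnalyticAt ℂ (fun p : ℂ × ℂ => K (p.1, η p, p.2)) (x0, 0) := by
    refine AnalyticAt.fun_comp (f := fun p : ℂ × ℂ => ((p.1, η p, p.2) : ℂ × ℂ × ℂ)) ?_ hq
    simp only [hηx]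
    exact hK
  set M : ℂ × ℂ → ℂ := fun p => G p - g p.1 / 2 * K (p.1, η p, p.2) with hM
  have hMa : AnalyticAt ℂ M (x0, 0) := hG.sub ((hgp.div_const).mul hKq)
  have hM0 : ∀ᶠ x in 𝓝 x0, M (x, 0) = 0 := by
    filter_upwards [hg2, hct.eventually hK3] with x b1 b2
    simp only [hM, hη0]
    rw [b1, b2.2]
    ring
  obtain ⟨G', hG', hG2⟩ := div_last M x0 hMa hM0
  refine ⟨fun p => σ p + η p, G', hσ.add hηa, ?_, hG', ?_⟩
  · filter_upwards [hσ0] with x b1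
    simp only [hη0, b1, add_zero]
  · have hqt : Tendsto (fun p : ℂ × ℂ => ((p.1, η p, p.2) : ℂ × ℂ × ℂ)) (𝓝 (x0, 0)) (𝓝 (x0, 0, 0)) := by
      have := hq.continuousAt.tendsto
      simp only [hηx] at this
      exact this
    filter_upwards [hqt.eventually hK2, hs, hG2] with p b1 b2 b3
    rw [b1, b2]
    have e1 : p.2 ^ m * G p + η p * K (p.1, η p, p.2) = p.2 ^ m * M p := by
      simp only [hM, hη]
      ring
    rw [e1, b3]
    ring

end Pool.Agent.Lib.MP_d4bba2_ag
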