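import Pool.Agent.Lib.MP_d4bba2_ag.Shift

/-!
QUADRATIC ESTIMATES at a regular point.  shift_expand with σ = ρ: for z near (x0,0,0) put η = ξ - ρ (x,t) (this tends
to 0 as z → (x0,0,0)); then (x,η,t) is near (x0,0,0) and
F z = F (x,ρ,t) + η^2 * H (x,η,t), D2 F z = η * K (x,η,t)   (D2 F (x,ρ (x,t),t) = 0),
H, K continuous at (x0,0,0), K (x0,0,0) = 2 * e x0 ≠ 0: so |K| ≥ |e x0| and |H| ≤ |e x0| + 1 near.
C = max (1/|e x0|) (|e x0| + 1).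
-/

open scoped Topology
open Filter

noncomputable section

namespace Pool.Agent.Lib.MP_d4bba2_ag

theorem quad {F : ℂ × ℂ × ℂ → ℂ} {x0 : ℂ} {e : ℂ → ℂ} (h : IsLoc F x0 e) (he : e x0 ≠ 0)
    {ρ : ℂ × ℂ → ℂ} (hρ : RootAt F x0 ρ) :
    ∃ C : ℝ, 0 < C ∧ ∀ᶠ z : ℂ × ℂ × ℂ in 𝓝 (x0, 0, 0),
      ‖z.2.1 - ρ (z.1, z.2.2)‖ ≤ C * ‖D2 F z‖ ∧
      ‖F z - F (z.1, ρ (z.1, z.2.2), z.2.2)‖ ≤ C * ‖z.2.1 - ρ (z.1, z.2.2)‖ ^ 2 := by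
  obtain ⟨H, K, hH, hK, hF, hD, h0⟩ := shift_expand h hρ.an hρ.zero
  have hpos : 0 < ‖e x0‖ := norm_pos_iff.2 he
  have hz : ρ (x0, 0) = 0 := hρ.zero.self_of_nhds
  obtain ⟨hH0, hK0⟩ := h0.self_of_nhds
  have hpair : ContinuousAt (fun z : ℂ × ℂ × ℂ => ((z.1, z.2.2) : ℂ × ℂ)) (x0, 0, 0) := by
    have hc : Continuous fun z : ℂ × ℂ × ℂ => ((z.1, z.2.2) : ℂ × ℂ) := by fun_prop
    exact hc.continuousAt
  have hρc : ContinuousAt (fun z : ℂ × ℂ × ℂ => ρ (z.1, z.2.2)) (x0, 0, 0) :=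
    ContinuousAt.comp (x := ((x0, 0, 0) : ℂ × ℂ × ℂ)) (g := ρ)
      (f := fun z : ℂ × ℂ × ℂ => ((z.1, z.2.2) : ℂ × ℂ)) hρ.an.continuousAt hpair
  have hφ : ContinuousAt
      (fun z : ℂ × ℂ × ℂ => ((z.1, z.2.1 - ρ (z.1, z.2.2), z.2.2) : ℂ × ℂ × ℂ)) (x0, 0, 0) := by
    refine ContinuousAt.prodMk continuousAt_fst (ContinuousAt.prodMk ?_ ?_)
    · refine ContinuousAt.sub ?_ hρc
      have hc : Continuous fun z : ℂ × ℂ × ℂ => z.2.1 := by fun_prop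
      exact hc.continuousAt
    · have hc : Continuous fun z : ℂ × ℂ × ℂ => z.2.2 := by fun_prop
      exact hc.continuousAt
  have hφt : Tendsto
      (fun z : ℂ × ℂ × ℂ => ((z.1, z.2.1 - ρ (z.1, z.2.2), z.2.2) : ℂ × ℂ × ℂ))
      (𝓝 (x0, 0, 0)) (𝓝 (x0, 0, 0)) := by
    have := hφ.tendsto
    simpa [hz] using this
  have hKn : ∀ᶠ z : ℂ × ℂ × ℂ in 𝓝 (x0, 0, 0), ‖e x0‖ < ‖K z‖ := by
    have hc : ContinuousAt (fun z => ‖K z‖) (x0, 0, 0) := hK.continuousAt.norm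
    refine hc.eventually_const_lt ?_
    change ‖e x0‖ < ‖K (x0, 0, 0)‖
    have e1 : K (x0, 0, 0) = 2 * e x0 := hK0
    rw [e1, norm_mul]
    have : ‖(2 : ℂ)‖ = 2 := by simp
    rw [this]
    linarith
  have hHn : ∀ᶠ z : ℂ × ℂ × ℂ in 𝓝 (x0, 0, 0), ‖H z‖ < ‖e x0‖ + 1 := by
    have hc : ContinuousAt (fun z => ‖H z‖) (x0, 0, 0) := hH.continuousAt.norm
    refine hc.eventually_lt_const ?_
    change ‖H (x0, 0, 0)‖ < ‖e x0‖ + 1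
    have e1 : H (x0, 0, 0) = e x0 := hH0
    rw [e1]
    linarith
  have hroot : ∀ᶠ z : ℂ × ℂ × ℂ in 𝓝 (x0, 0, 0),
      D2 F (z.1, ρ (z.1, z.2.2), z.2.2) = 0 :=
    hpair.tendsto.eventually hρ.root
  refine ⟨max (1 / ‖e x0‖) (‖e x0‖ + 1), lt_max_of_lt_right (by linarith), ?_⟩
  filter_upwards [hφt.eventually hF, hφt.eventually hD, hφt.eventually hKn,
    hφt.eventually hHn, hroot] with z a b c d r
  have hzz : ((z.1, ρ (z.1, z.2.2) + (z.2.1 - ρ (z.1, z.2.2)), z.2.2) : ℂ × ℂ × ℂ) = z := by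
    have : ρ (z.1, z.2.2) + (z.2.1 - ρ (z.1, z.2.2)) = z.2.1 := by ring
    rw [this]
  rw [hzz, r] at a b
  set η : ℂ := z.2.1 - ρ (z.1, z.2.2) with hη
  constructor
  · rw [b, zero_add, norm_mul]
    have h1 : ‖η‖ * ‖e x0‖ ≤ ‖η‖ * ‖K (z.1, η, z.2.2)‖ :=
      mul_le_mul_of_nonneg_left c.le (norm_nonneg _)
    have h2 : ‖η‖ = 1 / ‖e x0‖ * (‖η‖ * ‖e x0‖) := by
      field_simp
    calc ‖η‖ = 1 / ‖e x0‖ * (‖η‖ * ‖e x0‖) := h2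
      _ ≤ 1 / ‖e x0‖ * (‖η‖ * ‖K (z.1, η, z.2.2)‖) :=
          mul_le_mul_of_nonneg_left h1 (by positivity)
      _ ≤ max (1 / ‖e x0‖) (‖e x0‖ + 1) * (‖η‖ * ‖K (z.1, η, z.2.2)‖) :=
          mul_le_mul_of_nonneg_right (le_max_left _ _) (by positivity)
  · have h1 : F z - F (z.1, ρ (z.1, z.2.2), z.2.2) = η ^ 2 * H (z.1, η, z.2.2) := by
      rw [a]; ring
    rw [h1, norm_mul, norm_pow, mul_comm]
    refine mul_le_mul_of_nonneg_right ?_ (by positivity)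
    exact d.le.trans (le_max_right _ _)

end Pool.Agent.Lib.MP_d4bba2_ag
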