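import Pool.Agent.Lib.MP_d4bba2_ag.Loc

/-!
THE CRITICAL CURVE AT A REGULAR POINT (implicit function theorem).

D2 F is analytic at (x0,0,0) (fderiv of an analytic function, applied to a vector; AnalyticAt.fderiv).
From IsLoc.eq: F (x0, ξ, 0) = e x0 * ξ^2 for ξ near 0, so D2 F (x0, ξ, 0) = 2 * e x0 * ξ near 0 (chain rule along
ξ ↦ (x0, ξ, 0)); in particular D2 F (x0,0,0) = 0 and the derivative of ξ ↦ D2 F (x0, ξ, 0) at 0 is 2 * e x0 ≠ 0.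
More precisely, for x near x0: D2 F (x, ξ, 0) = 2 * e x * ξ for (x, ξ) near (x0, 0).
Apply the implicit function theorem (Mathlib.Analysis.Calculus.ImplicitContDiff: ContDiffAt.implicitFunction,
contDiffAt_implicitFunction, eventually_apply_eq_iff_implicitFunction with n = ω and contDiffAt_omega_iff_analyticAt) to
((x,t), ξ) ↦ D2 F (x, ξ, t) at ((x0,0),0).  This gives ρ analytic at (x0,0) with, near (x0,0,0),
D2 F (x,ξ,t) = 0 ↔ ξ = ρ (x,t).  ρ (x,0) = 0 near x0 because D2 F (x,0,0) = 0.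

root_unique: two roots agree near (x0,0): both graphs are in the zero set of D2 F, near (x0,0,0) (ρ' is continuous at
(x0,0) with value ρ' (x0,0) = 0), so the uniqueness of root_exists applies.
-/

open scoped Topology
open Filter

noncomputable section

namespace Pool.Agent.Lib.MP_d4bba2_ag

private theorem root_apply {F : ℂ × ℂ × ℂ → ℂ} {z : ℂ × ℂ × ℂ} (h : AnalyticAt ℂ F z) (v : ℂ × ℂ × ℂ) :
    AnalyticAt ℂ (fun w => fderiv ℂ F w v) z :=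
  ((ContinuousLinearMap.apply ℂ ℂ v).analyticAt (fderiv ℂ F z)).fun_comp h.fderiv

theorem D2_loc {F : ℂ × ℂ × ℂ → ℂ} {x0 : ℂ} {e : ℂ → ℂ} (h : IsLoc F x0 e) :
    AnalyticAt ℂ (D2 F) (x0, 0, 0) ∧
      ∀ᶠ p : ℂ × ℂ in 𝓝 (x0, 0), D2 F (p.1, p.2, 0) = 2 * e p.1 * p.2 := by
  refine ⟨root_apply h.an _, ?_⟩
  have hc : Continuous fun p : ℂ × ℂ => ((p.1, p.2, 0) : ℂ × ℂ × ℂ) := by fun_prop
  have h1 : ∀ᶠ p : ℂ × ℂ in 𝓝 (x0, 0), AnalyticAt ℂ F (p.1, p.2, 0) :=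
    hc.continuousAt.eventually h.an.eventually_analyticAt
  filter_upwards [h1, eventually_eventually_nhds.2 h.eq] with p a b
  have hl : HasDerivAt (fun ξ : ℂ => ((p.1, ξ, 0) : ℂ × ℂ × ℂ)) (0, 1, 0) p.2 :=
    (hasDerivAt_const _ _).prodMk ((hasDerivAt_id _).prodMk (hasDerivAt_const _ _))
  have d1 : HasDerivAt (fun ξ : ℂ => F (p.1, ξ, 0)) (D2 F (p.1, p.2, 0)) p.2 :=
    HasFDerivAt.comp_hasDerivAt p.2 (f := fun ξ : ℂ => ((p.1, ξ, 0) : ℂ × ℂ × ℂ)) a.differentiableAt.hasFDerivAt hl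
  have d2 : HasDerivAt (fun ξ : ℂ => e p.1 * ξ ^ 2) (2 * e p.1 * p.2) p.2 := by
    have := ((hasDerivAt_id p.2).pow 2).const_mul (e p.1)
    refine this.congr_deriv ?_
    simp
    ring
  have hev : (fun ξ : ℂ => F (p.1, ξ, 0)) =ᶠ[𝓝 p.2] fun ξ : ℂ => e p.1 * ξ ^ 2 := by
    have hc2 : ContinuousAt (fun ξ : ℂ => ((p.1, ξ) : ℂ × ℂ)) p.2 := by fun_prop
    exact hc2.eventually b
  exact d1.unique (d2.congr_of_eventuallyEq hev)

theorem D1_loc {F : ℂ × ℂ × ℂ → ℂ} {x0 : ℂ} {e : ℂ → ℂ} (h : IsLoc F x0 e) :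
    AnalyticAt ℂ (D1 F) (x0, 0, 0) ∧
      ∀ᶠ p : ℂ × ℂ in 𝓝 (x0, 0), D1 F (p.1, p.2, 0) = deriv e p.1 * p.2 ^ 2 := by
  refine ⟨root_apply h.an _, ?_⟩
  have hc : Continuous fun p : ℂ × ℂ => ((p.1, p.2, 0) : ℂ × ℂ × ℂ) := by fun_prop
  have h1 : ∀ᶠ p : ℂ × ℂ in 𝓝 (x0, 0), AnalyticAt ℂ F (p.1, p.2, 0) :=
    hc.continuousAt.eventually h.an.eventually_analyticAt
  have h2 : ∀ᶠ p : ℂ × ℂ in 𝓝 (x0, 0), AnalyticAt ℂ e p.1 := by
    have hc2 : ContinuousAt (fun p : ℂ × ℂ => p.1) ((x0, 0) : ℂ × ℂ) := by fun_prop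
    exact hc2.eventually h.ean.eventually_analyticAt
  filter_upwards [h1, h2, eventually_eventually_nhds.2 h.eq] with p a a2 b
  have hl : HasDerivAt (fun x : ℂ => ((x, p.2, 0) : ℂ × ℂ × ℂ)) (1, 0, 0) p.1 :=
    (hasDerivAt_id _).prodMk ((hasDerivAt_const _ _).prodMk (hasDerivAt_const _ _))
  have d1 : HasDerivAt (fun x : ℂ => F (x, p.2, 0)) (D1 F (p.1, p.2, 0)) p.1 :=
    HasFDerivAt.comp_hasDerivAt p.1 (f := fun x : ℂ => ((x, p.2, 0) : ℂ × ℂ × ℂ)) a.differentiableAt.hasFDerivAt hl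
  have d2 : HasDerivAt (fun x : ℂ => e x * p.2 ^ 2) (deriv e p.1 * p.2 ^ 2) p.1 :=
    a2.differentiableAt.hasDerivAt.mul_const _
  have hev : (fun x : ℂ => F (x, p.2, 0)) =ᶠ[𝓝 p.1] fun x : ℂ => e x * p.2 ^ 2 := by
    have hc2 : ContinuousAt (fun x : ℂ => ((x, p.2) : ℂ × ℂ)) p.1 := by fun_prop
    exact hc2.eventually b
  exact d1.unique (d2.congr_of_eventuallyEq hev)

theorem root_exists {F : ℂ × ℂ × ℂ → ℂ} {x0 : ℂ} {e : ℂ → ℂ} (h : IsLoc F x0 e)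
    (he : e x0 ≠ 0) :
    ∃ ρ, RootAt F x0 ρ ∧
      ∀ᶠ z : ℂ × ℂ × ℂ in 𝓝 (x0, 0, 0), D2 F z = 0 → z.2.1 = ρ (z.1, z.2.2) := by
  obtain ⟨hA, hE⟩ := D2_loc h
  set u : (ℂ × ℂ) × ℂ := ((x0, 0), 0) with hu
  set G : (ℂ × ℂ) × ℂ → ℂ := fun v => D2 F (v.1.1, v.2, v.1.2) with hG
  have hGan : AnalyticAt ℂ G u := by
    have hL : AnalyticAt ℂ (fun v : (ℂ × ℂ) × ℂ => ((v.1.1, v.2, v.1.2) : ℂ × ℂ × ℂ)) u := by
      have h1 : AnalyticAt ℂ (fun v : (ℂ × ℂ) × ℂ => v.1.1) u :=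
        (analyticAt_fst (𝕜 := ℂ) (p := u.1)).fun_comp analyticAt_fst
      have h2 : AnalyticAt ℂ (fun v : (ℂ × ℂ) × ℂ => v.1.2) u :=
        (analyticAt_snd (𝕜 := ℂ) (p := u.1)).fun_comp analyticAt_fst
      exact h1.prod (analyticAt_snd.prod h2)
    exact AnalyticAt.fun_comp (g := D2 F) (f := fun v : (ℂ × ℂ) × ℂ => ((v.1.1, v.2, v.1.2) : ℂ × ℂ × ℂ)) hA hL
  have hG0 : G u = 0 := by
    have := hE.self_of_nhds
    simpa [hG, hu] using this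
  have hcd : ContDiffAt ℂ (⊤ : WithTop ℕ∞) G u := hGan.contDiffAt
  have hder : fderiv ℂ G u ((0 : ℂ × ℂ), (1 : ℂ)) = 2 * e x0 := by
    have hl : HasDerivAt (fun ξ : ℂ => (((x0, 0), ξ) : (ℂ × ℂ) × ℂ)) ((0 : ℂ × ℂ), (1 : ℂ)) 0 :=
      (hasDerivAt_const _ _).prodMk (hasDerivAt_id _)
    have d1 : HasDerivAt (fun ξ : ℂ => G ((x0, 0), ξ)) (fderiv ℂ G u ((0 : ℂ × ℂ), (1 : ℂ))) 0 :=
      HasFDerivAt.comp_hasDerivAt (0 : ℂ) (f := fun ξ : ℂ => (((x0, 0), ξ) : (ℂ × ℂ) × ℂ))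
        hGan.differentiableAt.hasFDerivAt hl
    have d2 : HasDerivAt (fun ξ : ℂ => 2 * e x0 * ξ) (2 * e x0) 0 := by
      simpa using (hasDerivAt_id (0 : ℂ)).const_mul (2 * e x0)
    have hev : (fun ξ : ℂ => G ((x0, 0), ξ)) =ᶠ[𝓝 0] fun ξ : ℂ => 2 * e x0 * ξ := by
      have hc2 : ContinuousAt (fun ξ : ℂ => ((x0, ξ) : ℂ × ℂ)) 0 := by fun_prop
      exact hc2.eventually hE
    exact d1.unique (d2.congr_of_eventuallyEq hev)
  have hne : (2 : ℂ) * e x0 ≠ 0 := mul_ne_zero two_ne_zero he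
  have hinv : (fderiv ℂ G u ∘L .inr ℂ (ℂ × ℂ) ℂ).IsInvertible := by
    refine ⟨ContinuousLinearEquiv.unitsEquivAut ℂ (Units.mk0 (2 * e x0) hne), ?_⟩
    ext
    simp [hder]
  refine ⟨hcd.implicitFunction (by simp) hinv, ⟨?_, ?_, ?_⟩, ?_⟩
  · exact (hcd.contDiffAt_implicitFunction (by simp) hinv).analyticAt
  · have h1 := hcd.eventually_apply_eq_iff_implicitFunction (by simp) hinv
    have hc1 : ContinuousAt (fun x : ℂ => (((x, 0), 0) : (ℂ × ℂ) × ℂ)) x0 := by fun_prop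
    have hc2 : ContinuousAt (fun x : ℂ => ((x, 0) : ℂ × ℂ)) x0 := by fun_prop
    filter_upwards [hc1.eventually h1, hc2.eventually hE] with x a b
    refine a.1 ?_
    rw [hG0]
    simpa [hG] using b
  · have h1 := hcd.eventually_apply_implicitFunction (by simp) hinv
    filter_upwards [h1] with p a
    rw [hG0] at a
    exact a
  · have h1 := hcd.eventually_apply_eq_iff_implicitFunction (by simp) hinv
    have hc1 : ContinuousAt (fun z : ℂ × ℂ × ℂ => (((z.1, z.2.2), z.2.1) : (ℂ × ℂ) × ℂ)) (x0, 0, 0) := by fun_prop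
    filter_upwards [hc1.eventually h1] with z a hz
    refine (a.1 ?_).symm
    rw [hG0]
    exact hz

private theorem root_cont {F : ℂ × ℂ × ℂ → ℂ} {x0 : ℂ} {ρ : ℂ × ℂ → ℂ} (hρ : RootAt F x0 ρ) :
    ContinuousAt (fun p : ℂ × ℂ => ((p.1, ρ p, p.2) : ℂ × ℂ × ℂ)) (x0, 0) ∧ ρ (x0, 0) = 0 := by
  have h1 := hρ.an.continuousAt
  exact ⟨by fun_prop, hρ.zero.self_of_nhds⟩

theorem root_unique {F : ℂ × ℂ × ℂ → ℂ} {x0 : ℂ} {e : ℂ → ℂ} (h : IsLoc F x0 e)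
    (he : e x0 ≠ 0) {ρ ρ' : ℂ × ℂ → ℂ} (hρ : RootAt F x0 ρ) (hρ' : RootAt F x0 ρ') :
    ∀ᶠ p in 𝓝 (x0, (0 : ℂ)), ρ p = ρ' p := by
  obtain ⟨ρ0, _, hu⟩ := root_exists h he
  obtain ⟨c1, z1⟩ := root_cont hρ
  obtain ⟨c2, z2⟩ := root_cont hρ'
  have e1 : ∀ᶠ p in 𝓝 (x0, (0 : ℂ)), ρ p = ρ0 p := by
    have := c1.eventually (p := fun z : ℂ × ℂ × ℂ => D2 F z = 0 → z.2.1 = ρ0 (z.1, z.2.2)) (by
      simp only [z1]
      exact hu)
    filter_upwards [this, hρ.root] with p a b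
    exact a b
  have e2 : ∀ᶠ p in 𝓝 (x0, (0 : ℂ)), ρ' p = ρ0 p := by
    have := c2.eventually (p := fun z : ℂ × ℂ × ℂ => D2 F z = 0 → z.2.1 = ρ0 (z.1, z.2.2)) (by
      simp only [z2]
      exact hu)
    filter_upwards [this, hρ'.root] with p a b
    exact a b
  filter_upwards [e1, e2] with p a b
  rw [a, b]

end Pool.Agent.Lib.MP_d4bba2_ag
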