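import Pool.Agent.Lib.MP_d4bba2_ag.Surf
import Pool.Agent.Lib.MP_d4bba2_ag.Glue

/-!
CHART A k AGAINST THE REFERENCE CHART.  x = gen c ζ with c in the source of z k.
Case c = p k: the reference chart is A k itself (sRef: the chosen index l has p k = p l, so l = k by p_inj).  Comp e e x for a
chart with open target: the inverse maps the target to the source and the composition is the identity on the target.
Case c ≠ p k: c is free (free_of_mem), reference G φ, φ = chartAt c (or any φ of the maximal atlas with c in its source).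
 A → G: near (x0, ξ0), x0 = z k c ≠ 0: (z k).symm x is in φ.source and free, x ≠ 0; composition
   (x, ξ) ↦ (φ ((z k).symm x), ξ * x^(-m)), analytic near x0 ≠ 0.
 G → A: near (φ c, ζ): φ.symm x in the source of z k, ≠ p k; composition (x, ζ) ↦ (y, ζ * y^m) with y = z k (φ.symm x) ≠ 0.
-/

open scoped Topology Manifold ContDiff
open Filter

noncomputable section

namespace Pool.Agent.Lib.MP_d4bba2_ag

theorem comp_AG (D : CurveData) (k : D.K) {φ : OpenPartialHomeomorph D.C ℂ}
    (hφ : φ ∈ IsManifold.maximalAtlas 𝓘(ℂ, ℂ) ω D.C) {c : D.C} (h : c ∈ φ.source)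
    (hk : c ∈ (D.z k).source) (hc : c ≠ D.p k) (ζ : ℂ) :
    Comp (chA D k) (chG D φ) (.gen c ζ) ∧ Comp (chG D φ) (chA D k) (.gen c ζ) := by
  classical
  have hz0 : D.z k c ≠ 0 := D.z_ne hk hc
  have hsymm : (D.z k).symm (D.z k c) = c := (D.z k).left_inv hk
  have hφs : φ.symm (φ c) = c := φ.left_inv h
  constructor
  · have ev : ∀ᶠ y in 𝓝 ((chA D k) (.gen c ζ)), y.1 ≠ 0 ∧ y.1 ∈ (D.z k).target ∧
        (D.z k).symm y.1 ∈ φ.source := by
      have h1 : ((chA D k) (.gen c ζ)) = (D.z k c, xi D k c ζ) := rfl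
      rw [h1]
      have hc1 : Tendsto (fun y : ℂ × ℂ => y.1) (𝓝 (D.z k c, xi D k c ζ)) (𝓝 (D.z k c)) :=
        continuous_fst.tendsto _
      have ev1 : ∀ᶠ x in 𝓝 (D.z k c), x ≠ 0 ∧ x ∈ (D.z k).target ∧
          (D.z k).symm x ∈ φ.source := by
        have hct := (D.z k).continuousAt_symm ((D.z k).map_source hk)
        filter_upwards [isOpen_ne.mem_nhds hz0,
          (D.z k).open_target.mem_nhds ((D.z k).map_source hk),
          hct.preimage_mem_nhds (φ.open_source.mem_nhds (by rw [hsymm]; exact h))]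
          with x h1 h2 h3
        exact ⟨h1, h2, h3⟩
      exact hc1.eventually ev1
    constructor
    · filter_upwards [ev] with y hy
      obtain ⟨h1, h2, h3⟩ := hy
      show chGsource D φ (chAinv D k y)
      refine ⟨h3, ?_⟩
      have h4 : (D.z k).symm y.1 ∈ (D.z k).source := (D.z k).map_target h2
      refine D.free_of_mem h4 ?_
      intro h5
      have h6 : y.1 ∈ Metric.ball (0 : ℂ) (1 / 2) := by
        rw [← D.z_target k]
        exact h2
      exact h1 ((D.symm_eq_p h6).1 h5)
    · have han : AnalyticAt ℂ (fun y : ℂ × ℂ => (φ ((D.z k).symm y.1), y.2 * y.1 ^ (-D.m k)))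
          ((chA D k) (.gen c ζ)) := by
        have h1 : ((chA D k) (.gen c ζ)) = (D.z k c, xi D k c ζ) := rfl
        rw [h1]
        refine AnalyticAt.prod ?_ ?_
        · have h2 := transition_an (D.z_mem k) hφ hk h
          exact AnalyticAt.fun_comp_of_eq (g := fun p => φ ((D.z k).symm p))
            (f := fun y : ℂ × ℂ => y.1) h2 analyticAt_fst rfl
        · exact analyticAt_snd.mul (analyticAt_fst.zpow hz0)
      refine han.congr ?_
      filter_upwards [ev] with y hy
      show (φ ((D.z k).symm y.1), y.2 * y.1 ^ (-D.m k)) =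
        (φ ((D.z k).symm y.1), if y.1 = 0 then y.2 else y.2 * y.1 ^ (-D.m k))
      rw [if_neg hy.1]
  · have ev : ∀ᶠ y in 𝓝 ((chG D φ) (.gen c ζ)), φ.symm y.1 ≠ D.p k ∧
        φ.symm y.1 ∈ (D.z k).source := by
      have h1 : ((chG D φ) (.gen c ζ)) = (φ c, ζ) := rfl
      rw [h1]
      have hc1 : Tendsto (fun y : ℂ × ℂ => y.1) (𝓝 (φ c, ζ)) (𝓝 (φ c)) :=
        continuous_fst.tendsto _
      have ev1 : ∀ᶠ x in 𝓝 (φ c), φ.symm x ≠ D.p k ∧ φ.symm x ∈ (D.z k).source := by
        have hct := φ.continuousAt_symm (φ.map_source h)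
        filter_upwards [hct.preimage_mem_nhds (isOpen_ne.mem_nhds (by rw [hφs]; exact hc)),
          hct.preimage_mem_nhds ((D.z k).open_source.mem_nhds (by rw [hφs]; exact hk))]
          with x h1 h2
        exact ⟨h1, h2⟩
      exact hc1.eventually ev1
    constructor
    · filter_upwards [ev] with y hy
      exact hy.2
    · have han : AnalyticAt ℂ (fun y : ℂ × ℂ => (D.z k (φ.symm y.1),
          y.2 * (D.z k (φ.symm y.1)) ^ (D.m k))) ((chG D φ) (.gen c ζ)) := by
        have h1 : ((chG D φ) (.gen c ζ)) = (φ c, ζ) := rfl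
        rw [h1]
        have h2 := transition_an hφ (D.z_mem k) h hk
        have h3 : AnalyticAt ℂ (fun y : ℂ × ℂ => D.z k (φ.symm y.1)) (φ c, ζ) :=
          AnalyticAt.fun_comp_of_eq (g := fun p => D.z k (φ.symm p))
            (f := fun y : ℂ × ℂ => y.1) h2 analyticAt_fst rfl
        refine AnalyticAt.prod h3 ?_
        refine analyticAt_snd.mul (h3.zpow ?_)
        show D.z k (φ.symm (φ c)) ≠ 0
        rw [hφs]
        exact hz0
      refine han.congr ?_
      filter_upwards [ev] with y hy
      show (D.z k (φ.symm y.1), y.2 * (D.z k (φ.symm y.1)) ^ (D.m k)) =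
        (D.z k (φ.symm y.1), if φ.symm y.1 = D.p k then y.2
          else y.2 * (D.z k (φ.symm y.1)) ^ (D.m k))
      rw [if_neg hy.1]

private theorem comp_self {S : Type} {e : PartialEquiv S (ℂ × ℂ)} (he : IsOpen e.target) {x : S}
    (hx : x ∈ e.source) : Comp e e x := by
  have h1 : ∀ᶠ y in 𝓝 (e x), y ∈ e.target := he.mem_nhds (e.map_source hx)
  constructor
  · filter_upwards [h1] with y hy
    exact e.map_target hy
  · refine analyticAt_id.congr ?_
    filter_upwards [h1] with y hy
    exact (e.right_inv hy).symm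

theorem comp_A (D : CurveData) (k : D.K) (x : Surf D) (hx : x ∈ (chA D k).source) :
    Comp (chA D k) (sChart D (sRef D x)) x ∧ Comp (sChart D (sRef D x)) (chA D k) x := by
  classical
  cases x with
  | dd k' β => exact absurd hx id
  | gen c ζ =>
    have hk : c ∈ (D.z k).source := hx
    by_cases hfree : D.Free c
    · have h1 : sRef D (.gen c ζ) =
          .G (chartAt ℂ c) (IsManifold.chart_mem_maximalAtlas c) := dif_pos hfree
      rw [h1]
      exact comp_AG D k (IsManifold.chart_mem_maximalAtlas c) (mem_chart_source ℂ c) hk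
        (hfree k) ζ
    · have h1 : sRef D (.gen c ζ) = .A (D.not_free hfree).choose := dif_neg hfree
      have h2 : c = D.p (D.not_free hfree).choose := (D.not_free hfree).choose_spec
      have h3 : (D.not_free hfree).choose = k := D.eq_of_mem (k := k) (by rw [← h2]; exact hk)
      rw [h1, h3]
      have h4 : IsOpen (chA D k).target := by
        show IsOpen {p : ℂ × ℂ | p.1 ∈ Metric.ball (0 : ℂ) (1 / 2)}
        exact Metric.isOpen_ball.preimage continuous_fst
      exact ⟨comp_self h4 hx, comp_self h4 hx⟩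

end Pool.Agent.Lib.MP_d4bba2_ag
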