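import Pool.Agent.Lib.MP_d4bba2_ag.SCompA

/-!
CHART B k AGAINST THE REFERENCE CHART.
comp_AB: at gen c ζ with c in the source of z k and ξ0 = xi k c ζ ≠ 0.  A → B: near (x0, ξ0) the point (chA).symm (x,ξ) has xi = ξ ≠ 0,
 so it is in the source of B, composition (x,ξ) ↦ (x ξ², ξ⁻¹).  B → A: near (β0,η0) = (x0 ξ0², ξ0⁻¹), η ≠ 0 and β η² in the ball; the
 point is (chA).symm (β η², η⁻¹), composition (β,η) ↦ (β η², η⁻¹).
comp_B: x = dd k β: the reference chart is B k itself.  x = gen c ζ: with c = p k: reference A k, comp_AB; with c ≠ p k: reference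
 G (chartAt c): Comp.trans of comp_AB and comp_AG (both directions).
-/

open scoped Topology Manifold ContDiff
open Filter

noncomputable section

namespace Pool.Agent.Lib.MP_d4bba2_ag

private theorem scB_self {S : Type} (e : PartialEquiv S (ℂ × ℂ)) (ht : IsOpen e.target) {x : S}
    (hx : x ∈ e.source) : Comp e e x := by
  have h1 : ∀ᶠ y in 𝓝 (e x), y ∈ e.target := ht.mem_nhds (e.map_source hx)
  constructor
  · filter_upwards [h1] with y hy
    exact e.map_target hy
  · refine analyticAt_id.congr ?_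
    filter_upwards [h1] with y hy
    exact (e.right_inv hy).symm

private theorem scB_openB (D : CurveData) (k : D.K) : IsOpen (chB D k).target := by
  have h1 : Continuous (fun p : ℂ × ℂ => p.1 * p.2 ^ 2) := by fun_prop
  exact Metric.isOpen_ball.preimage h1

private theorem scB_xi (D : CurveData) (k : D.K) {x : ℂ} (hx : x ∈ Metric.ball (0 : ℂ) (1 / 2))
    (ξ : ℂ) : xi D k ((D.z k).symm x) (if x = 0 then ξ else ξ * x ^ (-D.m k)) = ξ := by
  have ht : x ∈ (D.z k).target := by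
    rw [D.z_target k]
    exact hx
  unfold xi
  by_cases h0 : x = 0
  · rw [if_pos ((D.symm_eq_p hx).2 h0), if_pos h0]
  · rw [if_neg (fun h => h0 ((D.symm_eq_p hx).1 h)), if_neg h0, (D.z k).right_inv ht, mul_assoc,
      ← zpow_add₀ h0, neg_add_cancel, zpow_zero, mul_one]

private theorem scB_mem (D : CurveData) (k : D.K) {x : ℂ} (hx : x ∈ Metric.ball (0 : ℂ) (1 / 2)) :
    (D.z k).symm x ∈ (D.z k).source := by
  apply (D.z k).map_target
  rw [D.z_target k]
  exact hx

private theorem scB_A (D : CurveData) (k : D.K) {p : ℂ × ℂ}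
    (hp : p.1 ∈ Metric.ball (0 : ℂ) (1 / 2)) : chAfun D k (chAinv D k p) = p := by
  have ht : p.1 ∈ (D.z k).target := by
    rw [D.z_target k]
    exact hp
  have h1 : chAfun D k (chAinv D k p) = (D.z k ((D.z k).symm p.1),
      xi D k ((D.z k).symm p.1) (if p.1 = 0 then p.2 else p.2 * p.1 ^ (-D.m k))) := rfl
  rw [h1, scB_xi D k hp, (D.z k).right_inv ht]

private theorem scB_B (D : CurveData) (k : D.K) {p : ℂ × ℂ}
    (hp : p.1 ∈ Metric.ball (0 : ℂ) (1 / 2)) :
    chBfun D k (chAinv D k p) = (p.1 * p.2 ^ 2, p.2⁻¹) := by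
  have ht : p.1 ∈ (D.z k).target := by
    rw [D.z_target k]
    exact hp
  have h1 : chBfun D k (chAinv D k p) = (D.z k ((D.z k).symm p.1) *
      xi D k ((D.z k).symm p.1) (if p.1 = 0 then p.2 else p.2 * p.1 ^ (-D.m k)) ^ 2,
      (xi D k ((D.z k).symm p.1) (if p.1 = 0 then p.2 else p.2 * p.1 ^ (-D.m k)))⁻¹) := rfl
  rw [h1, scB_xi D k hp, (D.z k).right_inv ht]

theorem comp_AB (D : CurveData) (k : D.K) {c : D.C} (hk : c ∈ (D.z k).source) {ζ : ℂ}
    (hz : xi D k c ζ ≠ 0) :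
    Comp (chA D k) (chB D k) (.gen c ζ) ∧ Comp (chB D k) (chA D k) (.gen c ζ) := by
  have hb : D.z k c ∈ Metric.ball (0 : ℂ) (1 / 2) := by
    rw [← D.z_target k]
    exact (D.z k).map_source hk
  constructor
  · have h1 : ∀ᶠ y : ℂ × ℂ in 𝓝 (D.z k c, xi D k c ζ), y.1 ∈ Metric.ball (0 : ℂ) (1 / 2) :=
      continuous_fst.continuousAt.eventually (Metric.isOpen_ball.mem_nhds hb)
    have h2 : ∀ᶠ y : ℂ × ℂ in 𝓝 (D.z k c, xi D k c ζ), y.2 ≠ 0 :=
      (continuous_snd.continuousAt (x := (D.z k c, xi D k c ζ))).eventually_ne hz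
    constructor
    · change ∀ᶠ y in 𝓝 (D.z k c, xi D k c ζ), chAinv D k y ∈ (chB D k).source
      filter_upwards [h1, h2] with y hy1 hy2
      refine ⟨scB_mem D k hy1, ?_⟩
      rw [scB_xi D k hy1]
      exact hy2
    · change AnalyticAt ℂ (fun y => chBfun D k (chAinv D k y)) (D.z k c, xi D k c ζ)
      have h3 : AnalyticAt ℂ (fun y : ℂ × ℂ => (y.1 * y.2 ^ 2, y.2⁻¹)) (D.z k c, xi D k c ζ) :=
        AnalyticAt.prod (analyticAt_fst.mul (analyticAt_snd.pow 2)) (analyticAt_snd.inv hz)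
      refine h3.congr ?_
      filter_upwards [h1] with y hy1
      exact (scB_B D k hy1).symm
  · set q : ℂ × ℂ := (D.z k c * xi D k c ζ ^ 2, (xi D k c ζ)⁻¹) with hq
    have hq2 : q.2 ≠ 0 := inv_ne_zero hz
    have hq1 : q.1 * q.2 ^ 2 ∈ Metric.ball (0 : ℂ) (1 / 2) := by
      have h4 : q.1 * q.2 ^ 2 = D.z k c := by
        rw [hq]
        field_simp
      rw [h4]
      exact hb
    have h1 : ∀ᶠ y : ℂ × ℂ in 𝓝 q, y.1 * y.2 ^ 2 ∈ Metric.ball (0 : ℂ) (1 / 2) :=
      (scB_openB D k).mem_nhds hq1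
    have h2 : ∀ᶠ y : ℂ × ℂ in 𝓝 q, y.2 ≠ 0 :=
      (continuous_snd.continuousAt (x := q)).eventually_ne hq2
    have h3 : ∀ y : ℂ × ℂ, y.2 ≠ 0 → chBinv D k y = chAinv D k (y.1 * y.2 ^ 2, y.2⁻¹) :=
      fun y hy => if_neg hy
    constructor
    · change ∀ᶠ y in 𝓝 q, chBinv D k y ∈ (chA D k).source
      filter_upwards [h1, h2] with y hy1 hy2
      rw [h3 y hy2]
      exact scB_mem D k hy1
    · change AnalyticAt ℂ (fun y => chAfun D k (chBinv D k y)) q
      have h4 : AnalyticAt ℂ (fun y : ℂ × ℂ => (y.1 * y.2 ^ 2, y.2⁻¹)) q :=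
        AnalyticAt.prod (analyticAt_fst.mul (analyticAt_snd.pow 2)) (analyticAt_snd.inv hq2)
      refine h4.congr ?_
      filter_upwards [h1, h2] with y hy1 hy2
      rw [h3 y hy2, scB_A D k (p := (y.1 * y.2 ^ 2, y.2⁻¹)) hy1]

theorem comp_B (D : CurveData) (k : D.K) (x : Surf D) (hx : x ∈ (chB D k).source) :
    Comp (chB D k) (sChart D (sRef D x)) x ∧ Comp (sChart D (sRef D x)) (chB D k) x := by
  cases x with
  | gen c ζ =>
    have hx' : c ∈ (D.z k).source ∧ xi D k c ζ ≠ 0 := hx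
    obtain ⟨hk, hz⟩ := hx'
    have hAB := comp_AB D k hk hz
    by_cases hf : D.Free c
    · have h1 : sRef D (.gen c ζ) = .G (chartAt ℂ c) (IsManifold.chart_mem_maximalAtlas c) :=
        dif_pos hf
      rw [h1]
      have hAG := comp_AG D k (IsManifold.chart_mem_maximalAtlas c) (mem_chart_source ℂ c) hk
        (hf k) ζ
      have hG : (Surf.gen c ζ : Surf D) ∈ (chG D (chartAt ℂ c)).source :=
        ⟨mem_chart_source ℂ c, hf⟩
      exact ⟨hAB.2.trans hx hAG.1, hAG.2.trans hG hAB.1⟩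
    · have h1 : sRef D (.gen c ζ) = .A (D.not_free hf).choose := dif_neg hf
      have h2 := (D.not_free hf).choose_spec
      have h3 : (D.not_free hf).choose = k := D.eq_of_mem (by
        rw [← h2]
        exact hk)
      rw [h1, h3]
      exact ⟨hAB.2, hAB.1⟩
  | dd k' β =>
    have h1 : k' = k := hx
    subst h1
    have h2 := scB_self (chB D k') (scB_openB D k') hx
    exact ⟨h2, h2⟩

end Pool.Agent.Lib.MP_d4bba2_ag
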