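import Pool.Agent.Lib.MP_d4bba2_ag.Surf
import Pool.Agent.Lib.MP_d4bba2_ag.Glue

/-!
CHART G φ AGAINST THE REFERENCE CHART.  x in the source of chG φ is gen c ζ with c in φ.source, c free; the reference chart is
G (chartAt c).  More generally for φ, φ' in the maximal atlas and c in both sources, c free: near (φ c, ζ), φ.symm p.1 lies in
φ'.source and is free (free_open, continuity of φ.symm at φ c), and the composition is (x, ζ) ↦ (φ' (φ.symm x), ζ), analytic
(transition_an).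
-/

open scoped Topology Manifold ContDiff
open Filter

noncomputable section

namespace Pool.Agent.Lib.MP_d4bba2_ag

theorem comp_GG (D : CurveData) {φ φ' : OpenPartialHomeomorph D.C ℂ}
    (hφ : φ ∈ IsManifold.maximalAtlas 𝓘(ℂ, ℂ) ω D.C)
    (hφ' : φ' ∈ IsManifold.maximalAtlas 𝓘(ℂ, ℂ) ω D.C) {c : D.C} (h : c ∈ φ.source)
    (h' : c ∈ φ'.source) (hc : D.Free c) (ζ : ℂ) : Comp (chG D φ) (chG D φ') (.gen c ζ) := by
  constructor
  · show ∀ᶠ y : ℂ × ℂ in 𝓝 (φ c, ζ), φ.symm y.1 ∈ φ'.source ∧ D.Free (φ.symm y.1)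
    have h1 : ContinuousAt φ.symm (φ c) := φ.continuousAt_symm (φ.map_source h)
    have h2 : ContinuousAt (fun y : ℂ × ℂ => φ.symm y.1) (φ c, ζ) :=
      ContinuousAt.comp' (f := fun y : ℂ × ℂ => y.1) h1 continuousAt_fst
    have h3 : IsOpen {c' : D.C | c' ∈ φ'.source ∧ D.Free c'} := φ'.open_source.inter D.free_open
    have h4 : φ.symm ((φ c, ζ) : ℂ × ℂ).1 ∈ {c' : D.C | c' ∈ φ'.source ∧ D.Free c'} := by
      show φ.symm (φ c) ∈ {c' : D.C | c' ∈ φ'.source ∧ D.Free c'}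
      rw [φ.left_inv h]
      exact ⟨h', hc⟩
    exact h2.eventually (h3.mem_nhds h4)
  · show AnalyticAt ℂ (fun y : ℂ × ℂ => (φ' (φ.symm y.1), y.2)) (φ c, ζ)
    have h1 : AnalyticAt ℂ (fun p => φ' (φ.symm p)) (φ c) := transition_an hφ hφ' h h'
    have h2 : AnalyticAt ℂ (fun y : ℂ × ℂ => φ' (φ.symm y.1)) (φ c, ζ) :=
      AnalyticAt.fun_comp (g := fun p => φ' (φ.symm p)) (f := fun y : ℂ × ℂ => y.1)
        (by exact h1) analyticAt_fst
    exact h2.prod analyticAt_snd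

theorem comp_G (D : CurveData) (φ : OpenPartialHomeomorph D.C ℂ)
    (h : φ ∈ IsManifold.maximalAtlas 𝓘(ℂ, ℂ) ω D.C) (x : Surf D)
    (hx : x ∈ (chG D φ).source) :
    Comp (chG D φ) (sChart D (sRef D x)) x ∧ Comp (sChart D (sRef D x)) (chG D φ) x := by
  cases x with
  | gen c ζ =>
    obtain ⟨h1, h2⟩ : c ∈ φ.source ∧ D.Free c := hx
    have hr : sChart D (sRef D (.gen c ζ)) = chG D (chartAt ℂ c) := by
      have h3 : sRef D (.gen c ζ) = .G (chartAt ℂ c) (IsManifold.chart_mem_maximalAtlas c) :=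
        dif_pos h2
      rw [h3]
      rfl
    rw [hr]
    exact ⟨comp_GG D h (IsManifold.chart_mem_maximalAtlas c) h1 (mem_chart_source ℂ c) h2 ζ,
      comp_GG D (IsManifold.chart_mem_maximalAtlas c) h (mem_chart_source ℂ c) h1 h2 ζ⟩
  | dd k β => exact hx.elim

end Pool.Agent.Lib.MP_d4bba2_ag
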