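import Pool.Agent.Lib.MP_d4bba2_ag.SProper
import Pool.Agent.Lib.MP_d4bba2_ag.ConnSingle

/-!
CONNECTED FIBRES.
b = 0: f⁻¹(0) = {genS c 0} ∪ ⋃_k ({genS (p k) ξ | ξ} ∪ {ddS k 0}) (f (gen c ζ) = s c ζ², s c = 0 iff c = p k; f (dd k β) = g k 0 β).
 {genS c 0} is the continuous image of the connected C (zero_section_continuous).  {genS (p k) ξ} is the image of ℂ under
 ξ ↦ (cA k).symm (0, ξ), continuous; ddS k 0 is in its closure: (cB k).symm (0, η) → ddS k 0 as η → 0 and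
 (cB k).symm (0,η) = genS (p k) η⁻¹ for η ≠ 0.  The sets have the common points genS (p k) 0.
b ≠ 0: X = f⁻¹(b) compact (sF_proper), π = sPi : X → C.  Choose k (K is non empty).
 singleton fibre: f x = b, sPi x = p k: gen (p k) ζ has f = 0 ≠ b, so x = dd l β with p l = p k, l = k, β = b / g k 0: one point
   x0 = ddS k (b / g k 0).
 closed: continuous from compact to Hausdorff.
 open: let x ∈ X and W an open neighbourhood of x in the surface; show: for c near sPi x there is y ∈ W with f y = b, sPi y = c.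
   x = gen c0 ζ0, c0 free, s c0 ζ0² = b: for c near c0: b / s c → b / s c0 = ζ0² and sqrt_near gives ζ near ζ0 with ζ² = b / s c;
     genS c ζ is near x (gen_continuousAt).
   x = ddS k (b/g k 0): for c near p k, x' = z k c → 0, β = b / g k x' → b / g k 0, choose η with η² = x' / β, |η| = sqrt |x'/β| → 0;
     y = (cB k).symm (β, η): β η² = x' so sPi y = (z k).symm x' = c and f y = β g k x' = b; y → (cB k).symm (b/g k 0, 0) = x.
 conn_single gives: X is preconnected; non empty: x0.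
-/

open scoped Topology Manifold ContDiff
open Filter

noncomputable section

namespace Pool.Agent.Lib.MP_d4bba2_ag

private theorem sconn_genS_f (D : CurveData) (c : D.C) (ζ : ℂ) :
    sF D (genS c ζ) = D.s c * ζ ^ 2 := rfl

private theorem sconn_ddS_f (D : CurveData) (k : D.K) (β : ℂ) :
    sF D (ddS k β) = D.g k 0 * β := rfl

private theorem sconn_zero_ball : (0 : ℂ) ∈ Metric.ball (0 : ℂ) (1 / 2) :=
  Metric.mem_ball_self (by norm_num)

private theorem sconn_symm_zero (D : CurveData) (k : D.K) : (D.z k).symm 0 = D.p k :=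
  (CurveData.symm_eq_p D sconn_zero_ball).2 rfl

private theorem sconn_cA_zero (D : CurveData) (k : D.K) (ξ : ℂ) :
    (cA D k).symm ((0 : ℂ), ξ) = genS (D.p k) ξ := by
  have h1 : (cA D k).symm ((0 : ℂ), ξ) = (chAinv D k ((0 : ℂ), ξ) : Surf D) := rfl
  have h2 : chAinv D k ((0 : ℂ), ξ) = (Surf.gen (D.p k) ξ : Surf D) := by
    unfold chAinv
    simp only [if_true]
    rw [sconn_symm_zero]
  rw [h1, h2]
  rfl

private theorem sconn_cB_zero (D : CurveData) (k : D.K) (β : ℂ) :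
    (cB D k).symm (β, (0 : ℂ)) = ddS k β := by
  have h1 : (cB D k).symm (β, (0 : ℂ)) = (chBinv D k (β, (0 : ℂ)) : Surf D) := rfl
  have h2 : chBinv D k (β, (0 : ℂ)) = (Surf.dd k β : Surf D) := by
    unfold chBinv
    simp only [if_true]
  rw [h1, h2]
  rfl

private theorem sconn_cB_ne (D : CurveData) (k : D.K) (η : ℂ) (h : η ≠ 0) :
    (cB D k).symm ((0 : ℂ), η) = genS (D.p k) η⁻¹ := by
  have h1 : (cB D k).symm ((0 : ℂ), η) = (chBinv D k ((0 : ℂ), η) : Surf D) := rfl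
  have h2 : chBinv D k ((0 : ℂ), η) = (Surf.gen (D.p k) η⁻¹ : Surf D) := by
    unfold chBinv
    rw [if_neg h]
    unfold chAinv
    simp only [zero_mul, if_true]
    rw [sconn_symm_zero]
  rw [h1, h2]
  rfl

private theorem sconn_cB_pi (D : CurveData) (k : D.K) (q : ℂ × ℂ) :
    sPi D ((cB D k).symm q) = (D.z k).symm (q.1 * q.2 ^ 2) := by
  have h1 : (cB D k).symm q = (chBinv D k q : Surf D) := rfl
  have h3 : sPi D ((cB D k).symm q) = sPiFun D (chBinv D k q) := rfl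
  rw [h3]
  unfold chBinv
  by_cases h : q.2 = 0
  · rw [if_pos h, h]
    have h4 : q.1 * (0 : ℂ) ^ 2 = 0 := by ring
    rw [h4, sconn_symm_zero]
    rfl
  · rw [if_neg h]
    rfl

private theorem sconn_cA_tgt (D : CurveData) (k : D.K) (q : ℂ × ℂ)
    (h : q.1 ∈ Metric.ball (0 : ℂ) (1 / 2)) : q ∈ (cA D k).target := h

private theorem sconn_cB_tgt (D : CurveData) (k : D.K) (q : ℂ × ℂ)
    (h : q.1 * q.2 ^ 2 ∈ Metric.ball (0 : ℂ) (1 / 2)) : q ∈ (cB D k).target := h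

private theorem sconn_line_continuous (D : CurveData) (k : D.K) :
    Continuous (fun ξ : ℂ => (genS (D.p k) ξ : SurfS D)) := by
  have h1 : (fun ξ : ℂ => (genS (D.p k) ξ : SurfS D)) =
      fun ξ : ℂ => (cA D k).symm ((0 : ℂ), ξ) := by
    funext ξ
    exact (sconn_cA_zero D k ξ).symm
  rw [h1]
  exact (cA D k).continuousOn_symm.comp_continuous (by fun_prop)
    (fun ξ => sconn_cA_tgt D k _ sconn_zero_ball)

private theorem sconn_dd_closure (D : CurveData) (k : D.K) :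
    (ddS k 0 : SurfS D) ∈ closure (Set.range (fun ξ : ℂ => (genS (D.p k) ξ : SurfS D))) := by
  have ht : ((0 : ℂ), (0 : ℂ)) ∈ (cB D k).target := by
    apply sconn_cB_tgt
    have h4 : (0 : ℂ) * (0 : ℂ) ^ 2 = 0 := by ring
    show (0 : ℂ) * (0 : ℂ) ^ 2 ∈ Metric.ball (0 : ℂ) (1 / 2)
    rw [h4]
    exact sconn_zero_ball
  have h1 : ContinuousAt (cB D k).symm ((0 : ℂ), (0 : ℂ)) :=
    (cB D k).continuousAt_symm ht
  have h2 : Tendsto (fun η : ℂ => ((0 : ℂ), η)) (𝓝 0) (𝓝 ((0 : ℂ), (0 : ℂ))) := by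
    have : Continuous (fun η : ℂ => ((0 : ℂ), η)) := by fun_prop
    exact this.continuousAt
  have h3 : Tendsto (fun η : ℂ => (cB D k).symm ((0 : ℂ), η)) (𝓝[≠] 0)
      (𝓝 ((cB D k).symm ((0 : ℂ), (0 : ℂ)))) :=
    (h1.tendsto.comp h2).mono_left nhdsWithin_le_nhds
  rw [sconn_cB_zero] at h3
  refine mem_closure_of_tendsto h3 ?_
  filter_upwards [self_mem_nhdsWithin] with η hη
  exact ⟨η⁻¹, (sconn_cB_ne D k η hη).symm⟩

theorem sF_conn_zero (D : CurveData) : IsConnected (sF D ⁻¹' {0}) := by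
  obtain ⟨k0⟩ := D.neK
  have hx0 : (genS (D.p k0) 0 : SurfS D) ∈ sF D ⁻¹' {0} := by
    show sF D (genS (D.p k0) 0) = 0
    rw [sconn_genS_f]
    ring
  refine ⟨⟨_, hx0⟩, ?_⟩
  have hZ : IsPreconnected (Set.range (fun c : D.C => (genS c 0 : SurfS D))) :=
    isPreconnected_range (zero_section_continuous D)
  have hZs : Set.range (fun c : D.C => (genS c 0 : SurfS D)) ⊆ sF D ⁻¹' {0} := by
    rintro _ ⟨c, rfl⟩
    show sF D (genS c 0) = 0
    rw [sconn_genS_f]
    ring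
  have hL : ∀ k : D.K, IsPreconnected (insert (ddS k 0 : SurfS D)
      (Set.range (fun ξ : ℂ => (genS (D.p k) ξ : SurfS D)))) := by
    intro k
    refine (isPreconnected_range (sconn_line_continuous D k)).subset_closure
      (Set.subset_insert _ _) ?_
    rintro y (rfl | hy)
    · exact sconn_dd_closure D k
    · exact subset_closure hy
  have hLs : ∀ k : D.K, insert (ddS k 0 : SurfS D)
      (Set.range (fun ξ : ℂ => (genS (D.p k) ξ : SurfS D))) ⊆ sF D ⁻¹' {0} := by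
    rintro k y (rfl | ⟨ξ, rfl⟩)
    · show sF D (ddS k 0) = 0
      rw [sconn_ddS_f]
      ring
    · show sF D (genS (D.p k) ξ) = 0
      rw [sconn_genS_f, D.s_p]
      ring
  have hU : ∀ k : D.K, IsPreconnected (Set.range (fun c : D.C => (genS c 0 : SurfS D)) ∪
      insert (ddS k 0 : SurfS D) (Set.range (fun ξ : ℂ => (genS (D.p k) ξ : SurfS D)))) := by
    intro k
    refine IsPreconnected.union (genS (D.p k) 0) ⟨D.p k, rfl⟩ ?_ hZ (hL k)
    exact Set.mem_insert_of_mem _ ⟨0, rfl⟩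
  refine isPreconnected_of_forall (genS (D.p k0) 0 : SurfS D) ?_
  intro y hy
  have hy' : sF D y = 0 := hy
  rcases surfS_cases y with ⟨c, ζ, rfl⟩ | ⟨k, β, rfl⟩
  · by_cases hζ : ζ = 0
    · subst hζ
      exact ⟨_, hZs, ⟨D.p k0, rfl⟩, ⟨c, rfl⟩, hZ⟩
    · rw [sconn_genS_f] at hy'
      have hs : D.s c = 0 := by
        rcases mul_eq_zero.1 hy' with h | h
        · exact h
        · exact absurd (pow_eq_zero_iff (two_ne_zero) |>.1 h) hζ
      have hc : ¬ D.Free c := fun h => D.s_ne c h hs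
      obtain ⟨k, rfl⟩ := D.not_free hc
      exact ⟨_, Set.union_subset hZs (hLs k), Or.inl ⟨D.p k0, rfl⟩,
        Or.inr (Set.mem_insert_of_mem _ ⟨ζ, rfl⟩), hU k⟩
  · rw [sconn_ddS_f] at hy'
    have hβ : β = 0 := by
      rcases mul_eq_zero.1 hy' with h | h
      · exact absurd h (D.g_ne k 0 sconn_zero_ball)
      · exact h
    subst hβ
    exact ⟨_, Set.union_subset hZs (hLs k), Or.inl ⟨D.p k0, rfl⟩,
      Or.inr (Set.mem_insert _ _), hU k⟩

private theorem sconn_open_gen (D : CurveData) {b : ℂ} (hb : b ≠ 0) (c0 : D.C) (ζ0 : ℂ)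
    (hf : sF D (genS c0 ζ0) = b) {W : Set (SurfS D)} (hW : W ∈ 𝓝 (genS c0 ζ0 : SurfS D)) :
    ∀ᶠ c in 𝓝 c0, ∃ y ∈ W, sF D y = b ∧ sPi D y = c := by
  rw [sconn_genS_f] at hf
  have hs0 : D.s c0 ≠ 0 := by
    intro h
    rw [h, zero_mul] at hf
    exact hb hf.symm
  have hfree : D.Free c0 := by
    intro k hk
    rw [hk] at hs0
    exact hs0 (D.s_p k)
  have h1 := (gen_continuousAt D hfree ζ0).tendsto.eventually hW
  rw [nhds_prod_eq, Filter.eventually_prod_iff] at h1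
  obtain ⟨pa, hpa, pb, hpb, hab⟩ := h1
  have hsc : ContinuousAt D.s c0 := (D.s_an c0 hfree).continuousAt
  have hdiv : ContinuousAt (fun c => b / D.s c) c0 := continuousAt_const.div hsc hs0
  have hval : b / D.s c0 = ζ0 ^ 2 := by
    rw [← hf]
    field_simp
  have hsq := sqrt_near (a := ζ0) (U := {ζ | pb ζ}) hpb
  have hdt : Tendsto (fun c => b / D.s c) (𝓝 c0) (𝓝 (ζ0 ^ 2)) := by
    have := hdiv.tendsto
    rwa [hval] at this
  have h2 := hdt.eventually hsq
  have h3 : ∀ᶠ c in 𝓝 c0, D.s c ≠ 0 := hsc.eventually_ne hs0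
  filter_upwards [hpa, h2, h3] with c hc1 hc2 hc3
  obtain ⟨ζ, hζ, hζ2⟩ := hc2
  refine ⟨genS c ζ, hab hc1 hζ, ?_, rfl⟩
  rw [sconn_genS_f, hζ2]
  field_simp

private theorem sconn_open_dd (D : CurveData) {b : ℂ} (hb : b ≠ 0) (k : D.K) (β0 : ℂ)
    (hf : sF D (ddS k β0) = b) {W : Set (SurfS D)} (hW : W ∈ 𝓝 (ddS k β0 : SurfS D)) :
    ∀ᶠ c in 𝓝 (D.p k), ∃ y ∈ W, sF D y = b ∧ sPi D y = c := by
  rw [sconn_ddS_f] at hf
  have hg0 : D.g k 0 ≠ 0 := D.g_ne k 0 sconn_zero_ball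
  have ht : (β0, (0 : ℂ)) ∈ (cB D k).target := by
    apply sconn_cB_tgt
    have h4 : β0 * (0 : ℂ) ^ 2 = 0 := by ring
    show β0 * (0 : ℂ) ^ 2 ∈ Metric.ball (0 : ℂ) (1 / 2)
    rw [h4]
    exact sconn_zero_ball
  have h1 : ContinuousAt (cB D k).symm (β0, (0 : ℂ)) := (cB D k).continuousAt_symm ht
  rw [← sconn_cB_zero] at hW
  have h2 := h1.tendsto.eventually hW
  rw [nhds_prod_eq, Filter.eventually_prod_iff] at h2
  obtain ⟨pa, hpa, pb, hpb, hab⟩ := h2
  have hz : Tendsto (D.z k) (𝓝 (D.p k)) (𝓝 0) := by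
    have := ((D.z k).continuousAt (D.p_mem k)).tendsto
    rwa [D.z_p k] at this
  have hg : ContinuousAt (D.g k) 0 := (D.g_an k 0 sconn_zero_ball).continuousAt
  have hgz : Tendsto (fun c => D.g k (D.z k c)) (𝓝 (D.p k)) (𝓝 (D.g k 0)) :=
    hg.tendsto.comp hz
  have hβt : Tendsto (fun c => b / D.g k (D.z k c)) (𝓝 (D.p k)) (𝓝 β0) := by
    have h3 : Tendsto (fun c => b / D.g k (D.z k c)) (𝓝 (D.p k)) (𝓝 (b / D.g k 0)) :=
      tendsto_const_nhds.div hgz hg0
    have h4 : b / D.g k 0 = β0 := by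
      rw [← hf]
      field_simp
    rwa [h4] at h3
  have hηt : Tendsto (fun c => D.z k c * D.g k (D.z k c) / b) (𝓝 (D.p k))
      (𝓝 ((0 : ℂ) ^ 2)) := by
    have h3 : Tendsto (fun c => D.z k c * D.g k (D.z k c) / b) (𝓝 (D.p k))
        (𝓝 (0 * D.g k 0 / b)) := (hz.mul hgz).div_const b
    have h4 : 0 * D.g k 0 / b = (0 : ℂ) ^ 2 := by simp
    rwa [h4] at h3
  have hsq := sqrt_near (a := (0 : ℂ)) (U := {η | pb η}) hpb
  have h5 := hηt.eventually hsq
  have h6 := hβt.eventually hpa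
  have h7 : ∀ᶠ c in 𝓝 (D.p k), c ∈ (D.z k).source :=
    (D.z k).open_source.mem_nhds (D.p_mem k)
  filter_upwards [h5, h6, h7] with c hc5 hc6 hc7
  obtain ⟨η, hη, hη2⟩ := hc5
  have hball : D.z k c ∈ Metric.ball (0 : ℂ) (1 / 2) := by
    rw [← D.z_target k]
    exact (D.z k).map_source hc7
  have hgc : D.g k (D.z k c) ≠ 0 := D.g_ne k _ hball
  have hprod : b / D.g k (D.z k c) * η ^ 2 = D.z k c := by
    rw [hη2]
    field_simp
  refine ⟨(cB D k).symm (b / D.g k (D.z k c), η), hab hc6 hη, ?_, ?_⟩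
  · have h8 := sF_B D k (b / D.g k (D.z k c), η) (by
      show b / D.g k (D.z k c) * η ^ 2 ∈ Metric.ball (0 : ℂ) (1 / 2)
      rw [hprod]
      exact hball)
    rw [h8]
    show b / D.g k (D.z k c) * D.g k (b / D.g k (D.z k c) * η ^ 2) = b
    rw [hprod]
    field_simp
  · rw [sconn_cB_pi]
    show (D.z k).symm (b / D.g k (D.z k c) * η ^ 2) = c
    rw [hprod]
    exact (D.z k).left_inv hc7

theorem sF_conn (D : CurveData) {b : ℂ} (hb : b ≠ 0) : IsConnected (sF D ⁻¹' {b}) := by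
  obtain ⟨k⟩ := D.neK
  have hg0 : D.g k 0 ≠ 0 := D.g_ne k 0 sconn_zero_ball
  have hx0 : (ddS k (b / D.g k 0) : SurfS D) ∈ sF D ⁻¹' {b} := by
    show sF D (ddS k (b / D.g k 0)) = b
    rw [sconn_ddS_f]
    field_simp
  refine ⟨⟨_, hx0⟩, ?_⟩
  rw [isPreconnected_iff_preconnectedSpace]
  have : CompactSpace (sF D ⁻¹' {b}) :=
    isCompact_iff_compactSpace.1 (sF_proper D isCompact_singleton)
  let π : (sF D ⁻¹' {b}) → D.C := fun x => sPi D x.1
  have hπ : Continuous π := (sPi_continuous D).comp continuous_subtype_val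
  have hcl : IsClosedMap π := hπ.isClosedMap
  have ho : IsOpenMap π := by
    rw [isOpenMap_iff_nhds_le]
    rintro ⟨x, hx⟩ s hs
    rw [Filter.mem_map, mem_nhds_subtype] at hs
    obtain ⟨W, hW, hWs⟩ := hs
    have hx' : sF D x = b := hx
    have key : ∀ᶠ c in 𝓝 (sPi D x), ∃ y ∈ W, sF D y = b ∧ sPi D y = c := by
      rcases surfS_cases x with ⟨c, ζ, rfl⟩ | ⟨l, β, rfl⟩
      · exact sconn_open_gen D hb c ζ hx' hW
      · exact sconn_open_dd D hb l β hx' hW
    filter_upwards [key] with c hc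
    obtain ⟨y, hyW, hyb, hyc⟩ := hc
    have h1 : (⟨y, hyb⟩ : (sF D ⁻¹' {b})) ∈ Subtype.val ⁻¹' W := hyW
    have h2 := hWs h1
    have h3 : π ⟨y, hyb⟩ ∈ s := h2
    have h4 : π ⟨y, hyb⟩ = c := hyc
    rwa [h4] at h3
  refine conn_single ho hcl ⟨_, hx0⟩ ?_
  rintro ⟨x, hx⟩ hxk
  have hx' : sF D x = b := hx
  have hxk' : sPi D x = D.p k := hxk
  apply Subtype.ext
  show x = ddS k (b / D.g k 0)
  rcases surfS_cases x with ⟨c, ζ, rfl⟩ | ⟨l, β, rfl⟩
  · exfalso
    have h1 : c = D.p k := hxk'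
    rw [sconn_genS_f, h1, D.s_p] at hx'
    apply hb
    rw [← hx']
    ring
  · have h1 : D.p l = D.p k := hxk'
    have h2 : l = k := CurveData.p_inj D h1
    subst h2
    rw [sconn_ddS_f] at hx'
    have h3 : β = b / D.g l 0 := by
      rw [← hx']
      field_simp
    rw [h3]

end Pool.Agent.Lib.MP_d4bba2_ag
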