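import Pool.Agent.Lib.MP_d4bba2_ag.SGlue

/-!
THE FUNCTION f IN THE CHARTS.
sF_G: f ((cG φ).symm (x,ζ)) = s (φ.symm x) ζ² (all (x,ζ)).
sF_A: for |x| < 1/2: f ((cA k).symm (x,ξ)) = x * g k x * ξ²: for x ≠ 0, ζ = ξ x^(-m), s = x^(2m+1) g (s_eq), zpow laws; x = 0: both 0 (s_p).
sF_B: for β η² in the ball: f ((cB k).symm (β,η)) = β * g k (β η²): η ≠ 0: from sF_A with x = β η², ξ = η⁻¹: β η² g (β η²) η⁻²; η = 0: g k 0 * β.
sF_an: in the reference charts these are analytic (s_an in the chart: contMDiffAt_iff_chart; g_an).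
sF_ne (nowhere locally constant): near gen c ζ the values at gen c ζ' vary if c is free (s c ≠ 0; the curve ζ' ↦ gen c ζ' is
 continuous: (cG).symm (φ c, ζ')); near gen (p k) ζ: the values x g k x ξ'² at (x,ξ') with x ≠ 0 small, ξ' near ζ, are not all 0; near
 dd k β: g k 0 β'.
sF_crit: mfderiv_zero_iff in the reference charts.  free c: d(s ζ²) = s' ζ² dx + 2 s ζ dζ is zero iff ζ = 0 (s c ≠ 0);
 gen (p k) ξ: derivative of x g(x) ξ² at (0,ξ) is g k 0 ξ² dx: zero iff ξ = 0; dd k β: derivative of β g k (β η²) at (β,0) in the direction (1,0)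
 is g k 0 ≠ 0.
-/

open scoped Topology Manifold ContDiff
open Filter

noncomputable section

namespace Pool.Agent.Lib.MP_d4bba2_ag

theorem sF_G (D : CurveData) (φ : OpenPartialHomeomorph D.C ℂ)
    (h : φ ∈ IsManifold.maximalAtlas 𝓘(ℂ, ℂ) ω D.C) (q : ℂ × ℂ) :
    sF D ((cG D φ h).symm q) = D.s (φ.symm q.1) * q.2 ^ 2 := rfl

theorem sF_A (D : CurveData) (k : D.K) (q : ℂ × ℂ) (hq : q.1 ∈ Metric.ball (0 : ℂ) (1 / 2)) :
    sF D ((cA D k).symm q) = q.1 * D.g k q.1 * q.2 ^ 2 := by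
  have h0 : sF D ((cA D k).symm q) = sfFun D (chAinv D k q) := rfl
  rw [h0, chAinv, sfFun]
  by_cases h1 : q.1 = 0
  · have h2 : (D.z k).symm q.1 = D.p k := (D.symm_eq_p hq).2 h1
    rw [h2, D.s_p, h1]
    simp
  · have ht : q.1 ∈ (D.z k).target := by rw [D.z_target]; exact hq
    have hs : (D.z k).symm q.1 ∈ (D.z k).source := (D.z k).map_target ht
    have hz : D.z k ((D.z k).symm q.1) = q.1 := (D.z k).right_inv ht
    have hne : (D.z k).symm q.1 ≠ D.p k := fun h => h1 ((D.symm_eq_p hq).1 h)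
    rw [if_neg h1, D.s_eq k _ hs hne, hz]
    have h3 : q.1 ^ (2 * D.m k + 1) * (q.1 ^ (-D.m k)) ^ 2 = q.1 := by
      rw [← zpow_natCast, ← zpow_mul, ← zpow_add₀ h1]
      have h4 : 2 * D.m k + 1 + -D.m k * ((2 : ℕ) : ℤ) = 1 := by push_cast; ring
      rw [h4, zpow_one]
    calc q.1 ^ (2 * D.m k + 1) * D.g k q.1 * (q.2 * q.1 ^ (-D.m k)) ^ 2
        = (q.1 ^ (2 * D.m k + 1) * (q.1 ^ (-D.m k)) ^ 2) * D.g k q.1 * q.2 ^ 2 := by ring
      _ = q.1 * D.g k q.1 * q.2 ^ 2 := by rw [h3]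

theorem sF_B (D : CurveData) (k : D.K) (q : ℂ × ℂ)
    (hq : q.1 * q.2 ^ 2 ∈ Metric.ball (0 : ℂ) (1 / 2)) :
    sF D ((cB D k).symm q) = q.1 * D.g k (q.1 * q.2 ^ 2) := by
  by_cases h1 : q.2 = 0
  · have h0 : sF D ((cB D k).symm q) = sfFun D (chBinv D k q) := rfl
    rw [h0, chBinv, if_pos h1, sfFun, h1]
    simp [mul_comm]
  · have h0 : sF D ((cB D k).symm q) = sF D ((cA D k).symm (q.1 * q.2 ^ 2, q.2⁻¹)) := by
      have h2 : chBinv D k q = chAinv D k (q.1 * q.2 ^ 2, q.2⁻¹) := if_neg h1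
      exact congrArg (sfFun D) h2
    rw [h0, sF_A D k _ hq]
    field_simp

theorem mem_cG {D : CurveData} {φ : OpenPartialHomeomorph D.C ℂ}
    (h : φ ∈ IsManifold.maximalAtlas 𝓘(ℂ, ℂ) ω D.C) {c : D.C} (hφ : c ∈ φ.source)
    (hc : D.Free c) (ζ : ℂ) : genS c ζ ∈ (cG D φ h).source := ⟨hφ, hc⟩

theorem mem_cA {D : CurveData} (k : D.K) (ζ : ℂ) : genS (D.p k) ζ ∈ (cA D k).source :=
  D.p_mem k

theorem mem_cB {D : CurveData} (k : D.K) (β : ℂ) : (ddS k β : SurfS D) ∈ (cB D k).source :=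
  (rfl : k = k)

theorem cA_val {D : CurveData} (k : D.K) (ζ : ℂ) : cA D k (genS (D.p k) ζ) = (0, ζ) := by
  have h0 : cA D k (genS (D.p k) ζ) = (D.z k (D.p k), xi D k (D.p k) ζ) := rfl
  rw [h0, D.z_p, xi, if_pos rfl]

theorem cB_val {D : CurveData} (k : D.K) (β : ℂ) : cB D k (ddS k β : SurfS D) = (β, 0) := rfl

theorem sF_A_ev (D : CurveData) (k : D.K) (ζ : ℂ) :
    (fun q => sF D ((cA D k).symm q)) =ᶠ[𝓝 ((0 : ℂ), ζ)]
      fun q => q.1 * D.g k q.1 * q.2 ^ 2 := by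
  have h1 : ∀ᶠ q : ℂ × ℂ in 𝓝 ((0 : ℂ), ζ), q.1 ∈ Metric.ball (0 : ℂ) (1 / 2) :=
    continuous_fst.continuousAt.eventually (Metric.isOpen_ball.mem_nhds (by simp))
  filter_upwards [h1] with q hq
  exact sF_A D k q hq

theorem sF_B_ev (D : CurveData) (k : D.K) (β : ℂ) :
    (fun q => sF D ((cB D k).symm q)) =ᶠ[𝓝 (β, (0 : ℂ))]
      fun q => q.1 * D.g k (q.1 * q.2 ^ 2) := by
  have hc : Continuous (fun q : ℂ × ℂ => q.1 * q.2 ^ 2) := by fun_prop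
  have h1 : ∀ᶠ q : ℂ × ℂ in 𝓝 (β, (0 : ℂ)), q.1 * q.2 ^ 2 ∈ Metric.ball (0 : ℂ) (1 / 2) :=
    hc.continuousAt.eventually (Metric.isOpen_ball.mem_nhds (by simp))
  filter_upwards [h1] with q hq
  exact sF_B D k q hq

theorem s_chart_an (D : CurveData) {φ : OpenPartialHomeomorph D.C ℂ}
    (h : φ ∈ IsManifold.maximalAtlas 𝓘(ℂ, ℂ) ω D.C) {c : D.C} (hφ : c ∈ φ.source)
    (hc : D.Free c) : AnalyticAt ℂ (fun x => D.s (φ.symm x)) (φ c) :=
  (contMDiffAt_iff_chart h hφ).1 (D.s_an c hc)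

theorem g_an_zero (D : CurveData) (k : D.K) : AnalyticAt ℂ (D.g k) 0 :=
  D.g_an k 0 (by simp)

theorem an_shape {σ : ℂ → ℂ} {a : ℂ} (hσ : AnalyticAt ℂ σ a) (ζ : ℂ) :
    AnalyticAt ℂ (fun q : ℂ × ℂ => σ q.1 * q.2 ^ 2) (a, ζ) := by
  have h1 : AnalyticAt ℂ (fun q : ℂ × ℂ => σ q.1) (a, ζ) :=
    AnalyticAt.fun_comp (f := fun q : ℂ × ℂ => q.1) (g := σ) hσ analyticAt_fst
  exact h1.mul (analyticAt_snd.pow 2)

theorem sF_an (D : CurveData) : ContMDiff 𝓘(ℂ, ℂ × ℂ) 𝓘(ℂ, ℂ) ω (sF D) := by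
  intro x
  rcases surfS_cases x with ⟨c, ζ, rfl⟩ | ⟨k, β, rfl⟩
  · by_cases hc : D.Free c
    · have hφ := IsManifold.chart_mem_maximalAtlas (I := 𝓘(ℂ, ℂ)) (n := ω) c
      refine (GlueData.contMDiffAt_iff (sGlue D) (i := SIdx.G (chartAt ℂ c) hφ)
        (mem_cG hφ (mem_chart_source ℂ c) hc ζ)).2 ?_
      exact an_shape (s_chart_an D hφ (mem_chart_source ℂ c) hc) ζ
    · obtain ⟨k, rfl⟩ := D.not_free hc
      refine (GlueData.contMDiffAt_iff (sGlue D) (i := SIdx.A k) (mem_cA k ζ)).2 ?_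
      have h1 : (sGlue D).chart (SIdx.A k) (genS (D.p k) ζ) = (0, ζ) := cA_val k ζ
      rw [h1]
      refine AnalyticAt.congr ?_ (sF_A_ev D k ζ).symm
      have h2 : AnalyticAt ℂ (fun x => x * D.g k x) 0 := analyticAt_id.mul (g_an_zero D k)
      exact an_shape h2 ζ
  · refine (GlueData.contMDiffAt_iff (sGlue D) (i := SIdx.B k) (mem_cB k β)).2 ?_
    have h1 : (sGlue D).chart (SIdx.B k) (ddS k β) = (β, 0) := cB_val k β
    rw [h1]
    refine AnalyticAt.congr ?_ (sF_B_ev D k β).symm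
    have h2 : AnalyticAt ℂ (fun q : ℂ × ℂ => q.1 * q.2 ^ 2) (β, 0) :=
      analyticAt_fst.mul (analyticAt_snd.pow 2)
    have h3 : AnalyticAt ℂ (D.g k) ((fun q : ℂ × ℂ => q.1 * q.2 ^ 2) (β, 0)) := by
      have h4 : (fun q : ℂ × ℂ => q.1 * q.2 ^ 2) (β, 0) = 0 := by simp
      rw [h4]; exact g_an_zero D k
    exact analyticAt_fst.mul (AnalyticAt.fun_comp (f := fun q : ℂ × ℂ => q.1 * q.2 ^ 2) h3 h2)

theorem sF_continuous (D : CurveData) : Continuous (sF D) := (sF_an D).continuous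

theorem vary_aux (D : CurveData) {i : SIdx D} {x : SurfS D}
    (hx : x ∈ ((sGlue D).chart i).source) {γ : ℂ → ℂ × ℂ} {t0 : ℂ} (hγ : ContinuousAt γ t0)
    (h0 : γ t0 = (sGlue D).chart i x)
    (h : ∀ᶠ t in 𝓝[≠] t0, sF D (((sGlue D).chart i).symm (γ t)) ≠ sF D x) :
    ∃ᶠ y in 𝓝 x, sF D y ≠ sF D x := by
  intro hn
  have h1 : ∀ᶠ y in 𝓝 x, sF D y = sF D x := by
    filter_upwards [hn] with y hy
    simpa using hy
  have h2 := (GlueData.eventually_iff (sGlue D) hx).1 h1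
  rw [← h0] at h2
  have h3 : ∀ᶠ t in 𝓝 t0, sF D (((sGlue D).chart i).symm (γ t)) = sF D x := hγ.eventually h2
  have h4 : ∀ᶠ t in 𝓝[≠] t0, sF D (((sGlue D).chart i).symm (γ t)) = sF D x :=
    h3.filter_mono nhdsWithin_le_nhds
  obtain ⟨t, ht, ht'⟩ := (h.and h4).exists
  exact ht ht'

theorem sF_vary (D : CurveData) (x : SurfS D) : ∃ᶠ y in 𝓝 x, sF D y ≠ sF D x := by
  rcases surfS_cases x with ⟨c, ζ, rfl⟩ | ⟨k, β, rfl⟩
  · by_cases hc : D.Free c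
    · have hφ := IsManifold.chart_mem_maximalAtlas (I := 𝓘(ℂ, ℂ)) (n := ω) c
      refine vary_aux D (i := SIdx.G (chartAt ℂ c) hφ) (γ := fun t => (chartAt ℂ c c, t))
        (t0 := ζ) (mem_cG hφ (mem_chart_source ℂ c) hc ζ) (by fun_prop) rfl ?_
      have h1 : ∀ᶠ t in 𝓝[≠] ζ, t ≠ ζ := eventually_mem_nhdsWithin
      have h2 : ∀ᶠ t in 𝓝[≠] ζ, t ≠ -ζ := by
        by_cases hz : ζ = 0
        · subst hz; simpa using h1
        · have h3 : ζ ≠ -ζ := by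
            intro h
            apply hz
            have : ζ + ζ = 0 := by nth_rewrite 2 [h]; ring
            have h5 : (2 : ℂ) * ζ = 0 := by rw [two_mul]; exact this
            simpa using h5
          have h6 : ∀ᶠ t in 𝓝 ζ, t ≠ -ζ := isOpen_ne.mem_nhds h3
          exact h6.filter_mono nhdsWithin_le_nhds
      filter_upwards [h1, h2] with t ht1 ht2 h
      have h3 : D.s ((chartAt ℂ c).symm (chartAt ℂ c c)) * t ^ 2 = D.s c * ζ ^ 2 := h
      rw [(chartAt ℂ c).left_inv (mem_chart_source ℂ c)] at h3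
      have h4 : t ^ 2 = ζ ^ 2 := mul_left_cancel₀ (D.s_ne c hc) h3
      rcases sq_eq_sq_iff_eq_or_eq_neg.1 h4 with h5 | h5
      · exact ht1 h5
      · exact ht2 h5
    · obtain ⟨k, rfl⟩ := D.not_free hc
      refine vary_aux D (i := SIdx.A k) (γ := fun t => (t, ζ + t)) (t0 := 0) (mem_cA k ζ)
        (by fun_prop) ?_ ?_
      · have h1 : (sGlue D).chart (SIdx.A k) (genS (D.p k) ζ) = (0, ζ) := cA_val k ζ
        rw [h1]; simp
      · have h1 : ∀ᶠ t in 𝓝[≠] (0 : ℂ), t ≠ 0 := eventually_mem_nhdsWithin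
        have h2 : ∀ᶠ t in 𝓝[≠] (0 : ℂ), ζ + t ≠ 0 := by
          by_cases hz : ζ = 0
          · subst hz; simpa using h1
          · have h3 : ContinuousAt (fun t : ℂ => ζ + t) 0 := by fun_prop
            have h4 : ∀ᶠ t in 𝓝 (0 : ℂ), ζ + t ≠ 0 :=
              h3.eventually (isOpen_ne.mem_nhds (by simpa using hz))
            exact h4.filter_mono nhdsWithin_le_nhds
        have h30 : ∀ᶠ t in 𝓝 (0 : ℂ), t ∈ Metric.ball (0 : ℂ) (1 / 2) :=
          Metric.ball_mem_nhds (0 : ℂ) (by norm_num : (0 : ℝ) < 1 / 2)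
        have h3 : ∀ᶠ t in 𝓝[≠] (0 : ℂ), t ∈ Metric.ball (0 : ℂ) (1 / 2) :=
          h30.filter_mono nhdsWithin_le_nhds
        filter_upwards [h1, h2, h3] with t ht1 ht2 ht3 h
        have h4 : sF D ((cA D k).symm (t, ζ + t)) = D.s (D.p k) * ζ ^ 2 := h
        rw [sF_A D k _ ht3, D.s_p, zero_mul] at h4
        have h5 : D.g k t ≠ 0 := D.g_ne k t ht3
        have h6 : t * D.g k t * (ζ + t) ^ 2 ≠ 0 :=
          mul_ne_zero (mul_ne_zero ht1 h5) (pow_ne_zero 2 ht2)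
        exact h6 h4
  · refine vary_aux D (i := SIdx.B k) (γ := fun t => (t, 0)) (t0 := β) (mem_cB k β)
      (by fun_prop) rfl ?_
    have h1 : ∀ᶠ t in 𝓝[≠] β, t ≠ β := eventually_mem_nhdsWithin
    filter_upwards [h1] with t ht1 h
    have h4 : sF D ((cB D k).symm (t, 0)) = D.g k 0 * β := h
    rw [sF_B D k _ (by simp)] at h4
    have h5 : D.g k 0 ≠ 0 := D.g_ne k 0 (by simp)
    have h6 : t * D.g k 0 = β * D.g k 0 := by
      have h7 : t * D.g k (t * 0 ^ 2) = D.g k 0 * β := h4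
      have h8 : t * (0 : ℂ) ^ 2 = 0 := by simp
      rw [h8] at h7
      rw [h7, mul_comm]
    exact ht1 (mul_right_cancel₀ h5 h6)

theorem crit_shape {σ : ℂ → ℂ} {a : ℂ} (hσ : AnalyticAt ℂ σ a) (ζ : ℂ)
    (hne : σ a ≠ 0 ∨ deriv σ a ≠ 0) :
    fderiv ℂ (fun q : ℂ × ℂ => σ q.1 * q.2 ^ 2) (a, ζ) = 0 ↔ ζ = 0 := by
  have h1 : HasFDerivAt (fun q : ℂ × ℂ => σ q.1)
      (deriv σ a • ContinuousLinearMap.fst ℂ ℂ ℂ) (a, ζ) := by
    have := hσ.differentiableAt.hasDerivAt.comp_hasFDerivAt (a, ζ)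
      (hasFDerivAt_fst (𝕜 := ℂ) (p := ((a, ζ) : ℂ × ℂ)))
    exact this
  have h2 : HasFDerivAt (fun q : ℂ × ℂ => q.2 ^ 2)
      ((2 * ζ) • ContinuousLinearMap.snd ℂ ℂ ℂ) (a, ζ) := by
    have h3 := (hasDerivAt_pow 2 ζ).comp_hasFDerivAt (a, ζ)
      (hasFDerivAt_snd (𝕜 := ℂ) (p := ((a, ζ) : ℂ × ℂ)))
    have h4 : ((2 : ℕ) : ℂ) * ζ ^ (2 - 1) = 2 * ζ := by norm_num
    rw [h4] at h3
    exact h3
  have h3 := h1.mul h2
  have h4 := h3.fderiv
  have h5 : fderiv ℂ (fun q : ℂ × ℂ => σ q.1 * q.2 ^ 2) (a, ζ) =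
      σ a • (2 * ζ) • ContinuousLinearMap.snd ℂ ℂ ℂ +
        ζ ^ 2 • deriv σ a • ContinuousLinearMap.fst ℂ ℂ ℂ := h4
  rw [h5]
  constructor
  · intro h
    have e1 := DFunLike.congr_fun h (1, 0)
    have e2 := DFunLike.congr_fun h (0, 1)
    simp at e1 e2
    tauto
  · intro h
    subst h
    apply ContinuousLinearMap.ext
    intro v
    simp

theorem genS_inj {D : CurveData} {c c' : D.C} {ζ ζ' : ℂ}
    (h : (genS c ζ : SurfS D) = genS c' ζ') : c = c' ∧ ζ = ζ' := by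
  have h1 : (Surf.gen c ζ : Surf D) = Surf.gen c' ζ' := h
  injection h1 with h2 h3
  exact ⟨h2, h3⟩

theorem genS_iff {D : CurveData} {c : D.C} {ζ : ℂ} :
    (∃ c', (genS c ζ : SurfS D) = genS c' 0) ↔ ζ = 0 := by
  constructor
  · rintro ⟨c', h⟩
    exact (genS_inj h).2
  · rintro rfl
    exact ⟨c, rfl⟩

theorem sF_crit (D : CurveData) (x : SurfS D) :
    mfderiv 𝓘(ℂ, ℂ × ℂ) 𝓘(ℂ, ℂ) (sF D) x = 0 ↔ ∃ c, x = genS c 0 := by
  rcases surfS_cases x with ⟨c, ζ, rfl⟩ | ⟨k, β, rfl⟩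
  · rw [genS_iff]
    by_cases hc : D.Free c
    · have hφ := IsManifold.chart_mem_maximalAtlas (I := 𝓘(ℂ, ℂ)) (n := ω) c
      have h1 := mfderiv_zero_iff ((sGlue D).chart_mem (SIdx.G (chartAt ℂ c) hφ))
        (mem_cG hφ (mem_chart_source ℂ c) hc ζ) (sF_an D (genS c ζ))
      refine h1.trans ?_
      refine crit_shape (s_chart_an D hφ (mem_chart_source ℂ c) hc) ζ (Or.inl ?_)
      change D.s ((chartAt ℂ c).symm (chartAt ℂ c c)) ≠ 0
      rw [(chartAt ℂ c).left_inv (mem_chart_source ℂ c)]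
      exact D.s_ne c hc
    · obtain ⟨k, rfl⟩ := D.not_free hc
      have h1 := mfderiv_zero_iff ((sGlue D).chart_mem (SIdx.A k)) (mem_cA k ζ)
        (sF_an D (genS (D.p k) ζ))
      refine h1.trans ?_
      have h0 : (sGlue D).chart (SIdx.A k) (genS (D.p k) ζ) = (0, ζ) := cA_val k ζ
      rw [h0]
      have h2 : fderiv ℂ (fun q => sF D (((sGlue D).chart (SIdx.A k)).symm q)) (0, ζ) =
          fderiv ℂ (fun q : ℂ × ℂ => (fun x => x * D.g k x) q.1 * q.2 ^ 2) (0, ζ) :=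
        (sF_A_ev D k ζ).fderiv_eq
      rw [h2]
      have h3 : AnalyticAt ℂ (fun x => x * D.g k x) 0 := analyticAt_id.mul (g_an_zero D k)
      refine crit_shape h3 ζ (Or.inr ?_)
      have h4 : HasDerivAt (fun x => x * D.g k x) (1 * D.g k 0 + 0 * deriv (D.g k) 0) 0 :=
        (hasDerivAt_id (0 : ℂ)).mul (g_an_zero D k).differentiableAt.hasDerivAt
      rw [h4.deriv]
      simpa using D.g_ne k 0 (by simp)
  · have h1 := mfderiv_zero_iff ((sGlue D).chart_mem (SIdx.B k)) (mem_cB k β)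
      (sF_an D (ddS k β))
    refine h1.trans ?_
    have h0 : (sGlue D).chart (SIdx.B k) (ddS k β) = (β, 0) := cB_val k β
    rw [h0]
    have h2 : fderiv ℂ (fun q => sF D (((sGlue D).chart (SIdx.B k)).symm q)) (β, 0) =
        fderiv ℂ (fun q : ℂ × ℂ => q.1 * D.g k (q.1 * q.2 ^ 2)) (β, 0) :=
      (sF_B_ev D k β).fderiv_eq
    rw [h2]
    constructor
    · intro h
      exfalso
      have hA : AnalyticAt ℂ (fun q : ℂ × ℂ => q.1 * D.g k (q.1 * q.2 ^ 2)) (β, 0) := by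
        have h2 : AnalyticAt ℂ (fun q : ℂ × ℂ => q.1 * q.2 ^ 2) (β, 0) :=
          analyticAt_fst.mul (analyticAt_snd.pow 2)
        have h3 : AnalyticAt ℂ (D.g k) ((fun q : ℂ × ℂ => q.1 * q.2 ^ 2) (β, 0)) := by
          have h4 : (fun q : ℂ × ℂ => q.1 * q.2 ^ 2) (β, 0) = 0 := by simp
          rw [h4]; exact g_an_zero D k
        exact analyticAt_fst.mul (AnalyticAt.fun_comp (f := fun q : ℂ × ℂ => q.1 * q.2 ^ 2) h3 h2)
      have h3 := hA.differentiableAt.hasFDerivAt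
      rw [h] at h3
      have h4 : HasDerivAt (fun t : ℂ => ((t, 0) : ℂ × ℂ)) (1, 0) β :=
        (hasDerivAt_id β).prodMk (hasDerivAt_const β (0 : ℂ))
      have h5 : HasDerivAt (fun t : ℂ => t * D.g k (t * 0 ^ 2))
          ((0 : ℂ × ℂ →L[ℂ] ℂ) (1, 0)) β :=
        HasFDerivAt.comp_hasDerivAt (l := fun q : ℂ × ℂ => q.1 * D.g k (q.1 * q.2 ^ 2))
          (f := fun t : ℂ => ((t, 0) : ℂ × ℂ)) β h3 h4
      have h6 : (fun t : ℂ => t * D.g k (t * 0 ^ 2)) = fun t => t * D.g k 0 := by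
        funext t; simp
      rw [h6] at h5
      have h7 : HasDerivAt (fun t : ℂ => t * D.g k 0) (1 * D.g k 0) β :=
        (hasDerivAt_id β).mul_const _
      have h8 := h5.unique h7
      have h9 : D.g k 0 ≠ 0 := D.g_ne k 0 (by simp)
      simp at h8
      exact h9 h8.symm
    · rintro ⟨c, hc⟩
      have h3 : (Surf.dd k β : Surf D) = Surf.gen c 0 := hc
      cases h3

end Pool.Agent.Lib.MP_d4bba2_ag
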