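import Pool.Agent.Lib.MP_d4bba2_ag.SConn
import Pool.Agent.Lib.MP_d4bba2_ag.Core

/-!
The fibre germ of a curve data.  smooth: a critical point is genS c 0 (sF_crit) where f = 0.
-/

open scoped Topology Manifold ContDiff
open Filter

noncomputable section

namespace Pool.Agent.Lib.MP_d4bba2_ag

def sGerm (D : CurveData) : FibreGerm where
  S := SurfS D
  f := sF D
  B := Set.univ
  isOpen_B := isOpen_univ
  zero_mem := Set.mem_univ _
  holo := sF_an D
  maps _ := Set.mem_univ _
  proper Kc _ hK := sF_proper D hK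
  connected b _ := by
    by_cases hb : b = 0
    · subst hb
      exact sF_conn_zero D
    · exact sF_conn D hb
  smooth x hx h := by
    obtain ⟨c, rfl⟩ := (sF_crit D x).1 (dZero_iff.1 h)
    apply hx
    change D.s c * (0 : ℂ) ^ 2 = 0
    ring

theorem sGerm_crit (D : CurveData) (x : (sGerm D).S) :
    (sGerm D).Crit x ↔ ∃ c, x = (genS c 0 : SurfS D) := dZero_iff.trans (sF_crit D x)

end Pool.Agent.Lib.MP_d4bba2_ag
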