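import Pool.Agent.Lib.MP_d4bba2_ag.SCompG
import Pool.Agent.Lib.MP_d4bba2_ag.SCompB
import Pool.Agent.Lib.MP_d4bba2_ag.GlueApi

/-!
The surface as a complex manifold.
s_ref_mem: by cases.  s_tgt: chG: φ.target open, φ.symm continuous on it, free points open; chA, chB: preimages of the ball.
-/

open scoped Topology Manifold ContDiff
open Filter

noncomputable section

namespace Pool.Agent.Lib.MP_d4bba2_ag

theorem s_ref_mem (D : CurveData) (x : Surf D) : x ∈ (sChart D (sRef D x)).source := by
  cases x with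
  | gen c ζ =>
    by_cases h : D.Free c
    · have h1 : sRef D (Surf.gen c ζ) =
          SIdx.G (chartAt ℂ c) (IsManifold.chart_mem_maximalAtlas c) := dif_pos h
      rw [h1]
      exact ⟨mem_chart_source ℂ c, h⟩
    · have h1 : sRef D (Surf.gen c ζ) = SIdx.A (D.not_free h).choose := dif_neg h
      rw [h1]
      have h2 := (D.not_free h).choose_spec
      have h3 : c ∈ (D.z (D.not_free h).choose).source := by
        have h4 := D.p_mem (D.not_free h).choose
        rw [← h2] at h4
        exact h4
      exact h3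
  | dd k β => exact (rfl : k = k)

theorem s_tgt (D : CurveData) (i : SIdx D) : IsOpen (sChart D i).target := by
  cases i with
  | G φ h =>
    have h1 : IsOpen (φ.target ∩ φ.symm ⁻¹' {c : D.C | D.Free c}) :=
      φ.symm.isOpen_inter_preimage D.free_open
    exact h1.preimage continuous_fst
  | A k => exact Metric.isOpen_ball.preimage (continuous_fst (X := ℂ) (Y := ℂ))
  | B k =>
    have h1 : Continuous (fun p : ℂ × ℂ => p.1 * p.2 ^ 2) := by fun_prop
    exact Metric.isOpen_ball.preimage h1

def sGlue (D : CurveData) : GlueData (ℂ × ℂ) (Surf D) where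
  ι := SIdx D
  φ := sChart D
  r := sRef D
  mem := s_ref_mem D
  tgt := s_tgt D
  comp i x hx := by
    cases i with
    | G φ h => exact (comp_G D φ h x hx).1
    | A k => exact (comp_A D k x hx).1
    | B k => exact (comp_B D k x hx).1
  comp' i x hx := by
    cases i with
    | G φ h => exact (comp_G D φ h x hx).2
    | A k => exact (comp_A D k x hx).2
    | B k => exact (comp_B D k x hx).2

/-- the surface with its complex structure -/
abbrev SurfS (D : CurveData) : Type := (sGlue D).Space

def genS {D : CurveData} (c : D.C) (ζ : ℂ) : SurfS D := (Surf.gen c ζ : Surf D)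

def ddS {D : CurveData} (k : D.K) (β : ℂ) : SurfS D := (Surf.dd k β : Surf D)

/-- the fibration -/
def sF (D : CurveData) (x : SurfS D) : ℂ := sfFun D (x : Surf D)

theorem surfS_cases {D : CurveData} (x : SurfS D) :
    (∃ c ζ, x = genS c ζ) ∨ ∃ k β, x = ddS k β := by
  cases (x : Surf D) with
  | gen c ζ => exact Or.inl ⟨c, ζ, rfl⟩
  | dd k β => exact Or.inr ⟨k, β, rfl⟩

/-- the charts as open partial homeomorphisms -/
def cG (D : CurveData) (φ : OpenPartialHomeomorph D.C ℂ)
    (h : φ ∈ IsManifold.maximalAtlas 𝓘(ℂ, ℂ) ω D.C) : OpenPartialHomeomorph (SurfS D) (ℂ × ℂ) :=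
  (sGlue D).chart (SIdx.G φ h)

def cA (D : CurveData) (k : D.K) : OpenPartialHomeomorph (SurfS D) (ℂ × ℂ) :=
  (sGlue D).chart (SIdx.A k)

def cB (D : CurveData) (k : D.K) : OpenPartialHomeomorph (SurfS D) (ℂ × ℂ) :=
  (sGlue D).chart (SIdx.B k)

/-- the reference charts: free points -/
theorem chartAt_free {D : CurveData} {c : D.C} (hc : D.Free c) (ζ : ℂ) :
    chartAt (ℂ × ℂ) (genS c ζ) =
      cG D (chartAt ℂ c) (IsManifold.chart_mem_maximalAtlas c) := by
  have h1 : sRef D (Surf.gen c ζ) =
      SIdx.G (chartAt ℂ c) (IsManifold.chart_mem_maximalAtlas c) := dif_pos hc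
  exact congrArg (sGlue D).chart h1

theorem chartAt_p {D : CurveData} (k : D.K) (ζ : ℂ) :
    chartAt (ℂ × ℂ) (genS (D.p k) ζ) = cA D k := by
  have h : ¬ D.Free (D.p k) := fun h => h k rfl
  have h1 : sRef D (Surf.gen (D.p k) ζ) = SIdx.A (D.not_free h).choose := dif_neg h
  have h2 : (D.not_free h).choose = k := (D.p_inj (D.not_free h).choose_spec).symm
  rw [h2] at h1
  exact congrArg (sGlue D).chart h1

theorem chartAt_dd {D : CurveData} (k : D.K) (β : ℂ) :
    chartAt (ℂ × ℂ) (ddS k β : SurfS D) = cB D k := rfl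

end Pool.Agent.Lib.MP_d4bba2_ag
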