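import Pool.Agent.Lib.MP_d4bba2_ag.STop

/-!
PROPERNESS.  Let Kc ⊆ ℂ be compact, |b| ≤ M on Kc.
L = C minus the union of the open sets {c in source of z k, |z k c| < 1/4} is compact (closed in the compact C; these sets are
open) and consists of free points (z k (p k) = 0).  |s| ≥ δ > 0 on L (s is continuous at free points, s_ne).
Piece 1: {genS c ζ | c ∈ L, |ζ|² ≤ M/δ}: image of the compact L × closedBall under (c, ζ) ↦ genS c ζ, which is continuous on
 {c free} × ℂ (gen_continuousAt: near (c0,ζ0) it is (cG (chartAt c0)).symm (chartAt c0 c, ζ)).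
Piece 2, k: (cA k).symm '' {(x,ξ) | |x| ≤ 1/4, |ξ| ≤ 1}: compact.
Piece 3, k: (cB k).symm '' {(β,η) | |η| ≤ 1, |β| ≤ M/δ', |β η²| ≤ 1/4} with |g k x| ≥ δ' > 0 for |x| ≤ 1/4: compact, in the target.
f⁻¹(Kc) is contained in the union: gen c ζ with c ∈ L: |s| |ζ|² ≤ M.  gen c ζ with |z k c| < 1/4: if |ξ| ≤ 1 piece 2; if |ξ| > 1: the
 point is (cB k).symm (x ξ², ξ⁻¹), |η| < 1, β η² = x, β g k x = f, so |β| ≤ M/δ'.  dd k β: η = 0, |β| |g k 0| ≤ M.
f⁻¹(Kc) is closed (f continuous) in a compact set.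
-/

open scoped Topology Manifold ContDiff
open Filter

noncomputable section

namespace Pool.Agent.Lib.MP_d4bba2_ag

theorem gen_continuousAt (D : CurveData) {c : D.C} (hc : D.Free c) (ζ : ℂ) :
    ContinuousAt (fun p : D.C × ℂ => (genS p.1 p.2 : SurfS D)) (c, ζ) := by
  set κ := cG D (chartAt ℂ c) (IsManifold.chart_mem_maximalAtlas c) with hκ
  have hmem : ((chartAt ℂ c c, ζ) : ℂ × ℂ) ∈ κ.target := by
    change chartAt ℂ c c ∈ (chartAt ℂ c).target ∧ D.Free ((chartAt ℂ c).symm (chartAt ℂ c c))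
    refine ⟨(chartAt ℂ c).map_source (mem_chart_source ℂ c), ?_⟩
    rw [(chartAt ℂ c).left_inv (mem_chart_source ℂ c)]
    exact hc
  have h1 : ContinuousAt (fun p : D.C × ℂ => ((chartAt ℂ c p.1, p.2) : ℂ × ℂ)) (c, ζ) := by
    refine ContinuousAt.prodMk ?_ continuousAt_snd
    exact ContinuousAt.comp (x := ((c, ζ) : D.C × ℂ)) (g := chartAt ℂ c) (f := Prod.fst)
      ((chartAt ℂ c).continuousAt (mem_chart_source ℂ c)) continuousAt_fst
  have h2 : ContinuousAt κ.symm ((chartAt ℂ c c, ζ) : ℂ × ℂ) := κ.continuousAt_symm hmem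
  have h3 : ContinuousAt (fun p : D.C × ℂ => κ.symm ((chartAt ℂ c p.1, p.2) : ℂ × ℂ)) (c, ζ) :=
    ContinuousAt.comp (x := ((c, ζ) : D.C × ℂ)) (g := κ.symm)
      (f := fun p : D.C × ℂ => ((chartAt ℂ c p.1, p.2) : ℂ × ℂ)) h2 h1
  refine h3.congr ?_
  have h4 : ∀ᶠ p : D.C × ℂ in 𝓝 (c, ζ), p.1 ∈ (chartAt ℂ c).source :=
    continuousAt_fst.eventually ((chartAt ℂ c).open_source.mem_nhds (mem_chart_source ℂ c))
  filter_upwards [h4] with p hp
  change (Surf.gen ((chartAt ℂ c).symm (chartAt ℂ c p.1)) p.2 : Surf D) = Surf.gen p.1 p.2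
  rw [(chartAt ℂ c).left_inv hp]

theorem cA_symm_apply (D : CurveData) {k : D.K} {x : SurfS D} (hx : chAsource D k x) :
    (cA D k).symm (chAfun D k x) = x := (chA D k).left_inv hx

theorem cB_symm_apply (D : CurveData) {k : D.K} {x : SurfS D} (hx : chBsource D k x) :
    (cB D k).symm (chBfun D k x) = x := (chB D k).left_inv hx

/-- the zero section is continuous, also at the points `p k` -/
theorem zero_section_continuous (D : CurveData) :
    Continuous (fun c : D.C => (genS c 0 : SurfS D)) := by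
  rw [continuous_iff_continuousAt]
  intro c
  by_cases hc : D.Free c
  · have h1 : ContinuousAt (fun c : D.C => ((c, 0) : D.C × ℂ)) c := by fun_prop
    exact ContinuousAt.comp (x := c) (g := fun p : D.C × ℂ => (genS p.1 p.2 : SurfS D))
      (f := fun c : D.C => ((c, 0) : D.C × ℂ)) (gen_continuousAt D hc 0) h1
  · obtain ⟨k, rfl⟩ := D.not_free hc
    have hmem : ((D.z k (D.p k), 0) : ℂ × ℂ) ∈ (cA D k).target := by
      change D.z k (D.p k) ∈ Metric.ball (0 : ℂ) (1 / 2)
      rw [D.z_p]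
      exact Metric.mem_ball_self (by norm_num)
    have h1 : ContinuousAt (fun c : D.C => ((D.z k c, 0) : ℂ × ℂ)) (D.p k) :=
      ContinuousAt.prodMk ((D.z k).continuousAt (D.p_mem k)) continuousAt_const
    have h3 : ContinuousAt (fun c : D.C => (cA D k).symm ((D.z k c, 0) : ℂ × ℂ)) (D.p k) :=
      ContinuousAt.comp (x := D.p k) (g := (cA D k).symm)
        (f := fun c : D.C => ((D.z k c, 0) : ℂ × ℂ)) ((cA D k).continuousAt_symm hmem) h1
    refine h3.congr ?_
    filter_upwards [(D.z k).open_source.mem_nhds (D.p_mem k)] with c hc'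
    change chAinv D k (D.z k c, 0) = Surf.gen c 0
    unfold chAinv
    rw [(D.z k).left_inv hc']
    simp

theorem sF_proper (D : CurveData) {Kc : Set ℂ} (hK : IsCompact Kc) : IsCompact (sF D ⁻¹' Kc) := by
  obtain ⟨M, hM⟩ := hK.isBounded.exists_norm_le
  -- the set L
  set L : Set D.C := {c | ∀ k, ¬ (c ∈ (D.z k).source ∧ D.z k c ∈ Metric.ball (0 : ℂ) (1 / 4))}
    with hL
  have hLc : IsClosed L := by
    have h1 : L = ⋂ k, ((D.z k).source ∩ D.z k ⁻¹' Metric.ball (0 : ℂ) (1 / 4))ᶜ := by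
      ext c
      simp only [hL, Set.mem_ofPred_eq, Set.mem_iInter, Set.mem_compl_iff, Set.mem_inter_iff,
        Set.mem_preimage]
    rw [h1]
    refine isClosed_iInter fun k => ?_
    rw [isClosed_compl_iff]
    exact (D.z k).isOpen_inter_preimage Metric.isOpen_ball
  have hLK : IsCompact L := hLc.isCompact
  have hLF : ∀ c ∈ L, D.Free c := by
    intro c hc k h
    subst h
    refine hc k ⟨D.p_mem k, ?_⟩
    rw [D.z_p]
    exact Metric.mem_ball_self (by norm_num)
  have hsc : ContinuousOn (fun c => ‖D.s c‖) L := by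
    intro c hc
    exact ((D.s_an c (hLF c hc)).continuousAt.norm).continuousWithinAt
  obtain ⟨δ, hδ, hδ'⟩ := hLK.exists_forall_le' hsc (a := 0)
    (fun c hc => norm_pos_iff.2 (D.s_ne c (hLF c hc)))
  -- the functions g k
  have hg : ∀ k, ∃ δ' : ℝ, 0 < δ' ∧ ∀ x ∈ Metric.closedBall (0 : ℂ) (1 / 4), δ' ≤ ‖D.g k x‖ := by
    intro k
    have hsub : Metric.closedBall (0 : ℂ) (1 / 4) ⊆ Metric.ball (0 : ℂ) (1 / 2) :=
      Metric.closedBall_subset_ball (by norm_num)
    have h1 : ContinuousOn (fun x => ‖D.g k x‖) (Metric.closedBall (0 : ℂ) (1 / 4)) :=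
      ((D.g_an k).continuousOn.mono hsub).norm
    obtain ⟨a, ha, ha'⟩ := (isCompact_closedBall (0 : ℂ) (1 / 4)).exists_forall_le' h1 (a := 0)
      (fun x hx => norm_pos_iff.2 (D.g_ne k x (hsub hx)))
    exact ⟨a, ha, ha'⟩
  choose ε hε hε' using hg
  -- the pieces
  set K1 : Set (SurfS D) := (fun p : D.C × ℂ => (genS p.1 p.2 : SurfS D)) ''
    (L ×ˢ Metric.closedBall (0 : ℂ) (Real.sqrt (M / δ))) with hK1
  have hK1c : IsCompact K1 := by
    refine IsCompact.image_of_continuousOn (hLK.prod (isCompact_closedBall _ _)) ?_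
    rintro ⟨c, ζ⟩ ⟨hc, -⟩
    exact (gen_continuousAt D (hLF c hc) ζ).continuousWithinAt
  have hK2c : ∀ k, IsCompact ((cA D k).symm ''
      (Metric.closedBall (0 : ℂ) (1 / 4) ×ˢ Metric.closedBall (0 : ℂ) 1)) := by
    intro k
    refine IsCompact.image_of_continuousOn
      ((isCompact_closedBall _ _).prod (isCompact_closedBall _ _)) ?_
    refine (cA D k).continuousOn_symm.mono ?_
    rintro ⟨x, ξ⟩ ⟨hx, -⟩
    change x ∈ Metric.ball (0 : ℂ) (1 / 2)
    exact Metric.closedBall_subset_ball (by norm_num) hx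
  have hK3c : ∀ k, IsCompact ((cB D k).symm ''
      ((Metric.closedBall (0 : ℂ) (M / ε k) ×ˢ Metric.closedBall (0 : ℂ) 1) ∩
        {p : ℂ × ℂ | p.1 * p.2 ^ 2 ∈ Metric.closedBall (0 : ℂ) (1 / 4)})) := by
    intro k
    refine IsCompact.image_of_continuousOn ?_ ?_
    · refine ((isCompact_closedBall _ _).prod (isCompact_closedBall _ _)).inter_right ?_
      have hc : Continuous fun p : ℂ × ℂ => p.1 * p.2 ^ 2 := by fun_prop
      exact Metric.isClosed_closedBall.preimage hc
    · refine (cB D k).continuousOn_symm.mono ?_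
      rintro ⟨x, ξ⟩ ⟨-, hx⟩
      change x * ξ ^ 2 ∈ Metric.ball (0 : ℂ) (1 / 2)
      exact Metric.closedBall_subset_ball (by norm_num) hx
  have hbig := (hK1c.union (isCompact_iUnion hK2c)).union (isCompact_iUnion hK3c)
  refine hbig.of_isClosed_subset (hK.isClosed.preimage (sF_continuous D)) ?_
  intro x hx
  have hxM : ‖sF D x‖ ≤ M := hM _ hx
  rcases surfS_cases x with ⟨c, ζ, rfl⟩ | ⟨k, β, rfl⟩
  · by_cases hc : c ∈ L
    · refine Or.inl (Or.inl ⟨(c, ζ), ⟨hc, ?_⟩, rfl⟩)
      rw [mem_closedBall_zero_iff]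
      apply Real.le_sqrt_of_sq_le
      rw [le_div_iff₀ hδ]
      have h1 : ‖sF D (genS c ζ : SurfS D)‖ = ‖D.s c‖ * ‖ζ‖ ^ 2 := by
        change ‖D.s c * ζ ^ 2‖ = _
        rw [norm_mul, norm_pow]
      rw [h1] at hxM
      have h2 := mul_le_mul_of_nonneg_right (hδ' c hc) (sq_nonneg ‖ζ‖)
      linarith
    · have hc2 : ∃ k, c ∈ (D.z k).source ∧ D.z k c ∈ Metric.ball (0 : ℂ) (1 / 4) := by
        by_contra hcon
        push Not at hcon
        exact hc fun k h => hcon k h.1 h.2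
      obtain ⟨k, hk1, hk2⟩ := hc2
      by_cases hξ : ‖xi D k c ζ‖ ≤ 1
      · refine Or.inl (Or.inr (Set.mem_iUnion.2 ⟨k, ?_⟩))
        refine ⟨chAfun D k (Surf.gen c ζ), ⟨?_, ?_⟩, cA_symm_apply D (k := k) ?_⟩
        · exact Metric.ball_subset_closedBall hk2
        · rw [mem_closedBall_zero_iff]
          exact hξ
        · exact hk1
      · refine Or.inr (Set.mem_iUnion.2 ⟨k, ?_⟩)
        have hξ0 : xi D k c ζ ≠ 0 := by
          intro h0
          rw [h0, norm_zero] at hξ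
          exact hξ zero_le_one
        have hsrc : chBsource D k (Surf.gen c ζ) := ⟨hk1, hξ0⟩
        have hprod : D.z k c * xi D k c ζ ^ 2 * ((xi D k c ζ)⁻¹) ^ 2 = D.z k c := by
          field_simp
        have hball : D.z k c * xi D k c ζ ^ 2 * ((xi D k c ζ)⁻¹) ^ 2 ∈
            Metric.closedBall (0 : ℂ) (1 / 4) := by
          rw [hprod]
          exact Metric.ball_subset_closedBall hk2
        have hfx : sF D (genS c ζ : SurfS D) =
            D.z k c * xi D k c ζ ^ 2 * D.g k (D.z k c) := by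
          have h1 := sF_B D k (chBfun D k (Surf.gen c ζ)) (by
            change D.z k c * xi D k c ζ ^ 2 * ((xi D k c ζ)⁻¹) ^ 2 ∈ Metric.ball (0 : ℂ) (1 / 2)
            exact Metric.closedBall_subset_ball (by norm_num) hball)
          have h0 : (cB D k).symm (chBfun D k (Surf.gen c ζ)) = (genS c ζ : SurfS D) :=
            cB_symm_apply D (x := genS c ζ) hsrc
          rw [h0] at h1
          rw [h1]
          change D.z k c * xi D k c ζ ^ 2 *
            D.g k (D.z k c * xi D k c ζ ^ 2 * ((xi D k c ζ)⁻¹) ^ 2) = _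
          rw [hprod]
        refine ⟨chBfun D k (Surf.gen c ζ), ⟨⟨?_, ?_⟩, hball⟩, cB_symm_apply D (k := k) hsrc⟩
        · change D.z k c * xi D k c ζ ^ 2 ∈ Metric.closedBall (0 : ℂ) (M / ε k)
          rw [mem_closedBall_zero_iff, le_div_iff₀ (hε k)]
          rw [hfx, norm_mul] at hxM
          exact (mul_le_mul_of_nonneg_left (hε' k _ (Metric.ball_subset_closedBall hk2))
            (norm_nonneg _)).trans hxM
        · change (xi D k c ζ)⁻¹ ∈ Metric.closedBall (0 : ℂ) 1
          rw [mem_closedBall_zero_iff, norm_inv]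
          exact inv_le_one_of_one_le₀ (le_of_lt (not_le.1 hξ))
  · refine Or.inr (Set.mem_iUnion.2 ⟨k, ?_⟩)
    have hsrc : chBsource D k (Surf.dd k β) := rfl
    refine ⟨chBfun D k (Surf.dd k β), ⟨⟨?_, ?_⟩, ?_⟩, cB_symm_apply D (k := k) hsrc⟩
    · change β ∈ Metric.closedBall (0 : ℂ) (M / ε k)
      rw [mem_closedBall_zero_iff, le_div_iff₀ (hε k)]
      have h1 : ‖sF D (ddS k β : SurfS D)‖ = ‖D.g k 0‖ * ‖β‖ := by
        change ‖D.g k 0 * β‖ = _
        rw [norm_mul]
      rw [h1] at hxM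
      have h2 := mul_le_mul_of_nonneg_left (hε' k 0 (Metric.mem_closedBall_self (by norm_num)))
        (norm_nonneg β)
      linarith
    · change (0 : ℂ) ∈ Metric.closedBall (0 : ℂ) 1
      exact Metric.mem_closedBall_self (by norm_num)
    · change β * (0 : ℂ) ^ 2 ∈ Metric.closedBall (0 : ℂ) (1 / 4)
      have : β * (0 : ℂ) ^ 2 = 0 := by ring
      rw [this]
      exact Metric.mem_closedBall_self (by norm_num)

end Pool.Agent.Lib.MP_d4bba2_ag
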