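import Pool.Agent.Lib.MP_d4bba2_ag.SFun

/-!
THE PROJECTION TO C AND HAUSDORFF.
sPi: gen c ζ ↦ c, dd k β ↦ p k.  Continuous: in the reference charts (GlueData.continuousAt_iff): G: φ.symm x; A: (z k).symm x; B:
 (z k).symm (β η²) (for η = 0: (z k).symm 0 = p k).
T2: let x ≠ y.  If sPi x ≠ sPi y or f x ≠ f y: preimages of disjoint open sets.  Otherwise c = sPi x = sPi y.
 c free: both are gen c ζ, gen c ζ' : both in the source of cG (chartAt c): GlueData.separated.
 c = p k: gen, gen: both in cA k.  dd, dd (both with this k by p_inj): both in cB k.  gen (p k) ζ and dd k β: f x = 0 = g k 0 β so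
 β = 0; if ζ ≠ 0 both are in cB k (xi k (p k) ζ = ζ ≠ 0).  If ζ = 0: U = {cA-source, |ξ| < 1}, V = {cB-source, |η| < 1}: open, and
 disjoint: a common point is gen c ζ' with ξ ≠ 0 and η = ξ⁻¹ (dd is not in the source of cA).
-/

open scoped Topology Manifold ContDiff
open Filter

noncomputable section

namespace Pool.Agent.Lib.MP_d4bba2_ag

def sPiFun (D : CurveData) : Surf D → D.C
  | .gen c _ => c
  | .dd k _ => D.p k

def sPi (D : CurveData) (x : SurfS D) : D.C := sPiFun D (x : Surf D)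

private theorem stop_z0 (D : CurveData) (k : D.K) : (D.z k).symm 0 = D.p k :=
  (D.symm_eq_p (k := k) (Metric.mem_ball_self (by norm_num))).2 rfl

private theorem stop_B (D : CurveData) (k : D.K) (q : ℂ × ℂ) :
    sPi D ((cB D k).symm q) = (D.z k).symm (q.1 * q.2 ^ 2) := by
  change sPiFun D (chBinv D k q) = _
  unfold chBinv
  by_cases h : q.2 = 0
  · rw [if_pos h, h]
    change D.p k = _
    rw [zero_pow two_ne_zero, mul_zero, stop_z0]
  · rw [if_neg h]
    rfl

private theorem stop_G_mem {D : CurveData} {φ : OpenPartialHomeomorph D.C ℂ}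
    {h : φ ∈ IsManifold.maximalAtlas 𝓘(ℂ, ℂ) ω D.C} {c : D.C} (hc : c ∈ φ.source)
    (hf : D.Free c) (ζ : ℂ) :
    (genS c ζ : SurfS D) ∈ ((sGlue D).chart (SIdx.G φ h)).source := by
  rw [GlueData.chart_source]
  exact ⟨hc, hf⟩

private theorem stop_A_mem {D : CurveData} {k : D.K} {c : D.C} (hc : c ∈ (D.z k).source) (ζ : ℂ) :
    (genS c ζ : SurfS D) ∈ ((sGlue D).chart (SIdx.A k)).source := by
  rw [GlueData.chart_source]
  exact hc

private theorem stop_B_mem {D : CurveData} (k : D.K) (β : ℂ) :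
    (ddS k β : SurfS D) ∈ ((sGlue D).chart (SIdx.B k)).source := by
  rw [GlueData.chart_source]
  exact rfl

private theorem stop_B_mem' {D : CurveData} {k : D.K} {c : D.C} (hc : c ∈ (D.z k).source) {ζ : ℂ}
    (hz : xi D k c ζ ≠ 0) :
    (genS c ζ : SurfS D) ∈ ((sGlue D).chart (SIdx.B k)).source := by
  rw [GlueData.chart_source]
  exact ⟨hc, hz⟩

private theorem stop_xi (D : CurveData) (k : D.K) (ζ : ℂ) : xi D k (D.p k) ζ = ζ := by
  unfold xi
  rw [if_pos rfl]

theorem sPi_continuous (D : CurveData) : Continuous (sPi D) := by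
  rw [continuous_iff_continuousAt]
  intro x
  rcases surfS_cases x with ⟨c, ζ, rfl⟩ | ⟨k, β, rfl⟩
  · by_cases hc : D.Free c
    · have hm := stop_G_mem (h := IsManifold.chart_mem_maximalAtlas (I := 𝓘(ℂ, ℂ)) (n := ω) c)
        (mem_chart_source ℂ c) hc ζ
      rw [GlueData.continuousAt_iff (sGlue D) hm]
      change ContinuousAt (fun p : ℂ × ℂ => (chartAt ℂ c).symm p.1) (chartAt ℂ c c, ζ)
      have h1 : ContinuousAt (chartAt ℂ c).symm (chartAt ℂ c c) :=
        (chartAt ℂ c).continuousAt_symm (mem_chart_target ℂ c)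
      exact ContinuousAt.comp (f := Prod.fst) (x := ((chartAt ℂ c c, ζ) : ℂ × ℂ)) h1 continuousAt_fst
    · obtain ⟨k, rfl⟩ := D.not_free hc
      have hm := stop_A_mem (D.p_mem k) ζ
      rw [GlueData.continuousAt_iff (sGlue D) hm]
      change ContinuousAt (fun p : ℂ × ℂ => (D.z k).symm p.1) (D.z k (D.p k), xi D k (D.p k) ζ)
      have h1 : ContinuousAt (D.z k).symm (D.z k (D.p k)) :=
        (D.z k).continuousAt_symm ((D.z k).map_source (D.p_mem k))
      exact ContinuousAt.comp (f := Prod.fst)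
        (x := ((D.z k (D.p k), xi D k (D.p k) ζ) : ℂ × ℂ)) h1 continuousAt_fst
  · have hm := stop_B_mem k β
    rw [GlueData.continuousAt_iff (sGlue D) hm]
    have h0 : (fun q => sPi D (((sGlue D).chart (SIdx.B k)).symm q)) =
        fun q : ℂ × ℂ => (D.z k).symm (q.1 * q.2 ^ 2) := funext fun q => stop_B D k q
    rw [h0]
    change ContinuousAt (fun q : ℂ × ℂ => (D.z k).symm (q.1 * q.2 ^ 2)) (β, 0)
    have h1 : ContinuousAt (D.z k).symm (0 : ℂ) := by
      apply (D.z k).continuousAt_symm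
      rw [D.z_target]
      exact Metric.mem_ball_self (by norm_num)
    have h2 : ContinuousAt (fun q : ℂ × ℂ => q.1 * q.2 ^ 2) (β, 0) := by fun_prop
    have h3 : (fun q : ℂ × ℂ => q.1 * q.2 ^ 2) (β, 0) = 0 := by simp
    rw [← h3] at h1
    exact ContinuousAt.comp (f := fun q : ℂ × ℂ => q.1 * q.2 ^ 2) (x := ((β, 0) : ℂ × ℂ)) h1 h2

private theorem stop_gd (D : CurveData) (k : D.K) (ζ β : ℂ)
    (hf : sF D (genS (D.p k) ζ) = sF D (ddS k β)) :
    ∃ U V : Set (SurfS D), IsOpen U ∧ IsOpen V ∧ genS (D.p k) ζ ∈ U ∧ ddS k β ∈ V ∧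
      Disjoint U V := by
  by_cases hz : ζ = 0
  · subst hz
    let eA := (sGlue D).chart (SIdx.A k)
    let eB := (sGlue D).chart (SIdx.B k)
    have hO : IsOpen {q : ℂ × ℂ | ‖q.2‖ < 1} :=
      isOpen_lt (by fun_prop) continuous_const
    refine ⟨eA.source ∩ eA ⁻¹' {q : ℂ × ℂ | ‖q.2‖ < 1}, eB.source ∩ eB ⁻¹' {q : ℂ × ℂ | ‖q.2‖ < 1},
      eA.isOpen_inter_preimage hO, eB.isOpen_inter_preimage hO, ⟨stop_A_mem (D.p_mem k) 0, ?_⟩,
      ⟨stop_B_mem k β, ?_⟩, ?_⟩
    · change ‖xi D k (D.p k) 0‖ < 1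
      rw [stop_xi, norm_zero]
      exact one_pos
    · change ‖(0 : ℂ)‖ < 1
      rw [norm_zero]
      exact one_pos
    · rw [Set.disjoint_left]
      rintro w ⟨hw1, hw2⟩ ⟨hw3, hw4⟩
      rcases surfS_cases w with ⟨c, ξ, rfl⟩ | ⟨l, γ, rfl⟩
      · have h1 : ‖xi D k c ξ‖ < 1 := hw2
        have h2 : c ∈ (D.z k).source ∧ xi D k c ξ ≠ 0 := by
          rw [GlueData.chart_source] at hw3
          exact hw3
        have h3 : ‖(xi D k c ξ)⁻¹‖ < 1 := hw4
        rw [norm_inv] at h3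
        have h4 : 0 < ‖xi D k c ξ‖ := norm_pos_iff.2 h2.2
        have h5 := (one_lt_inv₀ h4).2 h1
        exact absurd h3 (not_lt.2 h5.le)
      · rw [GlueData.chart_source] at hw1
        exact hw1
  · refine GlueData.separated (sGlue D) (i := SIdx.B k) (stop_B_mem' (D.p_mem k) ?_)
      (stop_B_mem k β) ?_
    · rw [stop_xi]
      exact hz
    · intro h
      have h1 : (Surf.gen (D.p k) ζ : Surf D) = Surf.dd k β := h
      cases h1

instance surf_t2 (D : CurveData) : T2Space (SurfS D) := by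
  refine ⟨fun x y hxy => ?_⟩
  by_cases hpi : sPi D x = sPi D y
  swap
  · obtain ⟨U, V, hU, hV, hx, hy, hUV⟩ := t2_separation hpi
    exact ⟨sPi D ⁻¹' U, sPi D ⁻¹' V, hU.preimage (sPi_continuous D),
      hV.preimage (sPi_continuous D), hx, hy, hUV.preimage _⟩
  by_cases hf : sF D x = sF D y
  swap
  · obtain ⟨U, V, hU, hV, hx, hy, hUV⟩ := t2_separation hf
    exact ⟨sF D ⁻¹' U, sF D ⁻¹' V, hU.preimage (sF_continuous D),
      hV.preimage (sF_continuous D), hx, hy, hUV.preimage _⟩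
  rcases surfS_cases x with ⟨c, ζ, rfl⟩ | ⟨k, β, rfl⟩
  · rcases surfS_cases y with ⟨c', ζ', rfl⟩ | ⟨k', β', rfl⟩
    · have hc : c = c' := hpi
      subst hc
      by_cases hfr : D.Free c
      · exact GlueData.separated (sGlue D)
          (stop_G_mem (h := IsManifold.chart_mem_maximalAtlas (I := 𝓘(ℂ, ℂ)) (n := ω) c)
            (mem_chart_source ℂ c) hfr ζ)
          (stop_G_mem (mem_chart_source ℂ c) hfr ζ') hxy
      · obtain ⟨k, rfl⟩ := D.not_free hfr
        exact GlueData.separated (sGlue D) (stop_A_mem (D.p_mem k) ζ)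
          (stop_A_mem (D.p_mem k) ζ') hxy
    · have hc : c = D.p k' := hpi
      subst hc
      exact stop_gd D k' ζ β' hf
  · rcases surfS_cases y with ⟨c', ζ', rfl⟩ | ⟨k', β', rfl⟩
    · have hc : D.p k = c' := hpi
      subst hc
      obtain ⟨U, V, hU, hV, hx, hy, hUV⟩ := stop_gd D k ζ' β hf.symm
      exact ⟨V, U, hV, hU, hy, hx, hUV.symm⟩
    · have hc : D.p k = D.p k' := hpi
      have hk := D.p_inj hc
      subst hk
      exact GlueData.separated (sGlue D) (stop_B_mem k β) (stop_B_mem k β') hxy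

end Pool.Agent.Lib.MP_d4bba2_ag
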