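import Pool.Agent.Lib.MP_d4bba2_ag.SGlue

/-!
THE HOLOMORPHIC 2-FORM OF THE SURFACE.
volDens Ω ψ p: density in the chart ψ of the form whose value at x is Ω x times dz1 ∧ dz2 of the chart at x.
Ω (gen c ζ) = τ c (c free), h k 0 (c = p k); Ω (dd k β) = - h k 0.
Density in the chart cG (chartAt c0) at (x,ζ) (near a free point): y = genS c ζ, c = φ.symm x, chartAt y = cG (chartAt c); the map
 (x',ζ') ↦ (chartAt c (φ.symm x'), ζ') has determinant deriv (chartAt c ∘ φ.symm) x, so volDens = dens1 τ φ x: analytic (F.an).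
Density in cA k at (x,ξ), x ≠ 0: y = genS c ζ, c = (z k).symm x, ζ = ξ x^(-m); the map (x',ξ') ↦ (chartAt c ((z k).symm x'), ξ' x'^(-m)) near
 (x,ξ) has triangular derivative with determinant deriv (chartAt c ∘ (z k).symm) x * x^(-m), so volDens = dens1 τ (z k) x * x^(-m) = h k x
 (F.eq).  At x = 0: chartAt y = cA k, the map is the identity near, determinant 1: h k 0.  So volDens = h k x on |x| < 1/2.
Density in cB k at (β,η), η ≠ 0: the point is (cA k).symm (β η², η⁻¹); chain rule: volDens (cB) (β,η) = volDens (cA) (β η², η⁻¹) *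
 det of (β,η) ↦ (β η², η⁻¹) = h k (β η²) * (η² * (-η⁻²)) = - h k (β η²).  At η = 0: identity, - h k 0.  So volDens = - h k (β η²).
 (volDens_trans: volDens Ω ψ p = volDens Ω ψ' (ψ' (ψ.symm p)) * det fderiv (ψ' ∘ ψ.symm) p, for charts ψ, ψ' of the maximal atlas,
 from the chain rule; state it as a lemma.)
zeros: Ω y = 0: y = gen c ζ with c in the finite set F.fin (τ c = 0, c free); (h k 0 ≠ 0).  On the fibre f = b: s c ζ² = b has at
 most two solutions ζ (s c ≠ 0).  So finitely many points.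
-/

open scoped Topology Manifold ContDiff
open Filter

noncomputable section

namespace Pool.Agent.Lib.MP_d4bba2_ag

/-- the density in the chart `ψ` of a 2-form given by its values `Ω x` in the charts `chartAt x` -/
def volDens {M : Type} [TopologicalSpace M] [ChartedSpace (ℂ × ℂ) M] (Ω : M → ℂ)
    (ψ : OpenPartialHomeomorph M (ℂ × ℂ)) (p : ℂ × ℂ) : ℂ :=
  Ω (ψ.symm p) * (fderiv ℂ (fun p' => chartAt (ℂ × ℂ) (ψ.symm p) (ψ.symm p')) p).det

theorem volDens_trans {M : Type} [TopologicalSpace M] [ChartedSpace (ℂ × ℂ) M]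
    [IsManifold 𝓘(ℂ, ℂ × ℂ) ω M] (Ω : M → ℂ) {ψ ψ' : OpenPartialHomeomorph M (ℂ × ℂ)}
    (hψ : ψ ∈ IsManifold.maximalAtlas 𝓘(ℂ, ℂ × ℂ) ω M)
    (hψ' : ψ' ∈ IsManifold.maximalAtlas 𝓘(ℂ, ℂ × ℂ) ω M) {p : ℂ × ℂ} (hp : p ∈ ψ.target)
    (hp' : ψ.symm p ∈ ψ'.source) :
    volDens Ω ψ p = volDens Ω ψ' (ψ' (ψ.symm p)) *
      (fderiv ℂ (fun p' => ψ' (ψ.symm p')) p).det := by
  unfold volDens
  rw [ψ'.left_inv hp', mul_assoc]
  congr 1
  have h1 : AnalyticAt ℂ (fun q => chartAt (ℂ × ℂ) (ψ.symm p) (ψ'.symm q)) (ψ' (ψ.symm p)) :=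
    transition_an hψ' (IsManifold.chart_mem_maximalAtlas (ψ.symm p)) hp' (mem_chart_source _ _)
  have h2 : AnalyticAt ℂ (fun q => ψ' (ψ.symm q)) p := by
    have := transition_an hψ hψ' (ψ.map_target hp) hp'
    rwa [ψ.right_inv hp] at this
  have h3 := h1.differentiableAt.hasFDerivAt
  have h4 := h2.differentiableAt.hasFDerivAt
  have h5 : HasFDerivAt ((fun q => chartAt (ℂ × ℂ) (ψ.symm p) (ψ'.symm q)) ∘
      (fun q => ψ' (ψ.symm q))) _ p := HasFDerivAt.comp p h3 h4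
  have h6 : (fun p' => chartAt (ℂ × ℂ) (ψ.symm p) (ψ.symm p')) =ᶠ[𝓝 p]
      ((fun q => chartAt (ℂ × ℂ) (ψ.symm p) (ψ'.symm q)) ∘ (fun q => ψ' (ψ.symm q))) := by
    have hc : ContinuousAt ψ.symm p := ψ.symm.continuousAt hp
    filter_upwards [hc.eventually (ψ'.open_source.mem_nhds hp')] with q hq
    simp only [Function.comp]
    rw [ψ'.left_inv hq]
  rw [h6.fderiv_eq, h5.fderiv]
  unfold ContinuousLinearMap.det
  rw [ContinuousLinearMap.toLinearMap_comp, LinearMap.det_comp]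

theorem det_two (A : ℂ × ℂ →L[ℂ] ℂ × ℂ) :
    A.det = (A (1, 0)).1 * (A (0, 1)).2 - (A (0, 1)).1 * (A (1, 0)).2 := by
  have h := LinearMap.det_toMatrix (Module.Basis.finTwoProd ℂ) (A : ℂ × ℂ →ₗ[ℂ] ℂ × ℂ)
  rw [Matrix.det_fin_two] at h
  simp only [LinearMap.toMatrix_apply, Module.Basis.coe_finTwoProd_repr,
    Module.Basis.finTwoProd_zero, Module.Basis.finTwoProd_one] at h
  unfold ContinuousLinearMap.det
  rw [← h]
  simp

/-- the determinant of the derivative of a triangular map -/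
theorem det_tri {g h : ℂ → ℂ} {g' h' : ℂ} {p : ℂ × ℂ} (hg : HasDerivAt g g' p.1)
    (hh : HasDerivAt h h' p.1) {G : ℂ × ℂ → ℂ × ℂ}
    (hG : G =ᶠ[𝓝 p] fun q => (g q.1, q.2 * h q.1)) : (fderiv ℂ G p).det = g' * h p.1 := by
  have h1 : HasFDerivAt (g ∘ Prod.fst) (g' • ContinuousLinearMap.fst ℂ ℂ ℂ) p :=
    hg.comp_hasFDerivAt p hasFDerivAt_fst
  have h2 : HasFDerivAt (h ∘ Prod.fst) (h' • ContinuousLinearMap.fst ℂ ℂ ℂ) p :=
    hh.comp_hasFDerivAt p hasFDerivAt_fst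
  have h3 : HasFDerivAt (fun q : ℂ × ℂ => q.2) (ContinuousLinearMap.snd ℂ ℂ ℂ) p :=
    hasFDerivAt_snd
  have h4 : HasFDerivAt (fun q : ℂ × ℂ => (g q.1, q.2 * h q.1)) _ p := h1.prodMk (h3.mul h2)
  rw [hG.fderiv_eq, h4.fderiv, det_two]
  simp

/-- the determinant of the derivative of `(β, η) ↦ (β η², η⁻¹)` -/
theorem det_ab {p : ℂ × ℂ} (hp : p.2 ≠ 0) {G : ℂ × ℂ → ℂ × ℂ}
    (hG : G =ᶠ[𝓝 p] fun q => (q.1 * q.2 ^ 2, q.2⁻¹)) : (fderiv ℂ G p).det = -1 := by
  have h1 : HasFDerivAt (fun q : ℂ × ℂ => q.1) (ContinuousLinearMap.fst ℂ ℂ ℂ) p :=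
    hasFDerivAt_fst
  have h2 : HasFDerivAt ((fun y : ℂ => y ^ 2) ∘ Prod.snd)
      ((2 * p.2) • ContinuousLinearMap.snd ℂ ℂ ℂ) p := by
    have : HasDerivAt (fun y : ℂ => y ^ 2) (2 * p.2) p.2 := by
      have := hasDerivAt_pow 2 p.2
      norm_num at this
      exact this
    exact this.comp_hasFDerivAt p hasFDerivAt_snd
  have h3 : HasFDerivAt ((fun y : ℂ => y⁻¹) ∘ Prod.snd)
      ((-(p.2 ^ 2)⁻¹) • ContinuousLinearMap.snd ℂ ℂ ℂ) p :=
    (hasDerivAt_inv hp).comp_hasFDerivAt p hasFDerivAt_snd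
  have h4 : HasFDerivAt (fun q : ℂ × ℂ => (q.1 * q.2 ^ 2, q.2⁻¹)) _ p := (h1.mul h2).prodMk h3
  rw [hG.fderiv_eq, h4.fderiv, det_two]
  simp
  field_simp

theorem det_id {p : ℂ × ℂ} {G : ℂ × ℂ → ℂ × ℂ} (hG : G =ᶠ[𝓝 p] id) :
    (fderiv ℂ G p).det = 1 := by
  rw [hG.fderiv_eq, fderiv_id, det_two]
  simp

open Classical in
/-- the values of the 2-form in the reference charts -/
def omFun (D : CurveData) (F : D.Form1) : Surf D → ℂ
  | .gen c _ => if h : D.Free c then F.τ c else F.h (D.not_free h).choose 0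
  | .dd k _ => -F.h k 0

def sOm (D : CurveData) (F : D.Form1) (x : SurfS D) : ℂ := omFun D F (x : Surf D)

theorem sOm_free (D : CurveData) (F : D.Form1) {c : D.C} (hc : D.Free c) (ζ : ℂ) :
    sOm D F (genS c ζ) = F.τ c := dif_pos hc

theorem not_free_p (D : CurveData) (k : D.K) : ¬ D.Free (D.p k) := fun h => h k rfl

theorem sOm_p (D : CurveData) (F : D.Form1) (k : D.K) (ζ : ℂ) :
    sOm D F (genS (D.p k) ζ) = F.h k 0 := by
  have h1 : sOm D F (genS (D.p k) ζ) = F.h (D.not_free (not_free_p D k)).choose 0 :=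
    dif_neg (not_free_p D k)
  have h2 := (D.not_free (not_free_p D k)).choose_spec
  rw [h1, ← D.p_inj h2]

theorem sOm_dd (D : CurveData) (F : D.Form1) (k : D.K) (β : ℂ) :
    sOm D F (ddS k β : SurfS D) = -F.h k 0 := rfl

theorem cG_mem (D : CurveData) (φ : OpenPartialHomeomorph D.C ℂ)
    (h : φ ∈ IsManifold.maximalAtlas 𝓘(ℂ, ℂ) ω D.C) :
    cG D φ h ∈ IsManifold.maximalAtlas 𝓘(ℂ, ℂ × ℂ) ω (SurfS D) := (sGlue D).chart_mem _

theorem cA_mem (D : CurveData) (k : D.K) :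
    cA D k ∈ IsManifold.maximalAtlas 𝓘(ℂ, ℂ × ℂ) ω (SurfS D) := (sGlue D).chart_mem _

theorem cB_mem (D : CurveData) (k : D.K) :
    cB D k ∈ IsManifold.maximalAtlas 𝓘(ℂ, ℂ × ℂ) ω (SurfS D) := (sGlue D).chart_mem _

theorem vol_G (D : CurveData) (F : D.Form1) (φ : OpenPartialHomeomorph D.C ℂ)
    (h : φ ∈ IsManifold.maximalAtlas 𝓘(ℂ, ℂ) ω D.C) {p : ℂ × ℂ} (hp : p.1 ∈ φ.target)
    (hf : D.Free (φ.symm p.1)) :
    volDens (sOm D F) (cG D φ h) p = dens1 F.τ φ p.1 := by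
  have e1 : (cG D φ h).symm p = genS (φ.symm p.1) p.2 := rfl
  unfold volDens dens1
  rw [e1, sOm_free D F hf, chartAt_free hf]
  congr 1
  have hd : HasDerivAt (fun x' => chartAt ℂ (φ.symm p.1) (φ.symm x'))
      (deriv (fun x' => chartAt ℂ (φ.symm p.1) (φ.symm x')) p.1) p.1 := by
    have := transition_an h (IsManifold.chart_mem_maximalAtlas (φ.symm p.1))
      (φ.map_target hp) (mem_chart_source _ _)
    rw [φ.right_inv hp] at this
    exact this.differentiableAt.hasDerivAt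
  have h1 : HasDerivAt (fun _ : ℂ => (1 : ℂ)) 0 p.1 := hasDerivAt_const _ _
  have := det_tri (G := fun p' => cG D (chartAt ℂ (φ.symm p.1))
    (IsManifold.chart_mem_maximalAtlas _) ((cG D φ h).symm p')) hd h1 (by
      refine Filter.Eventually.of_forall fun q => ?_
      change (chartAt ℂ (φ.symm p.1) (φ.symm q.1), q.2) =
        (chartAt ℂ (φ.symm p.1) (φ.symm q.1), q.2 * 1)
      rw [mul_one])
  rw [this, mul_one]

theorem vol_A (D : CurveData) (F : D.Form1) (k : D.K) {p : ℂ × ℂ}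
    (hp : p.1 ∈ Metric.ball (0 : ℂ) (1 / 2)) :
    volDens (sOm D F) (cA D k) p = F.h k p.1 := by
  have ht : p ∈ (cA D k).target := hp
  by_cases h0 : p.1 = 0
  · have e1 : (cA D k).symm p = genS (D.p k) p.2 := by
      have e2 : (cA D k).symm p = genS ((D.z k).symm p.1)
        (if p.1 = 0 then p.2 else p.2 * p.1 ^ (-D.m k)) := rfl
      rw [e2, if_pos h0, (D.symm_eq_p hp).2 h0]
    unfold volDens
    rw [e1, sOm_p, chartAt_p, h0, det_id, mul_one]
    filter_upwards [(cA D k).open_target.mem_nhds ht] with q hq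
    exact (cA D k).right_inv hq
  · have htz : p.1 ∈ (D.z k).target := by rw [D.z_target k]; exact hp
    have hne : (D.z k).symm p.1 ≠ D.p k := fun h => h0 ((D.symm_eq_p hp).1 h)
    have hf : D.Free ((D.z k).symm p.1) := D.free_of_mem ((D.z k).map_target htz) hne
    have e1 : (cA D k).symm p = genS ((D.z k).symm p.1) (p.2 * p.1 ^ (-D.m k)) := by
      have e2 : (cA D k).symm p = genS ((D.z k).symm p.1)
        (if p.1 = 0 then p.2 else p.2 * p.1 ^ (-D.m k)) := rfl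
      rw [e2, if_neg h0]
    have e3 : volDens (sOm D F) (cA D k) p = dens1 F.τ (D.z k) p.1 * p.1 ^ (-D.m k) := by
      unfold volDens dens1
      rw [e1, sOm_free D F hf, chartAt_free hf, mul_assoc]
      congr 1
      have hd : HasDerivAt (fun x' => chartAt ℂ ((D.z k).symm p.1) ((D.z k).symm x'))
          (deriv (fun x' => chartAt ℂ ((D.z k).symm p.1) ((D.z k).symm x')) p.1) p.1 := by
        have := transition_an (D.z_mem k)
          (IsManifold.chart_mem_maximalAtlas ((D.z k).symm p.1))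
          ((D.z k).map_target htz) (mem_chart_source _ _)
        rw [(D.z k).right_inv htz] at this
        exact this.differentiableAt.hasDerivAt
      have h1 : HasDerivAt (fun x' : ℂ => x' ^ (-D.m k))
          (((-D.m k : ℤ) : ℂ) * p.1 ^ (-D.m k - 1)) p.1 :=
        hasDerivAt_zpow (-D.m k) p.1 (Or.inl h0)
      refine det_tri hd h1 ?_
      have hne' : ∀ᶠ q in 𝓝 p, q.1 ≠ 0 :=
        continuousAt_fst.eventually (isOpen_ne.mem_nhds h0)
      filter_upwards [hne'] with q hq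
      have e4 : (cA D k).symm q = genS ((D.z k).symm q.1)
        (if q.1 = 0 then q.2 else q.2 * q.1 ^ (-D.m k)) := rfl
      rw [e4, if_neg hq]
      rfl
    rw [e3, F.eq k p.1 hp h0]
    rw [mul_right_comm, ← zpow_add₀ h0, add_neg_cancel, zpow_zero, one_mul]

theorem vol_B (D : CurveData) (F : D.Form1) (k : D.K) {p : ℂ × ℂ}
    (hp : p.1 * p.2 ^ 2 ∈ Metric.ball (0 : ℂ) (1 / 2)) :
    volDens (sOm D F) (cB D k) p = -F.h k (p.1 * p.2 ^ 2) := by
  have ht : p ∈ (cB D k).target := hp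
  by_cases h0 : p.2 = 0
  · have e1 : (cB D k).symm p = ddS k p.1 := by
      change chBinv D k p = _
      exact if_pos h0
    unfold volDens
    rw [e1, sOm_dd, chartAt_dd, h0, det_id]
    · norm_num
    filter_upwards [(cB D k).open_target.mem_nhds ht] with q hq
    exact (cB D k).right_inv hq
  · have e2 : ∀ q : ℂ × ℂ, q.2 ≠ 0 → (cB D k).symm q = (cA D k).symm (q.1 * q.2 ^ 2, q.2⁻¹) := by
      intro q hq
      change chBinv D k q = _
      exact if_neg hq
    have hta : (p.1 * p.2 ^ 2, p.2⁻¹) ∈ (cA D k).target := hp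
    have hsrc : (cB D k).symm p ∈ (cA D k).source := by
      rw [e2 p h0]
      exact (cA D k).map_target hta
    rw [volDens_trans (sOm D F) (cB_mem D k) (cA_mem D k) ht hsrc]
    rw [e2 p h0, (cA D k).right_inv hta, vol_A D F k (p := (p.1 * p.2 ^ 2, p.2⁻¹)) hp, det_ab h0]
    · ring
    have hne' : ∀ᶠ q in 𝓝 p, q.2 ≠ 0 :=
      continuousAt_snd.eventually (isOpen_ne.mem_nhds h0)
    have hc : ContinuousAt (fun q : ℂ × ℂ => (q.1 * q.2 ^ 2, q.2⁻¹)) p := by
      refine ContinuousAt.prodMk (by fun_prop) ?_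
      exact ContinuousAt.inv₀ continuousAt_snd h0
    filter_upwards [hne', hc.eventually ((cA D k).open_target.mem_nhds hta)] with q hq hq2
    rw [e2 q hq, (cA D k).right_inv hq2]

theorem finite_sq_eq {s b : ℂ} (hs : s ≠ 0) : {ζ : ℂ | s * ζ ^ 2 = b}.Finite := by
  by_cases h : ∃ ζ0 : ℂ, s * ζ0 ^ 2 = b
  · obtain ⟨ζ0, h0⟩ := h
    refine Set.Finite.subset (Set.toFinite {ζ0, -ζ0}) ?_
    intro ζ hζ
    have h1 : s * ζ ^ 2 = b := hζ
    have h2 : ζ ^ 2 = ζ0 ^ 2 := by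
      rw [← h0] at h1
      exact mul_left_cancel₀ hs h1
    rcases sq_eq_sq_iff_eq_or_eq_neg.1 h2 with h3 | h3
    · exact Or.inl h3
    · exact Or.inr h3
  · refine Set.Finite.subset Set.finite_empty ?_
    intro ζ hζ
    exact h ⟨ζ, hζ⟩

theorem s_vol (D : CurveData) (F : D.Form1) : ∃ Ω : SurfS D → ℂ,
    (∀ x, AnalyticAt ℂ (volDens Ω (chartAt (ℂ × ℂ) x)) (chartAt (ℂ × ℂ) x x)) ∧
    ∀ b : ℂ, {x | sF D x = b ∧ Ω x = 0}.Finite := by
  refine ⟨sOm D F, ?_, ?_⟩
  · intro x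
    rcases surfS_cases x with ⟨c, ζ, rfl⟩ | ⟨k, β, rfl⟩
    · by_cases hc : D.Free c
      · rw [chartAt_free hc]
        have e1 : cG D (chartAt ℂ c) (IsManifold.chart_mem_maximalAtlas c) (genS c ζ) =
          (chartAt ℂ c c, ζ) := rfl
        rw [e1]
        have h1 : AnalyticAt ℂ (fun p : ℂ × ℂ => dens1 F.τ (chartAt ℂ c) p.1)
            (chartAt ℂ c c, ζ) :=
          AnalyticAt.fun_comp (f := fun p : ℂ × ℂ => p.1) (F.an c hc) analyticAt_fst
        refine h1.congr ?_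
        have hm : ((chartAt ℂ c c, ζ) : ℂ × ℂ) ∈
            (cG D (chartAt ℂ c) (IsManifold.chart_mem_maximalAtlas c)).target := by
          refine ⟨(chartAt ℂ c).map_source (mem_chart_source _ _), ?_⟩
          change D.Free ((chartAt ℂ c).symm (chartAt ℂ c c))
          rw [(chartAt ℂ c).left_inv (mem_chart_source _ _)]
          exact hc
        filter_upwards [(cG D (chartAt ℂ c)
          (IsManifold.chart_mem_maximalAtlas c)).open_target.mem_nhds hm] with q hq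
        exact (vol_G D F _ _ hq.1 hq.2).symm
      · obtain ⟨k, rfl⟩ := D.not_free hc
        rw [chartAt_p]
        have e1 : cA D k (genS (D.p k) ζ) = (0, xi D k (D.p k) ζ) := by
          change (D.z k (D.p k), xi D k (D.p k) ζ) = _
          rw [D.z_p]
        rw [e1]
        have h0 : (0 : ℂ) ∈ Metric.ball (0 : ℂ) (1 / 2) := Metric.mem_ball_self (by norm_num)
        have h1 : AnalyticAt ℂ (fun p : ℂ × ℂ => F.h k p.1) (0, xi D k (D.p k) ζ) :=
          AnalyticAt.fun_comp (f := fun p : ℂ × ℂ => p.1) (F.h_an k 0 h0) analyticAt_fst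
        refine h1.congr ?_
        have hm : ((0 : ℂ), xi D k (D.p k) ζ) ∈ (cA D k).target := h0
        filter_upwards [(cA D k).open_target.mem_nhds hm] with q hq
        exact (vol_A D F k hq).symm
    · rw [chartAt_dd]
      have e1 : cB D k (ddS k β) = (β, 0) := rfl
      rw [e1]
      have h0 : (0 : ℂ) ∈ Metric.ball (0 : ℂ) (1 / 2) := Metric.mem_ball_self (by norm_num)
      have h1 : AnalyticAt ℂ (fun p : ℂ × ℂ => -F.h k (p.1 * p.2 ^ 2)) (β, 0) := by
        refine AnalyticAt.neg ?_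
        have h2 : AnalyticAt ℂ (fun p : ℂ × ℂ => p.1 * p.2 ^ 2) (β, 0) :=
          analyticAt_fst.mul (analyticAt_snd.pow 2)
        have h3 : AnalyticAt ℂ (F.h k) ((fun p : ℂ × ℂ => p.1 * p.2 ^ 2) (β, 0)) := by
          have : (fun p : ℂ × ℂ => p.1 * p.2 ^ 2) (β, 0) = 0 := by simp
          rw [this]
          exact F.h_an k 0 h0
        exact AnalyticAt.fun_comp h3 h2
      refine h1.congr ?_
      have hm : ((β, 0) : ℂ × ℂ) ∈ (cB D k).target := by
        change β * (0 : ℂ) ^ 2 ∈ Metric.ball (0 : ℂ) (1 / 2)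
        have : β * (0 : ℂ) ^ 2 = 0 := by ring
        rw [this]
        exact h0
      filter_upwards [(cB D k).open_target.mem_nhds hm] with q hq
      exact (vol_B D F k hq).symm
  · intro b
    have hfin : (⋃ c ∈ {c | (∀ k, c ≠ D.p k) ∧ F.τ c = 0},
        (fun ζ => (genS c ζ : SurfS D)) '' {ζ | D.s c * ζ ^ 2 = b}).Finite := by
      refine Set.Finite.biUnion F.fin ?_
      intro c hc
      exact (finite_sq_eq (D.s_ne c hc.1)).image _
    refine hfin.subset ?_
    rintro x ⟨hx1, hx2⟩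
    rcases surfS_cases x with ⟨c, ζ, rfl⟩ | ⟨k, β, rfl⟩
    · by_cases hc : D.Free c
      · rw [sOm_free D F hc] at hx2
        rw [Set.mem_iUnion₂]
        exact ⟨c, ⟨hc, hx2⟩, ζ, hx1, rfl⟩
      · obtain ⟨k, rfl⟩ := D.not_free hc
        rw [sOm_p] at hx2
        exact (F.h_ne k hx2).elim
    · rw [sOm_dd] at hx2
      exact (F.h_ne k (neg_eq_zero.1 hx2)).elim

end Pool.Agent.Lib.MP_d4bba2_ag
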