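import Pool.Agent.Lib.MP_d4bba2_ag.DivLast
import Pool.Agent.Lib.MP_d4bba2_ag.Root

/-!
TAYLOR EXPANSION IN ξ AROUND A SHIFT ξ = σ (x,t) + η.

Apply div_last (E = ℂ × ℂ, coordinates ((x,t),η)) to
 h1 ((x,t),η) = D2 F (x, σ (x,t) + η, t) - D2 F (x, σ (x,t), t)   : gives K1 with h1 = η * K1;
 h2 ((x,t),η) = F (x, σ (x,t) + η, t) - F (x, σ (x,t), t)          : gives H1 with h2 = η * H1, and
 H1 ((x,t),0) = D2 F (x,σ (x,t),t) (derivative in η at 0 of both sides), so H1 ((x,t),η) - D2 F (x,σ (x,t),t) vanishes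
 for η = 0 and div_last gives H2 with H1 = D2 F (x,σ,t) + η * H2.   H (x,η,t) = H2 ((x,t),η), K (x,η,t) = K1 ((x,t),η).
At t = 0 (σ (x,0) = 0 near x0): F (x,η,0) = e x * η^2 and D2 F (x,η,0) = 2 * e x * η near (x0,0) (D2_loc), in
particular D2 F (x,0,0) = 0, so η^2 * H (x,η,0) = e x * η^2 and η * K (x,η,0) = 2 * e x * η for (x,η) near (x0,0);
for η ≠ 0 cancel; for η = 0 use continuity in η (H is analytic, hence continuous, at all points near (x0,0,0)).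
-/

open scoped Topology
open Filter

noncomputable section

namespace Pool.Agent.Lib.MP_d4bba2_ag

/-- removal of the condition `p.2 ≠ 0` -/
private theorem shift_ne {x0 : ℂ} {G : ℂ × ℂ → ℂ} {g : ℂ → ℂ}
    (hc : ∀ᶠ p : ℂ × ℂ in 𝓝 (x0, 0), ContinuousAt G p)
    (h : ∀ᶠ p : ℂ × ℂ in 𝓝 (x0, 0), p.2 ≠ 0 → G p = g p.1) :
    ∀ᶠ p : ℂ × ℂ in 𝓝 (x0, 0), G p = g p.1 := by
  filter_upwards [hc, h, eventually_eventually_nhds.2 h] with p h1 h2 h3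
  by_cases hp : p.2 = 0
  · have hcont : ContinuousAt (fun s : ℂ => ((p.1, s) : ℂ × ℂ)) p.2 := by fun_prop
    have h4 : ∀ᶠ s in 𝓝 p.2, s ≠ 0 → G (p.1, s) = g p.1 := hcont.eventually (by simpa using h3)
    have h5 : Tendsto (fun s : ℂ => G (p.1, s)) (𝓝[≠] p.2) (𝓝 (G p)) := by
      have h6 : ContinuousAt (fun s : ℂ => G (p.1, s)) p.2 :=
        ContinuousAt.comp (g := G) (f := fun s : ℂ => ((p.1, s) : ℂ × ℂ)) h1 hcont
      exact h6.tendsto.mono_left nhdsWithin_le_nhds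
    have h7 : Tendsto (fun s : ℂ => G (p.1, s)) (𝓝[≠] p.2) (𝓝 (g p.1)) := by
      refine tendsto_const_nhds.congr' ?_
      filter_upwards [nhdsWithin_le_nhds h4, self_mem_nhdsWithin] with s h8 h9
      refine (h8 ?_).symm
      rw [hp] at h9
      exact h9
    exact tendsto_nhds_unique h5 h7
  · exact h2 hp

theorem shift_expand {F : ℂ × ℂ × ℂ → ℂ} {x0 : ℂ} {e : ℂ → ℂ} (h : IsLoc F x0 e)
    {σ : ℂ × ℂ → ℂ} (hσ : AnalyticAt ℂ σ (x0, 0)) (hσ0 : ∀ᶠ x in 𝓝 x0, σ (x, 0) = 0) :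
    ∃ H K : ℂ × ℂ × ℂ → ℂ, AnalyticAt ℂ H (x0, 0, 0) ∧ AnalyticAt ℂ K (x0, 0, 0) ∧
      (∀ᶠ z : ℂ × ℂ × ℂ in 𝓝 (x0, 0, 0),
        F (z.1, σ (z.1, z.2.2) + z.2.1, z.2.2) = F (z.1, σ (z.1, z.2.2), z.2.2) +
          D2 F (z.1, σ (z.1, z.2.2), z.2.2) * z.2.1 + z.2.1 ^ 2 * H z) ∧
      (∀ᶠ z : ℂ × ℂ × ℂ in 𝓝 (x0, 0, 0),
        D2 F (z.1, σ (z.1, z.2.2) + z.2.1, z.2.2) = D2 F (z.1, σ (z.1, z.2.2), z.2.2) +
          z.2.1 * K z) ∧
      ∀ᶠ p : ℂ × ℂ in 𝓝 (x0, 0), H (p.1, p.2, 0) = e p.1 ∧ K (p.1, p.2, 0) = 2 * e p.1 := by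
  have hs0 : σ (x0, 0) = 0 := hσ0.self_of_nhds
  obtain ⟨hD, hD0⟩ := D2_loc h
  -- the maps
  let m1 : (ℂ × ℂ) × ℂ → ℂ × ℂ × ℂ := fun q => (q.1.1, σ q.1 + q.2, q.1.2)
  let m0 : (ℂ × ℂ) × ℂ → ℂ × ℂ × ℂ := fun q => (q.1.1, σ q.1, q.1.2)
  let j : ℂ × ℂ × ℂ → (ℂ × ℂ) × ℂ := fun z => ((z.1, z.2.2), z.2.1)
  have a11 : AnalyticAt ℂ (fun q : (ℂ × ℂ) × ℂ => q.1.1) ((x0, 0), 0) :=
    analyticAt_fst.comp analyticAt_fst
  have a12 : AnalyticAt ℂ (fun q : (ℂ × ℂ) × ℂ => q.1.2) ((x0, 0), 0) :=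
    analyticAt_snd.comp analyticAt_fst
  have asg : AnalyticAt ℂ (fun q : (ℂ × ℂ) × ℂ => σ q.1) ((x0, 0), 0) :=
    AnalyticAt.comp (g := σ) (f := Prod.fst) hσ analyticAt_fst
  have am1 : AnalyticAt ℂ m1 ((x0, 0), 0) := a11.prod ((asg.add analyticAt_snd).prod a12)
  have am0 : AnalyticAt ℂ m0 ((x0, 0), 0) := a11.prod (asg.prod a12)
  have aj : AnalyticAt ℂ j (x0, 0, 0) :=
    (analyticAt_fst.prod (analyticAt_snd.comp analyticAt_snd)).prod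
      (analyticAt_fst.comp analyticAt_snd)
  have e1 : m1 ((x0, 0), 0) = (x0, 0, 0) := by
    simp only [m1, hs0, add_zero]
  have e0 : m0 ((x0, 0), 0) = (x0, 0, 0) := by
    simp only [m0, hs0]
  have ej : j (x0, 0, 0) = ((x0, 0), 0) := rfl
  have cj : Tendsto j (𝓝 (x0, 0, 0)) (𝓝 ((x0, 0), 0)) := aj.continuousAt
  -- first division
  have aF1 : AnalyticAt ℂ (fun q => F (m1 q)) ((x0, 0), 0) := h.an.comp_of_eq am1 e1
  have aF0 : AnalyticAt ℂ (fun q => F (m0 q)) ((x0, 0), 0) := h.an.comp_of_eq am0 e0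
  have aD1 : AnalyticAt ℂ (fun q => D2 F (m1 q)) ((x0, 0), 0) := hD.comp_of_eq am1 e1
  have aD0 : AnalyticAt ℂ (fun q => D2 F (m0 q)) ((x0, 0), 0) := hD.comp_of_eq am0 e0
  have hm : ∀ p : ℂ × ℂ, m1 (p, 0) = m0 (p, 0) := fun p => by
    simp only [m1, m0, add_zero]
  obtain ⟨g1, ag1, hg1⟩ := div_last (fun q => D2 F (m1 q) - D2 F (m0 q)) (x0, 0) (aD1.sub aD0)
    (Eventually.of_forall fun p => by rw [hm, sub_self])
  obtain ⟨H1, aH1, hH1⟩ := div_last (fun q => F (m1 q) - F (m0 q)) (x0, 0) (aF1.sub aF0)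
    (Eventually.of_forall fun p => by rw [hm, sub_self])
  -- the value of `H1` at `η = 0`
  have hval : ∀ᶠ p : ℂ × ℂ in 𝓝 (x0, 0), H1 (p, 0) - D2 F (m0 (p, 0)) = 0 := by
    have cp : Tendsto (fun p : ℂ × ℂ => (p, (0 : ℂ))) (𝓝 (x0, 0)) (𝓝 ((x0, 0), 0)) := by
      have : Continuous fun p : ℂ × ℂ => (p, (0 : ℂ)) := by fun_prop
      exact this.tendsto _
    have hFd : ∀ᶠ q in 𝓝 ((x0, (0 : ℂ)), (0 : ℂ)), DifferentiableAt ℂ F (m0 q) := by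
      have h1 : Tendsto m0 (𝓝 ((x0, 0), 0)) (𝓝 (x0, 0, 0)) := by
        have := am0.continuousAt.tendsto
        rwa [e0] at this
      exact h1.eventually (h.an.eventually_analyticAt.mono fun z hz => hz.differentiableAt)
    filter_upwards [cp.eventually hFd, cp.eventually (aH1.eventually_analyticAt),
      cp.eventually (eventually_eventually_nhds.2 hH1)] with p h1 h2 h3
    have cs : Tendsto (fun s : ℂ => (p, s)) (𝓝 0) (𝓝 (p, 0)) := by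
      have : Continuous fun s : ℂ => (p, s) := by fun_prop
      exact this.tendsto _
    -- left side
    have d1 : HasDerivAt (fun s : ℂ => F (m1 (p, s))) (D2 F (m0 (p, 0))) 0 := by
      have d2 : HasDerivAt (fun s : ℂ => m1 (p, s)) ((0, 1, 0) : ℂ × ℂ × ℂ) 0 :=
        (hasDerivAt_const (0 : ℂ) p.1).prodMk
          (((hasDerivAt_id (0 : ℂ)).const_add (σ p)).prodMk (hasDerivAt_const (0 : ℂ) p.2))
      have d3 : HasFDerivAt F (fderiv ℂ F (m0 (p, 0))) (m1 (p, 0)) := by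
        rw [hm]
        exact h1.hasFDerivAt
      exact d3.comp_hasDerivAt 0 d2
    -- right side
    have d4 : HasDerivAt (fun s : ℂ => F (m0 (p, s)) + s * H1 (p, s)) (H1 (p, 0)) 0 := by
      have d5 : HasDerivAt (fun s : ℂ => H1 (p, s)) (deriv (fun s : ℂ => H1 (p, s)) 0) 0 := by
        have d6 : DifferentiableAt ℂ (fun s : ℂ => H1 (p, s)) 0 := by
          refine DifferentiableAt.comp (g := H1) (f := fun s : ℂ => (p, s)) 0
            h2.differentiableAt ?_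
          fun_prop
        exact d6.hasDerivAt
      have d7 := ((hasDerivAt_id' (0 : ℂ)).fun_mul d5).const_add (F (m0 (p, 0)))
      refine HasDerivAt.congr_deriv (f' := 1 * H1 (p, 0) + 0 * deriv (fun s : ℂ => H1 (p, s)) 0)
        d7 ?_
      simp
    have h4 : (fun s : ℂ => F (m1 (p, s))) =ᶠ[𝓝 0] fun s : ℂ => F (m0 (p, s)) + s * H1 (p, s) := by
      filter_upwards [cs.eventually h3] with s hs
      linear_combination hs
    have h5 := (d4.congr_of_eventuallyEq h4).unique d1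
    rw [h5, sub_self]
  obtain ⟨H2, aH2, hH2⟩ := div_last (fun q => H1 q - D2 F (m0 q)) (x0, 0) (aH1.sub aD0) hval
  -- identities
  have hF : ∀ᶠ z : ℂ × ℂ × ℂ in 𝓝 (x0, 0, 0),
      F (z.1, σ (z.1, z.2.2) + z.2.1, z.2.2) = F (z.1, σ (z.1, z.2.2), z.2.2) +
        D2 F (z.1, σ (z.1, z.2.2), z.2.2) * z.2.1 + z.2.1 ^ 2 * H2 (j z) := by
    filter_upwards [cj.eventually hH1, cj.eventually hH2] with z h1 h2
    have h1' : F (z.1, σ (z.1, z.2.2) + z.2.1, z.2.2) - F (z.1, σ (z.1, z.2.2), z.2.2) =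
      z.2.1 * H1 (j z) := h1
    have h2' : H1 (j z) - D2 F (z.1, σ (z.1, z.2.2), z.2.2) = z.2.1 * H2 (j z) := h2
    linear_combination h1' + z.2.1 * h2'
  have hK : ∀ᶠ z : ℂ × ℂ × ℂ in 𝓝 (x0, 0, 0),
      D2 F (z.1, σ (z.1, z.2.2) + z.2.1, z.2.2) = D2 F (z.1, σ (z.1, z.2.2), z.2.2) +
        z.2.1 * g1 (j z) := by
    filter_upwards [cj.eventually hg1] with z h1
    have h1' : D2 F (z.1, σ (z.1, z.2.2) + z.2.1, z.2.2) - D2 F (z.1, σ (z.1, z.2.2), z.2.2) =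
      z.2.1 * g1 (j z) := h1
    linear_combination h1'
  have aH : AnalyticAt ℂ (fun z => H2 (j z)) (x0, 0, 0) := aH2.comp_of_eq aj ej
  have aK : AnalyticAt ℂ (fun z => g1 (j z)) (x0, 0, 0) := ag1.comp_of_eq aj ej
  refine ⟨fun z => H2 (j z), fun z => g1 (j z), aH, aK, hF, hK, ?_⟩
  -- the values at `t = 0`
  have ci : Tendsto (fun p : ℂ × ℂ => ((p.1, p.2, 0) : ℂ × ℂ × ℂ)) (𝓝 (x0, 0)) (𝓝 (x0, 0, 0)) := by
    have : Continuous fun p : ℂ × ℂ => ((p.1, p.2, 0) : ℂ × ℂ × ℂ) := by fun_prop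
    exact this.tendsto _
  have cf : Tendsto (fun p : ℂ × ℂ => p.1) (𝓝 (x0, 0)) (𝓝 x0) := continuous_fst.tendsto _
  have c0 : Tendsto (fun p : ℂ × ℂ => ((p.1, 0) : ℂ × ℂ)) (𝓝 (x0, 0)) (𝓝 (x0, 0)) := by
    have : Continuous fun p : ℂ × ℂ => ((p.1, 0) : ℂ × ℂ) := by fun_prop
    exact this.tendsto _
  have hcont : ∀ {G : ℂ × ℂ × ℂ → ℂ}, AnalyticAt ℂ G (x0, 0, 0) →
      ∀ᶠ p : ℂ × ℂ in 𝓝 (x0, 0), ContinuousAt (fun p : ℂ × ℂ => G (p.1, p.2, 0)) p := by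
    intro G hG
    filter_upwards [ci.eventually hG.eventually_analyticAt] with p hp
    refine ContinuousAt.comp (g := G) (f := fun p : ℂ × ℂ => ((p.1, p.2, 0) : ℂ × ℂ × ℂ))
      hp.continuousAt ?_
    fun_prop
  have hH0 : ∀ᶠ p : ℂ × ℂ in 𝓝 (x0, 0), p.2 ≠ 0 → H2 (j (p.1, p.2, 0)) = e p.1 := by
    filter_upwards [ci.eventually hF, cf.eventually hσ0, h.eq, c0.eventually h.eq,
      c0.eventually hD0] with p h1 h2 h3 h4 h5 hp
    have h1' : F (p.1, σ (p.1, 0) + p.2, 0) = F (p.1, σ (p.1, 0), 0) +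
      D2 F (p.1, σ (p.1, 0), 0) * p.2 + p.2 ^ 2 * H2 (j (p.1, p.2, 0)) := h1
    have h4' : F (p.1, 0, 0) = e p.1 * 0 ^ 2 := h4
    have h5' : D2 F (p.1, 0, 0) = 2 * e p.1 * 0 := h5
    rw [h2, zero_add, h3, h4', h5'] at h1'
    have h6 : p.2 ^ 2 * (H2 (j (p.1, p.2, 0)) - e p.1) = 0 := by linear_combination -h1'
    rcases mul_eq_zero.1 h6 with h7 | h7
    · exact absurd (pow_eq_zero_iff (two_ne_zero)|>.1 h7) hp
    · exact sub_eq_zero.1 h7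
  have hK0 : ∀ᶠ p : ℂ × ℂ in 𝓝 (x0, 0), p.2 ≠ 0 → g1 (j (p.1, p.2, 0)) = 2 * e p.1 := by
    filter_upwards [ci.eventually hK, cf.eventually hσ0, hD0, c0.eventually hD0]
      with p h1 h2 h3 h4 hp
    have h1' : D2 F (p.1, σ (p.1, 0) + p.2, 0) = D2 F (p.1, σ (p.1, 0), 0) +
      p.2 * g1 (j (p.1, p.2, 0)) := h1
    have h4' : D2 F (p.1, 0, 0) = 2 * e p.1 * 0 := h4
    rw [h2, zero_add, h3, h4'] at h1'
    have h6 : p.2 * (g1 (j (p.1, p.2, 0)) - 2 * e p.1) = 0 := by linear_combination -h1'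
    rcases mul_eq_zero.1 h6 with h7 | h7
    · exact absurd h7 hp
    · exact sub_eq_zero.1 h7
  exact (shift_ne (G := fun p : ℂ × ℂ => H2 (j (p.1, p.2, 0))) (hcont aH) hH0).and
    (shift_ne (G := fun p : ℂ × ℂ => g1 (j (p.1, p.2, 0))) (g := fun x => 2 * e x) (hcont aK) hK0)

end Pool.Agent.Lib.MP_d4bba2_ag
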