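import Pool.Agent.Lib.MP_d4bba2_ag.NextShift

/-!
ALL SHIFTS AT A SPECIAL POINT.  Induction on m (1 ≤ m).  m = 1: σ = 0, D2 F (x,0,t) vanishes at t = 0 (D2_loc with ξ = 0),
so D2 F (x,0,t) = t * G by div_last (function of (x,t)).  Step m → m+1 : 2 * m < n, next_shift; the hypothesis for m is
either m = 1 or 2 * (m-1) < n, which follows from 2 * m < n.
-/

open scoped Topology
open Filter

noncomputable section

namespace Pool.Agent.Lib.MP_d4bba2_ag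

theorem shifts_one {F : ℂ × ℂ × ℂ → ℂ} {x0 : ℂ} {e : ℂ → ℂ} (h : IsLoc F x0 e) :
    ∃ σ G : ℂ × ℂ → ℂ, AnalyticAt ℂ σ (x0, 0) ∧ (∀ᶠ x in 𝓝 x0, σ (x, 0) = 0) ∧
      AnalyticAt ℂ G (x0, 0) ∧
      ∀ᶠ p : ℂ × ℂ in 𝓝 (x0, 0), D2 F (p.1, σ p, p.2) = p.2 ^ 1 * G p := by
  obtain ⟨hA, hE⟩ := D2_loc h
  have hi : AnalyticAt ℂ (fun p : ℂ × ℂ => ((p.1, 0, p.2) : ℂ × ℂ × ℂ)) (x0, 0) :=
    analyticAt_fst.prod (analyticAt_const.prod analyticAt_snd)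
  have hc : AnalyticAt ℂ (fun p : ℂ × ℂ => D2 F (p.1, 0, p.2)) (x0, 0) :=
    AnalyticAt.fun_comp (g := D2 F) (f := fun p : ℂ × ℂ => ((p.1, 0, p.2) : ℂ × ℂ × ℂ)) hA hi
  have hz : ∀ᶠ x in 𝓝 x0, (fun p : ℂ × ℂ => D2 F (p.1, 0, p.2)) (x, 0) = 0 := by
    have hk : ContinuousAt (fun x : ℂ => ((x, 0) : ℂ × ℂ)) x0 := by fun_prop
    filter_upwards [hk.eventually hE] with x hx
    simpa using hx
  obtain ⟨G, hG, hG'⟩ := div_last (fun p : ℂ × ℂ => D2 F (p.1, 0, p.2)) x0 hc hz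
  refine ⟨fun _ => 0, G, analyticAt_const, Eventually.of_forall fun _ => rfl, hG, ?_⟩
  filter_upwards [hG'] with p hp
  simpa using hp

theorem shifts {F : ℂ × ℂ × ℂ → ℂ} {x0 : ℂ} {e : ℂ → ℂ} (h : IsLoc F x0 e)
    (he0 : e x0 = 0) (he1 : deriv e x0 ≠ 0) {κ : ℕ → ℂ} {n : ℕ}
    (hf : ∀ᶠ y in 𝓝[≠] x0, ∃ B, Form F y κ n B) (m : ℕ) (hm : 1 ≤ m)
    (hmn : m = 1 ∨ 2 * (m - 1) < n) :
    ∃ σ G : ℂ × ℂ → ℂ, AnalyticAt ℂ σ (x0, 0) ∧ (∀ᶠ x in 𝓝 x0, σ (x, 0) = 0) ∧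
      AnalyticAt ℂ G (x0, 0) ∧
      ∀ᶠ p : ℂ × ℂ in 𝓝 (x0, 0), D2 F (p.1, σ p, p.2) = p.2 ^ m * G p := by
  induction m, hm using Nat.le_induction with
  | base => exact shifts_one h
  | succ m hm ih =>
    have h2 : 2 * m < n := by
      rcases hmn with h1 | h1
      · omega
      · simpa using h1
    obtain ⟨σ, G, hσ, hσ0, hG, hs⟩ := ih (Or.inr (by omega))
    exact next_shift h he0 he1 hm h2 hf hσ hσ0 hG hs

end Pool.Agent.Lib.MP_d4bba2_ag
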