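import Pool.Agent.Lib.MP_d4bba2_ag.CoefFun
import Pool.Agent.Lib.MP_d4bba2_ag.CoefBound
import Pool.Agent.Lib.MP_d4bba2_ag.AllForms

/-!
THE ROOT NEAR A SPECIAL POINT: σ x t = ∑ j, c j x * t^j.

Take R1, c from coef_fun.  Choose 0 < R ≤ R1 and η0 > 0 such that F is analytic on {|x-x0| ≤ R, |ξ| ≤ η0, |t| ≤ η0} and k is
analytic on |t| ≤ η0.  coef_bound on closedBall x0 R (the hypothesis: for y on the sphere a root from root_exists
(IsLoc F y e, e y ≠ 0) and the last part of coef_fun) gives M0, δ0.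
For |x - x0| ≤ R and |t| < δ0: the series ∑ c j x t^j converges, c 0 x = 0, so for |t| ≤ δ0/2:
|σ x t| ≤ ∑_{j≥1} M0 (|t|/δ0)^j ≤ 2 M0 |t| / δ0 =: M |t|.  For fixed t it is a uniform limit of analytic functions on the
ball, so differentiable there (differentiableOn_tsum_of_summable_norm or TendstoLocallyUniformlyOn.differentiableOn); for
fixed x it is analytic in t.  δ = min (δ0/2) (η0/(M+1)) η0 : so |σ x t| ≤ η0 and all points (x, σ x t, t) lie in the
polydisc where F is analytic.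
For 0 < |x - x0| < R: let ρ be a root at x.  The germs at t = 0 of t ↦ σ x t and t ↦ ρ (x,t) have the same Taylor
coefficients (coef_fun with y = x; all N), both analytic at 0, so they agree near t = 0 (flat_zero in one variable).  So
D2 F (x, σ x t, t) = 0 for t near 0 (RootAt.root along t ↦ (x,t)), and F (x, σ x t, t) = k t near 0 (all_forms at x gives
k' with HasCoeffs k' κ; coeffs_unique k = k' near 0).  Both sides are analytic functions of t in |t| < δ, so by the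
identity theorem (AnalyticOnNhd.eqOn_of_preconnected_of_eventuallyEq) the equalities hold for |t| < δ.
For x = x0: fixed t, continuity of x ↦ σ x t at x0, and density of the punctured disc.
-/

open scoped Topology
open Filter

noncomputable section

namespace Pool.Agent.Lib.MP_d4bba2_ag

private theorem sumRoot_D2 {F : ℂ × ℂ × ℂ → ℂ} {z : ℂ × ℂ × ℂ} (h : AnalyticAt ℂ F z) :
    AnalyticAt ℂ (D2 F) z := by
  have h1 : AnalyticAt ℂ (ContinuousLinearMap.apply ℂ ℂ ((0, 1, 0) : ℂ × ℂ × ℂ)) (fderiv ℂ F z) :=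
    ContinuousLinearMap.analyticAt _ _
  exact h1.comp h.fderiv

private theorem sumRoot_sum {c : ℕ → ℂ} {M0 δ0 : ℝ} (hδ : 0 < δ0)
    (hb : ∀ j, ‖c j‖ * δ0 ^ j ≤ M0) (j : ℕ) (t : ℂ) :
    ‖c j * t ^ j‖ ≤ M0 * (‖t‖ / δ0) ^ j := by
  rw [norm_mul, norm_pow, div_pow]
  have h1 : 0 < δ0 ^ j := pow_pos hδ j
  calc ‖c j‖ * ‖t‖ ^ j = (‖c j‖ * δ0 ^ j) * (‖t‖ ^ j / δ0 ^ j) := by
        field_simp
    _ ≤ M0 * (‖t‖ ^ j / δ0 ^ j) := by
        refine mul_le_mul_of_nonneg_right (hb j) ?_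
        positivity

private theorem sumRoot_half {c : ℕ → ℂ} {M0 δ0 : ℝ} (hδ : 0 < δ0) (hM : 0 < M0)
    (hb : ∀ j, ‖c j‖ * δ0 ^ j ≤ M0) (j : ℕ) (t : ℂ) (ht : ‖t‖ ≤ δ0 / 2) :
    ‖c j * t ^ j‖ ≤ M0 * (1 / 2) ^ j := by
  refine (sumRoot_sum hδ hb j t).trans ?_
  refine mul_le_mul_of_nonneg_left ?_ hM.le
  refine pow_le_pow_left₀ (by positivity) ?_ j
  rw [div_le_iff₀ hδ]
  linarith

private theorem sumRoot_summable {c : ℕ → ℂ} {M0 δ0 : ℝ} (hδ : 0 < δ0) (hM : 0 < M0)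
    (hb : ∀ j, ‖c j‖ * δ0 ^ j ≤ M0) (t : ℂ) (ht : ‖t‖ ≤ δ0 / 2) :
    Summable fun j => c j * t ^ j :=
  Summable.of_norm_bounded (summable_geometric_two.mul_left M0)
    (fun j => sumRoot_half hδ hM hb j t ht)

/-- tail estimate -/
private theorem sumRoot_tail {c : ℕ → ℂ} {M0 δ0 : ℝ} (hδ : 0 < δ0) (hM : 0 < M0)
    (hb : ∀ j, ‖c j‖ * δ0 ^ j ≤ M0) (N : ℕ) (t : ℂ) (ht : ‖t‖ ≤ δ0 / 2) :
    ‖∑' j, c j * t ^ j - ∑ j ∈ Finset.range N, c j * t ^ j‖ ≤
      M0 * (‖t‖ / δ0) ^ N * 2 := by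
  have hs := sumRoot_summable hδ hM hb t ht
  have e1 := hs.sum_add_tsum_nat_add N
  have e2 : ∑' j, c j * t ^ j - ∑ j ∈ Finset.range N, c j * t ^ j =
      ∑' j, c (j + N) * t ^ (j + N) := by
    rw [← e1]
    ring
  rw [e2]
  refine tsum_of_norm_bounded (hasSum_geometric_two.mul_left (M0 * (‖t‖ / δ0) ^ N)) fun j => ?_
  refine (sumRoot_sum hδ hb (j + N) t).trans ?_
  rw [pow_add]
  have h1 : (‖t‖ / δ0) ^ j ≤ (1 / 2 : ℝ) ^ j := by
    refine pow_le_pow_left₀ (by positivity) ?_ j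
    rw [div_le_iff₀ hδ]
    linarith
  have h2 : 0 ≤ M0 * (‖t‖ / δ0) ^ N := by positivity
  calc M0 * ((‖t‖ / δ0) ^ j * (‖t‖ / δ0) ^ N) = M0 * (‖t‖ / δ0) ^ N * (‖t‖ / δ0) ^ j := by ring
    _ ≤ M0 * (‖t‖ / δ0) ^ N * (1 / 2) ^ j := mul_le_mul_of_nonneg_left h1 h2

theorem sum_root {F : ℂ × ℂ × ℂ → ℂ} {x0 : ℂ} {e : ℂ → ℂ} (h : IsLoc F x0 e)
    (he0 : e x0 = 0) (he1 : deriv e x0 ≠ 0) {κ : ℕ → ℂ} {k : ℂ → ℂ} (hk : HasCoeffs k κ)
    (hf : ∀ᶠ y in 𝓝[≠] x0, ∀ n, ∃ B, Form F y κ n B) :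
    ∃ R δ M : ℝ, 0 < R ∧ 0 < δ ∧ 0 < M ∧ ∃ σ : ℂ → ℂ → ℂ,
      (∀ t : ℂ, ‖t‖ < δ → DifferentiableOn ℂ (fun x => σ x t) (Metric.ball x0 R)) ∧
      ∀ x ∈ Metric.ball x0 R, ∀ t : ℂ, ‖t‖ < δ →
        ‖σ x t‖ ≤ M * ‖t‖ ∧ D2 F (x, σ x t, t) = 0 ∧ F (x, σ x t, t) = k t := by
  obtain ⟨R1, hR1, c, hcan, hc0, hcy⟩ := coef_fun h he0 he1 hf
  obtain ⟨r, hr, hFan⟩ := Metric.eventually_nhds_iff.1 h.an.eventually_analyticAt
  obtain ⟨r', hr', hkan⟩ := Metric.eventually_nhds_iff.1 hk.an.eventually_analyticAt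
  obtain ⟨R, hRdef⟩ : ∃ R : ℝ, R = min R1 (r / 2) := ⟨_, rfl⟩
  have hR : 0 < R := by
    rw [hRdef]
    exact lt_min hR1 (by linarith)
  have hRR1 : R ≤ R1 := hRdef ▸ min_le_left _ _
  have hRr : R ≤ r / 2 := hRdef ▸ min_le_right _ _
  have hsub : Metric.closedBall x0 R ⊆ Metric.closedBall x0 R1 :=
    Metric.closedBall_subset_closedBall hRR1
  obtain ⟨M0, δ0, hM0, hδ0, hbd⟩ := coef_bound hR (fun j => (hcan j).mono hsub) (by
    intro y hy
    have hy1 : y ∈ Metric.closedBall x0 R1 := hsub (Metric.sphere_subset_closedBall hy)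
    have hy2 : y ≠ x0 := by
      rintro rfl
      rw [Metric.mem_sphere, dist_self] at hy
      exact hR.ne hy
    obtain ⟨h1, h2, -, h4⟩ := hcy y hy1 hy2
    obtain ⟨ρ, hρ, -⟩ := root_exists h1 h2
    exact ⟨ρ, hρ.an, h4 ρ hρ⟩)
  have hbd' : ∀ x ∈ Metric.ball x0 R, ∀ j, ‖c j x‖ * δ0 ^ j ≤ M0 := fun x hx j =>
    hbd j x (Metric.ball_subset_closedBall hx)
  obtain ⟨M, hM⟩ : ∃ M : ℝ, M = M0 / δ0 * 2 := ⟨_, rfl⟩
  have hMpos : 0 < M := by
    rw [hM]
    positivity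
  obtain ⟨δ, hδ⟩ : ∃ δ : ℝ, δ = min (δ0 / 2) (min r' (r / (M + 1))) := ⟨_, rfl⟩
  have hδpos : 0 < δ := by
    rw [hδ]
    exact lt_min (by linarith) (lt_min hr' (by positivity))
  have hδ1 : δ ≤ δ0 / 2 := hδ ▸ min_le_left _ _
  have hδ2 : δ ≤ r' := hδ ▸ (min_le_right _ _).trans (min_le_left _ _)
  have hδ3 : δ ≤ r / (M + 1) := hδ ▸ (min_le_right _ _).trans (min_le_right _ _)
  obtain ⟨σ, hσ⟩ : ∃ σ : ℂ → ℂ → ℂ, σ = fun x t => ∑' j, c j x * t ^ j := ⟨_, rfl⟩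
  -- the size of `σ`
  have hsz : ∀ x ∈ Metric.ball x0 R, ∀ t : ℂ, ‖t‖ < δ → ‖σ x t‖ ≤ M * ‖t‖ := by
    intro x hx t ht
    have h1 := sumRoot_tail hδ0 hM0 (hbd' x hx) 1 t (ht.le.trans hδ1)
    rw [Finset.sum_range_one, hc0 x (hsub (Metric.ball_subset_closedBall hx)), zero_mul, sub_zero,
      pow_one] at h1
    rw [hσ, hM]
    refine h1.trans (le_of_eq ?_)
    ring
  -- the points are in the domain of `F`
  have hFp : ∀ x ∈ Metric.ball x0 R, ∀ t : ℂ, ‖t‖ < δ → AnalyticAt ℂ F (x, σ x t, t) := by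
    intro x hx t ht
    apply hFan
    have h1 : dist x x0 < r := (Metric.mem_ball.1 hx).trans_le (by linarith)
    have h3 : ‖t‖ * (M + 1) < r := by
      have := ht.trans_le hδ3
      rwa [lt_div_iff₀ (by linarith)] at this
    have h4 := norm_nonneg t
    have h2 : ‖t‖ < r := by nlinarith
    have h5 : ‖σ x t‖ < r := (hsz x hx t ht).trans_lt (by nlinarith)
    rw [Prod.dist_eq, Prod.dist_eq]
    simp only [dist_zero_right]
    exact max_lt h1 (max_lt h5 h2)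
  -- differentiability in `x`
  have hdx : ∀ t : ℂ, ‖t‖ < δ → DifferentiableOn ℂ (fun x => σ x t) (Metric.ball x0 R) := by
    intro t ht
    rw [hσ]
    refine Complex.differentiableOn_tsum_of_summable_norm
      (summable_geometric_two.mul_left M0) (fun j => ?_) Metric.isOpen_ball (fun j x hx => ?_)
    · exact (((hcan j).mono
        (Metric.ball_subset_closedBall.trans hsub)).differentiableOn).mul_const _
    · exact sumRoot_half hδ0 hM0 (hbd' x hx) j t (ht.le.trans hδ1)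
  -- analyticity in `t`
  have hdt : ∀ x ∈ Metric.ball x0 R, AnalyticOnNhd ℂ (σ x) (Metric.ball 0 δ) := by
    intro x hx
    refine DifferentiableOn.analyticOnNhd ?_ Metric.isOpen_ball
    rw [hσ]
    refine Complex.differentiableOn_tsum_of_summable_norm
      (summable_geometric_two.mul_left M0) (fun j => ?_) Metric.isOpen_ball (fun j t ht => ?_)
    · exact ((differentiable_id.pow j).const_mul _).differentiableOn
    · rw [mem_ball_zero_iff] at ht
      exact sumRoot_half hδ0 hM0 (hbd' x hx) j t (ht.le.trans hδ1)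
  have hσ0 : ∀ x ∈ Metric.ball x0 R, σ x 0 = 0 := by
    intro x hx
    have := hsz x hx 0 (by rw [norm_zero]; exact hδpos)
    rw [norm_zero, mul_zero] at this
    exact norm_le_zero_iff.1 this
  -- the equations for `x ≠ x0`
  have hne : ∀ x ∈ Metric.ball x0 R, x ≠ x0 → ∀ t : ℂ, ‖t‖ < δ →
      D2 F (x, σ x t, t) = 0 ∧ F (x, σ x t, t) = k t := by
    intro x hx hxne
    obtain ⟨h1, h2, h3, h4⟩ := hcy x (hsub (Metric.ball_subset_closedBall hx)) hxne
    obtain ⟨ρ, hρ, -⟩ := root_exists h1 h2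
    have h5 := (h4 ρ hρ).self_of_nhds
    have hct : ContinuousAt (fun t : ℂ => ((x, t) : ℂ × ℂ)) 0 := by fun_prop
    have hAt : AnalyticAt ℂ (fun t : ℂ => ((x, t) : ℂ × ℂ)) 0 := by fun_prop
    have c1 : HasCoeffs (fun t => ρ (x, t)) (fun j => c j x) :=
      ⟨AnalyticAt.comp (g := ρ) (f := fun t : ℂ => ((x, t) : ℂ × ℂ)) hρ.an hAt, h5⟩
    have c2 : HasCoeffs (σ x) (fun j => c j x) := by
      refine ⟨hdt x hx 0 (Metric.mem_ball_self hδpos), fun N => ?_⟩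
      refine Asymptotics.IsBigO.of_bound (M0 * (1 / δ0) ^ N * 2) ?_
      have h6 : ∀ᶠ t : ℂ in 𝓝 0, ‖t‖ < δ := by
        have := Metric.ball_mem_nhds (0 : ℂ) hδpos
        filter_upwards [this] with t ht
        exact mem_ball_zero_iff.1 ht
      filter_upwards [h6] with t ht
      have h7 := sumRoot_tail hδ0 hM0 (hbd' x hx) N t (ht.le.trans hδ1)
      rw [hσ, norm_pow]
      refine h7.trans (le_of_eq ?_)
      rw [div_pow, div_pow, one_pow]
      ring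
    have h8 := coeffs_unique c2 c1
    obtain ⟨k', hk', hk1, -⟩ := all_forms h1 h2 h3
    have h9 := coeffs_unique hk hk'
    have hmap : AnalyticOnNhd ℂ (fun t : ℂ => ((x, σ x t, t) : ℂ × ℂ × ℂ)) (Metric.ball 0 δ) := by
      intro t ht
      exact analyticAt_const.prod ((hdt x hx t ht).prod analyticAt_id)
    have hpre : IsPreconnected (Metric.ball (0 : ℂ) δ) := (convex_ball 0 δ).isPreconnected
    have hmem : (0 : ℂ) ∈ Metric.ball (0 : ℂ) δ := Metric.mem_ball_self hδpos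
    have g1 : AnalyticOnNhd ℂ (fun t => D2 F (x, σ x t, t)) (Metric.ball 0 δ) := by
      intro t ht
      have ht' := mem_ball_zero_iff.1 ht
      have h10 : AnalyticAt ℂ (D2 F) (x, σ x t, t) := sumRoot_D2 (hFp x hx t ht')
      exact AnalyticAt.comp (g := D2 F) (f := fun t : ℂ => ((x, σ x t, t) : ℂ × ℂ × ℂ)) h10
        (hmap t ht)
    have g2 : AnalyticOnNhd ℂ (fun t => F (x, σ x t, t)) (Metric.ball 0 δ) := by
      intro t ht
      have ht' := mem_ball_zero_iff.1 ht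
      exact AnalyticAt.comp (g := F) (f := fun t : ℂ => ((x, σ x t, t) : ℂ × ℂ × ℂ))
        (hFp x hx t ht') (hmap t ht)
    have g3 : AnalyticOnNhd ℂ k (Metric.ball 0 δ) := by
      intro t ht
      exact hkan ((Metric.mem_ball.1 ht).trans_le hδ2)
    have e1 : (fun t => D2 F (x, σ x t, t)) =ᶠ[𝓝 0] 0 := by
      filter_upwards [h8, hct.eventually hρ.root] with t ht1 ht2
      rw [ht1]
      exact ht2
    have e2 : (fun t => F (x, σ x t, t)) =ᶠ[𝓝 0] k := by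
      filter_upwards [h8, h9, hct.eventually (hk1 ρ hρ)] with t ht1 ht2 ht3
      rw [ht1, ht2]
      exact ht3
    have f1 := g1.eqOn_zero_of_preconnected_of_eventuallyEq_zero hpre hmem e1
    have f2 := g2.eqOn_of_preconnected_of_eventuallyEq g3 hpre hmem e2
    intro t ht
    exact ⟨f1 (mem_ball_zero_iff.2 ht), f2 (mem_ball_zero_iff.2 ht)⟩
  refine ⟨R, δ, M, hR, hδpos, hMpos, σ, hdx, fun x hx t ht => ⟨hsz x hx t ht, ?_⟩⟩
  by_cases hxx : x = x0
  · have hx0 : x0 ∈ Metric.ball x0 R := Metric.mem_ball_self hR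
    have hσc : ContinuousAt (fun x => σ x t) x0 :=
      ((hdx t ht).differentiableAt (Metric.isOpen_ball.mem_nhds hx0)).continuousAt
    have hmc : ContinuousAt (fun x : ℂ => ((x, σ x t, t) : ℂ × ℂ × ℂ)) x0 :=
      continuousAt_id.prodMk (hσc.prodMk continuousAt_const)
    have hFc : ContinuousAt (fun x => F (x, σ x t, t)) x0 :=
      ContinuousAt.comp (g := F) (f := fun x : ℂ => ((x, σ x t, t) : ℂ × ℂ × ℂ))
        (hFp x0 hx0 t ht).continuousAt hmc
    have hDan : AnalyticAt ℂ (D2 F) (x0, σ x0 t, t) := sumRoot_D2 (hFp x0 hx0 t ht)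
    have hDc : ContinuousAt (fun x => D2 F (x, σ x t, t)) x0 :=
      ContinuousAt.comp (g := D2 F) (f := fun x : ℂ => ((x, σ x t, t) : ℂ × ℂ × ℂ))
        hDan.continuousAt hmc
    have hev : ∀ᶠ x in 𝓝[≠] x0, x ∈ Metric.ball x0 R ∧ x ≠ x0 := by
      rw [eventually_nhdsWithin_iff]
      filter_upwards [Metric.ball_mem_nhds x0 hR] with y hy hy'
      exact ⟨hy, hy'⟩
    have z1 : (fun x => D2 F (x, σ x t, t)) =ᶠ[𝓝[≠] x0] fun _ => 0 := by
      filter_upwards [hev] with y hy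
      exact (hne y hy.1 hy.2 t ht).1
    have z2 : (fun x => F (x, σ x t, t)) =ᶠ[𝓝[≠] x0] fun _ => k t := by
      filter_upwards [hev] with y hy
      exact (hne y hy.1 hy.2 t ht).2
    have w1 := ((ContinuousAt.eventuallyEq_nhds_iff_eventuallyEq_nhdsNE hDc
      continuousAt_const).1 z1).self_of_nhds
    have w2 := ((ContinuousAt.eventuallyEq_nhds_iff_eventuallyEq_nhdsNE hFc
      continuousAt_const).1 z2).self_of_nhds
    rw [hxx]
    exact ⟨w1, w2⟩
  · exact hne x hx hxx t ht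

end Pool.Agent.Lib.MP_d4bba2_ag
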