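import Pool.Agent.Lib.MP_d4bba2_ag.CurveData
import Pool.Agent.Lib.MP_d4bba2_ag.MfdApi

/-!
THE SURFACE OVER A CURVE DATA D.  Points: gen c ζ with c ≠ p k for all k is the point (c, ζ); gen (p k) ξ is the point of the affine
part of the rational curve E_k with coordinate ξ; dd k β is the point (β, η = 0) of the last chart.
Charts:
 chG φ (φ in the maximal atlas of C): gen c ζ ↦ (φ c, ζ) for c in the source of φ, c no p k;
 chA k: (x, ξ) with x = z k c, ξ = ζ x^(m k)  (ξ = ζ at c = p k; here ζ denotes the second entry of gen);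
 chB k: (β, η) with x = β η², ξ = 1/η; at η = 0 the point dd k β.
xi D k c ζ is the coordinate ξ.
chG: left_inv: φ.symm (φ c) = c.  map_target: by definition of the target.
chA: for c ≠ p k in the source, z k c ≠ 0 (z k is injective on its source, z k (p k) = 0), so ζ x^m x^(-m) = ζ.  At c = p k: x = 0.
 right_inv: (z k).symm x = p k iff x = 0 for x in the ball.
chB: toFun (gen c ζ) = (x ξ², ξ⁻¹), toFun (dd k' β) = (β, 0).  inverse: η = 0: dd k β, else (chA k).symm (β η², η⁻¹).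
 source: gen c ζ with c in the source of z k and ξ ≠ 0, and dd k β.  target: β η² in ball 0 (1/2).
-/

open scoped Topology Manifold ContDiff
open Filter

noncomputable section

namespace Pool.Agent.Lib.MP_d4bba2_ag

inductive Surf (D : CurveData) : Type
  | gen (c : D.C) (ζ : ℂ) : Surf D
  | dd (k : D.K) (β : ℂ) : Surf D

variable (D : CurveData)

/-- `c` is none of the points `p k` -/
def CurveData.Free (c : D.C) : Prop := ∀ k, c ≠ D.p k

/-- `p` is injective and the point `p l` is not in the source of `z k` for `l ≠ k` -/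
theorem CurveData.p_inj : Function.Injective D.p := by
  intro k l h
  by_contra hne
  exact Set.disjoint_left.1 (D.disj k l hne) (D.p_mem k) (h ▸ D.p_mem l)

theorem CurveData.eq_of_mem {k l : D.K} (h : D.p l ∈ (D.z k).source) : l = k := by
  by_contra hne
  exact Set.disjoint_left.1 (D.disj l k hne) (D.p_mem l) h

theorem CurveData.free_of_mem {k : D.K} {c : D.C} (h : c ∈ (D.z k).source) (hc : c ≠ D.p k) :
    D.Free c := by
  intro l hl
  subst hl
  exact hc (congrArg D.p (D.eq_of_mem h))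

theorem CurveData.z_ne {k : D.K} {c : D.C} (h : c ∈ (D.z k).source) (hc : c ≠ D.p k) :
    D.z k c ≠ 0 := by
  intro h0
  apply hc
  apply (D.z k).injOn h (D.p_mem k)
  rw [h0, D.z_p]

theorem CurveData.symm_eq_p {k : D.K} {x : ℂ} (hx : x ∈ Metric.ball (0 : ℂ) (1 / 2)) :
    (D.z k).symm x = D.p k ↔ x = 0 := by
  have hx' : x ∈ (D.z k).target := by
    rw [D.z_target]
    exact hx
  constructor
  · intro h
    rw [← (D.z k).right_inv hx', h, D.z_p]
  · intro h
    rw [h, ← D.z_p k, (D.z k).left_inv (D.p_mem k)]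

/-- the set of free points is open -/
theorem CurveData.free_open : IsOpen {c : D.C | D.Free c} := by
  have h1 : {c : D.C | D.Free c} = (Set.range D.p)ᶜ := by
    ext c
    constructor
    · rintro h ⟨k, rfl⟩
      exact h k rfl
    · intro h k hk
      exact h ⟨k, hk.symm⟩
  rw [h1]
  exact (Set.finite_range D.p).isClosed.isOpen_compl

open Classical in
/-- the coordinate `ξ` near the curve `E_k` -/
def xi (k : D.K) (c : D.C) (ζ : ℂ) : ℂ := if c = D.p k then ζ else ζ * (D.z k c) ^ (D.m k)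

def chGfun (φ : OpenPartialHomeomorph D.C ℂ) : Surf D → ℂ × ℂ
  | .gen c ζ => (φ c, ζ)
  | .dd _ _ => (0, 0)

def chGsource (φ : OpenPartialHomeomorph D.C ℂ) : Surf D → Prop
  | .gen c _ => c ∈ φ.source ∧ D.Free c
  | .dd _ _ => False

def chG (φ : OpenPartialHomeomorph D.C ℂ) : PartialEquiv (Surf D) (ℂ × ℂ) where
  toFun := chGfun D φ
  invFun p := .gen (φ.symm p.1) p.2
  source := {x | chGsource D φ x}
  target := {p | p.1 ∈ φ.target ∧ D.Free (φ.symm p.1)}
  map_source' := by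
    intro x hx
    cases x with
    | gen c ζ =>
      obtain ⟨h1, h2⟩ : c ∈ φ.source ∧ D.Free c := hx
      refine ⟨φ.map_source h1, ?_⟩
      show D.Free (φ.symm (φ c))
      rw [φ.left_inv h1]
      exact h2
    | dd k β => exact hx.elim
  map_target' := by
    intro p hp
    exact ⟨φ.map_target hp.1, hp.2⟩
  left_inv' := by
    intro x hx
    cases x with
    | gen c ζ =>
      obtain ⟨h1, h2⟩ : c ∈ φ.source ∧ D.Free c := hx
      show Surf.gen (φ.symm (φ c)) ζ = Surf.gen c ζ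
      rw [φ.left_inv h1]
    | dd k β => exact hx.elim
  right_inv' := by
    intro p hp
    exact Prod.ext (φ.right_inv hp.1) rfl

def chAfun (k : D.K) : Surf D → ℂ × ℂ
  | .gen c ζ => (D.z k c, xi D k c ζ)
  | .dd _ _ => (0, 0)

def chAsource (k : D.K) : Surf D → Prop
  | .gen c _ => c ∈ (D.z k).source
  | .dd _ _ => False

open Classical in
def chAinv (k : D.K) (p : ℂ × ℂ) : Surf D :=
  .gen ((D.z k).symm p.1) (if p.1 = 0 then p.2 else p.2 * p.1 ^ (-D.m k))

theorem chA_tgt (k : D.K) {x : ℂ} (hx : x ∈ Metric.ball (0 : ℂ) (1 / 2)) :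
    x ∈ (D.z k).target := by
  rw [D.z_target]
  exact hx

theorem chA_left (k : D.K) (c : D.C) (ζ : ℂ) (hc : c ∈ (D.z k).source) :
    chAinv D k (chAfun D k (.gen c ζ)) = .gen c ζ := by
  show Surf.gen ((D.z k).symm (D.z k c)) (if D.z k c = 0 then xi D k c ζ else
    xi D k c ζ * (D.z k c) ^ (-D.m k)) = Surf.gen c ζ
  rw [(D.z k).left_inv hc]
  by_cases h : c = D.p k
  · have h1 : D.z k c = 0 := by
      rw [h, D.z_p]
    rw [if_pos h1]
    unfold xi
    rw [if_pos h]
  · have h1 : D.z k c ≠ 0 := D.z_ne hc h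
    rw [if_neg h1]
    unfold xi
    rw [if_neg h, mul_assoc, zpow_neg, mul_inv_cancel₀ (zpow_ne_zero _ h1), mul_one]

theorem chA_right (k : D.K) (p : ℂ × ℂ) (hp : p.1 ∈ Metric.ball (0 : ℂ) (1 / 2)) :
    chAfun D k (chAinv D k p) = p := by
  have ht := chA_tgt D k hp
  refine Prod.ext ?_ ?_
  · show D.z k ((D.z k).symm p.1) = p.1
    exact (D.z k).right_inv ht
  · show xi D k ((D.z k).symm p.1) (if p.1 = 0 then p.2 else p.2 * p.1 ^ (-D.m k)) = p.2
    unfold xi
    by_cases h : p.1 = 0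
    · rw [if_pos ((D.symm_eq_p hp).2 h), if_pos h]
    · rw [if_neg (fun h1 => h ((D.symm_eq_p hp).1 h1)), if_neg h, (D.z k).right_inv ht, mul_assoc,
        zpow_neg, inv_mul_cancel₀ (zpow_ne_zero _ h), mul_one]

def chA (k : D.K) : PartialEquiv (Surf D) (ℂ × ℂ) where
  toFun := chAfun D k
  invFun := chAinv D k
  source := {x | chAsource D k x}
  target := {p | p.1 ∈ Metric.ball (0 : ℂ) (1 / 2)}
  map_source' := by
    intro x hx
    cases x with
    | gen c ζ =>
      have h1 : c ∈ (D.z k).source := hx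
      have h2 := (D.z k).map_source h1
      rw [D.z_target] at h2
      exact h2
    | dd k' β => exact hx.elim
  map_target' := by
    intro p hp
    exact (D.z k).map_target (chA_tgt D k hp)
  left_inv' := by
    intro x hx
    cases x with
    | gen c ζ => exact chA_left D k c ζ hx
    | dd k' β => exact hx.elim
  right_inv' := by
    intro p hp
    exact chA_right D k p hp

def chBfun (k : D.K) : Surf D → ℂ × ℂ
  | .gen c ζ => (D.z k c * xi D k c ζ ^ 2, (xi D k c ζ)⁻¹)
  | .dd _ β => (β, 0)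

def chBsource (k : D.K) : Surf D → Prop
  | .gen c ζ => c ∈ (D.z k).source ∧ xi D k c ζ ≠ 0
  | .dd k' _ => k' = k

open Classical in
def chBinv (k : D.K) (p : ℂ × ℂ) : Surf D :=
  if p.2 = 0 then .dd k p.1 else chAinv D k (p.1 * p.2 ^ 2, p.2⁻¹)

theorem chB_right (k : D.K) (p : ℂ × ℂ) (hp : p.1 * p.2 ^ 2 ∈ Metric.ball (0 : ℂ) (1 / 2)) :
    chBfun D k (chBinv D k p) = p := by
  unfold chBinv
  by_cases h : p.2 = 0
  · rw [if_pos h]
    exact Prod.ext rfl h.symm
  · rw [if_neg h]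
    have h1 := chA_right D k (p.1 * p.2 ^ 2, p.2⁻¹) hp
    have h2 : D.z k ((D.z k).symm (p.1 * p.2 ^ 2)) = p.1 * p.2 ^ 2 := congrArg Prod.fst h1
    have h3 : xi D k ((D.z k).symm (p.1 * p.2 ^ 2)) (if p.1 * p.2 ^ 2 = 0 then p.2⁻¹ else
        p.2⁻¹ * (p.1 * p.2 ^ 2) ^ (-D.m k)) = p.2⁻¹ := congrArg Prod.snd h1
    refine Prod.ext ?_ ?_
    · show D.z k ((D.z k).symm (p.1 * p.2 ^ 2)) * xi D k ((D.z k).symm (p.1 * p.2 ^ 2))
        (if p.1 * p.2 ^ 2 = 0 then p.2⁻¹ else p.2⁻¹ * (p.1 * p.2 ^ 2) ^ (-D.m k)) ^ 2 = p.1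
      rw [h3, h2]
      field_simp
    · show (xi D k ((D.z k).symm (p.1 * p.2 ^ 2))
        (if p.1 * p.2 ^ 2 = 0 then p.2⁻¹ else p.2⁻¹ * (p.1 * p.2 ^ 2) ^ (-D.m k)))⁻¹ = p.2
      rw [h3, inv_inv]

def chB (k : D.K) : PartialEquiv (Surf D) (ℂ × ℂ) where
  toFun := chBfun D k
  invFun := chBinv D k
  source := {x | chBsource D k x}
  target := {p | p.1 * p.2 ^ 2 ∈ Metric.ball (0 : ℂ) (1 / 2)}
  map_source' := by
    intro x hx
    cases x with
    | gen c ζ =>
      obtain ⟨h1, h2⟩ : c ∈ (D.z k).source ∧ xi D k c ζ ≠ 0 := hx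
      have h3 := (D.z k).map_source h1
      rw [D.z_target] at h3
      show D.z k c * xi D k c ζ ^ 2 * ((xi D k c ζ)⁻¹) ^ 2 ∈ Metric.ball (0 : ℂ) (1 / 2)
      have h4 : D.z k c * xi D k c ζ ^ 2 * ((xi D k c ζ)⁻¹) ^ 2 = D.z k c := by
        field_simp
      rw [h4]
      exact h3
    | dd k' β =>
      show β * (0 : ℂ) ^ 2 ∈ Metric.ball (0 : ℂ) (1 / 2)
      rw [zero_pow two_ne_zero, mul_zero]
      exact Metric.mem_ball_self (by norm_num)
  map_target' := by
    intro p hp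
    show chBsource D k (chBinv D k p)
    unfold chBinv
    by_cases h : p.2 = 0
    · rw [if_pos h]
      exact rfl
    · rw [if_neg h]
      refine ⟨(D.z k).map_target (chA_tgt D k hp), ?_⟩
      have h1 := chA_right D k (p.1 * p.2 ^ 2, p.2⁻¹) hp
      have h3 : xi D k ((D.z k).symm (p.1 * p.2 ^ 2)) (if p.1 * p.2 ^ 2 = 0 then p.2⁻¹ else
          p.2⁻¹ * (p.1 * p.2 ^ 2) ^ (-D.m k)) = p.2⁻¹ := congrArg Prod.snd h1
      show xi D k ((D.z k).symm (p.1 * p.2 ^ 2)) (if p.1 * p.2 ^ 2 = 0 then p.2⁻¹ else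
          p.2⁻¹ * (p.1 * p.2 ^ 2) ^ (-D.m k)) ≠ 0
      rw [h3]
      exact inv_ne_zero h
  left_inv' := by
    intro x hx
    cases x with
    | gen c ζ =>
      obtain ⟨h1, h2⟩ : c ∈ (D.z k).source ∧ xi D k c ζ ≠ 0 := hx
      show chBinv D k (D.z k c * xi D k c ζ ^ 2, (xi D k c ζ)⁻¹) = .gen c ζ
      unfold chBinv
      rw [if_neg (inv_ne_zero h2)]
      have h4 : D.z k c * xi D k c ζ ^ 2 * ((xi D k c ζ)⁻¹) ^ 2 = D.z k c := by
        field_simp
      show chAinv D k (D.z k c * xi D k c ζ ^ 2 * ((xi D k c ζ)⁻¹) ^ 2, ((xi D k c ζ)⁻¹)⁻¹) =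
        .gen c ζ
      rw [h4, inv_inv]
      exact chA_left D k c ζ h1
    | dd k' β =>
      have h1 : k' = k := hx
      subst h1
      show chBinv D k' (β, 0) = .dd k' β
      unfold chBinv
      rw [if_pos rfl]
  right_inv' := by
    intro p hp
    exact chB_right D k p hp

/-- the function `f` -/
def sfFun : Surf D → ℂ
  | .gen c ζ => D.s c * ζ ^ 2
  | .dd k β => D.g k 0 * β

/-- index set of the charts -/
inductive SIdx : Type
  | G (φ : OpenPartialHomeomorph D.C ℂ) (h : φ ∈ IsManifold.maximalAtlas 𝓘(ℂ, ℂ) ω D.C) : SIdx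
  | A (k : D.K) : SIdx
  | B (k : D.K) : SIdx

def sChart : SIdx D → PartialEquiv (Surf D) (ℂ × ℂ)
  | .G φ _ => chG D φ
  | .A k => chA D k
  | .B k => chB D k

theorem CurveData.not_free {c : D.C} (h : ¬ D.Free c) : ∃ k, c = D.p k := by
  unfold CurveData.Free at h
  push Not at h
  exact h

open Classical in
/-- the reference chart -/
def sRef : Surf D → SIdx D
  | .gen c _ => if h : D.Free c then
      .G (chartAt ℂ c) (IsManifold.chart_mem_maximalAtlas c)
    else .A (D.not_free h).choose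
  | .dd k _ => .B k

end Pool.Agent.Lib.MP_d4bba2_ag
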