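import Pool.Agent.Lib.MP_d4bba2_ag.LocalF
import Pool.Agent.Lib.MP_d4bba2_ag.CritLocal

/-!
THE CHANGE OF ADAPTED COORDINATES T = Λ' ∘ M from the point q' = κ.symm (y,0) (coordinates M) to q (coordinates Λ).

For y near (κ q).1 (with (κ q).2 = 0): q' is near q and j q' near j q (j is continuous at q: ContMDiffOn on the open set
G.f ⁻¹' ball 0 ε), and Λ (y,0,0) = j q' (Adapted.base at p = (y,0)).  So, for such y:
 an: M is ContMDiffAt at (x',0,0) with value j q', and Λ' is ContMDiffAt at j q' (ContMDiffAt of degree ω holds at all nearby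
     points: ContMDiffAt.eventually), so T is analytic.
 pt: T (x',0,0) = Λ' (j q') = Λ' (Λ (y,0,0)) = (y,0,0) (left holds at all points near).
 t:  for z near (x',0,0): w = M z is near j q', Λ (Λ' w) = w, so (T z).2.2 = (Φ (Λ (T z))).2 = (Φ (M z)).2 = z.2.2
     (Λ' w is near (y,0,0), where Adapted.t for Λ holds).
 eq: locF Λ (T z) = βi (Φ (Λ (Λ' (M z)))).1 = βi (Φ (M z)).1 = locF M z.
 inj: injective_of_left_inverse with the left inverse M' ∘ Λ near (y,0,0): M' (Λ (T z)) = M' (M z) = z; M' ∘ Λ is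
     differentiable at (y,0,0) since Λ is ContMDiffAt there and M' at j q'.
-/

open scoped Manifold ContDiff Topology
open Filter

noncomputable section

universe u

namespace Pool.Agent.Lib.MP_d4bba2_ag

theorem trans_adapted {G : FibreGerm} {F : SplittingFamily.{u} G} {q : G.S} (hq : G.f q = 0)
    {κ : OpenPartialHomeomorph G.S (ℂ × ℂ)} (hqs : q ∈ κ.source) (hq2 : (κ q).2 = 0)
    {Λ : ℂ × ℂ × ℂ → F.X} {Λ' : F.X → ℂ × ℂ × ℂ} (hA : Adapted F q κ Λ Λ') (βi : ℂ → ℂ) :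
    ∀ᶠ y in 𝓝 (κ q).1, ∀ (κ' : OpenPartialHomeomorph G.S (ℂ × ℂ))
      (M : ℂ × ℂ × ℂ → F.X) (M' : F.X → ℂ × ℂ × ℂ),
      (κ' (κ.symm (y, 0))).2 = 0 → Adapted F (κ.symm (y, 0)) κ' M M' →
      Trans (locF F βi M) (κ' (κ.symm (y, 0))).1 (locF F βi Λ) y (fun z => Λ' (M z)) := by
  have hq0 : κ q = ((κ q).1, 0) := Prod.ext rfl hq2
  have hgt : Tendsto (fun y : ℂ => ((y, 0) : ℂ × ℂ)) (𝓝 (κ q).1) (𝓝 (κ q)) := by
    have hc : Continuous fun y : ℂ => ((y, 0) : ℂ × ℂ) := by fun_prop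
    exact hc.tendsto' _ _ hq0.symm
  have hcur : Tendsto (fun y : ℂ => ((y, 0, 0) : ℂ × ℂ × ℂ)) (𝓝 (κ q).1)
      (𝓝 ((κ q).1, (κ q).2, 0)) := by
    have hc : Continuous fun y : ℂ => ((y, 0, 0) : ℂ × ℂ × ℂ) := by fun_prop
    exact hc.tendsto' _ _ (by rw [hq2])
  have hsymm : Tendsto (fun y : ℂ => κ.symm (y, 0)) (𝓝 (κ q).1) (𝓝 q) := by
    have h1 : Tendsto κ.symm (𝓝 (κ q)) (𝓝 (κ.symm (κ q))) :=
      κ.continuousAt_symm (κ.map_source hqs)
    rw [κ.left_inv hqs] at h1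
    exact h1.comp hgt
  have hball : IsOpen (G.f ⁻¹' Metric.ball 0 F.ε) :=
    Metric.isOpen_ball.preimage G.holo.continuous
  have hqb : q ∈ G.f ⁻¹' Metric.ball 0 F.ε := by
    simp [hq, F.ε_pos]
  have hjc : ContinuousAt F.j q := F.j_holo.continuousOn.continuousAt (hball.mem_nhds hqb)
  have hj : Tendsto (fun y : ℂ => F.j (κ.symm (y, 0))) (𝓝 (κ q).1) (𝓝 (F.j q)) :=
    hjc.tendsto.comp hsymm
  have E1 : ∀ᶠ y : ℂ in 𝓝 (κ q).1, Λ (y, 0, 0) = F.j (κ.symm (y, 0)) := hgt.eventually hA.base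
  have E2 := hcur.eventually (eventually_eventually_nhds.2 hA.left)
  have E3 := hj.eventually (eventually_eventually_nhds.2 hA.right)
  have E4 := hcur.eventually (eventually_eventually_nhds.2 hA.t)
  have E5 := hcur.eventually ((contMDiffAt_iff_contMDiffAt_nhds (by simp)).1 hA.an)
  have E6 := hj.eventually ((contMDiffAt_iff_contMDiffAt_nhds (by simp)).1 hA.an')
  filter_upwards [E1, E2, E3, E4, E5, E6] with y e1 e2 e3 e4 e5 e6 κ' M M' h2 hM
  set q' : G.S := κ.symm (y, 0) with hq'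
  set x' : ℂ := (κ' q').1 with hx'
  have ha : ((κ' q').1, (κ' q').2, (0 : ℂ)) = (x', 0, 0) := by rw [h2]
  have hMan := hM.an
  have hMl := hM.left
  have hMt := hM.t
  have hMp := hM.pt
  rw [ha] at hMan hMl hMt hMp
  -- `M` is continuous
  have hMc : Tendsto M (𝓝 (x', 0, 0)) (𝓝 (F.j q')) := by
    have h1 := hMan.continuousAt.tendsto
    rwa [hMp] at h1
  have hTpt : Λ' (M (x', 0, 0)) = (y, 0, 0) := by
    rw [hMp, ← e1]
    exact e2.self_of_nhds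
  have hTm : ContMDiffAt 𝓘(ℂ, ℂ × ℂ × ℂ) 𝓘(ℂ, ℂ × ℂ × ℂ) ω (fun z => Λ' (M z)) (x', 0, 0) :=
    ContMDiffAt.comp_of_eq e6 hMan hMp
  have hTan : AnalyticAt ℂ (fun z => Λ' (M z)) (x', 0, 0) :=
    (contMDiffAt_iff_contDiffAt.1 hTm).analyticAt
  have hTc : Tendsto (fun z => Λ' (M z)) (𝓝 (x', 0, 0)) (𝓝 (y, 0, 0)) := by
    have h1 := hTan.continuousAt.tendsto
    rwa [hTpt] at h1
  have hright : ∀ᶠ z : ℂ × ℂ × ℂ in 𝓝 (x', 0, 0), Λ (Λ' (M z)) = M z := hMc.eventually e3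
  refine ⟨hTan, hTpt, ?_, ?_, ?_⟩
  · filter_upwards [hright, hTc.eventually e4, hMt] with z h1 h3 h4
    rw [← h3, h1, h4]
  · filter_upwards [hright] with z h1
    simp only [locF, h1]
  · have hD' : ContMDiffAt 𝓘(ℂ, ℂ × ℂ × ℂ) 𝓘(ℂ, ℂ × ℂ × ℂ) ω (fun z => M' (Λ z)) (y, 0, 0) :=
      ContMDiffAt.comp_of_eq hM.an' e5 e1
    have hDa : AnalyticAt ℂ (fun z => M' (Λ z)) (y, 0, 0) :=
      (contMDiffAt_iff_contDiffAt.1 hD').analyticAt
    refine injective_of_left_inverse (Ψi := fun z => M' (Λ z)) hTan.differentiableAt ?_ ?_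
    · simp only [hTpt]
      exact hDa.differentiableAt
    · filter_upwards [hright, hMl] with z h1 h3
      simp only [h1, h3]

end Pool.Agent.Lib.MP_d4bba2_ag
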